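import Mathlib
import Pool.Agent.Lib.H13E.S2Gen
import Pool.Agent.Lib.H16A.C1
import Pool.Agent.Lib.H16A.C2
import Pool.Agent.Lib.H35T.W9
import Pool.Agent.Lib.H55B.D1

open NumberField IsDedekindDomain Polynomial

namespace H35X

open H55B H35T H13E

/-! Chunk L2 (M): cubic Hensel in the completion (H16A.exists_root_lift for the maximal ideal of the ring of integers, which is
adically complete: H16A.isAdicComplete_integers; compare H19X.N3/L0 and the last theorem of H19X.N2). hensel3: monic cubic with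
integral coefficients, approximate simple root s0. cube_one: hensel3 with X^3 - x, s0 = 1 (derivative 3). cube_nine: x = 1 + 9 y, v(y) <= 1:
the monic polynomial U^3 - U^2 - 3 y U - 3 y^2 has the approximate root 1 (value -3y - 3y^2, derivative 3 - 2 - 3y = 1 - 3y); then x = (1 + 3 y/U)^3
because U^3 = U^2 + 3 y U + 3 y^2. -/

variable {K : Type} [Field K] [NumberField K] (w : HeightOneSpectrum (𝓞 K))

theorem l2_mem (z : w.adicCompletionIntegers K) :
    z ∈ IsLocalRing.maximalIdeal (w.adicCompletionIntegers K) ↔ Valued.v (z : w.adicCompletion K) < 1 := by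
  rw [H16A.C1_mem_maximalIdeal, H16A.C1_norm_lt_one_iff]

theorem hensel3 (p q r s0 : w.adicCompletion K) (hp : Valued.v p ≤ 1) (hq : Valued.v q ≤ 1)
    (hr : Valued.v r ≤ 1) (hs : Valued.v s0 ≤ 1)
    (h0 : Valued.v (s0 ^ 3 + p * s0 ^ 2 + q * s0 + r) < 1)
    (h1 : Valued.v (3 * s0 ^ 2 + 2 * p * s0 + q) = 1) :
    ∃ s : w.adicCompletion K, s ^ 3 + p * s ^ 2 + q * s + r = 0 ∧ Valued.v (s - s0) < 1 := by
  have hac : IsAdicComplete (IsLocalRing.maximalIdeal (w.adicCompletionIntegers K))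
      (w.adicCompletionIntegers K) := H16A.isAdicComplete_integers w
  obtain ⟨p', rfl⟩ : ∃ p' : w.adicCompletionIntegers K, (p' : w.adicCompletion K) = p := ⟨⟨p, hp⟩, rfl⟩
  obtain ⟨q', rfl⟩ : ∃ q' : w.adicCompletionIntegers K, (q' : w.adicCompletion K) = q := ⟨⟨q, hq⟩, rfl⟩
  obtain ⟨r', rfl⟩ : ∃ r' : w.adicCompletionIntegers K, (r' : w.adicCompletion K) = r := ⟨⟨r, hr⟩, rfl⟩
  obtain ⟨x, rfl⟩ : ∃ x : w.adicCompletionIntegers K, (x : w.adicCompletion K) = s0 := ⟨⟨s0, hs⟩, rfl⟩
  obtain ⟨g, hg⟩ : ∃ g : (w.adicCompletionIntegers K)[X],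
      g = X ^ 3 + (C p' * X ^ 2 + C q' * X + C r') := ⟨_, rfl⟩
  have hmon : g.Monic := by
    rw [hg]
    exact monic_X_pow_add degree_quadratic_lt
  have he : ∀ y : w.adicCompletionIntegers K, g.eval y = y ^ 3 + p' * y ^ 2 + q' * y + r' := by
    intro y
    rw [hg]
    simp only [eval_add, eval_mul, eval_pow, eval_X, eval_C]
    ring
  have hd : ∀ y : w.adicCompletionIntegers K, g.derivative.eval y = 3 * y ^ 2 + 2 * p' * y + q' := by
    intro y
    rw [hg]
    simp only [derivative_add, derivative_mul, derivative_X_pow, derivative_C, derivative_X, eval_add,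
      eval_mul, eval_pow, eval_X, eval_C, zero_mul, zero_add, mul_one, add_zero]
    norm_num
    ring
  have h2 : g.eval x ∈ IsLocalRing.maximalIdeal (w.adicCompletionIntegers K) := by
    rw [l2_mem, he]
    exact h0
  have h3 : IsUnit (g.derivative.eval x) := by
    rw [HeightOneSpectrum.adicCompletionIntegers.isUnit_iff_valued_eq_one, hd]
    exact h1
  obtain ⟨y, hy, hyx⟩ := H16A.exists_root_lift (IsLocalRing.maximalIdeal (w.adicCompletionIntegers K))
    g hmon x h2 h3
  refine ⟨y, ?_, ?_⟩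
  · rw [he] at hy
    exact congrArg (fun z : w.adicCompletionIntegers K => (z : w.adicCompletion K)) hy
  · rw [l2_mem] at hyx
    exact hyx

theorem cube_one (h3 : Valued.v (3 : w.adicCompletion K) = 1) (x : w.adicCompletion K)
    (hx : Valued.v (x - 1) < 1) : ∃ s : w.adicCompletion K, s ^ 3 = x ∧ Valued.v (s - 1) < 1 := by
  have hx1 : Valued.v x ≤ 1 := by
    have e : x = (x - 1) + 1 := by ring
    rw [e]
    refine (Valued.v.map_add _ _).trans (max_le hx.le ?_)
    rw [map_one]
  obtain ⟨s, hs, hs1⟩ := hensel3 w 0 0 (-x) 1 (by rw [map_zero]; exact zero_le) (by rw [map_zero]; exact zero_le)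
    (by rw [Valuation.map_neg]; exact hx1) (by rw [map_one]) (by
      have e : (1 : w.adicCompletion K) ^ 3 + 0 * 1 ^ 2 + 0 * 1 + -x = -(x - 1) := by ring
      rw [e, Valuation.map_neg]
      exact hx) (by
      have e : (3 : w.adicCompletion K) * 1 ^ 2 + 2 * 0 * 1 + 0 = 3 := by ring
      rw [e]
      exact h3)
  exact ⟨s, by linear_combination hs, hs1⟩

theorem cube_nine (h3 : Valued.v (3 : w.adicCompletion K) < 1) (x : w.adicCompletion K)
    (hx : Valued.v (x - 1) ≤ Valued.v (9 : w.adicCompletion K)) :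
    ∃ s : w.adicCompletion K, s ^ 3 = x := by
  have h9 : (9 : w.adicCompletion K) ≠ 0 := by
    have h1 : (algebraMap K (w.adicCompletion K)) 9 = 9 := map_ofNat _ 9
    rw [← h1]
    exact (_root_.map_ne_zero _).2 (by norm_num)
  obtain ⟨y, hy⟩ : ∃ y, y = (x - 1) / 9 := ⟨_, rfl⟩
  have hxy : x = 1 + 9 * y := by
    rw [hy]
    field_simp
    ring
  have hv9 : Valued.v (9 : w.adicCompletion K) ≠ 0 := (Valuation.ne_zero_iff _).2 h9
  have hvy : Valued.v y ≤ 1 := by
    rw [hy, map_div₀]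
    exact (div_le_one₀ (zero_lt_iff.2 hv9)).2 hx
  have h3y : Valued.v (3 * y) < 1 := by
    rw [map_mul]
    exact mul_lt_one_of_nonneg_of_lt_one_left zero_le h3 hvy
  have h3yy : Valued.v (3 * y ^ 2) < 1 := by
    have e : 3 * y ^ 2 = (3 * y) * y := by ring
    rw [e, map_mul]
    exact mul_lt_one_of_nonneg_of_lt_one_left zero_le h3y hvy
  have h13 : Valued.v (1 - 3 * y) = 1 := by
    have e : 1 - 3 * y = 1 + -(3 * y) := by ring
    rw [e, Valuation.map_add_eq_of_lt_left _ (by rw [Valuation.map_neg, map_one]; exact h3y), map_one]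
  obtain ⟨s, hs, hs1⟩ := hensel3 w (-1) (-(3 * y)) (-(3 * y ^ 2)) 1
    (by rw [Valuation.map_neg, map_one]) (by rw [Valuation.map_neg]; exact h3y.le)
    (by rw [Valuation.map_neg]; exact h3yy.le) (by rw [map_one]) (by
      have e : (1 : w.adicCompletion K) ^ 3 + -1 * 1 ^ 2 + -(3 * y) * 1 + -(3 * y ^ 2) =
        -(3 * y + 3 * y ^ 2) := by ring
      rw [e, Valuation.map_neg]
      exact (Valued.v.map_add _ _).trans_lt (max_lt h3y h3yy)) (by
      have e : (3 : w.adicCompletion K) * 1 ^ 2 + 2 * -1 * 1 + -(3 * y) = 1 - 3 * y := by ring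
      rw [e]
      exact h13)
  have hs0 : s ≠ 0 := by
    intro h
    rw [h, zero_sub, Valuation.map_neg, map_one] at hs1
    exact lt_irrefl _ hs1
  refine ⟨1 + 3 * y / s, ?_⟩
  rw [hxy]
  field_simp
  linear_combination (-9 * y) * hs

end H35X
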