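import Mathlib
import Pool.Agent.Lib.H13E.Defs
import Pool.Agent.Lib.H19X.Defs
import Pool.Agent.Lib.H35T.Stat

/-!
# H35X: the exact criterion at 3 for y^2 = x^3 - 1

Definitions. See PROOF.md.
-/

open NumberField IsDedekindDomain Polynomial

namespace H35X

open H55B H35T H13E

/-- K is contained in a Galois extension L of F of 3-power degree unramified above 6. -/
def Sub6T (K : Type) [Field K] [NumberField K] [Algebra F K] : Prop :=
  ∃ (L : Type) (_ : Field L) (_ : NumberField L) (_ : Algebra F L) (_ : Algebra K L)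
    (_ : IsScalarTower F K L), ThreeExt L ∧ H19X.UnrSix L

/-- The class of fields of the criterion (K need not contain F): K is contained in a Galois extension L of F
of 3-power degree unramified above 6. -/
def Cls6T (K : Type) [Field K] [NumberField K] : Prop :=
  ∃ (L : Type) (_ : Field L) (_ : NumberField L) (_ : Algebra F L) (_ : Algebra K L),
    ThreeExt L ∧ H19X.UnrSix L

/-- Every prime w of K, not above 6, which is ramified over the rationals has a norm congruent to 7
modulo 12. -/
def GoodRam3 (K : Type) [Field K] [NumberField K] : Prop :=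
  ∀ w : HeightOneSpectrum (𝓞 K), (6 : 𝓞 K) ∉ w.asIdeal → w.asIdeal.ramificationIdx ℤ ≠ 1 →
    Ideal.absNorm w.asIdeal % 12 = 7

/-- The Selmer groups of the two isogenies of degree 3 are trivial. -/
def SelZ3 (K : Type) [Field K] [NumberField K] : Prop :=
  (∀ m ∈ Sel K, ∃ b : Qd K, m = b ^ 3) ∧ (∀ m ∈ SelE K, ∃ b : Qe K, m = b ^ 3)

/-! ## Auxiliary definitions (not used in the statement of the theorem) -/

/-- N is the field K with a square root t of B, T is the conjugation. -/
structure QN (B : ℤ) (K N : Type) [Field K] [Field N] [Algebra K N] (t : N) (T : N ≃ₐ[K] N) :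
    Prop where
  sq : t ^ 2 = (B : N)
  Tt : T t = -t
  span : ∀ z : N, ∃ a b : K, z = algebraMap K N a + algebraMap K N b * t

/-- The norm is a cube, the valuations outside 6 are divisible by 3, and a congruence condition above 3: these
conditions imply that the element represents a class of the Selmer group. -/
structure Cnd3 (K N : Type) [Field K] [NumberField K] [Field N] [NumberField N] [Algebra K N]
    (T : N ≃ₐ[K] N) (m : N) : Prop where
  ne : m ≠ 0
  norm : ∃ n : K, m * T m = algebraMap K N n ^ 3
  val : ∀ P : HeightOneSpectrum (𝓞 N), (6 : 𝓞 N) ∉ P.asIdeal →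
    ∃ k : ℤ, P.valuation N m = WithZero.exp (3 * k)
  three : ∃ b : N, b ≠ 0 ∧ ∀ P : HeightOneSpectrum (𝓞 N), (3 : 𝓞 N) ∈ P.asIdeal →
    P.valuation N (m / b ^ 3 - 1) ≤ P.valuation N 3

/-- The quadratic algebra k[T]/(T^2 - B), with coordinates re, im. -/
abbrev QA (k : Type) [Field k] (B : k) : Type := QuadraticAlgebra k B 0

/-- Local images: m (y - T) is a cube for a point (x, y) of y^2 = x^3 + B with x nonzero. -/
def LI (k : Type) [Field k] (B : k) (m : QA k B) : Prop :=
  ∃ x y : k, y ^ 2 = x ^ 3 + B ∧ x ≠ 0 ∧ ∃ β : QA k B, m * (⟨y, -1⟩ : QA k B) = β ^ 3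

/-- The same for a + b T. -/
def LIp (k : Type) [Field k] (B a b : k) : Prop := LI k B ⟨a, b⟩

end H35X
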