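import Mathlib
import Pool.Agent.Lib.H35X.Defs

open NumberField IsDedekindDomain Polynomial

namespace H35X

open H55B H35T H13E

/-! Chunk G1 (M): the field N = K(t), t^2 = B. T is an involution, T t = - t <> t (t <> 0 as B <> 0), so t is not in K. exists_QN: AdjoinRoot (X^2 - C B), irreducible
(compare H19X.N1), T from AdjoinRoot.liftAlgHom root ↦ - root. QN.lift: AdjoinRoot (X^2 - C B) -> N is an isomorphism (injective: field since B is
not a square in K: x^2 = B = t^2 gives t = x or -x in K; surjective by span); compose its inverse with AdjoinRoot.lift f t'. qaMap, qaN: ring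
homomorphisms in coordinates. -/

section

variable {B : ℤ} {K N : Type} [Field K] [Field N] [Algebra K N] {t : N} {T : N ≃ₐ[K] N}

theorem QN.T_mk (h : QN B K N t T) (a b : K) :
    T (algebraMap K N a + algebraMap K N b * t) = algebraMap K N a - algebraMap K N b * t := by
  rw [map_add, map_mul, T.commutes, T.commutes, h.Tt]
  ring

theorem QN.T_T (h : QN B K N t T) (z : N) : T (T z) = z := by
  obtain ⟨a, b, rfl⟩ := h.span z
  rw [h.T_mk, map_sub, map_mul, T.commutes, T.commutes, h.Tt]
  ring

theorem QN.norm_mk (h : QN B K N t T) (a b : K) :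
    (algebraMap K N a + algebraMap K N b * t) * T (algebraMap K N a + algebraMap K N b * t) =
      algebraMap K N (a ^ 2 - B * b ^ 2) := by
  rw [h.T_mk, map_sub, map_pow, map_mul, map_pow, map_intCast]
  linear_combination (-(algebraMap K N b) ^ 2) * h.sq

theorem QN.t_ne [CharZero N] (h : QN B K N t T) (hB : B ≠ 0) : t ≠ 0 := by
  intro h0
  have h1 := h.sq
  rw [h0, zero_pow two_ne_zero] at h1
  exact hB (by exact_mod_cast h1.symm)

theorem QN.indep [CharZero N] (h : QN B K N t T) (hB : B ≠ 0) (a b : K)
    (hab : algebraMap K N a + algebraMap K N b * t = 0) : a = 0 ∧ b = 0 := by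
  have h1 := h.T_mk a b
  rw [hab, map_zero] at h1
  have hinj : Function.Injective (algebraMap K N) := (algebraMap K N).injective
  have h2 : 2 * algebraMap K N a = 0 := by linear_combination hab - h1
  have h3 : 2 * (algebraMap K N b * t) = 0 := by linear_combination hab + h1
  have h4 : (2 : N) ≠ 0 := two_ne_zero
  have h5 := (mul_eq_zero.1 h2).resolve_left h4
  have h6 := (mul_eq_zero.1 ((mul_eq_zero.1 h3).resolve_left h4)).resolve_right (h.t_ne hB)
  exact ⟨hinj (by rw [h5, map_zero]), hinj (by rw [h6, map_zero])⟩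

theorem QN.uniq [CharZero N] (h : QN B K N t T) (hB : B ≠ 0) {a b a' b' : K}
    (hab : algebraMap K N a + algebraMap K N b * t = algebraMap K N a' + algebraMap K N b' * t) :
    a = a' ∧ b = b' := by
  have h1 := h.indep hB (a - a') (b - b') (by
    rw [map_sub, map_sub]
    linear_combination hab)
  exact ⟨sub_eq_zero.1 h1.1, sub_eq_zero.1 h1.2⟩

theorem QN.fixed [CharZero N] (h : QN B K N t T) (hB : B ≠ 0) (z : N) (hz : T z = z) :
    ∃ x : K, algebraMap K N x = z := by
  obtain ⟨a, b, rfl⟩ := h.span z
  rw [h.T_mk] at hz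
  have h1 : algebraMap K N a + algebraMap K N (-b) * t = algebraMap K N a + algebraMap K N b * t := by
    rw [map_neg]
    linear_combination hz
  have h2 := (h.uniq hB h1).2
  have h3 : algebraMap K N b = 0 := by
    have h4 : algebraMap K N (-b) = algebraMap K N b := by rw [h2]
    rw [map_neg] at h4
    have h5 : 2 * algebraMap K N b = 0 := by linear_combination -h4
    exact (mul_eq_zero.1 h5).resolve_left two_ne_zero
  exact ⟨a, by rw [h3]; ring⟩

theorem QN.rank [CharZero N] (h : QN B K N t T) (hB : B ≠ 0) : Module.finrank K N = 2 := by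
  let b : Module.Basis (Fin 2) K N := Module.Basis.mk (v := ![1, t]) (by
    rw [LinearIndependent.pair_iff]
    intro x y hxy
    apply h.indep hB
    rw [Algebra.smul_def, Algebra.smul_def, mul_one] at hxy
    exact hxy) (by
    rintro z -
    obtain ⟨x, y, rfl⟩ := h.span z
    rw [Matrix.range_cons, Matrix.range_cons, Matrix.range_empty, Set.union_empty, Set.singleton_union]
    rw [Submodule.mem_span_insert]
    refine ⟨x, y • t, Submodule.smul_mem _ _ (Submodule.mem_span_singleton_self t), ?_⟩
    rw [Algebra.smul_def, Algebra.smul_def, mul_one])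
  rw [Module.finrank_eq_card_basis b, Fintype.card_fin]

/-- The extension of a homomorphism. -/
theorem QN.lift [CharZero N] (h : QN B K N t T) (hB : B ≠ 0) {N' : Type} [Field N'] (f : K →+* N') (t' : N')
    (ht' : t' ^ 2 = (B : N')) : ∃ j : N →+* N', (∀ x : K, j (algebraMap K N x) = f x) ∧ j t = t' := by
  choose re im hri using h.span
  have hu : ∀ (z : N) (a b : K), z = algebraMap K N a + algebraMap K N b * t → re z = a ∧ im z = b :=
    fun z a b hz => h.uniq hB ((hri z).symm.trans hz)
  let j : N →+* N' :=
    { toFun := fun z => f (re z) + f (im z) * t'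
      map_one' := by
        obtain ⟨h1, h2⟩ := hu 1 1 0 (by rw [map_one, map_zero]; ring)
        rw [h1, h2, map_one, map_zero]
        ring
      map_mul' := by
        intro x y
        obtain ⟨h1, h2⟩ := hu (x * y) (re x * re y + B * (im x * im y)) (re x * im y + im x * re y) (by
          conv_lhs => rw [hri x, hri y]
          rw [map_add, map_add, map_mul, map_mul, map_mul, map_mul, map_mul, map_intCast]
          linear_combination (algebraMap K N (im x) * algebraMap K N (im y)) * h.sq)
        rw [h1, h2, map_add, map_add, map_mul, map_mul, map_mul, map_mul, map_mul, map_intCast]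
        linear_combination (-(f (im x) * f (im y))) * ht'
      map_zero' := by
        obtain ⟨h1, h2⟩ := hu 0 0 0 (by rw [map_zero]; ring)
        rw [h1, h2, map_zero]
        ring
      map_add' := by
        intro x y
        obtain ⟨h1, h2⟩ := hu (x + y) (re x + re y) (im x + im y) (by
          conv_lhs => rw [hri x, hri y]
          rw [map_add, map_add]
          ring)
        rw [h1, h2, map_add, map_add]
        ring }
  refine ⟨j, ?_, ?_⟩
  · intro x
    obtain ⟨h1, h2⟩ := hu (algebraMap K N x) x 0 (by rw [map_zero]; ring)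
    change f (re (algebraMap K N x)) + f (im (algebraMap K N x)) * t' = f x
    rw [h1, h2, map_zero]
    ring
  · obtain ⟨h1, h2⟩ := hu t 0 1 (by rw [map_zero, map_one]; ring)
    change f (re t) + f (im t) * t' = t'
    rw [h1, h2, map_zero, map_one]
    ring

end

theorem exists_QN (B : ℤ) (K : Type) [Field K] [NumberField K] (hno : ¬ ∃ x : K, x ^ 2 = (B : K)) :
    ∃ (N : Type) (_ : Field N) (_ : NumberField N) (_ : Algebra K N) (t : N) (T : N ≃ₐ[K] N),
      QN B K N t T := by
  let p : Polynomial K := X ^ 2 - C (B : K)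
  have hirr : Fact (Irreducible p) :=
    ⟨X_pow_sub_C_irreducible_of_prime Nat.prime_two (fun b hb => hno ⟨b, hb⟩)⟩
  have hfin : Module.Finite K (AdjoinRoot p) :=
    (AdjoinRoot.powerBasis' (monic_X_pow_sub_C (B : K) two_ne_zero)).finite
  have hNF : NumberField (AdjoinRoot p) := NumberField.of_module_finite K (AdjoinRoot p)
  have hroot : (AdjoinRoot.root p) ^ 2 = (B : AdjoinRoot p) := by
    have h1 : eval₂ (AdjoinRoot.of p) (AdjoinRoot.root p) (X ^ 2 - C (B : K)) = 0 :=
      AdjoinRoot.eval₂_root p
    rw [eval₂_sub, eval₂_pow, eval₂_X, eval₂_C, map_intCast (AdjoinRoot.of p)] at h1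
    exact sub_eq_zero.1 h1
  let T0 : AdjoinRoot p →ₐ[K] AdjoinRoot p := AdjoinRoot.liftAlgHom p (Algebra.ofId K (AdjoinRoot p))
    (-AdjoinRoot.root p) (by
      change eval₂ _ (-AdjoinRoot.root p) (X ^ 2 - C (B : K)) = 0
      rw [eval₂_sub, eval₂_pow, eval₂_X, eval₂_C, neg_sq, hroot]
      simp)
  have hT0 : T0 (AdjoinRoot.root p) = -AdjoinRoot.root p := AdjoinRoot.liftAlgHom_root ..
  have hTT : T0.comp T0 = AlgHom.id K (AdjoinRoot p) := by
    apply AdjoinRoot.algHom_ext
    rw [AlgHom.comp_apply, hT0, map_neg, hT0, neg_neg, AlgHom.id_apply]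
  refine ⟨AdjoinRoot p, inferInstance, hNF, inferInstance, AdjoinRoot.root p,
    AlgEquiv.ofAlgHom T0 T0 hTT hTT, ⟨hroot, hT0, ?_⟩⟩
  intro z
  induction z using AdjoinRoot.induction_on with
  | ih q =>
    induction q using Polynomial.induction_on with
    | C a => exact ⟨a, 0, by rw [map_zero, zero_mul, add_zero]; rfl⟩
    | add q r hq hr =>
      obtain ⟨a, b, h1⟩ := hq
      obtain ⟨c, d, h2⟩ := hr
      refine ⟨a + c, b + d, ?_⟩
      rw [map_add, h1, h2, map_add, map_add]
      ring
    | monomial n a hq =>
      obtain ⟨c, d, h1⟩ := hq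
      refine ⟨B * d, c, ?_⟩
      rw [pow_succ, ← mul_assoc, map_mul, h1, AdjoinRoot.mk_X, map_mul, map_intCast]
      linear_combination (algebraMap K (AdjoinRoot p) d) * hroot

section

variable {k k' : Type} [Field k] [Field k']

/-- Functoriality of QA. -/
noncomputable def qaMap (B : ℤ) (f : k →+* k') : QA k (B : k) →+* QA k' (B : k') where
  toFun z := ⟨f z.re, f z.im⟩
  map_one' := QuadraticAlgebra.ext (map_one f) (map_zero f)
  map_mul' x y := by
    ext <;> simp
  map_zero' := QuadraticAlgebra.ext (map_zero f) (map_zero f)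
  map_add' x y := by
    ext <;> simp

theorem qaMap_mk (B : ℤ) (f : k →+* k') (a b : k) : qaMap B f ⟨a, b⟩ = ⟨f a, f b⟩ := rfl

end

/-- The embedding of QA K B in N. -/
noncomputable def qaN {B : ℤ} {K N : Type} [Field K] [Field N] [Algebra K N] {t : N} {T : N ≃ₐ[K] N}
    (h : QN B K N t T) : QA K (B : K) →+* N where
  toFun z := algebraMap K N z.re + algebraMap K N z.im * t
  map_one' := by
    change algebraMap K N 1 + algebraMap K N 0 * t = 1
    rw [map_one, map_zero, zero_mul, add_zero]
  map_mul' x y := by
    rw [QuadraticAlgebra.re_mul, QuadraticAlgebra.im_mul]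
    simp only [map_add, map_mul, map_intCast, map_zero]
    linear_combination (-(algebraMap K N x.im * algebraMap K N y.im)) * h.sq
  map_zero' := by
    change algebraMap K N 0 + algebraMap K N 0 * t = 0
    rw [map_zero, zero_mul, add_zero]
  map_add' x y := by
    rw [QuadraticAlgebra.re_add, QuadraticAlgebra.im_add, map_add, map_add]
    ring

theorem qaN_mk {B : ℤ} {K N : Type} [Field K] [Field N] [Algebra K N] {t : N} {T : N ≃ₐ[K] N}
    (h : QN B K N t T) (a b : K) : qaN h ⟨a, b⟩ = algebraMap K N a + algebraMap K N b * t := rfl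

theorem qaN_inj {B : ℤ} {K N : Type} [Field K] [Field N] [CharZero N] [Algebra K N] {t : N} {T : N ≃ₐ[K] N}
    (h : QN B K N t T) (hB : B ≠ 0) : Function.Injective (qaN h) := by
  intro x y hxy
  obtain ⟨h1, h2⟩ := h.uniq hB hxy
  exact QuadraticAlgebra.ext h1 h2

end H35X
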