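import Mathlib
import Pool.Agent.Lib.H35X.G1
import Pool.Agent.Lib.H19X.EX7
import Pool.Agent.Lib.H55E.X2

open NumberField IsDedekindDomain Polynomial

namespace H35X

open H55B H35T H13E

/-! Chunk G2 (M): valuations in N/K. coord_le: z = a + b t. Take P above w (H19X.EX7_above), P' with P.valuation (T x) = P'.valuation x for all x
(H55C.val_auto), P' is above w too (H19X.EX7_under), so P.valuation (T z) = P'.valuation z <= P'.valuation c = P.valuation (T c) = P.valuation c. 2 a = z + T z, 2 b t =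
z - T z, (2 b t)^2 = 4 B b^2, P.valuation 2 = 1. P.valuation (algebraMap x) = w.valuation x ^ e, e <> 0 (H55C.A4_glob or valuation_liesOver; w is
P.under). QN.unr: B = -1: if g <> 1 is in the inertia group of P in Gal(N/K) = {1, T}, then T t - t = - 2 t is in P (t as an algebraic
integer, t^2 = -1 a unit), so 2 is in P; e = 1 by H55E.X2_card (compare H19X.T4_one; N/K is Galois: quadratic extension, QN.rank). -/

variable {B : ℤ} {K N : Type} [Field K] [NumberField K] [Field N] [NumberField N] [Algebra K N]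
  {t : N} {T : N ≃ₐ[K] N}

theorem QN.coord_le (h : QN B K N t T) (hB : B ≠ 0) (w : HeightOneSpectrum (𝓞 K))
    (h2 : (2 : 𝓞 K) ∉ w.asIdeal) (a b c : K)
    (hz : ∀ P : HeightOneSpectrum (𝓞 N), w.asIdeal = P.asIdeal.under (𝓞 K) →
      P.valuation N (algebraMap K N a + algebraMap K N b * t) ≤ P.valuation N (algebraMap K N c)) :
    w.valuation K a ≤ w.valuation K c ∧ w.valuation K (B * b ^ 2) ≤ w.valuation K (c ^ 2) := by
  obtain ⟨P, hP⟩ := H19X.EX7_above (N := N) w
  obtain ⟨P', hP', -⟩ := H55C.val_auto (T : N ≃+* N) P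
  have hP'1 : ∀ z : N, P.valuation N (T z) = P'.valuation N z := hP'
  have hu := H19X.EX7_under T P P' hP'1
  obtain ⟨w', e, hw', he, hval⟩ := H55C.A4_glob (K := K) (N := N) P
  have hww : w' = w := HeightOneSpectrum.ext (hw'.trans hP.symm)
  subst hww
  have h2P : (2 : 𝓞 N) ∉ P.asIdeal := by
    intro h3
    apply h2
    rw [hP, Ideal.mem_under, map_ofNat]
    exact h3
  have hv2 : P.valuation N (2 : N) = 1 := by
    have h3 : algebraMap (𝓞 N) N 2 = 2 := map_ofNat (algebraMap (𝓞 N) N) 2
    rw [← h3]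
    exact le_antisymm (P.valuation_le_one _) (not_lt.1 fun h4 =>
      h2P ((P.valuation_lt_one_iff_mem (2 : 𝓞 N)).1 h4))
  have hz1 := hz P hP
  have hz2 := hz P' (hP.trans hu.symm)
  rw [← hP'1, ← hP'1, T.commutes, h.T_mk] at hz2
  have hle : ∀ x y : K, P.valuation N (algebraMap K N x) ≤ P.valuation N (algebraMap K N y) →
      w'.valuation K x ≤ w'.valuation K y := by
    intro x y hxy
    rw [hval, hval] at hxy
    exact le_of_pow_le_pow_left₀ he zero_le hxy
  constructor
  · apply hle
    have e1 : (2 : N) * algebraMap K N a = (algebraMap K N a + algebraMap K N b * t) +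
        (algebraMap K N a - algebraMap K N b * t) := by ring
    have h3 := congrArg (P.valuation N) e1
    rw [map_mul, hv2, one_mul] at h3
    rw [h3]
    exact (Valuation.map_add _ _ _).trans (max_le hz1 hz2)
  · apply hle
    have e1 : (2 : N) * (algebraMap K N b * t) = (algebraMap K N a + algebraMap K N b * t) -
        (algebraMap K N a - algebraMap K N b * t) := by ring
    have h3 := congrArg (P.valuation N) e1
    rw [map_mul, hv2, one_mul] at h3
    have h4 : P.valuation N (algebraMap K N b * t) ≤ P.valuation N (algebraMap K N c) := by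
      rw [h3]
      exact (Valuation.map_sub _ _ _).trans (max_le hz1 hz2)
    have e2 : algebraMap K N (B * b ^ 2) = (algebraMap K N b * t) ^ 2 := by
      rw [map_mul, map_pow, map_intCast]
      linear_combination (-(algebraMap K N b) ^ 2) * h.sq
    rw [e2, map_pow, map_pow, map_pow]
    exact pow_le_pow_left₀ zero_le h4 2

theorem QN.galois (h : QN B K N t T) (hB : B ≠ 0) : IsGalois K N := by
  have hq : Algebra.IsQuadraticExtension K N := ⟨h.rank hB⟩
  exact inferInstance

theorem QN.aut (h : QN B K N t T) (hB : B ≠ 0) (g : N ≃ₐ[K] N) : g = 1 ∨ g = T := by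
  have h1 : (g t) ^ 2 = t ^ 2 := by rw [← map_pow, h.sq, map_intCast]
  rcases sq_eq_sq_iff_eq_or_eq_neg.1 h1 with h2 | h2
  · left
    ext z
    obtain ⟨a, b, rfl⟩ := h.span z
    rw [map_add, map_mul, g.commutes, g.commutes, h2]
    rfl
  · right
    ext z
    obtain ⟨a, b, rfl⟩ := h.span z
    rw [map_add, map_mul, g.commutes, g.commutes, h2, h.T_mk]
    ring

theorem QN.unr (h : QN (-1) K N t T) (P : HeightOneSpectrum (𝓞 N)) (h2 : (2 : 𝓞 N) ∉ P.asIdeal) :
    P.asIdeal.ramificationIdx (𝓞 K) = 1 := by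
  have hB : (-1 : ℤ) ≠ 0 := by norm_num
  have hG := h.galois hB
  have hsq : t ^ 2 = -1 := by
    rw [h.sq]
    norm_num
  rw [← H55E.X2_card (K₀ := K) P, Subgroup.card_eq_one, Subgroup.eq_bot_iff_forall]
  intro g hg
  rcases h.aut hB g with h1 | h1
  · exact h1
  · exfalso
    rw [h1] at hg
    have hg' : ∀ y : 𝓞 N, T • y - y ∈ P.asIdeal := hg
    have hint : IsIntegral ℤ t := ⟨X ^ 2 + 1, by monicity!, by simp [hsq]⟩
    let y : 𝓞 N := ⟨t, hint⟩
    apply h2
    have h3 := P.asIdeal.mul_mem_right y (hg' y)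
    have h4 : (T • y - y) * y = 2 := by
      apply RingOfIntegers.coe_injective
      change (T t - t) * t = algebraMap (𝓞 N) N 2
      rw [h.Tt, map_ofNat]
      linear_combination -2 * hsq
    rwa [h4] at h3

theorem QN.val_eq (h : QN (-1) K N t T) (P : HeightOneSpectrum (𝓞 N)) (h2 : (2 : 𝓞 N) ∉ P.asIdeal)
    (w : HeightOneSpectrum (𝓞 K)) (hw : w.asIdeal = P.asIdeal.under (𝓞 K)) (x : K) :
    P.valuation N (algebraMap K N x) = w.valuation K x := by
  have hl : P.asIdeal.LiesOver w.asIdeal := ⟨hw⟩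
  have h1 : w.asIdeal.ramificationIdx' P.asIdeal = 1 := by
    rw [Ideal.ramificationIdx'_eq_ramificationIdx w.asIdeal P.asIdeal w.ne_bot]
    exact h.unr P h2
  have h3 := HeightOneSpectrum.valuation_liesOver N w P x
  rw [h1, pow_one] at h3
  exact h3.symm

end H35X
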