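import Mathlib
import Pool.Agent.Lib.H35X.Defs

open NumberField IsDedekindDomain Polynomial

namespace H35X

open H55B H35T H13E

/-! Chunk L1 (S): algebra of cubes in QA k B (QuadraticAlgebra k B 0 is a commutative ring; QuadraticAlgebra.norm, isUnit_iff_norm_isUnit;
norm of (a, b) = a a + 0 - B b b, simp lemmas re_mul, im_mul, ext). li_mul: multiply β's. li_of_cube: x = -c, y = 0, (0, -1) = - T = (-T/c)^3
because T^3 = B T and c^3 = B. cube_of_sq: m^2 = β^3, m is a unit (norm n^3 nonzero), m = m^3/m^2 = (m β^(-1))^3 (β is a unit because β^3 =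
m^2 is). locIm_of_li, locImE_of_li: the ring homomorphism QA k (-1) -> AdjoinRoot (X^2 + C 1), z ↦ of z.re + of z.im * root
(QuadraticAlgebra.lift, or by hand: show that the map is multiplicative, root^2 = -1 resp. 27). -/

variable {k : Type} [Field k]

theorem L1_cube (B p q : k) : (⟨p, q⟩ : QA k B) ^ 3 =
    ⟨p ^ 3 + 3 * B * p * q ^ 2, 3 * p ^ 2 * q + B * q ^ 3⟩ := by
  rw [pow_succ, pow_two]
  ext
  · simp only [QuadraticAlgebra.re_mul, QuadraticAlgebra.im_mul]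
    ring
  · simp only [QuadraticAlgebra.re_mul, QuadraticAlgebra.im_mul]
    ring

theorem li_mul {B : k} {m m' : QA k B} (h : LI k B m) (h' : ∃ β : QA k B, m' = β ^ 3) :
    LI k B (m * m') := by
  obtain ⟨x, y, hxy, hx, β, hβ⟩ := h
  obtain ⟨γ, rfl⟩ := h'
  refine ⟨x, y, hxy, hx, β * γ, ?_⟩
  rw [mul_pow, ← hβ]
  ring

theorem li_of_cube {B c : k} (hc : c ^ 3 = B) (hB : B ≠ 0) {m : QA k B}
    (h : ∃ β : QA k B, m = β ^ 3) : LI k B m := by
  have hc0 : c ≠ 0 := by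
    rintro rfl
    apply hB
    rw [← hc]
    ring
  obtain ⟨β, rfl⟩ := h
  refine ⟨-c, 0, by rw [← hc]; ring, neg_ne_zero.2 hc0, β * ⟨0, -c⁻¹⟩, ?_⟩
  rw [mul_pow, L1_cube B 0 (-c⁻¹)]
  congr 1
  ext
  · simp
  · simp only
    rw [← hc]
    field_simp
    ring

/-- minus the root T is a cube -/
theorem negT_cube {B c : k} (hc : c ^ 3 = B) (hB : B ≠ 0) : ∃ β : QA k B, (⟨0, -1⟩ : QA k B) = β ^ 3 := by
  have hc0 : c ≠ 0 := by
    rintro rfl
    apply hB
    rw [← hc]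
    ring
  refine ⟨⟨0, -c⁻¹⟩, ?_⟩
  rw [L1_cube]
  ext
  · simp
  · simp only
    rw [← hc]
    field_simp
    ring

theorem cube_of_sq {B : k} {m : QA k B} (n : k) (hn : m.norm = n ^ 3) (hn0 : n ≠ 0)
    (h : ∃ β : QA k B, m ^ 2 = β ^ 3) : ∃ β : QA k B, m = β ^ 3 := by
  have hm : IsUnit m := by
    rw [QuadraticAlgebra.isUnit_iff_norm_isUnit, hn]
    exact (isUnit_iff_ne_zero.2 hn0).pow 3
  obtain ⟨β, hβ⟩ := h
  have hb : IsUnit β := by
    have h1 : IsUnit (β ^ 3) := by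
      rw [← hβ]
      exact hm.pow 2
    exact (isUnit_pow_iff (by norm_num)).1 h1
  obtain ⟨u, rfl⟩ := hb
  refine ⟨m * ((u⁻¹ : (QA k B)ˣ) : QA k B), ?_⟩
  have h2 : (u : QA k B) * ((u⁻¹ : (QA k B)ˣ) : QA k B) = 1 := u.mul_inv
  have h3 : ((u⁻¹ : (QA k B)ˣ) : QA k B) ^ 3 * m ^ 2 = 1 := by
    rw [hβ, ← mul_pow, mul_comm, h2, one_pow]
  calc m = m * (((u⁻¹ : (QA k B)ˣ) : QA k B) ^ 3 * m ^ 2) := by rw [h3, mul_one]
    _ = (m * ((u⁻¹ : (QA k B)ˣ) : QA k B)) ^ 3 := by ring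

/-- m^2 = norm m * (m / conj m): if m = μ * conj m with μ a cube then m is a cube -/
theorem cube_of_ratio {B : k} {m : QA k B} (n : k) (hn : m.norm = n ^ 3) (hn0 : n ≠ 0)
    (h : ∃ β : QA k B, m = β ^ 3 * star m) : ∃ β : QA k B, m = β ^ 3 := by
  obtain ⟨β, hβ⟩ := h
  refine cube_of_sq n hn hn0 ⟨β * algebraMap k (QA k B) n, ?_⟩
  have h1 : m * star m = algebraMap k (QA k B) n ^ 3 := by
    rw [← QuadraticAlgebra.algebraMap_norm_eq_mul_star, hn, map_pow]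
  calc m ^ 2 = m * m := pow_two m
    _ = m * (β ^ 3 * star m) := by rw [← hβ]
    _ = β ^ 3 * (m * star m) := by ring
    _ = (β * algebraMap k (QA k B) n) ^ 3 := by rw [h1]; ring

/-- the ring homomorphism from the quadratic algebra to a ring with a square root of B -/
def L1_hom {A : Type} [CommRing A] (B : k) (f : k →+* A) (r : A) (hr : r * r = f B) : QA k B →+* A where
  toFun z := f z.re + f z.im * r
  map_one' := by
    change f 1 + f 0 * r = 1
    rw [map_one, map_zero, zero_mul, add_zero]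
  map_zero' := by
    change f 0 + f 0 * r = 0
    rw [map_zero, zero_mul, add_zero]
  map_add' z w := by
    rw [QuadraticAlgebra.re_add, QuadraticAlgebra.im_add, map_add, map_add]
    ring
  map_mul' z w := by
    rw [QuadraticAlgebra.re_mul, QuadraticAlgebra.im_mul]
    simp only [map_add, map_mul, zero_mul, add_zero]
    linear_combination -(f z.im * f w.im) * hr

theorem locIm_of_li {a b : k} (h : LIp k (-1) a b) :
    LocIm k (AdjoinRoot.of _ a + AdjoinRoot.of _ b * AdjoinRoot.root _) := by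
  obtain ⟨x, y, hxy, hx, β, hβ⟩ := h
  have hr : (AdjoinRoot.root (X ^ 2 + C 1 : k[X])) * AdjoinRoot.root (X ^ 2 + C 1 : k[X]) =
      AdjoinRoot.of (X ^ 2 + C 1 : k[X]) (-1) := by
    have h1 := AdjoinRoot.eval₂_root (X ^ 2 + C 1 : k[X])
    rw [eval₂_add, eval₂_pow, eval₂_X, eval₂_C] at h1
    rw [map_neg]
    linear_combination h1
  refine ⟨x, y, by rw [hxy]; ring, hx, L1_hom (-1) (AdjoinRoot.of _) (AdjoinRoot.root _) hr β, ?_⟩
  rw [← map_pow, ← hβ, map_mul]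
  change _ = (AdjoinRoot.of (X ^ 2 + C 1 : k[X]) a +
      AdjoinRoot.of (X ^ 2 + C 1 : k[X]) b * AdjoinRoot.root (X ^ 2 + C 1 : k[X])) *
      (AdjoinRoot.of (X ^ 2 + C 1 : k[X]) y +
      AdjoinRoot.of (X ^ 2 + C 1 : k[X]) (-1) * AdjoinRoot.root (X ^ 2 + C 1 : k[X]))
  rw [map_neg, map_one (AdjoinRoot.of (X ^ 2 + C 1 : k[X]))]
  ring

theorem locImE_of_li {a b : k} (h : LIp k 27 a b) :
    LocImE k (AdjoinRoot.of _ a + AdjoinRoot.of _ b * AdjoinRoot.root _) := by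
  obtain ⟨x, y, hxy, hx, β, hβ⟩ := h
  have hr : (AdjoinRoot.root (X ^ 2 - C 27 : k[X])) * AdjoinRoot.root (X ^ 2 - C 27 : k[X]) =
      AdjoinRoot.of (X ^ 2 - C 27 : k[X]) 27 := by
    have h1 := AdjoinRoot.eval₂_root (X ^ 2 - C 27 : k[X])
    rw [eval₂_sub, eval₂_pow, eval₂_X, eval₂_C] at h1
    linear_combination h1
  refine ⟨x, y, hxy, hx, L1_hom 27 (AdjoinRoot.of _) (AdjoinRoot.root _) hr β, ?_⟩
  rw [← map_pow, ← hβ, map_mul]
  change _ = (AdjoinRoot.of (X ^ 2 - C 27 : k[X]) a +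
      AdjoinRoot.of (X ^ 2 - C 27 : k[X]) b * AdjoinRoot.root (X ^ 2 - C 27 : k[X])) *
      (AdjoinRoot.of (X ^ 2 - C 27 : k[X]) y +
      AdjoinRoot.of (X ^ 2 - C 27 : k[X]) (-1) * AdjoinRoot.root (X ^ 2 - C 27 : k[X]))
  rw [map_neg, map_one (AdjoinRoot.of (X ^ 2 - C 27 : k[X]))]
  ring

end H35X
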