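import Mathlib
import Pool.Agent.Lib.H35X.L1
import Pool.Agent.Lib.H35X.L2

open NumberField IsDedekindDomain Polynomial

namespace H35X

open H55B H35T H13E

/-! Chunk L3 (M): places above 3. v(a) = 1 (v(3) < 1). τ = b/a, v(B τ^2) <= v(9), so 1 - B τ^2 = ρ^3 (cube_nine), ρ nonzero. a^2 - B b^2 = a^2 ρ^3 = n^3,
so a^2 is a cube, so a = a^3/a^2 is a cube. The point: x = -c ρ, y = B τ: y^2 = B (B τ^2) = B - B ρ^3 = x^3 + B. (a + b T)(y - T) = a (1 + τ T)(B τ - T) =
a (-T)(1 - B τ^2), a product of cubes (negT_cube). x is nonzero. -/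

variable {K : Type} [Field K] [NumberField K] (w : HeightOneSpectrum (𝓞 K))

theorem li_three_alg {k : Type} [Field k] (B c : k) (hc : c ^ 3 = B) (hB : B ≠ 0) (a b n ρ : k)
    (ha : a ≠ 0) (hρ0 : ρ ≠ 0) (hn : a ^ 2 - B * b ^ 2 = n ^ 3)
    (hρ : ρ ^ 3 = 1 - B * (b / a) ^ 2) : LIp k B a b := by
  have hc0 : c ≠ 0 := by
    rintro rfl
    exact hB (by rw [← hc]; ring)
  have h1 : a ^ 2 * ρ ^ 3 = n ^ 3 := by
    rw [hρ, ← hn]
    field_simp
  have hn0 : n ≠ 0 := by
    rintro rfl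
    have h2 : a ^ 2 * ρ ^ 3 = 0 := by rw [h1]; ring
    rcases mul_eq_zero.1 h2 with h | h
    · exact ha (by simpa using h)
    · exact hρ0 (by simpa using h)
  have h3 : (a * ρ / n) ^ 3 = a := by
    rw [div_pow, mul_pow, ← h1]
    field_simp
  obtain ⟨β, hβ⟩ := negT_cube hc hB
  refine ⟨-c * ρ, B * (b / a), ?_, ?_, (algebraMap k (QA k B) (a * ρ / n * ρ)) * β, ?_⟩
  · have h4 : (-c * ρ) ^ 3 = -B * ρ ^ 3 := by rw [← hc]; ring
    rw [h4, hρ]
    ring
  · exact mul_ne_zero (neg_ne_zero.2 hc0) hρ0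
  · rw [mul_pow, ← hβ, ← map_pow]
    have h5 : (a * ρ / n * ρ) ^ 3 = a * ρ ^ 3 := by rw [mul_pow, h3]
    rw [h5, hρ]
    ext
    · simp only [QuadraticAlgebra.re_mul, QuadraticAlgebra.algebraMap_re,
        QuadraticAlgebra.algebraMap_im]
      field_simp
      try ring
    · simp only [QuadraticAlgebra.im_mul, QuadraticAlgebra.algebraMap_re,
        QuadraticAlgebra.algebraMap_im]
      field_simp
      try ring

theorem li_three (h3 : Valued.v (3 : w.adicCompletion K) < 1) (B c : w.adicCompletion K)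
    (hc : c ^ 3 = B) (hB : B ≠ 0) (a b n : w.adicCompletion K) (hn : a ^ 2 - B * b ^ 2 = n ^ 3)
    (ha : Valued.v (a - 1) ≤ Valued.v (3 : w.adicCompletion K))
    (hb : Valued.v (B * b ^ 2) ≤ Valued.v (9 : w.adicCompletion K)) :
    LIp (w.adicCompletion K) B a b := by
  have h9 : Valued.v (9 : w.adicCompletion K) < 1 := by
    have : (9 : w.adicCompletion K) = 3 * 3 := by norm_num
    rw [this, map_mul]
    calc _ ≤ Valued.v (3 : w.adicCompletion K) * 1 := by gcongr
      _ < 1 := by rwa [mul_one]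
  have ha1 : Valued.v (a - 1) < 1 := lt_of_le_of_lt ha h3
  have hva : Valued.v a = 1 := by
    have h := Valuation.map_add_eq_of_lt_right (Valued.v (R := w.adicCompletion K))
      (x := a - 1) (y := 1) (by rw [map_one]; exact ha1)
    rw [sub_add_cancel, map_one] at h
    exact h
  have ha0 : a ≠ 0 := by
    rintro rfl
    rw [map_zero] at hva
    exact zero_ne_one hva
  have h1 : Valued.v (B * (b / a) ^ 2) ≤ Valued.v (9 : w.adicCompletion K) := by
    have : B * (b / a) ^ 2 = B * b ^ 2 / a ^ 2 := by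
      field_simp
    rw [this, map_div₀, map_pow, hva, one_pow, div_one]
    exact hb
  obtain ⟨ρ, hρ⟩ := cube_nine w h3 (1 - B * (b / a) ^ 2) (by
    rw [sub_sub_cancel_left, Valuation.map_neg]
    exact h1)
  have hρ0 : ρ ≠ 0 := by
    rintro rfl
    have h2 : B * (b / a) ^ 2 = 1 := by
      have : (0 : w.adicCompletion K) = 1 - B * (b / a) ^ 2 := by rw [← hρ]; ring
      linear_combination this
    rw [h2, map_one] at h1
    exact absurd (lt_of_le_of_lt h1 h9) (lt_irrefl _)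
  exact li_three_alg B c hc hB a b n ρ ha0 hρ0 hn hρ

end H35X
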