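import Mathlib
import Pool.Agent.Lib.H35X.L1
import Pool.Agent.Lib.H35X.L2

open NumberField IsDedekindDomain Polynomial

namespace H35X

open H55B H35T H13E

/-! Chunk L4 (L): places above 2: every m = a + b T whose norm is a cube is a cube. B = 3 + 4 B1 = c^3 is a unit, v(2) = exp(-1) (so elements x with v(x) < 1
are 2 times integral elements: v(x) < 1 implies v(x/2) <= 1). If a = 0: -B b^2 = n^3, so b^2 and b are cubes, m = b T = b (T/c)^3. Let a be
nonzero, t = b/a. L4_ratio: if s satisfies B s^3 + 3 s = t (1 + 3 B s^2) then (1 + s T)^3 = (1 + 3 B s^2)(1 + t T) and the conjugate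
identity; if 1 + 3 B s^2 is nonzero or not (if 1 + 3 B s^2 = 0 then 3 s + B s^3 = 0, s = 0 or B s^2 = -3, contradiction) then m = ((1 + s T)/(1 - s T))^3 * star m up to
inverses: (1 + sT)^3 star m = (1 - sT)^3 m, and 1 - sT is a unit since its norm cubed (1 - B s^2)^3 is the norm of (1+3Bs^2)(1+tT), a nonzero
multiple of norm m; cube_of_ratio. L4_small (v(t) < 1): hensel3 for S = B s: S^3 - 3 t B S^2 + 3 B S - t B^2 at S = 0 (derivative 3 B, a unit as 3 = 2 + 1). L4_big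
(v(t) > 1): m T = b B + a T, its parameter is a/(b B) with valuation < 1, and T = (T/c)^3. L4_unit (v(t) = 1, v(t - 1) = 1): hensel3 at S = B t: modulo 2
(B = 1 modulo 2) the polynomial B s^3 - 3 B t s^2 + 3 s - t is (s + t)(s + 1)^2 and its derivative at s = t is (t + 1)^2. Last case v(t - 1) < 1: t =
1 + 2 ρ. (1 + T)^3 = (1 + 3 B) + (3 + B) T = 2 (α + β T), α = 5 + 6 B1, β = 3 + 2 B1. m (1 + T)^3/4 = a (x' + y' T) with
x' = (α + β t B)/2 = 7 + 12 B1 + 4 B1^2 + β B ρ, y' = (α t + β)/2 = 4 + 4 B1 + α ρ: modulo 2: x' = 1 + ρ, y' = ρ. So either v(x') < 1 = v(y') (case big, or a' = 0),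
or v(y') < 1 (small), or both are units and y'/x' - 1 is a unit (y' - x' = 1 modulo 2). 1 + T is a unit: norm 1 - B = -2 - 4 B1 <> 0. -/

theorem L4_ratio {k : Type} [Field k] (h3 : (3 : k) ≠ 0) (h2 : (2 : k) ≠ 0) {B : k} (a b n s : k)
    (ha : a ≠ 0) (hn : (⟨a, b⟩ : QA k B).norm = n ^ 3) (hn0 : n ≠ 0)
    (hs : a * (B * s ^ 3 + 3 * s) = b * (1 + 3 * B * s ^ 2)) :
    ∃ β : QA k B, (⟨a, b⟩ : QA k B) = β ^ 3 := by
  have hA : 1 + 3 * B * s ^ 2 ≠ 0 := by
    intro h
    rw [h, mul_zero] at hs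
    have h4 := (mul_eq_zero.1 hs).resolve_left ha
    have hs0 : s ≠ 0 := by
      rintro rfl
      simp at h
    have h5 : B * s ^ 2 + 3 = 0 := by
      have : s * (B * s ^ 2 + 3) = 0 := by linear_combination h4
      exact (mul_eq_zero.1 this).resolve_left hs0
    have h6 : (2 : k) ^ 3 = 0 := by linear_combination 3 * h5 - h
    exact h2 (pow_eq_zero_iff (three_ne_zero) |>.1 h6)
  have hnn : a * a - B * b * b = n ^ 3 := by
    rw [← hn, QuadraticAlgebra.norm_def]
    ring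
  have hd : 1 - B * s ^ 2 ≠ 0 := by
    intro h
    have h4 : (1 + 3 * B * s ^ 2) ^ 2 * n ^ 3 = a ^ 2 * (1 - B * s ^ 2) ^ 3 := by
      rw [← hnn]
      linear_combination (B * (a * (B * s ^ 3 + 3 * s) + b * (1 + 3 * B * s ^ 2))) * hs
    rw [h] at h4
    have h5 : (1 + 3 * B * s ^ 2) ^ 2 * n ^ 3 = 0 := by rw [h4]; ring
    exact mul_ne_zero (pow_ne_zero 2 hA) (pow_ne_zero 3 hn0) h5
  have e0 : (⟨1, s⟩ : QA k B) ^ 3 = ⟨1 + 3 * B * s ^ 2, B * s ^ 3 + 3 * s⟩ := by
    rw [pow_succ, pow_two]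
    refine QuadraticAlgebra.ext ?_ ?_
    · simp only [QuadraticAlgebra.re_mul, QuadraticAlgebra.im_mul]
      ring
    · simp only [QuadraticAlgebra.re_mul, QuadraticAlgebra.im_mul]
      ring
  have e0' : (⟨1, -s⟩ : QA k B) ^ 3 = ⟨1 + 3 * B * s ^ 2, -(B * s ^ 3 + 3 * s)⟩ := by
    rw [pow_succ, pow_two]
    refine QuadraticAlgebra.ext ?_ ?_
    · simp only [QuadraticAlgebra.re_mul, QuadraticAlgebra.im_mul]
      ring
    · simp only [QuadraticAlgebra.re_mul, QuadraticAlgebra.im_mul]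
      ring
  have e1 : (⟨1, s⟩ : QA k B) ^ 3 * star (⟨a, b⟩ : QA k B) = (⟨1, -s⟩ : QA k B) ^ 3 * ⟨a, b⟩ := by
    rw [e0, e0', QuadraticAlgebra.star_mk]
    refine QuadraticAlgebra.ext ?_ ?_
    · simp only [QuadraticAlgebra.re_mul]
      ring
    · simp only [QuadraticAlgebra.im_mul]
      linear_combination 2 * hs
  have e2 : (⟨(1 - B * s ^ 2)⁻¹, 0⟩ : QA k B) * ⟨1, s⟩ * ⟨1, -s⟩ = 1 := by
    refine QuadraticAlgebra.ext ?_ ?_
    · simp only [QuadraticAlgebra.re_mul, QuadraticAlgebra.im_mul, QuadraticAlgebra.re_one]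
      field_simp
      ring
    · simp only [QuadraticAlgebra.re_mul, QuadraticAlgebra.im_mul, QuadraticAlgebra.im_one]
      ring
  refine cube_of_ratio n hn hn0 ⟨⟨(1 - B * s ^ 2)⁻¹, 0⟩ * ⟨1, s⟩ * ⟨1, s⟩, ?_⟩
  calc (⟨a, b⟩ : QA k B) = ((⟨(1 - B * s ^ 2)⁻¹, 0⟩ : QA k B) * ⟨1, s⟩ * ⟨1, -s⟩) ^ 3 * ⟨a, b⟩ := by
        rw [e2, one_pow, one_mul]
    _ = ((⟨(1 - B * s ^ 2)⁻¹, 0⟩ : QA k B) * ⟨1, s⟩) ^ 3 * ((⟨1, -s⟩ : QA k B) ^ 3 * ⟨a, b⟩) := by
        ring
    _ = _ := by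
        rw [← e1]
        ring

section L4

variable {K : Type} [Field K] [NumberField K] (w : HeightOneSpectrum (𝓞 K))

theorem L4_lt_iff (h2 : Valued.v (2 : w.adicCompletion K) = WithZero.exp (-1 : ℤ))
    (x : w.adicCompletion K) (hx : Valued.v x < 1) : ∃ y : w.adicCompletion K,
      Valued.v y ≤ 1 ∧ x = 2 * y := by
  have h20 : (2 : w.adicCompletion K) ≠ 0 := by
    intro h
    rw [h, map_zero] at h2
    exact WithZero.exp_ne_zero h2.symm
  refine ⟨x / 2, ?_, by field_simp⟩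
  rw [map_div₀, h2]
  by_cases hx0 : Valued.v x = 0
  · rw [hx0, zero_div]
    exact zero_le
  · have h1 : Valued.v x ≤ WithZero.exp (-1 : ℤ) := by
      rw [← WithZero.exp_log hx0, WithZero.exp_le_exp]
      rw [← WithZero.exp_log hx0, ← WithZero.exp_zero, WithZero.exp_lt_exp] at hx
      omega
    rw [div_le_one₀ (zero_lt_iff.2 WithZero.exp_ne_zero)]
    exact h1

theorem L4_int_nat (n : ℕ) : Valued.v (n : w.adicCompletion K) ≤ 1 := by
  induction n with
  | zero => simp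
  | succ n ih =>
    rw [Nat.cast_succ]
    exact (Valuation.map_add _ _ _).trans (max_le ih (le_of_eq (Valuation.map_one _)))

theorem L4_odd (h2 : Valued.v (2 : w.adicCompletion K) = WithZero.exp (-1 : ℤ))
    (x y : w.adicCompletion K) (hx : Valued.v x = 1) (hy : Valued.v y ≤ 1) :
    Valued.v (x + 2 * y) = 1 := by
  have h1 : Valued.v (2 * y) < Valued.v x := by
    rw [hx, map_mul, h2]
    calc WithZero.exp (-1 : ℤ) * Valued.v y ≤ WithZero.exp (-1 : ℤ) * 1 :=
          mul_le_mul_right hy _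
      _ < 1 := by
          rw [mul_one, ← WithZero.exp_zero, WithZero.exp_lt_exp]
          norm_num
  rw [Valuation.map_add_eq_of_lt_left _ h1, hx]

end L4

section L4b

variable {K : Type} [Field K] [NumberField K] (w : HeightOneSpectrum (𝓞 K))

/-- The data at a place above 2. -/
structure L4D (B c : w.adicCompletion K) : Prop where
  two : Valued.v (2 : w.adicCompletion K) = WithZero.exp (-1 : ℤ)
  odd : ∃ B1 : w.adicCompletion K, B = 3 + 4 * B1 ∧ Valued.v B1 ≤ 1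
  cub : c ^ 3 = B

variable {w} {B c : w.adicCompletion K}

theorem L4D.ne2 (h : L4D w B c) : (2 : w.adicCompletion K) ≠ 0 := by
  intro h0
  have h2 := h.two
  rw [h0, map_zero] at h2
  exact WithZero.exp_ne_zero h2.symm

theorem L4D.v3 (h : L4D w B c) : Valued.v (3 : w.adicCompletion K) = 1 := by
  have h1 := L4_odd w h.two 1 1 (Valuation.map_one _) (le_of_eq (Valuation.map_one _))
  have h3 : (3 : w.adicCompletion K) = 1 + 2 * 1 := by norm_num
  rw [h3]
  exact h1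

theorem L4D.ne3 (h : L4D w B c) : (3 : w.adicCompletion K) ≠ 0 := by
  intro h0
  have h3 := h.v3
  rw [h0, map_zero] at h3
  exact zero_ne_one h3

theorem L4_add_le {x y : w.adicCompletion K} (hx : Valued.v x ≤ 1) (hy : Valued.v y ≤ 1) :
    Valued.v (x + y) ≤ 1 := (Valuation.map_add _ _ _).trans (max_le hx hy)

theorem L4_mul_le {x y : w.adicCompletion K} (hx : Valued.v x ≤ 1) (hy : Valued.v y ≤ 1) :
    Valued.v (x * y) ≤ 1 := by
  rw [map_mul]
  exact mul_le_one' hx hy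

theorem L4_mul_lt {x y : w.adicCompletion K} (hx : Valued.v x ≤ 1) (hy : Valued.v y < 1) :
    Valued.v (x * y) < 1 := by
  rw [map_mul]
  exact mul_lt_one_of_nonneg_of_lt_one_right hx zero_le hy

theorem L4D.vB (h : L4D w B c) : Valued.v B = 1 := by
  obtain ⟨B1, h1, h2⟩ := h.odd
  have h3 : B = 3 + 2 * (2 * B1) := by rw [h1]; ring
  rw [h3]
  refine L4_odd w h.two _ _ h.v3 (L4_mul_le ?_ h2)
  simpa using L4_int_nat w 2

theorem L4D.Bne (h : L4D w B c) : B ≠ 0 := by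
  intro h0
  have h3 := h.vB
  rw [h0, map_zero] at h3
  exact zero_ne_one h3

theorem L4D.cne (h : L4D w B c) : c ≠ 0 := by
  intro h0
  apply h.Bne
  rw [← h.cub, h0]
  ring

/-- The generator T is a cube. -/
theorem L4D.T (h : L4D w B c) : (⟨0, 1⟩ : QA (w.adicCompletion K) B) = ⟨0, c⁻¹⟩ ^ 3 := by
  have hc := h.cne
  rw [pow_succ, pow_two]
  refine QuadraticAlgebra.ext ?_ ?_
  · simp
  · simp only [QuadraticAlgebra.re_mul, QuadraticAlgebra.im_mul]
    rw [← h.cub]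
    field_simp
    ring

theorem L4D.small (h : L4D w B c) (a b n : w.adicCompletion K) (ha : a ≠ 0)
    (hab : Valued.v b < Valued.v a) (hn : (⟨a, b⟩ : QA (w.adicCompletion K) B).norm = n ^ 3)
    (hn0 : n ≠ 0) : ∃ β : QA (w.adicCompletion K) B, (⟨a, b⟩ : QA (w.adicCompletion K) B) = β ^ 3 := by
  have hB := h.vB
  have hB0 := h.Bne
  have h3 := h.v3
  have hva : 0 < Valued.v a := zero_lt_iff.2 ((Valuation.ne_zero_iff _).2 ha)
  have ht : Valued.v (b / a) < 1 := by
    rw [map_div₀]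
    exact (div_lt_one₀ hva).2 hab
  have hi : Valued.v (3 : w.adicCompletion K) ≤ 1 := h3.le
  obtain ⟨S, hS, -⟩ := hensel3 w (-(3 * (b / a) * B)) (3 * B) (-((b / a) * B ^ 2)) 0
    (by rw [Valuation.map_neg]; exact L4_mul_le (L4_mul_le hi ht.le) hB.le)
    (L4_mul_le hi hB.le)
    (by rw [Valuation.map_neg, pow_two]; exact L4_mul_le ht.le (L4_mul_le hB.le hB.le))
    (by rw [map_zero]; exact zero_le)
    (by
      have e : (0 : w.adicCompletion K) ^ 3 + -(3 * (b / a) * B) * 0 ^ 2 + 3 * B * 0 +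
        -((b / a) * B ^ 2) = -(B ^ 2 * (b / a)) := by ring
      rw [e, Valuation.map_neg]
      exact L4_mul_lt (by rw [pow_two]; exact L4_mul_le hB.le hB.le) ht)
    (by
      have e : 3 * (0 : w.adicCompletion K) ^ 2 + 2 * -(3 * (b / a) * B) * 0 + 3 * B = 3 * B := by
        ring
      rw [e, map_mul, h3, hB, mul_one])
  refine L4_ratio h.ne3 h.ne2 a b n (S / B) ha hn hn0 ?_
  have e2 : a * (S ^ 3 + 3 * B * S) = b * (B ^ 2 + 3 * B * S ^ 2) := by
    have e3 : b = a * (b / a) := by field_simp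
    rw [e3]
    generalize b / a = t at hS ⊢
    linear_combination a * hS
  field_simp
  linear_combination e2

theorem L4D.big (h : L4D w B c) (a b n : w.adicCompletion K) (hb : b ≠ 0)
    (hab : Valued.v a < Valued.v b) (hn : (⟨a, b⟩ : QA (w.adicCompletion K) B).norm = n ^ 3)
    (hn0 : n ≠ 0) : ∃ β : QA (w.adicCompletion K) B, (⟨a, b⟩ : QA (w.adicCompletion K) B) = β ^ 3 := by
  have hB := h.vB
  have hB0 := h.Bne
  have hc := h.cne
  have hnn : a * a - B * b * b = n ^ 3 := by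
    rw [← hn, QuadraticAlgebra.norm_def]
    ring
  obtain ⟨β, hβ⟩ := h.small (b * B) a (-(n * c)) (mul_ne_zero hb hB0)
    (by rw [map_mul, hB, mul_one]; exact hab)
    (by
      rw [QuadraticAlgebra.norm_def]
      have e : (-(n * c)) ^ 3 = -(n ^ 3 * c ^ 3) := by ring
      rw [e, h.cub, ← hnn]
      ring)
    (neg_ne_zero.2 (mul_ne_zero hn0 hc))
  have e1 : (⟨a, b⟩ : QA (w.adicCompletion K) B) = ⟨b * B, a⟩ * ⟨0, B⁻¹⟩ := by
    refine QuadraticAlgebra.ext ?_ ?_
    · simp only [QuadraticAlgebra.re_mul]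
      field_simp
      ring
    · simp only [QuadraticAlgebra.im_mul]
      field_simp
      ring
  have e2 : (⟨0, B⁻¹⟩ : QA (w.adicCompletion K) B) = (⟨c⁻¹, 0⟩ * ⟨0, c⁻¹⟩) ^ 3 := by
    rw [mul_pow, ← h.T, pow_succ, pow_two]
    refine QuadraticAlgebra.ext ?_ ?_
    · simp
    · simp only [QuadraticAlgebra.re_mul, QuadraticAlgebra.im_mul]
      rw [← h.cub]
      field_simp
      ring
  refine ⟨β * (⟨c⁻¹, 0⟩ * ⟨0, c⁻¹⟩), ?_⟩
  rw [mul_pow, ← hβ, ← e2, ← e1]

theorem L4D.unit (h : L4D w B c) (a b n : w.adicCompletion K) (ha : a ≠ 0)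
    (hab : Valued.v b = Valued.v a) (hab' : Valued.v (b - a) = Valued.v a)
    (hn : (⟨a, b⟩ : QA (w.adicCompletion K) B).norm = n ^ 3)
    (hn0 : n ≠ 0) : ∃ β : QA (w.adicCompletion K) B, (⟨a, b⟩ : QA (w.adicCompletion K) B) = β ^ 3 := by
  have hB := h.vB
  have hB0 := h.Bne
  have h3 := h.v3
  have hva : Valued.v a ≠ 0 := (Valuation.ne_zero_iff _).2 ha
  have ht : Valued.v (b / a) = 1 := by
    rw [map_div₀, hab, div_self hva]
  have ht1 : Valued.v (b / a - 1) = 1 := by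
    have e : b / a - 1 = (b - a) / a := by field_simp
    rw [e, map_div₀, hab', div_self hva]
  have e3 : b = a * (b / a) := by field_simp
  obtain ⟨B1, hB1, hB1'⟩ := h.odd
  have h2' : Valued.v (2 : w.adicCompletion K) ≤ 1 := by simpa using L4_int_nat w 2
  have h2lt : Valued.v (2 : w.adicCompletion K) < 1 := by
    rw [h.two, ← WithZero.exp_zero, WithZero.exp_lt_exp]
    norm_num
  have hi : Valued.v (3 : w.adicCompletion K) ≤ 1 := h3.le
  have key : ∃ S : w.adicCompletion K, S ^ 3 + -(3 * (b / a) * B) * S ^ 2 + 3 * B * S +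
      -((b / a) * B ^ 2) = 0 := by
    generalize b / a = t at ht ht1
    have hD : Valued.v (1 - B * t ^ 2) = 1 := by
      have e4 : 1 - B * t ^ 2 = -((t - 1) * ((t - 1) + 2 * 1)) + 2 * (-(1 + 2 * B1) * t ^ 2) := by
        rw [hB1]
        ring
      rw [e4]
      refine L4_odd w h.two _ _ ?_ ?_
      · rw [Valuation.map_neg, map_mul, ht1, one_mul]
        exact L4_odd w h.two _ _ ht1 (le_of_eq (Valuation.map_one _))
      · rw [neg_mul, Valuation.map_neg, pow_two]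
        exact L4_mul_le (L4_add_le (le_of_eq (Valuation.map_one _)) (L4_mul_le h2' hB1'))
          (L4_mul_le ht.le ht.le)
    obtain ⟨S, hS, -⟩ := hensel3 w (-(3 * t * B)) (3 * B) (-(t * B ^ 2)) (B * t)
      (by rw [Valuation.map_neg]; exact L4_mul_le (L4_mul_le hi ht.le) hB.le)
      (L4_mul_le hi hB.le)
      (by rw [Valuation.map_neg, pow_two]; exact L4_mul_le ht.le (L4_mul_le hB.le hB.le))
      (L4_mul_le hB.le ht.le)
      (by
        have e : (B * t) ^ 3 + -(3 * t * B) * (B * t) ^ 2 + 3 * B * (B * t) + -(t * B ^ 2) =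
          (B ^ 2 * t * (1 - B * t ^ 2)) * 2 := by ring
        rw [e]
        refine L4_mul_lt ?_ h2lt
        rw [pow_two]
        exact L4_mul_le (L4_mul_le (L4_mul_le hB.le hB.le) ht.le) hD.le)
      (by
        have e : 3 * (B * t) ^ 2 + 2 * -(3 * t * B) * (B * t) + 3 * B = 3 * B * (1 - B * t ^ 2) := by
          ring
        rw [e, map_mul, map_mul, h3, hB, hD, mul_one, mul_one])
    exact ⟨S, hS⟩
  obtain ⟨S, hS⟩ := key
  refine L4_ratio h.ne3 h.ne2 a b n (S / B) ha hn hn0 ?_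
  have e2 : a * (S ^ 3 + 3 * B * S) = b * (B ^ 2 + 3 * B * S ^ 2) := by
    rw [e3]
    generalize b / a = t at hS ⊢
    linear_combination a * hS
  field_simp
  linear_combination e2

/-- All cases except the last one. -/
theorem L4D.gen (h : L4D w B c) (a b n : w.adicCompletion K)
    (hab : ¬ (Valued.v b = Valued.v a ∧ Valued.v (b - a) < Valued.v a))
    (hn : (⟨a, b⟩ : QA (w.adicCompletion K) B).norm = n ^ 3)
    (hn0 : n ≠ 0) : ∃ β : QA (w.adicCompletion K) B, (⟨a, b⟩ : QA (w.adicCompletion K) B) = β ^ 3 := by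
  rcases lt_trichotomy (Valued.v b) (Valued.v a) with h1 | h1 | h1
  · refine h.small a b n ?_ h1 hn hn0
    rintro rfl
    rw [map_zero] at h1
    exact absurd h1 (not_lt.2 zero_le)
  · have ha : a ≠ 0 := by
      rintro rfl
      rw [map_zero] at h1
      have hb : b = 0 := (Valuation.zero_iff _).1 h1
      rw [hb, QuadraticAlgebra.norm_def] at hn
      apply hn0
      have h3 : n ^ 3 = 0 := by
        rw [← hn]
        ring
      exact pow_eq_zero_iff (three_ne_zero) |>.1 h3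
    have h2 : Valued.v (b - a) = Valued.v a := by
      refine le_antisymm ?_ (not_lt.1 fun h2 => hab ⟨h1, h2⟩)
      exact (Valuation.map_sub _ _ _).trans (max_le h1.le le_rfl)
    exact h.unit a b n ha h1 h2 hn hn0
  · refine h.big a b n ?_ h1 hn hn0
    rintro rfl
    rw [map_zero] at h1
    exact absurd h1 (not_lt.2 zero_le)

end L4b

theorem cube_two {K : Type} [Field K] [NumberField K] (w : HeightOneSpectrum (𝓞 K))
    (h2 : Valued.v (2 : w.adicCompletion K) = WithZero.exp (-1 : ℤ))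
    (B B1 c : w.adicCompletion K) (hB : B = 3 + 4 * B1) (hB1 : Valued.v B1 ≤ 1) (hc : c ^ 3 = B)
    (m : QA (w.adicCompletion K) B) (n : w.adicCompletion K) (hn : m.norm = n ^ 3) (hn0 : n ≠ 0) :
    ∃ β : QA (w.adicCompletion K) B, m = β ^ 3 := by
  have h : L4D w B c := ⟨h2, ⟨B1, hB, hB1⟩, hc⟩
  obtain ⟨a, b⟩ := m
  by_cases hab : ¬ (Valued.v b = Valued.v a ∧ Valued.v (b - a) < Valued.v a)
  · exact h.gen a b n hab hn hn0
  push Not at hab
  obtain ⟨hab1, hab2⟩ := hab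
  have ha : a ≠ 0 := by
    rintro rfl
    rw [map_zero] at hab2
    exact absurd hab2 (not_lt.2 zero_le)
  have hva : 0 < Valued.v a := zero_lt_iff.2 ((Valuation.ne_zero_iff _).2 ha)
  have hB' := h.vB
  have h20 := h.ne2
  have v2 : Valued.v (2 : w.adicCompletion K) ≤ 1 := by simpa using L4_int_nat w 2
  have v1 : Valued.v (1 : w.adicCompletion K) ≤ 1 := le_of_eq (Valuation.map_one _)
  -- b = a (1 + 2 ρ)
  obtain ⟨ρ, hρ, hρ'⟩ := L4_lt_iff w h2 ((b - a) / a) (by
    rw [map_div₀]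
    exact (div_lt_one₀ hva).2 hab2)
  have hb : b = a * (1 + 2 * ρ) := by
    rw [← hρ']
    field_simp
    ring
  -- the new element
  set x' : w.adicCompletion K := 7 + 12 * B1 + 4 * B1 ^ 2 + (3 + 2 * B1) * B * ρ with hx'
  set y' : w.adicCompletion K := 4 + 4 * B1 + (5 + 6 * B1) * ρ with hy'
  have key : (⟨a, b⟩ : QA (w.adicCompletion K) B) * ⟨1, 1⟩ ^ 3 = ⟨4 * a * x', 4 * a * y'⟩ := by
    rw [pow_succ, pow_two]
    refine QuadraticAlgebra.ext ?_ ?_
    · simp only [QuadraticAlgebra.re_mul, QuadraticAlgebra.im_mul]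
      rw [hb, hx', hB]
      ring
    · simp only [QuadraticAlgebra.re_mul, QuadraticAlgebra.im_mul]
      rw [hb, hy', hB]
      ring
  have hN : (⟨1, 1⟩ : QA (w.adicCompletion K) B).norm = 1 - B := by
    rw [QuadraticAlgebra.norm_def]
    ring
  have h1B : 1 - B ≠ 0 := by
    have e : 1 - B = 2 * -(1 + 2 * B1) := by rw [hB]; ring
    rw [e]
    refine mul_ne_zero h20 (neg_ne_zero.2 ?_)
    intro h0
    have h4 := L4_odd w h2 1 B1 (Valuation.map_one _) hB1
    rw [h0, map_zero] at h4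
    exact zero_ne_one h4
  have hn' : (⟨4 * a * x', 4 * a * y'⟩ : QA (w.adicCompletion K) B).norm = (n * (1 - B)) ^ 3 := by
    rw [← key, map_mul, map_pow, hn, hN, mul_pow]
  -- modulo 2
  have i2 : ∀ z : w.adicCompletion K, Valued.v z ≤ 1 → Valued.v (2 * z) ≤ 1 :=
    fun z hz => L4_mul_le v2 hz
  have iB2 : Valued.v (B1 ^ 2) ≤ 1 := by rw [pow_two]; exact L4_mul_le hB1 hB1
  have hxy : Valued.v (y' - x') = 1 := by
    have e : y' - x' = 1 + 2 * (-(2 * (1 + (2 * B1 + B1 ^ 2))) -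
        2 * (ρ * (1 + (B1 + 2 * (B1 + B1 ^ 2))))) := by
      rw [hx', hy', hB]
      ring
    rw [e]
    refine L4_odd w h2 _ _ (Valuation.map_one _) ?_
    refine (Valuation.map_sub _ _ _).trans (max_le ?_ ?_)
    · rw [Valuation.map_neg]
      exact i2 _ (L4_add_le v1 (L4_add_le (i2 _ hB1) iB2))
    · exact i2 _ (L4_mul_le hρ (L4_add_le v1 (L4_add_le hB1 (i2 _ (L4_add_le hB1 iB2)))))
  have hx1 : Valued.v x' ≤ 1 := by
    have e : x' = (1 + 2 * (1 + 2 * 1)) + 2 * (2 * (B1 + 2 * B1)) + 2 * (2 * B1 ^ 2) +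
        ((1 + 2 * 1) + 2 * B1) * B * ρ := by
      rw [hx']
      ring
    rw [e]
    exact L4_add_le (L4_add_le (L4_add_le (L4_add_le v1 (i2 _ (L4_add_le v1 (i2 _ v1))))
      (i2 _ (i2 _ (L4_add_le hB1 (i2 _ hB1))))) (i2 _ (i2 _ iB2)))
      (L4_mul_le (L4_mul_le (L4_add_le (L4_add_le v1 (i2 _ v1)) (i2 _ hB1)) hB'.le) hρ)
  obtain ⟨β, hβ⟩ := h.gen (4 * a * x') (4 * a * y') (n * (1 - B)) (by
    rintro ⟨h4, h5⟩
    have h4a : (4 : w.adicCompletion K) * a ≠ 0 := by
      refine mul_ne_zero ?_ ha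
      have : (4 : w.adicCompletion K) = 2 ^ 2 := by norm_num
      rw [this]
      exact pow_ne_zero 2 h20
    have h6 : Valued.v (4 * a * x' : w.adicCompletion K) ≤
        Valued.v (4 * a : w.adicCompletion K) := by
      rw [map_mul _ (4 * a) x']
      exact mul_le_of_le_one_right' hx1
    have h7 : Valued.v (4 * a * y' - 4 * a * x') = Valued.v (4 * a : w.adicCompletion K) := by
      rw [← mul_sub, map_mul _ (4 * a) (y' - x'), hxy, mul_one]
    rw [h7] at h5
    exact absurd h5 (not_lt.2 h6)) hn' (mul_ne_zero hn0 h1B)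
  rw [← key] at hβ
  have e2 : (⟨1, 1⟩ : QA (w.adicCompletion K) B) * (⟨(1 - B)⁻¹, 0⟩ * ⟨1, -1⟩) = 1 := by
    refine QuadraticAlgebra.ext ?_ ?_
    · simp only [QuadraticAlgebra.re_mul, QuadraticAlgebra.im_mul, QuadraticAlgebra.re_one]
      field_simp
      ring
    · simp only [QuadraticAlgebra.re_mul, QuadraticAlgebra.im_mul, QuadraticAlgebra.im_one]
      ring
  refine ⟨β * (⟨(1 - B)⁻¹, 0⟩ * ⟨1, -1⟩), ?_⟩
  rw [mul_pow, ← hβ, mul_assoc, ← mul_pow, e2, one_pow, mul_one]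

end H35X
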