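import Mathlib
import Pool.Agent.Lib.H35X.L1

open NumberField IsDedekindDomain Polynomial

namespace H35X

open H55B H35T H13E

/-! Chunk L5a (M): finite fields, the group theory. G = the group of units z of QA k B with norm 1. G is cyclic: if B = β^2 in k, G embeds in kˣ by
a + bT ↦ a + b β (injective on G: the other coordinate a - b β is the inverse; β nonzero and 2 nonzero); otherwise QA k B is a field (no zero
divisors: norm z = 0 implies z = 0) and G is a finite subgroup of its units (isCyclic of subgroups of units of a domain,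
finite). ff_triv: if -3 B is not a square in k then G has no element of order 3: let z^3 = 1, norm z = 1, z = (r, s): z star z = 1, star z = z^2; z + star z = 2 r;
z^2 - 2 r z + 1 = 0, so 1 = z^3 = (4 r^2 - 1) z - 2 r; if s is nonzero: 4 r^2 = 1 and 2 r = -1, so B s^2 = r^2 - 1 = -3/4, (2 B s)^2 = -3 B, contradiction; if s = 0:
r^2 = 1, r^3 = 1, r = 1. So x ↦ x^3 is injective, hence surjective on G. m/star m is in G, so it is a cube; cube_of_ratio. ff_point: κ = (y, -1), norm κ =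
y^2 - B = x^3. g = m/star m, h = κ/star κ in G. h is not a cube in G (otherwise κ is a cube by cube_of_ratio). In a finite cyclic group, if
h is not a cube, then one of g, g h, g h^2 is a cube (write both as powers of a generator; if 3 does not divide the order everything is a cube).
g cube: m is a cube, li_of_cube. g h cube: (m κ)/star (m κ) is a cube, m κ is a cube by cube_of_ratio (norm (n x)^3): LI with the point (x, y).
g h^2 cube: m κ^2 is a cube; κ star κ = x^3, so m star κ = m κ^2 * ... : m star κ * (κ^3) = m κ^2 (κ star κ) is a cube, so m star κ is a cube; star κ =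
(y, 1) = - (-y, -1): the point (x, -y). -/

section L5a

variable {k : Type} [Field k] {B : k}

theorem L5a_norm (z : QA k B) : z.norm = z.re * z.re - B * z.im * z.im := by
  rw [QuadraticAlgebra.norm_def]
  ring

theorem L5a_cube (r s : k) : (⟨r, s⟩ : QA k B) ^ 3 =
    ⟨r ^ 3 + 3 * B * r * s ^ 2, 3 * r ^ 2 * s + B * s ^ 3⟩ := by
  rw [pow_succ, pow_two]
  refine QuadraticAlgebra.ext ?_ ?_
  · simp only [QuadraticAlgebra.re_mul, QuadraticAlgebra.im_mul]
    ring
  · simp only [QuadraticAlgebra.re_mul, QuadraticAlgebra.im_mul]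
    ring

theorem L5a_tor (z : QA k B) (hN : z.norm = 1) (h3 : z ^ 3 = 1) :
    z = 1 ∨ (2 * z.re = -1 ∧ 4 * B * z.im ^ 2 = -3) := by
  obtain ⟨r, s⟩ := z
  rw [L5a_norm] at hN
  rw [L5a_cube] at h3
  have h4 : r ^ 3 + 3 * B * r * s ^ 2 = 1 := congrArg QuadraticAlgebra.re h3
  have h5 : 3 * r ^ 2 * s + B * s ^ 3 = 0 := congrArg QuadraticAlgebra.im h3
  change r * r - B * s * s = 1 at hN
  have h6 : s * (4 * r ^ 2 - 1) = 0 := by linear_combination h5 + s * hN
  have h7 : r * (4 * r ^ 2 - 3) = 1 := by linear_combination h4 + 3 * r * hN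
  rcases mul_eq_zero.1 h6 with h8 | h8
  · left
    subst h8
    have h9 : r = 1 := by linear_combination h7 - 4 * r * hN
    rw [h9]
    rfl
  · right
    have h9 : 2 * r = -1 := by linear_combination r * h8 - h7
    exact ⟨h9, by linear_combination 4 * hN * (-1) + h8⟩

/-- The norm one units. -/
noncomputable def L5a_G (k : Type) [Field k] (B : k) : Subgroup (QA k B)ˣ :=
  (Units.map (QuadraticAlgebra.norm : QA k B →* k)).ker

theorem L5a_fin [Finite k] : Finite (QA k B) := Finite.of_equiv _ (QuadraticAlgebra.equivProd B 0).symm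

theorem L5a_mem (z : (QA k B)ˣ) : z ∈ L5a_G k B ↔ (z : QA k B).norm = 1 := by
  unfold L5a_G
  rw [MonoidHom.mem_ker, Units.ext_iff]
  rfl

/-- The element m / star m. -/
theorem L5a_ex (m : QA k B) (hm : m.norm ≠ 0) : ∃ g : L5a_G k B, m = ((g : (QA k B)ˣ) : QA k B) * star m := by
  have h1 : IsUnit m := QuadraticAlgebra.isUnit_iff_norm_isUnit.2 (isUnit_iff_ne_zero.2 hm)
  have h2 : IsUnit (star m) := QuadraticAlgebra.isUnit_iff_norm_isUnit.2 (by
    rw [QuadraticAlgebra.norm_star]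
    exact isUnit_iff_ne_zero.2 hm)
  obtain ⟨u, hu⟩ := h1
  obtain ⟨v, hv⟩ := h2
  refine ⟨⟨u * v⁻¹, ?_⟩, ?_⟩
  · rw [L5a_mem, Units.val_mul, map_mul]
    have h3 : (v : QA k B).norm * ((v⁻¹ : (QA k B)ˣ) : QA k B).norm = 1 := by
      rw [← map_mul, ← Units.val_mul, mul_inv_cancel, Units.val_one, map_one]
    have h4 : (u : QA k B).norm = (v : QA k B).norm := by
      rw [hu, hv, QuadraticAlgebra.norm_star]
    rw [h4, h3]
  · show m = (u : QA k B) * ((v⁻¹ : (QA k B)ˣ) : QA k B) * star m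
    rw [← hv, mul_assoc, Units.inv_mul, mul_one, hu]

theorem L5a_back {m : QA k B} (n : k) (hn : m.norm = n ^ 3) (hn0 : n ≠ 0) (g : L5a_G k B)
    (hg : m = ((g : (QA k B)ˣ) : QA k B) * star m) (h : ∃ γ : L5a_G k B, γ ^ 3 = g) :
    ∃ β : QA k B, m = β ^ 3 := by
  obtain ⟨γ, hγ⟩ := h
  refine cube_of_ratio n hn hn0 ⟨((γ : (QA k B)ˣ) : QA k B), ?_⟩
  rw [← Units.val_pow_eq_pow_val, ← Subgroup.coe_pow, hγ]
  exact hg

theorem L5a_ker (z : L5a_G k B) (hz : z ^ 3 = 1) :
    z = 1 ∨ (2 * ((z : (QA k B)ˣ) : QA k B).re = -1 ∧ 4 * B * ((z : (QA k B)ˣ) : QA k B).im ^ 2 = -3) := by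
  have h1 : ((z : (QA k B)ˣ) : QA k B) ^ 3 = 1 := by
    rw [← Units.val_pow_eq_pow_val, ← Subgroup.coe_pow, hz]
    rfl
  rcases L5a_tor _ ((L5a_mem _).1 z.2) h1 with h | h
  · exact Or.inl (Subtype.ext (Units.ext h))
  · exact Or.inr h

theorem L5a_card [Finite k] (h2 : (2 : k) ≠ 0) (h3 : (3 : k) ≠ 0) (hB : B ≠ 0) :
    Nat.card (powMonoidHom 3 : L5a_G k B →* L5a_G k B).ker ≤ 3 := by
  classical
  have hf := L5a_fin (k := k) (B := B)
  set P : k[X] := C (4 * B) * X ^ 3 + C 3 * X with hP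
  have h4B : 4 * B ≠ 0 := by
    refine mul_ne_zero ?_ hB
    have : (4 : k) = 2 ^ 2 := by norm_num
    rw [this]
    exact pow_ne_zero 2 h2
  have hdeg : P.natDegree ≤ 3 := by
    rw [hP]
    compute_degree
  have hP0 : P ≠ 0 := by
    intro h
    have h1 : P.coeff 3 = 4 * B := by
      rw [hP, coeff_add, coeff_C_mul, coeff_C_mul, coeff_X_pow, coeff_X, if_pos rfl,
        if_neg (by norm_num), mul_one, mul_zero, add_zero]
    rw [h, coeff_zero] at h1
    exact h4B h1.symm
  let f : (powMonoidHom 3 : L5a_G k B →* L5a_G k B).ker → {x // x ∈ P.roots.toFinset} := fun z =>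
    ⟨(((z : L5a_G k B) : (QA k B)ˣ) : QA k B).im, by
      rw [Multiset.mem_toFinset, mem_roots hP0]
      have hz : (z : L5a_G k B) ^ 3 = 1 := z.2
      rcases L5a_ker _ hz with h | h
      · rw [h]
        show P.IsRoot (0 : k)
        simp [hP, IsRoot]
      · rw [hP]
        simp only [IsRoot, eval_add, eval_mul, eval_C, eval_pow, eval_X]
        linear_combination ((((z : L5a_G k B) : (QA k B)ˣ) : QA k B).im) * h.2⟩
  have hfi : Function.Injective f := by
    intro z z' h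
    have h1 : (((z : L5a_G k B) : (QA k B)ˣ) : QA k B).im =
        (((z' : L5a_G k B) : (QA k B)ˣ) : QA k B).im := congrArg Subtype.val h
    have hz : (z : L5a_G k B) ^ 3 = 1 := z.2
    have hz' : (z' : L5a_G k B) ^ 3 = 1 := z'.2
    have hne : ∀ y : L5a_G k B, (2 * ((y : (QA k B)ˣ) : QA k B).re = -1 ∧
        4 * B * ((y : (QA k B)ˣ) : QA k B).im ^ 2 = -3) → ((y : (QA k B)ˣ) : QA k B).im ≠ 0 := by
      rintro y ⟨-, hy⟩ h0
      rw [h0] at hy
      apply h3
      linear_combination hy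
    rcases L5a_ker _ hz with h4 | h4
    · rcases L5a_ker _ hz' with h5 | h5
      · exact Subtype.ext (h4.trans h5.symm)
      · exfalso
        apply hne _ h5
        rw [← h1, h4]
        rfl
    · rcases L5a_ker _ hz' with h5 | h5
      · exfalso
        apply hne _ h4
        rw [h1, h5]
        rfl
      · refine Subtype.ext (Subtype.ext (Units.ext (QuadraticAlgebra.ext ?_ h1)))
        exact mul_left_cancel₀ h2 (h4.1.trans h5.1.symm)
  have h5 := Nat.card_le_card_of_injective f hfi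
  refine h5.trans ?_
  rw [Nat.card_eq_fintype_card, Fintype.card_coe]
  exact (Multiset.toFinset_card_le _).trans ((card_roots' P).trans hdeg)

/-- In a finite commutative group with at most three elements of order dividing three. -/
theorem L5a_grp {G : Type} [CommGroup G] [Finite G]
    (hc : Nat.card (powMonoidHom 3 : G →* G).ker ≤ 3) (h : G) (hh : ¬ ∃ γ : G, γ ^ 3 = h) (g : G) :
    ∃ j : ℕ, j < 3 ∧ ∃ γ : G, γ ^ 3 = g * h ^ j := by
  set R : Subgroup G := (powMonoidHom 3 : G →* G).range with hR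
  have hmem : ∀ x : G, x ∈ R ↔ ∃ γ : G, γ ^ 3 = x := fun x => Iff.rfl
  have e1 : R.index = Nat.card (powMonoidHom 3 : G →* G).ker := by
    have h1 := (powMonoidHom 3 : G →* G).ker.card_mul_index
    rw [Subgroup.index_ker] at h1
    have h2 := R.card_mul_index
    have h3 : 0 < Nat.card R := Nat.card_pos
    have h4 : Nat.card R * R.index = Nat.card R * Nat.card (powMonoidHom 3 : G →* G).ker := by
      rw [h2, ← h1]
      exact mul_comm _ _
    exact Nat.eq_of_mul_eq_mul_left h3 h4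
  have hq3 : ∀ x : G ⧸ R, x ^ 3 = 1 := by
    intro x
    obtain ⟨y, rfl⟩ := QuotientGroup.mk_surjective x
    rw [← QuotientGroup.mk_pow, QuotientGroup.eq_one_iff]
    exact ⟨y, rfl⟩
  have hne : (QuotientGroup.mk h : G ⧸ R) ≠ 1 := by
    intro h0
    exact hh ((hmem h).1 ((QuotientGroup.eq_one_iff h).1 h0))
  have hord : orderOf (QuotientGroup.mk h : G ⧸ R) = 3 :=
    orderOf_eq_prime (hq3 _) hne
  have hcard : Nat.card (G ⧸ R) = 3 := by
    have h1 : orderOf (QuotientGroup.mk h : G ⧸ R) ∣ Nat.card (G ⧸ R) := orderOf_dvd_natCard _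
    rw [hord] at h1
    have h2 : Nat.card (G ⧸ R) ≤ 3 := by
      have : Nat.card (G ⧸ R) = R.index := rfl
      rw [this, e1]
      exact hc
    have h3 : 0 < Nat.card (G ⧸ R) := Nat.card_pos
    exact le_antisymm h2 (Nat.le_of_dvd h3 h1)
  have hp : Fact (Nat.Prime 3) := ⟨Nat.prime_three⟩
  obtain ⟨j, hj⟩ := mem_powers_of_prime_card hcard hne (g' := ((QuotientGroup.mk g : G ⧸ R))⁻¹)
  refine ⟨j % 3, Nat.mod_lt _ (by norm_num), (hmem _).1 ?_⟩
  rw [← QuotientGroup.eq_one_iff, QuotientGroup.mk_mul, QuotientGroup.mk_pow]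
  have h6 : (QuotientGroup.mk h : G ⧸ R) ^ (j % 3) = (QuotientGroup.mk h : G ⧸ R) ^ j := by
    rw [← hord, pow_mod_orderOf]
  rw [h6]
  have h7 : (QuotientGroup.mk h : G ⧸ R) ^ j = (QuotientGroup.mk g : G ⧸ R)⁻¹ := hj
  rw [h7, mul_inv_cancel]

end L5a

theorem ff_triv (k : Type) [Field k] [Finite k] (h2 : (2 : k) ≠ 0) (h3 : (3 : k) ≠ 0) (B : k)
    (hB : B ≠ 0) (hno : ¬ ∃ s : k, s ^ 2 = -3 * B) (m : QA k B) (n : k) (hn : m.norm = n ^ 3)
    (hn0 : n ≠ 0) : ∃ β : QA k B, m = β ^ 3 := by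
  have hf := L5a_fin (k := k) (B := B)
  have hinj : Function.Injective (powMonoidHom 3 : L5a_G k B →* L5a_G k B) := by
    rw [injective_iff_map_eq_one]
    intro z hz
    rcases L5a_ker z hz with h | h
    · exact h
    · exfalso
      apply hno
      exact ⟨2 * B * ((z : (QA k B)ˣ) : QA k B).im, by linear_combination B * h.2⟩
  have hsurj := Finite.surjective_of_injective hinj
  obtain ⟨g, hg⟩ := L5a_ex m (by rw [hn]; exact pow_ne_zero 3 hn0)
  exact L5a_back n hn hn0 g hg (hsurj g)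

theorem ff_point (k : Type) [Field k] [Finite k] (h2 : (2 : k) ≠ 0) (h3 : (3 : k) ≠ 0) (B c : k)
    (hB : B ≠ 0) (hc : c ^ 3 = B) (x y : k) (hxy : y ^ 2 = x ^ 3 + B) (hx : x ≠ 0)
    (hno : ¬ ∃ β : QA k B, (⟨y, -1⟩ : QA k B) = β ^ 3) (m : QA k B) (n : k) (hn : m.norm = n ^ 3)
    (hn0 : n ≠ 0) : LI k B m := by
  have hf := L5a_fin (k := k) (B := B)
  set κ : QA k B := ⟨y, -1⟩ with hκ
  have hNκ : κ.norm = x ^ 3 := by
    rw [L5a_norm, hκ]
    linear_combination hxy
  obtain ⟨g, hg⟩ := L5a_ex m (by rw [hn]; exact pow_ne_zero 3 hn0)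
  obtain ⟨h, hh⟩ := L5a_ex κ (by rw [hNκ]; exact pow_ne_zero 3 hx)
  have hcub : ∀ j : ℕ, (∃ γ : L5a_G k B, γ ^ 3 = g * h ^ j) → ∃ β : QA k B, m * κ ^ j = β ^ 3 := by
    intro j hj
    refine L5a_back (n * x ^ j) ?_ (mul_ne_zero hn0 (pow_ne_zero j hx)) (g * h ^ j) ?_ hj
    · rw [map_mul, map_pow, hn, hNκ]
      ring
    · rw [star_mul', star_pow]
      have e1 : (((g * h ^ j : L5a_G k B) : (QA k B)ˣ) : QA k B) =
          ((g : (QA k B)ˣ) : QA k B) * ((h : (QA k B)ˣ) : QA k B) ^ j := by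
        rw [Subgroup.coe_mul, Subgroup.coe_pow, Units.val_mul, Units.val_pow_eq_pow_val]
      rw [e1]
      calc m * κ ^ j = (((g : (QA k B)ˣ) : QA k B) * star m) *
            (((h : (QA k B)ˣ) : QA k B) * star κ) ^ j := by rw [← hg, ← hh]
        _ = _ := by ring
  obtain ⟨j, hj, hj'⟩ := L5a_grp (L5a_card h2 h3 hB) h (fun h4 => hno (L5a_back x hNκ hx h hh h4)) g
  obtain ⟨β, hβ⟩ := hcub j hj'
  interval_cases j
  · rw [pow_zero, mul_one] at hβ
    exact li_of_cube hc hB ⟨β, hβ⟩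
  · rw [pow_one] at hβ
    exact ⟨x, y, hxy, hx, β, hβ⟩
  · have hu : IsUnit κ := QuadraticAlgebra.isUnit_iff_norm_isUnit.2 (by
      rw [hNκ]
      exact isUnit_iff_ne_zero.2 (pow_ne_zero 3 hx))
    obtain ⟨u, hu⟩ := hu
    have hs : κ * star κ = (⟨x, 0⟩ : QA k B) ^ 3 := by
      rw [L5a_cube, hκ, QuadraticAlgebra.star_mk]
      refine QuadraticAlgebra.ext ?_ ?_
      · simp only [QuadraticAlgebra.re_mul]
        linear_combination hxy
      · simp only [QuadraticAlgebra.im_mul]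
        ring
    have hinv : ((u⁻¹ : (QA k B)ˣ) : QA k B) * κ = 1 := by
      rw [← hu, Units.inv_mul]
    have h5 : (⟨-y, -1⟩ : QA k B) = -star κ := by
      rw [hκ, QuadraticAlgebra.star_mk]
      refine QuadraticAlgebra.ext ?_ ?_
      · simp
      · simp
    refine ⟨x, -y, by linear_combination hxy, hx, -(β * ⟨x, 0⟩ * ((u⁻¹ : (QA k B)ˣ) : QA k B)), ?_⟩
    rw [h5]
    have e2 : (-(β * ⟨x, 0⟩ * ((u⁻¹ : (QA k B)ˣ) : QA k B))) ^ 3 =
        -(β ^ 3 * (⟨x, 0⟩ : QA k B) ^ 3 * ((u⁻¹ : (QA k B)ˣ) : QA k B) ^ 3) := by ring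
    rw [e2, ← hβ, ← hs]
    calc m * -star κ = -(m * star κ * (((u⁻¹ : (QA k B)ˣ) : QA k B) * κ) ^ 3) := by
          rw [hinv]
          ring
      _ = _ := by ring

end H35X
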