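import Mathlib
import Pool.Agent.Lib.H35X.Defs

open NumberField IsDedekindDomain Polynomial

namespace H35X

open H55B H35T H13E

/-! Chunk L5b (M/L): finite fields, counting, with the cube roots of unity in k. s^2 = -3 B and (2 om + 1)^2 = -3, so B = β^2 with
β = s/(2 om + 1), β nonzero; QA k B is k x k: a + bT ↦ (a + b β, a - b β) (bijective, ring homomorphism). Let S = {(x, y) : y^2 = x^3 + B, x nonzero}, Y =
the set of the y (y^2 - B a nonzero cube), R = {κ in QA k B : κ^3 = (y, -1) for some y in k with y^2 - B nonzero... in Y}. Suppose (y, -1) is a cube for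
every (x, y) in S. Then |R| >= 9 |Y| (for y in Y choose κ_y; (y, ζ) ↦ ζ κ_y for the 9 cube roots of unity ζ = (om^i, om^j) of QA k B, injective: cube
gives y, κ_y is a unit because its cube has norm y^2 - B <> 0). |S| <= 3 |Y| ((x, y) ↦ (y, x/x_y), x/x_y in {1, om, om^2}). |R| <= |S|: κ = (p, q): κ^3 = (y, -1)
gives 3 p^2 q + B q^3 = -1, so q is nonzero; (1/q, 3 p/(g q)) with g = 2 om + 1, g^2 = -3: (3p/(gq))^2 = -3 p^2/q^2 = 1/q^3 + B: a point of S; the map κ ↦ (1/q,
3p/(g q)) is injective. So 9 |Y| <= |S| <= 3 |Y|, Y empty; but (-c, 0) is in S. Contradiction. -/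
section l5b

variable {k : Type} [Field k] {B : k}

/-- The norm. -/
def l5b_N (κ : QA k B) : k := κ.re ^ 2 - B * κ.im ^ 2

theorem l5b_N_mul (κ μ : QA k B) : l5b_N (κ * μ) = l5b_N κ * l5b_N μ := by
  unfold l5b_N
  rw [QuadraticAlgebra.re_mul, QuadraticAlgebra.im_mul]
  ring

theorem l5b_cube (κ : QA k B) : κ ^ 3 =
    ⟨κ.re ^ 3 + 3 * B * κ.re * κ.im ^ 2, 3 * κ.re ^ 2 * κ.im + B * κ.im ^ 3⟩ := by
  have h : κ ^ 3 = κ * κ * κ := by ring
  rw [h]
  ext
  · simp only [QuadraticAlgebra.re_mul, QuadraticAlgebra.im_mul]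
    ring
  · simp only [QuadraticAlgebra.re_mul, QuadraticAlgebra.im_mul]
    ring

theorem l5b_cancel {κ μ ν : QA k B} (hκ : l5b_N κ ≠ 0) (h : κ * μ = κ * ν) : μ = ν := by
  have h1 := congrArg QuadraticAlgebra.re h
  have h2 := congrArg QuadraticAlgebra.im h
  rw [QuadraticAlgebra.re_mul, QuadraticAlgebra.re_mul] at h1
  rw [QuadraticAlgebra.im_mul, QuadraticAlgebra.im_mul] at h2
  unfold l5b_N at hκ
  have h3 : (κ.re ^ 2 - B * κ.im ^ 2) * (μ.re - ν.re) = 0 := by
    linear_combination κ.re * h1 - B * κ.im * h2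
  have h4 : (κ.re ^ 2 - B * κ.im ^ 2) * (μ.im - ν.im) = 0 := by
    linear_combination κ.re * h2 - κ.im * h1
  have h5 := (mul_eq_zero.1 h3).resolve_left hκ
  have h6 := (mul_eq_zero.1 h4).resolve_left hκ
  exact QuadraticAlgebra.ext (sub_eq_zero.1 h5) (sub_eq_zero.1 h6)

end l5b

theorem ff_exists1 (k : Type) [Field k] [Finite k] (h2 : (2 : k) ≠ 0) (h3 : (3 : k) ≠ 0) (B c : k)
    (hB : B ≠ 0) (hc : c ^ 3 = B) (s : k) (hs : s ^ 2 = -3 * B) (om : k) (hom : om ^ 2 + om + 1 = 0) :
    ∃ x y : k, y ^ 2 = x ^ 3 + B ∧ x ≠ 0 ∧ ¬ ∃ β : QA k B, (⟨y, -1⟩ : QA k B) = β ^ 3 := by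
  classical
  by_contra hcon
  push Not at hcon
  have hs0 : s ≠ 0 := by
    rintro rfl
    have h4 : 3 * B = 0 := by linear_combination hs
    rcases mul_eq_zero.1 h4 with h | h
    · exact h3 h
    · exact hB h
  have hom3 : om ^ 3 = 1 := by linear_combination (om - 1) * hom
  set g : k := 2 * om + 1 with hg
  have hg2 : g ^ 2 = -3 := by rw [hg]; linear_combination 4 * hom
  have hg0 : g ≠ 0 := by
    intro h0
    rw [h0] at hg2
    apply h3
    linear_combination hg2
  -- cube roots with the right norm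
  have hroot : ∀ x y : k, y ^ 2 = x ^ 3 + B → x ≠ 0 → ∃ κ : QA k B, κ ^ 3 = ⟨y, -1⟩ ∧ l5b_N κ = x := by
    intro x y hxy hx
    obtain ⟨κ, hκ⟩ := hcon x y hxy hx
    have h4 : l5b_N κ ^ 3 = x ^ 3 := by
      have h5 : l5b_N (κ ^ 3) = l5b_N κ ^ 3 := by
        have h : κ ^ 3 = κ * κ * κ := by ring
        rw [h, l5b_N_mul, l5b_N_mul]
        ring
      rw [← h5, ← hκ]
      unfold l5b_N
      linear_combination hxy
    have h5 : (l5b_N κ - x) * (l5b_N κ - om * x) * (l5b_N κ - om ^ 2 * x) = 0 := by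
      linear_combination h4 - (l5b_N κ ^ 2 * x - l5b_N κ * x ^ 2 * om) * hom + (- x ^ 3) * hom3
    have hsc : ∀ z : k, z ^ 3 = 1 → ((⟨z, 0⟩ : QA k B) * κ) ^ 3 = ⟨y, -1⟩ ∧
        l5b_N ((⟨z, 0⟩ : QA k B) * κ) = z ^ 2 * l5b_N κ := by
      intro z hz
      constructor
      · rw [mul_pow, ← hκ, l5b_cube]
        ext
        · simp only [QuadraticAlgebra.re_mul]
          linear_combination y * hz
        · simp only [QuadraticAlgebra.im_mul]
          linear_combination (-1) * hz
      · rw [l5b_N_mul]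
        unfold l5b_N
        ring
    rcases mul_eq_zero.1 h5 with h6 | h6
    · rcases mul_eq_zero.1 h6 with h7 | h7
      · exact ⟨κ, hκ.symm, sub_eq_zero.1 h7⟩
      · refine ⟨_, (hsc om hom3).1, ?_⟩
        rw [(hsc om hom3).2, sub_eq_zero.1 h7]
        linear_combination x * hom3
    · refine ⟨_, (hsc (om ^ 2) (by linear_combination (om ^ 3 + 1) * hom3)).1, ?_⟩
      rw [(hsc (om ^ 2) (by linear_combination (om ^ 3 + 1) * hom3)).2, sub_eq_zero.1 h6]
      linear_combination x * (om ^ 3 + 1) * hom3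
  -- the sets
  let S := {z : k × k // z.2 ^ 2 = z.1 ^ 3 + B ∧ z.1 ≠ 0}
  let R := {κ : QA k B // 3 * κ.re ^ 2 * κ.im + B * κ.im ^ 3 = -1 ∧ l5b_N κ ≠ 0}
  have hfQ : Finite (QA k B) := Finite.of_injective (fun κ : QA k B => (κ.re, κ.im))
    (fun a b h => QuadraticAlgebra.ext (congrArg Prod.fst h) (congrArg Prod.snd h))
  have hfS : Finite S := Subtype.finite
  have hfR : Finite R := Subtype.finite
  choose K hK1 hK2 using fun z : S => hroot z.1.1 z.1.2 z.2.1 z.2.2
  -- cube roots of unity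
  set e : k := -3 / (2 * s) with he
  have he0 : e ≠ 0 := div_ne_zero (neg_ne_zero.2 h3) (mul_ne_zero h2 hs0)
  have hBe : 4 * (B * e ^ 2) = -3 := by
    rw [he]
    field_simp
    linear_combination (4 : k) * hs
  let Z : Fin 3 → QA k B := ![⟨1, 0⟩, ⟨-1 / 2, e⟩, ⟨-1 / 2, -e⟩]
  have hZ3 : ∀ i, Z i ^ 3 = ⟨1, 0⟩ ∧ l5b_N (Z i) = 1 := by
    intro i
    rw [l5b_cube]
    unfold l5b_N
    fin_cases i
    · simp [Z]
    · refine ⟨QuadraticAlgebra.ext ?_ ?_, ?_⟩
      · show (-1 / 2 : k) ^ 3 + 3 * B * (-1 / 2) * e ^ 2 = 1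
        field_simp
        linear_combination (-3 : k) * hBe
      · show 3 * (-1 / 2 : k) ^ 2 * e + B * e ^ 3 = 0
        field_simp
        linear_combination e * hBe
      · show (-1 / 2 : k) ^ 2 - B * e ^ 2 = 1
        field_simp
        linear_combination (-1 : k) * hBe
    · refine ⟨QuadraticAlgebra.ext ?_ ?_, ?_⟩
      · show (-1 / 2 : k) ^ 3 + 3 * B * (-1 / 2) * (-e) ^ 2 = 1
        field_simp
        linear_combination (-3 : k) * hBe
      · show 3 * (-1 / 2 : k) ^ 2 * (-e) + B * (-e) ^ 3 = 0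
        field_simp
        linear_combination (-e) * hBe
      · show (-1 / 2 : k) ^ 2 - B * (-e) ^ 2 = 1
        field_simp
        linear_combination (-1 : k) * hBe
  have hZi : Function.Injective Z := by
    have e1 : (1 : k) ≠ -1 / 2 := by
      intro h
      apply h3
      rw [eq_div_iff h2] at h
      linear_combination h
    have e2 : e ≠ -e := by
      intro h
      have h4 : 2 * e = 0 := by linear_combination h
      rcases mul_eq_zero.1 h4 with h5 | h5
      · exact h2 h5
      · exact he0 h5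
    intro i j hij
    fin_cases i <;> fin_cases j
    · rfl
    · exact absurd (congrArg QuadraticAlgebra.re hij) e1
    · exact absurd (congrArg QuadraticAlgebra.re hij) e1
    · exact absurd (congrArg QuadraticAlgebra.re hij).symm e1
    · rfl
    · exact absurd (congrArg QuadraticAlgebra.im hij) e2
    · exact absurd (congrArg QuadraticAlgebra.re hij).symm e1
    · exact absurd (congrArg QuadraticAlgebra.im hij).symm e2
    · rfl
  have hone : (⟨1, 0⟩ : QA k B) = 1 := rfl
  have hcube : ∀ (z : S) (i : Fin 3), (K z * Z i) ^ 3 = ⟨z.1.2, -1⟩ := by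
    intro z i
    rw [mul_pow, hK1, (hZ3 i).1, hone, mul_one]
  have hnorm : ∀ (z : S) (i : Fin 3), l5b_N (K z * Z i) = z.1.1 := by
    intro z i
    rw [l5b_N_mul, hK2, (hZ3 i).2, mul_one]
  let f : S × Fin 3 → R := fun w => ⟨K w.1 * Z w.2, by
      have h := congrArg QuadraticAlgebra.im (hcube w.1 w.2)
      rw [l5b_cube] at h
      exact h, by
      rw [hnorm]
      exact w.1.2.2⟩
  have hf : Function.Injective f := by
    rintro ⟨z, i⟩ ⟨z', j⟩ h
    have h4 : K z * Z i = K z' * Z j := congrArg Subtype.val h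
    have h5 := hcube z i
    rw [h4, hcube z' j] at h5
    have h6 := hnorm z i
    rw [h4, hnorm z' j] at h6
    have h7 : z = z' := Subtype.ext (Prod.ext h6.symm (congrArg QuadraticAlgebra.re h5).symm)
    subst h7
    have h8 : Z i = Z j := l5b_cancel (by rw [hK2]; exact z.2.2) h4
    rw [hZi h8]
  let h : R → S := fun κ => ⟨(1 / κ.1.im, 3 * κ.1.re / (g * κ.1.im)), by
      have h4 : κ.1.im ≠ 0 := by
        intro h0
        have h5 := κ.2.1
        rw [h0] at h5
        have h6 : (0 : k) = -1 := by linear_combination h5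
        exact one_ne_zero (α := k) (by linear_combination h6)
      refine ⟨?_, one_div_ne_zero h4⟩
      show (3 * κ.1.re / (g * κ.1.im)) ^ 2 = (1 / κ.1.im) ^ 3 + B
      have h5 := κ.2.1
      rw [div_pow, mul_pow g, hg2]
      field_simp
      linear_combination (-1 : k) * h5⟩
  have hh : Function.Injective h := by
    intro κ μ hκμ
    have h4 : ∀ κ : R, κ.1.im ≠ 0 := by
      intro κ h0
      have h5 := κ.2.1
      rw [h0] at h5
      have h6 : (0 : k) = -1 := by linear_combination h5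
      exact one_ne_zero (α := k) (by linear_combination h6)
    have h5 := congrArg Subtype.val hκμ
    have h6 : 1 / κ.1.im = 1 / μ.1.im := congrArg Prod.fst h5
    have h7 : 3 * κ.1.re / (g * κ.1.im) = 3 * μ.1.re / (g * μ.1.im) := congrArg Prod.snd h5
    have h8 : κ.1.im = μ.1.im := by
      rw [one_div, one_div] at h6
      exact inv_injective h6
    rw [h8, div_left_inj' (mul_ne_zero hg0 (h4 μ))] at h7
    exact Subtype.ext (QuadraticAlgebra.ext (mul_left_cancel₀ h3 h7) h8)
  have hcard := Nat.card_le_card_of_injective _ (hh.comp hf)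
  rw [Nat.card_prod, Nat.card_eq_fintype_card (α := Fin 3), Fintype.card_fin] at hcard
  have hpos : 0 < Nat.card S := by
    have hne : Nonempty S := ⟨⟨(-c, 0), by
      refine ⟨?_, ?_⟩
      · show (0 : k) ^ 2 = (-c) ^ 3 + B
        linear_combination hc
      · show -c ≠ 0
        intro h0
        apply hB
        rw [← hc, neg_eq_zero.1 h0]
        ring⟩⟩
    exact Nat.card_pos
  omega

end H35X
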