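import Mathlib
import Pool.Agent.Lib.H35X.L5a
import Pool.Agent.Lib.H35X.L5b

open NumberField IsDedekindDomain Polynomial

namespace H35X

open H55B H35T H13E

/-! Chunk L5c (M): finite fields, without cube roots of unity in k: x ↦ x^3 is bijective on k (kernel trivial on units). B is not a square (B = β^2 would
give (s/β)^2 = -3 and a root of X^2 + X + 1). So y^2 - B is nonzero for all y and equal to x^3 for a unique x <> 0. ζ = (-1/2, s/(2 B)): ζ^2 + ζ + 1 = 0 in QA k B
(B (s/(2B))^2 = -3/4), so ζ^3 = 1, ζ - 1 a unit (norm of ζ - 1 is 3), so 1, ζ, ζ^2 are distinct. Suppose (y, -1) = κ_y^3 for all y in k. (y, j) ↦ ζ^j κ_y, j in Fin 3, is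
injective from k x Fin 3 to R = {κ : κ^3 has im = -1} (ζ^j κ = ζ^i κ, κ a unit). And R -> k, κ = (p, q) ↦ p/q is injective: 3 p^2 q + B q^3 = -1, q^3
(3 (p/q)^2 + B) = -1, q is determined by p/q because cubing is injective. So 3 |k| <= |k|, contradiction. ff_lemma: by cases: -3B is not a square:
ff_triv and li_of_cube; otherwise ff_exists1 or ff_exists2, and ff_point. -/

theorem l5c_inj (k : Type) [Field k] (hom : ¬ ∃ om : k, om ^ 2 + om + 1 = 0) (x y : k)
    (h : x ^ 3 = y ^ 3) : x = y := by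
  by_contra hne
  have hy : y ≠ 0 := by
    rintro rfl
    apply hne
    rw [zero_pow three_ne_zero] at h
    exact eq_zero_of_pow_eq_zero h
  apply hom
  refine ⟨x / y, ?_⟩
  have h1 : (x - y) * (x ^ 2 + x * y + y ^ 2) = 0 := by linear_combination h
  rcases mul_eq_zero.1 h1 with h2 | h2
  · exact absurd (sub_eq_zero.1 h2) hne
  · field_simp
    linear_combination h2

theorem l5c_im (k : Type) [Field k] (B : k) (z : QA k B) :
    (z ^ 3).im = 3 * z.re ^ 2 * z.im + B * z.im ^ 3 := by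
  have e : z ^ 3 = z * z * z := by ring
  rw [e]
  simp only [QuadraticAlgebra.re_mul, QuadraticAlgebra.im_mul]
  ring

theorem l5c_re (k : Type) [Field k] (B : k) (z : QA k B) :
    (z ^ 3).re = z.re ^ 3 + 3 * B * z.re * z.im ^ 2 := by
  have e : z ^ 3 = z * z * z := by ring
  rw [e]
  simp only [QuadraticAlgebra.re_mul, QuadraticAlgebra.im_mul]
  ring

theorem l5c_root (k : Type) [Field k] (h2 : (2 : k) ≠ 0) (B t : k) (ht : B * t ^ 2 = -3 / 4) :
    (⟨-1 / 2, t⟩ : QA k B) ^ 3 = 1 := by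
  have h4 : (4 : k) ≠ 0 := by
    have e4 : (4 : k) = 2 * 2 := by norm_num
    rw [e4]
    exact mul_ne_zero h2 h2
  have h8 : (8 : k) ≠ 0 := by
    have e8 : (8 : k) = 2 * 2 * 2 := by norm_num
    rw [e8]
    exact mul_ne_zero (mul_ne_zero h2 h2) h2
  apply QuadraticAlgebra.ext
  · rw [l5c_re]
    show (-1 / 2 : k) ^ 3 + 3 * B * (-1 / 2) * t ^ 2 = 1
    have e : (-1 / 2 : k) ^ 3 + 3 * B * (-1 / 2) * t ^ 2 = (-1 / 2) ^ 3 + 3 * (-1 / 2) * (B * t ^ 2) := by
      ring
    rw [e, ht]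
    field_simp
    norm_num
  · rw [l5c_im]
    show 3 * (-1 / 2 : k) ^ 2 * t + B * t ^ 3 = 0
    have e : 3 * (-1 / 2 : k) ^ 2 * t + B * t ^ 3 = 3 * (-1 / 2 : k) ^ 2 * t + (B * t ^ 2) * t := by
      ring
    rw [e, ht]
    field_simp
    norm_num

theorem ff_exists2 (k : Type) [Field k] [Finite k] (h2 : (2 : k) ≠ 0) (h3 : (3 : k) ≠ 0) (B : k)
    (hB : B ≠ 0) (s : k) (hs : s ^ 2 = -3 * B) (hom : ¬ ∃ om : k, om ^ 2 + om + 1 = 0) :
    ∃ x y : k, y ^ 2 = x ^ 3 + B ∧ x ≠ 0 ∧ ¬ ∃ β : QA k B, (⟨y, -1⟩ : QA k B) = β ^ 3 := by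
  by_contra hcon
  have hinj := l5c_inj k hom
  have hs0 : s ≠ 0 := by
    rintro rfl
    rw [zero_pow two_ne_zero] at hs
    exact (mul_ne_zero (neg_ne_zero.2 h3) hB) hs.symm
  have hBsq : ∀ y : k, y ^ 2 - B ≠ 0 := by
    intro y hy
    have hy0 : y ≠ 0 := by
      rintro rfl
      apply hB
      linear_combination (-1 : k) * hy
    apply hom
    refine ⟨(-1 + s / y) / 2, ?_⟩
    have h4 : (s / y) ^ 2 = -3 := by
      rw [div_pow, hs]
      have h5 : y ^ 2 = B := by linear_combination hy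
      rw [h5]
      field_simp
    generalize s / y = t at h4
    field_simp
    linear_combination h4
  have hsurj : Function.Surjective (fun x : k => x ^ 3) :=
    Finite.surjective_of_injective fun x y h => hinj x y h
  have hex : ∀ y : k, ∃ β : QA k B, (⟨y, -1⟩ : QA k B) = β ^ 3 := by
    intro y
    obtain ⟨x, hx⟩ := hsurj (y ^ 2 - B)
    have hx' : x ^ 3 = y ^ 2 - B := hx
    by_contra hno
    refine hcon ⟨x, y, by rw [hx']; ring, ?_, hno⟩
    rintro rfl
    rw [zero_pow three_ne_zero] at hx'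
    exact hBsq y hx'.symm
  choose κ hκ using hex
  obtain ⟨e, he⟩ : ∃ e : Fin 3 → QA k B,
      e = ![1, ⟨-1 / 2, s / (2 * B)⟩, ⟨-1 / 2, -(s / (2 * B))⟩] := ⟨_, rfl⟩
  have hsB : B * (s / (2 * B)) ^ 2 = -3 / 4 := by
    have h4 : (4 : k) ≠ 0 := by
      have e4 : (4 : k) = 2 * 2 := by norm_num
      rw [e4]
      exact mul_ne_zero h2 h2
    rw [div_pow, hs]
    field_simp
    norm_num
  have he3 : ∀ j, e j ^ 3 = 1 := by
    intro j
    rw [he]
    fin_cases j
    · show (1 : QA k B) ^ 3 = 1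
      exact one_pow 3
    · exact l5c_root k h2 B _ hsB
    · exact l5c_root k h2 B _ (by rw [neg_sq]; exact hsB)
  have heim : ∀ i j, (e i).im = (e j).im → i = j := by
    intro i j hij
    rw [he] at hij
    have ht : s / (2 * B) ≠ 0 := div_ne_zero hs0 (mul_ne_zero h2 hB)
    have ht2 : s / (2 * B) ≠ -(s / (2 * B)) := by
      intro h
      have h4 : 2 * (s / (2 * B)) = 0 := by linear_combination h
      exact (mul_ne_zero h2 ht) h4
    fin_cases i <;> fin_cases j
    · rfl
    · exact absurd (show (0 : k) = s / (2 * B) from hij).symm ht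
    · exact absurd (show (0 : k) = -(s / (2 * B)) from hij).symm (neg_ne_zero.2 ht)
    · exact absurd (show s / (2 * B) = (0 : k) from hij) ht
    · rfl
    · exact absurd (show s / (2 * B) = -(s / (2 * B)) from hij) ht2
    · exact absurd (show -(s / (2 * B)) = (0 : k) from hij) (neg_ne_zero.2 ht)
    · exact absurd (show -(s / (2 * B)) = s / (2 * B) from hij).symm ht2
    · rfl
  have hz3 : ∀ (y : k) (i : Fin 3), (e i * κ y) ^ 3 = (⟨y, -1⟩ : QA k B) := by
    intro y i
    rw [mul_pow, he3, one_mul, ← hκ]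
  have hzim : ∀ (y : k) (i : Fin 3), (e i * κ y).im ≠ 0 ∧
      (e i * κ y).im ^ 3 * (3 * ((e i * κ y).re / (e i * κ y).im) ^ 2 + B) = -1 := by
    intro y i
    have h4 := l5c_im k B (e i * κ y)
    rw [hz3] at h4
    have h5 : (-1 : k) = 3 * (e i * κ y).re ^ 2 * (e i * κ y).im + B * (e i * κ y).im ^ 3 := h4
    generalize (e i * κ y).re = p at h5 ⊢
    generalize (e i * κ y).im = q at h5 ⊢
    have hq : q ≠ 0 := by
      rintro rfl
      have h6 : (-1 : k) = 0 := by linear_combination h5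
      exact (neg_ne_zero.2 one_ne_zero) h6
    refine ⟨hq, ?_⟩
    rw [h5]
    field_simp
  have hφ : Function.Injective (fun a : k × Fin 3 => (e a.2 * κ a.1).re / (e a.2 * κ a.1).im) := by
    rintro ⟨y, i⟩ ⟨y', j⟩ h
    have h' : (e i * κ y).re / (e i * κ y).im = (e j * κ y').re / (e j * κ y').im := h
    obtain ⟨q0, q1⟩ := hzim y i
    obtain ⟨r0, r1⟩ := hzim y' j
    rw [← h'] at r1
    have hne : 3 * ((e i * κ y).re / (e i * κ y).im) ^ 2 + B ≠ 0 := by
      intro h0
      rw [h0, mul_zero] at q1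
      exact (neg_ne_zero.2 one_ne_zero) q1.symm
    have him : (e i * κ y).im = (e j * κ y').im := by
      apply hinj
      apply mul_right_cancel₀ hne
      rw [q1, r1]
    have hre : (e i * κ y).re = (e j * κ y').re := by
      rw [him] at h'
      exact (div_left_inj' r0).1 h'
    have hz : e i * κ y = e j * κ y' := QuadraticAlgebra.ext hre him
    have hy : y = y' := by
      have h4 := hz3 y i
      rw [hz, hz3] at h4
      exact (congrArg QuadraticAlgebra.re h4).symm
    subst hy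
    have hij : i = j := by
      apply heim
      have h4 : e i * (κ y ^ 3 * ⟨y, 1⟩) = e j * (κ y ^ 3 * ⟨y, 1⟩) := by
        linear_combination (κ y ^ 2 * ⟨y, 1⟩) * hz
      rw [← hκ] at h4
      have h5 : ∀ z : QA k B, (z * ((⟨y, -1⟩ : QA k B) * ⟨y, 1⟩)).im = z.im * (y ^ 2 - B) := by
        intro z
        simp only [QuadraticAlgebra.re_mul, QuadraticAlgebra.im_mul]
        ring
      have h6 := congrArg QuadraticAlgebra.im h4
      rw [h5, h5] at h6
      exact mul_right_cancel₀ (hBsq y) h6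
    rw [hij]
  have hcard := Nat.card_le_card_of_injective _ hφ
  rw [Nat.card_prod, Nat.card_eq_fintype_card (α := Fin 3), Fintype.card_fin] at hcard
  have hpos : 0 < Nat.card k := Nat.card_pos
  omega

theorem ff_lemma (k : Type) [Field k] [Finite k] (h2 : (2 : k) ≠ 0) (h3 : (3 : k) ≠ 0) (B c : k)
    (hB : B ≠ 0) (hc : c ^ 3 = B) (m : QA k B) (n : k) (hn : m.norm = n ^ 3) (hn0 : n ≠ 0) :
    LI k B m := by
  by_cases hno : ∃ s : k, s ^ 2 = -3 * B
  · obtain ⟨s, hs⟩ := hno
    have key : ∃ x y : k, y ^ 2 = x ^ 3 + B ∧ x ≠ 0 ∧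
        ¬ ∃ β : QA k B, (⟨y, -1⟩ : QA k B) = β ^ 3 := by
      by_cases hom : ∃ om : k, om ^ 2 + om + 1 = 0
      · obtain ⟨om, hom⟩ := hom
        exact ff_exists1 k h2 h3 B c hB hc s hs om hom
      · exact ff_exists2 k h2 h3 B hB s hs hom
    obtain ⟨x, y, hxy, hx, hn'⟩ := key
    exact ff_point k h2 h3 B c hB hc x y hxy hx hn' m n hn hn0
  · exact li_of_cube hc hB (ff_triv k h2 h3 B hB hno m n hn hn0)

end H35X
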