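import Mathlib
import Pool.Agent.Lib.H35X.L2
import Pool.Agent.Lib.H35X.L5c

open NumberField IsDedekindDomain Polynomial

namespace H35X

open H55B H35T H13E

/-! Chunk L6 (M/L): places not above 6. cube_small: v(p - 1) < 1, v(q) < 1, then (p, q) is a cube in QA: (p, q) = p (1, t), t = q/p; p is a cube
(cube_one); s with B s^3 - 3 B t s^2 + 3 s - t = 0, v(s) < 1 (hensel3 for S = B s: S^3 - 3 t B S^2 + 3 B S - t B^2, S near 0, derivative 3 B), then (1 + s T)^3 =
(1 + 3 B s^2)(1 + t T), and 1 + 3 B s^2 is a cube (cube_one). li_good: reduce modulo w: k' = the residue field of the integers of K_w (finite), ff_lemma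
gives (x', y') in k' and β'; lift y' to y, x' to x0; hensel3/cube: x^3 = y^2 - B, x near x0 (derivative 3 x0^2 is a unit since x' <> 0); lift β' = (p', q') to (p, q);
(a, b)(y, -1) = (p, q)^3 μ where μ = (a, b)(y, -1) (p, q)^(-3) (norm of (p, q) is a unit: its cube reduces to norm m' x'^3) is congruent to
1: cube_small. -/

variable {K : Type} [Field K] [NumberField K] (w : HeightOneSpectrum (𝓞 K))

theorem L6_near_one {k : Type} [Field k] {Γ : Type*} [LinearOrderedCommGroupWithZero Γ]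
    (v : Valuation k Γ) {x : k} (h : v (x - 1) < 1) : v x = 1 := by
  have h := Valuation.map_add_eq_of_lt_right v (x := x - 1) (y := 1) (by rw [map_one]; exact h)
  rw [sub_add_cancel, map_one] at h
  exact h

theorem cube_small (h3 : Valued.v (3 : w.adicCompletion K) = 1) (B : w.adicCompletion K)
    (hB : Valued.v B = 1) (p q : w.adicCompletion K) (hp : Valued.v (p - 1) < 1)
    (hq : Valued.v q < 1) : ∃ β : QA (w.adicCompletion K) B, (⟨p, q⟩ : QA (w.adicCompletion K) B) = β ^ 3 := by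
  have hvp : Valued.v p = 1 := L6_near_one _ hp
  have hp0 : p ≠ 0 := by
    rintro rfl
    rw [map_zero] at hvp
    exact zero_ne_one hvp
  have hB0 : B ≠ 0 := by
    rintro rfl
    rw [map_zero] at hB
    exact zero_ne_one hB
  set t := q / p with ht
  have hvt : Valued.v t < 1 := by rw [ht, map_div₀, hvp, div_one]; exact hq
  obtain ⟨f, hf, -⟩ := cube_one w h3 p hp
  obtain ⟨S, hS, hS1⟩ := hensel3 w (-(3 * t * B)) (3 * B) (-(t * B ^ 2)) 0
    (by rw [Valuation.map_neg, map_mul, map_mul, h3, hB]; simpa using hvt.le)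
    (by rw [map_mul, h3, hB, one_mul])
    (by rw [Valuation.map_neg, map_mul, map_pow, hB]; simpa using hvt.le)
    (by rw [map_zero]; exact zero_le_one)
    (by
      have : (0 : w.adicCompletion K) ^ 3 + -(3 * t * B) * 0 ^ 2 + 3 * B * 0 + -(t * B ^ 2) =
        -(t * B ^ 2) := by ring
      rw [this, Valuation.map_neg, map_mul, map_pow, hB]; simpa using hvt)
    (by
      have : 3 * (0 : w.adicCompletion K) ^ 2 + 2 * -(3 * t * B) * 0 + 3 * B = 3 * B := by ring
      rw [this, map_mul, h3, hB, one_mul])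
  rw [sub_zero] at hS1
  set s := S / B with hs
  have hSs : S = B * s := by rw [hs]; field_simp
  have hvs : Valued.v s < 1 := by rw [hs, map_div₀, hB, div_one]; exact hS1
  have hs1 : B * s ^ 3 - 3 * B * t * s ^ 2 + 3 * s - t = 0 := by
    have h : B ^ 2 * (B * s ^ 3 - 3 * B * t * s ^ 2 + 3 * s - t) = 0 := by
      rw [hSs] at hS
      linear_combination hS
    rcases mul_eq_zero.1 h with h | h
    · exact absurd (by simpa using h) hB0
    · exact h
  obtain ⟨e, he, he1⟩ := cube_one w h3 (1 + 3 * B * s ^ 2) (by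
    rw [add_sub_cancel_left, map_mul, map_mul, map_pow, h3, hB, one_mul, one_mul]
    exact pow_lt_one₀ zero_le hvs two_ne_zero)
  have he0 : e ≠ 0 := by
    have h := L6_near_one _ he1
    rintro rfl
    rw [map_zero] at h
    exact zero_ne_one h
  refine ⟨⟨f / e, f / e * s⟩, ?_⟩
  have h5 : (⟨f / e, f / e * s⟩ : QA (w.adicCompletion K) B) =
      algebraMap (w.adicCompletion K) (QA (w.adicCompletion K) B) (f / e) * ⟨1, s⟩ := by
    ext
    · simp only [QuadraticAlgebra.re_mul, QuadraticAlgebra.algebraMap_re,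
        QuadraticAlgebra.algebraMap_im]
      ring
    · simp only [QuadraticAlgebra.im_mul, QuadraticAlgebra.algebraMap_re,
        QuadraticAlgebra.algebraMap_im]
      ring
  have h6 : (f / e) ^ 3 * (1 + 3 * B * s ^ 2) = p := by
    rw [div_pow, he, hf]
    have : (1 + 3 * B * s ^ 2) ≠ 0 := by rw [← he]; exact pow_ne_zero 3 he0
    field_simp
  have h7 : (f / e) ^ 3 * (3 * s + B * s ^ 3) = q := by
    have h8 : 3 * s + B * s ^ 3 = t * (1 + 3 * B * s ^ 2) := by linear_combination hs1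
    rw [h8, mul_left_comm, h6, ht]
    field_simp
  rw [h5, mul_pow, ← map_pow]
  generalize (f / e) ^ 3 = g at h6 h7
  rw [← h6, ← h7]
  have h9 : (⟨1, s⟩ : QA (w.adicCompletion K) B) ^ 3 =
      ⟨1 + 3 * B * s ^ 2, 3 * s + B * s ^ 3⟩ := by
    rw [pow_succ, pow_two]
    ext
    · simp only [QuadraticAlgebra.re_mul, QuadraticAlgebra.im_mul]
      ring
    · simp only [QuadraticAlgebra.re_mul, QuadraticAlgebra.im_mul]
      ring
  rw [h9]
  ext
  · simp only [QuadraticAlgebra.re_mul, QuadraticAlgebra.algebraMap_re,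
      QuadraticAlgebra.algebraMap_im]
    ring
  · simp only [QuadraticAlgebra.im_mul, QuadraticAlgebra.algebraMap_re,
      QuadraticAlgebra.algebraMap_im]
    ring

theorem L6_res (x : w.adicCompletionIntegers K) :
    IsLocalRing.residue (w.adicCompletionIntegers K) x = 0 ↔
      Valued.v (x : w.adicCompletion K) < 1 := by
  rw [IsLocalRing.residue_eq_zero_iff, IsLocalRing.mem_maximalIdeal, mem_nonunits_iff]
  have hx : Valued.v (x : w.adicCompletion K) ≤ 1 :=
    (HeightOneSpectrum.mem_adicCompletionIntegers (𝓞 K) K w).1 x.2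
  constructor
  · intro h
    refine lt_of_le_of_ne hx fun h1 => h ?_
    have hx0 : (x : w.adicCompletion K) ≠ 0 := by
      intro h2
      rw [h2, map_zero] at h1
      exact zero_ne_one h1
    have h2 : (x : w.adicCompletion K)⁻¹ ∈ w.adicCompletionIntegers K := by
      rw [HeightOneSpectrum.mem_adicCompletionIntegers, map_inv₀, h1, inv_one]
    exact IsUnit.of_mul_eq_one (⟨_, h2⟩ : w.adicCompletionIntegers K)
      (Subtype.ext (mul_inv_cancel₀ hx0))
  · intro h hu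
    obtain ⟨y, hy⟩ := hu.exists_right_inv
    have hy1 : Valued.v (y : w.adicCompletion K) ≤ 1 :=
      (HeightOneSpectrum.mem_adicCompletionIntegers (𝓞 K) K w).1 y.2
    have h1 : (x : w.adicCompletion K) * (y : w.adicCompletion K) = 1 := by
      have := congrArg (fun z : w.adicCompletionIntegers K => (z : w.adicCompletion K)) hy
      exact this
    have h2 : Valued.v (x : w.adicCompletion K) * Valued.v (y : w.adicCompletion K) = 1 := by
      rw [← map_mul, h1, map_one]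
    have h3 : Valued.v (x : w.adicCompletion K) * Valued.v (y : w.adicCompletion K) < 1 := by
      calc _ ≤ Valued.v (x : w.adicCompletion K) * 1 := by gcongr
        _ < 1 := by rwa [mul_one]
    exact absurd h2 h3.ne

theorem L6_alg {k : Type} [Field k] (B a b y p q ν : k) (hν : ν = p ^ 2 - B * q ^ 2) (hν0 : ν ≠ 0)
    (γ : QA k B)
    (hγ : (⟨((a * y - B * b) * (p ^ 3 + 3 * B * p * q ^ 2) -
      B * ((b * y - a) * (3 * p ^ 2 * q + B * q ^ 3))) / ν ^ 3,
      ((b * y - a) * (p ^ 3 + 3 * B * p * q ^ 2) -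
      (a * y - B * b) * (3 * p ^ 2 * q + B * q ^ 3)) / ν ^ 3⟩ : QA k B) = γ ^ 3) :
    (⟨a, b⟩ : QA k B) * ⟨y, -1⟩ = (⟨p, q⟩ * γ) ^ 3 := by
  rw [mul_pow, ← hγ]
  have hβ4 : (⟨p, q⟩ : QA k B) ^ 3 = ⟨p ^ 3 + 3 * B * p * q ^ 2, 3 * p ^ 2 * q + B * q ^ 3⟩ := by
    rw [pow_succ, pow_two]
    ext
    · simp only [QuadraticAlgebra.re_mul, QuadraticAlgebra.im_mul]
      ring
    · simp only [QuadraticAlgebra.re_mul, QuadraticAlgebra.im_mul]
      ring
  have hcc' : (p ^ 3 + 3 * B * p * q ^ 2) ^ 2 - B * (3 * p ^ 2 * q + B * q ^ 3) ^ 2 = ν ^ 3 := by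
    rw [hν]; ring
  rw [hβ4]
  generalize p ^ 3 + 3 * B * p * q ^ 2 = u1 at *
  generalize 3 * p ^ 2 * q + B * q ^ 3 = u2 at *
  have h0 : ν ^ 3 ≠ 0 := pow_ne_zero 3 hν0
  generalize ν ^ 3 = N at *
  ext
  · simp only [QuadraticAlgebra.re_mul]
    field_simp
    rw [← hcc']
    ring
  · simp only [QuadraticAlgebra.im_mul]
    field_simp
    rw [← hcc']
    ring

theorem L6_abs {k : Type} [Field k] {Γ : Type*} [LinearOrderedCommGroupWithZero Γ]
    (v : Valuation k Γ) (k' : Type) [Field k'] [Finite k'] (O : Subring k)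
    (hO : ∀ x : k, x ∈ O ↔ v x ≤ 1) (φ : O →+* k') (hsurj : Function.Surjective φ)
    (hφ : ∀ x : O, φ x = 0 ↔ v (x : k) < 1)
    (h2 : v 2 = 1) (h3 : v 3 = 1) (B c : k) (hc : c ^ 3 = B) (hB : v B = 1)
    (hens : ∀ r s0 : k, v r ≤ 1 → v s0 = 1 → v (s0 ^ 3 + r) < 1 →
      ∃ s : k, s ^ 3 + r = 0 ∧ v (s - s0) < 1)
    (small : ∀ p q : k, v (p - 1) < 1 → v q < 1 → ∃ β : QA k B, (⟨p, q⟩ : QA k B) = β ^ 3)
    (a b n : k) (ha : v a ≤ 1) (hb : v b ≤ 1) (hn : a ^ 2 - B * b ^ 2 = n ^ 3) (hn1 : v n = 1) :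
    LIp k B a b := by
  have hvc : v c = 1 := by
    have h : v c ^ 3 = 1 := by rw [← map_pow, hc, hB]
    exact (pow_eq_one_iff.1 h).resolve_right (by norm_num)
  have hint (x : O) : v (x : k) ≤ 1 := (hO _).1 x.2
  have hφ1 (x : O) (hx : v (x : k) = 1) : φ x ≠ 0 := by
    intro h
    rw [hφ, hx] at h
    exact lt_irrefl _ h
  have hφ2 (x : O) (hx : φ x ≠ 0) : v (x : k) = 1 := by
    refine le_antisymm (hint x) (not_lt.1 fun h => hx ((hφ x).2 h))
  obtain ⟨B1, hB1e⟩ : ∃ x : O, (x : k) = B := ⟨⟨B, (hO _).2 hB.le⟩, rfl⟩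
  obtain ⟨c1, hc1e⟩ : ∃ x : O, (x : k) = c := ⟨⟨c, (hO _).2 hvc.le⟩, rfl⟩
  obtain ⟨a1, ha1e⟩ : ∃ x : O, (x : k) = a := ⟨⟨a, (hO _).2 ha⟩, rfl⟩
  obtain ⟨b1, hb1e⟩ : ∃ x : O, (x : k) = b := ⟨⟨b, (hO _).2 hb⟩, rfl⟩
  obtain ⟨n1, hn1e⟩ : ∃ x : O, (x : k) = n := ⟨⟨n, (hO _).2 hn1.le⟩, rfl⟩
  subst hB1e hc1e ha1e hb1e hn1e
  have hc1 : c1 ^ 3 = B1 := Subtype.ext (by push_cast; exact hc)
  have hn1' : a1 ^ 2 - B1 * b1 ^ 2 = n1 ^ 3 := Subtype.ext (by push_cast; exact hn)
  have hB1 : φ B1 ≠ 0 := hφ1 _ hB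
  have hnn : (⟨φ a1, φ b1⟩ : QA k' (φ B1)).norm = φ n1 ^ 3 := by
    rw [← map_pow, ← hn1', QuadraticAlgebra.norm_def]
    simp only [map_sub, map_mul, map_pow]
    ring
  obtain ⟨x', y', hxy', hx', β', hβ'⟩ := ff_lemma k'
    (by
      have h := hφ1 2 (by push_cast; exact h2)
      rwa [map_ofNat] at h)
    (by
      have h := hφ1 3 (by push_cast; exact h3)
      rwa [map_ofNat] at h) (φ B1) (φ c1) hB1 (by rw [← map_pow, hc1])
    ⟨φ a1, φ b1⟩ (φ n1) hnn (hφ1 _ hn1)
  obtain ⟨y, rfl⟩ := hsurj y'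
  obtain ⟨x0, rfl⟩ := hsurj x'
  obtain ⟨p, hp⟩ := hsurj β'.re
  obtain ⟨q, hq⟩ := hsurj β'.im
  -- the point
  have hvx0 : v (x0 : k) = 1 := hφ2 _ hx'
  obtain ⟨x, hx, hxx⟩ := hens ((B1 - y ^ 2 : O) : k) (x0 : k) (hint (B1 - y ^ 2)) hvx0
    (by
      have h : φ (x0 ^ 3 + (B1 - y ^ 2)) = 0 := by
        simp only [map_add, map_sub, map_pow]
        rw [hxy']
        ring
      rw [hφ] at h
      push_cast at h ⊢
      exact h)
  push_cast at hx
  have hx3 : (y : k) ^ 2 = x ^ 3 + B1 := by linear_combination -hx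
  have hvx : v x = 1 := by
    have h := Valuation.map_add_eq_of_lt_right v
      (x := x - x0) (y := x0) (by rw [hvx0]; exact hxx)
    rw [sub_add_cancel, hvx0] at h
    exact h
  have hx0 : x ≠ 0 := by
    rintro rfl
    rw [map_zero] at hvx
    exact zero_ne_one hvx
  -- the norm of (p, q)
  obtain ⟨ν, hν⟩ : ∃ ν : O, ν = p ^ 2 - B1 * q ^ 2 := ⟨_, rfl⟩
  have hνu : v (ν : k) = 1 := by
    apply hφ2
    intro h
    have h4 : (β' ^ 3).norm = 0 := by
      rw [map_pow]
      have : β'.norm = φ ν := by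
        rw [QuadraticAlgebra.norm_def, ← hp, ← hq, hν]
        simp only [map_sub, map_mul, map_pow]
        ring
      rw [this, h]
      ring
    rw [← hβ', map_mul, hnn] at h4
    rcases mul_eq_zero.1 h4 with h5 | h5
    · exact hφ1 n1 hn1 (by simpa using h5)
    · rw [QuadraticAlgebra.norm_def] at h5
      have h6 : φ x0 ^ 3 = 0 := by
        have : φ y ^ 2 - φ B1 = 0 := by
          rw [← h5]
          ring
        rw [hxy'] at this
        linear_combination this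
      exact hx' (by simpa using h6)
  have hν0 : (ν : k) ≠ 0 := by
    intro h
    rw [h, map_zero] at hνu
    exact zero_ne_one hνu
  -- the difference of m κ and (p, q) ^ 3
  obtain ⟨r1, hr1⟩ : ∃ r : O, r = a1 * y - B1 * b1 := ⟨_, rfl⟩
  obtain ⟨r2, hr2⟩ : ∃ r : O, r = b1 * y - a1 := ⟨_, rfl⟩
  obtain ⟨u1, hu1⟩ : ∃ r : O, r = p ^ 3 + 3 * B1 * p * q ^ 2 := ⟨_, rfl⟩
  obtain ⟨u2, hu2⟩ : ∃ r : O, r = 3 * p ^ 2 * q + B1 * q ^ 3 := ⟨_, rfl⟩
  have hβ3 : β' ^ 3 = ⟨φ u1, φ u2⟩ := by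
    rw [pow_succ, pow_two]
    ext
    · simp only [QuadraticAlgebra.re_mul, QuadraticAlgebra.im_mul, ← hp, ← hq, hu1, map_add,
        map_mul, map_pow, map_ofNat]
      ring
    · simp only [QuadraticAlgebra.re_mul, QuadraticAlgebra.im_mul, ← hp, ← hq, hu2, map_add,
        map_mul, map_pow, map_ofNat]
      ring
  have hd1 : φ (r1 - u1) = 0 := by
    have h := congrArg QuadraticAlgebra.re hβ'
    rw [hβ3, QuadraticAlgebra.re_mul] at h
    have h' : φ a1 * φ y + φ B1 * φ b1 * -1 = φ u1 := h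
    rw [map_sub, ← h', hr1]
    simp only [map_sub, map_mul]
    ring
  have hd2 : φ (r2 - u2) = 0 := by
    have h := congrArg QuadraticAlgebra.im hβ'
    rw [hβ3, QuadraticAlgebra.im_mul] at h
    have h' : φ a1 * -1 + φ b1 * φ y + 0 * φ b1 * -1 = φ u2 := h
    rw [map_sub, ← h', hr2]
    simp only [map_sub, map_mul]
    ring
  -- the quotient: (r1, r2) (u1, -u2) / ν^3
  have hcc : u1 ^ 2 - B1 * u2 ^ 2 = ν ^ 3 := by rw [hu1, hu2, hν]; ring
  have hm1 : φ (r1 * u1 - B1 * (r2 * u2) - ν ^ 3) = 0 := by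
    have e : r1 * u1 - B1 * (r2 * u2) - ν ^ 3 = (r1 - u1) * u1 - B1 * ((r2 - u2) * u2) := by
      rw [← hcc]; ring
    rw [e, map_sub, map_mul, hd1, map_mul, map_mul, hd2]
    ring
  have hm2 : φ (r2 * u1 - r1 * u2) = 0 := by
    have e : r2 * u1 - r1 * u2 = (r2 - u2) * u1 - (r1 - u1) * u2 := by ring
    rw [e, map_sub, map_mul φ (r2 - u2), map_mul φ (r1 - u1), hd1, hd2]
    ring
  rw [hφ] at hm1 hm2
  push_cast at hm1 hm2
  obtain ⟨γ, hγ⟩ := small
    (((r1 : k) * u1 - B1 * (r2 * u2)) / (ν : k) ^ 3)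
    (((r2 : k) * u1 - r1 * u2) / (ν : k) ^ 3)
    (by
      have e : ((r1 : k) * u1 - B1 * (r2 * u2)) / (ν : k) ^ 3 - 1 =
        ((r1 : k) * u1 - B1 * (r2 * u2) - ν ^ 3) / (ν : k) ^ 3 := by
        field_simp
      rw [e, map_div₀, map_pow, hνu, one_pow, div_one]
      exact hm1)
    (by
      rw [map_div₀, map_pow, hνu, one_pow, div_one]
      exact hm2)
  have e1 : (ν : k) = (p : k) ^ 2 - B1 * (q : k) ^ 2 := by rw [hν]; push_cast; rfl
  have e2 : (r1 : k) = a1 * y - B1 * b1 := by rw [hr1]; push_cast; rfl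
  have e3 : (r2 : k) = b1 * y - a1 := by rw [hr2]; push_cast; rfl
  have e4 : (u1 : k) = p ^ 3 + 3 * B1 * p * q ^ 2 := by rw [hu1]; push_cast; rfl
  have e5 : (u2 : k) = 3 * p ^ 2 * q + B1 * q ^ 3 := by rw [hu2]; push_cast; rfl
  rw [e2, e3, e4, e5] at hγ
  exact ⟨x, y, hx3, hx0, _, L6_alg (B1 : k) a1 b1 y p q ν e1 hν0 γ hγ⟩

theorem li_good (h2 : Valued.v (2 : w.adicCompletion K) = 1)
    (h3 : Valued.v (3 : w.adicCompletion K) = 1) (B c : w.adicCompletion K)
    (hc : c ^ 3 = B) (hB : Valued.v B = 1) (a b n : w.adicCompletion K) (ha : Valued.v a ≤ 1)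
    (hb : Valued.v b ≤ 1) (hn : a ^ 2 - B * b ^ 2 = n ^ 3) (hn1 : Valued.v n = 1) :
    LIp (w.adicCompletion K) B a b := by
  have hfin : Finite (IsLocalRing.ResidueField (w.adicCompletionIntegers K)) :=
    H16A.finite_residueField w
  have hens : ∀ r s0 : w.adicCompletion K, Valued.v r ≤ 1 → Valued.v s0 = 1 →
      Valued.v (s0 ^ 3 + r) < 1 →
      ∃ s : w.adicCompletion K, s ^ 3 + r = 0 ∧ Valued.v (s - s0) < 1 := by
    intro r s0 hr hs0 h
    obtain ⟨s, hs, hs'⟩ := hensel3 w 0 0 r s0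
      (by rw [map_zero]; exact zero_le_one) (by rw [map_zero]; exact zero_le_one)
      hr hs0.le
      (by
        have e : s0 ^ 3 + 0 * s0 ^ 2 + 0 * s0 + r = s0 ^ 3 + r := by ring
        rw [e]
        exact h)
      (by
        have e : 3 * s0 ^ 2 + 2 * 0 * s0 + 0 = 3 * s0 ^ 2 := by ring
        rw [e, map_mul, map_pow, h3, hs0, one_mul, one_pow])
    exact ⟨s, by linear_combination hs, hs'⟩
  have hs : Function.Surjective (IsLocalRing.residue (w.adicCompletionIntegers K)) :=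
    IsLocalRing.residue_surjective
  have hr := L6_res (K := K) w
  exact L6_abs (k := w.adicCompletion K) (Valued.v (R := w.adicCompletion K))
    (IsLocalRing.ResidueField (w.adicCompletionIntegers K))
    (w.adicCompletionIntegers K).toSubring
    (fun x => HeightOneSpectrum.mem_adicCompletionIntegers (𝓞 K) K w)
    (IsLocalRing.residue (w.adicCompletionIntegers K)) hs hr h2 h3 B c hc hB hens
    (fun p q hp hq => cube_small w h3 B hB p q hp hq) a b n ha hb hn hn1

end H35X
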