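import Mathlib
import Pool.Agent.Lib.H13E.S2Gen
import Pool.Agent.Lib.H19X.Va
import Pool.Agent.Lib.H35X.G2
import Pool.Agent.Lib.H35X.L3
import Pool.Agent.Lib.H35X.L4
import Pool.Agent.Lib.H35X.L6

open NumberField IsDedekindDomain Polynomial

namespace H35X

open H55B H35T H13E

/-! Chunk G3 (M): from Cnd3 to the Selmer groups. Let k = K_w, f = algebraMap K k, valued_alg (H19X / H16A: Valued.v (algebraMap x) = w.valuation x). m = b0^3 z in N;
in coordinates (qaN_inj, z = (a', b'), b0 = (p, q)): (a, b) = (a', b') (p, q)^3 in QA K B, apply qaMap B f; li_mul. z T z = m T m/(b0 T b0)^3 is the cube of an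
element n' of K (norm_mk). Case w not above 6: choose k(P) from Cnd3.val, b0 with P.valuation b0 = exp (k P) for P above w
(H19X.exists_val, H19X.Va_finite as in H19X.exists_half); z has valuation 1 at all P above w; coord_le with c = 1; v(B) = 1 (B = -1 or 27); v(n') = 1
(valuation of z T z); li_good with c = -1 resp. 3. Case 3 in w: b0 from Cnd3.three, coord_le for z - 1 = (a' - 1) + b' t and c = 3, li_three. Case 2
in w: cube_two (B1 = -1 resp. 6) and li_of_cube. (6 in w: 2 or 3 in w.) sel_of_cnd: of a + of b root is a unit and its norm is a^2 + b^2 = n^3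
(H35T.A18_norm), resp. a^2 - 27 b^2 (H13E.S2Gen); qmap, emap on of, root (AdjoinRoot.map_of, map_root); locIm_of_li with ((-1 : ℤ) : k) = -1. cube_of_sel: apply
AdjoinRoot.lift (algebraMap K N) t : Qd K -> N. -/

section nat

variable {M : Type} [Field M] [NumberField M] (P : HeightOneSpectrum (𝓞 M))

theorem g3_nat_lt (n : ℕ) : P.valuation M (n : M) < 1 ↔ (n : 𝓞 M) ∈ P.asIdeal := by
  have e : algebraMap (𝓞 M) M (n : 𝓞 M) = (n : M) := map_natCast _ n
  have h := HeightOneSpectrum.valuation_lt_one_iff_mem (K := M) P (n : 𝓞 M)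
  change P.valuation M (algebraMap (𝓞 M) M (n : 𝓞 M)) < 1 ↔ _ at h
  rwa [e] at h

theorem g3_nat_le (n : ℕ) : P.valuation M (n : M) ≤ 1 := by
  have h := P.valuation_le_one (K := M) (n : 𝓞 M)
  have e : algebraMap (𝓞 M) M (n : 𝓞 M) = (n : M) := map_natCast _ n
  change P.valuation M (algebraMap (𝓞 M) M (n : 𝓞 M)) ≤ 1 at h
  rwa [e] at h

theorem g3_nat_one (n : ℕ) (h : (n : 𝓞 M) ∉ P.asIdeal) : P.valuation M (n : M) = 1 := by
  refine le_antisymm (g3_nat_le P n) ?_
  rw [← not_lt, g3_nat_lt]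
  exact h

theorem g3_cast (n : ℕ) : Valued.v (n : P.adicCompletion M) = P.valuation M (n : M) := by
  have e : (n : P.adicCompletion M) = algebraMap M _ (n : M) := (map_natCast _ n).symm
  rw [e, H55C.valued_alg]

end nat

section unit

variable {k : Type} [Field k] {f : k[X]} {c : k}

theorem g3_unit (hf : f = X ^ 2 + C c) (a b : k) (h : a ^ 2 + c * b ^ 2 ≠ 0) :
    IsUnit (AdjoinRoot.of f a + AdjoinRoot.of f b * AdjoinRoot.root f) := by
  have h1 : (AdjoinRoot.of f a + AdjoinRoot.of f b * AdjoinRoot.root f) *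
      (AdjoinRoot.of f a - AdjoinRoot.of f b * AdjoinRoot.root f) =
      AdjoinRoot.of f (a ^ 2 + c * b ^ 2) := by
    have h2 := SG_root hf
    rw [map_add, map_mul, map_pow, map_pow]
    linear_combination (-(AdjoinRoot.of f b) ^ 2) * h2
  have h2 : IsUnit (AdjoinRoot.of f (a ^ 2 + c * b ^ 2)) := (isUnit_iff_ne_zero.2 h).map _
  rw [← h1] at h2
  exact isUnit_of_mul_isUnit_left h2

end unit

variable {B : ℤ} {K N : Type} [Field K] [NumberField K] [Field N] [NumberField N] [Algebra K N]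
  {t : N} {T : N ≃ₐ[K] N}

theorem g3_above {w : HeightOneSpectrum (𝓞 K)} {P : HeightOneSpectrum (𝓞 N)}
    (hP : w.asIdeal = P.asIdeal.under (𝓞 K)) (n : ℕ) :
    (n : 𝓞 N) ∈ P.asIdeal ↔ (n : 𝓞 K) ∈ w.asIdeal := by
  rw [hP, Ideal.under_def, Ideal.mem_comap, map_natCast]

theorem g3_norm (h : QN B K N t T) (a b n : K)
    (hn : (algebraMap K N a + algebraMap K N b * t) * T (algebraMap K N a + algebraMap K N b * t) =
      algebraMap K N n ^ 3) : a ^ 2 - B * b ^ 2 = n ^ 3 := by
  rw [h.norm_mk, ← map_pow] at hn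
  exact (algebraMap K N).injective hn

theorem g3_norm' (h : QN B K N t T) (m b0 : N) (hb0 : b0 ≠ 0) (hn : ∃ n : K, m * T m = algebraMap K N n ^ 3)
    (a b : K) (hz : m / b0 ^ 3 = algebraMap K N a + algebraMap K N b * t) :
    ∃ n : K, a ^ 2 - B * b ^ 2 = n ^ 3 := by
  obtain ⟨n, hn⟩ := hn
  obtain ⟨p, q, hpq⟩ := h.span b0
  have h1 : b0 * T b0 = algebraMap K N (p ^ 2 - B * q ^ 2) := by
    rw [hpq]
    exact h.norm_mk p q
  have hT0 : T b0 ≠ 0 := by
    rw [Ne, map_eq_zero]
    exact hb0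
  refine ⟨n / (p ^ 2 - B * q ^ 2), ?_⟩
  apply g3_norm h
  rw [← hz, map_div₀, map_pow, map_div₀, ← h1, div_mul_div_comm, hn, ← mul_pow, div_pow]

theorem g3_scale (h : QN B K N t T) (hB : B ≠ 0) (w : HeightOneSpectrum (𝓞 K)) (a b a' b' : K) (b0 : N)
    (hb0 : b0 ≠ 0)
    (hz : (algebraMap K N a + algebraMap K N b * t) / b0 ^ 3 = algebraMap K N a' + algebraMap K N b' * t)
    (hli : LIp (w.adicCompletion K) (B : w.adicCompletion K) (algebraMap K (w.adicCompletion K) a')
      (algebraMap K (w.adicCompletion K) b')) :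
    LIp (w.adicCompletion K) (B : w.adicCompletion K) (algebraMap K (w.adicCompletion K) a)
      (algebraMap K (w.adicCompletion K) b) := by
  obtain ⟨p, q, hpq⟩ := h.span b0
  have h1 : (⟨a, b⟩ : QA K (B : K)) = ⟨a', b'⟩ * ⟨p, q⟩ ^ 3 := by
    apply qaN_inj h hB
    rw [map_mul, map_pow, qaN_mk, qaN_mk, qaN_mk, ← hpq, ← hz, div_mul_cancel₀ _ (pow_ne_zero 3 hb0)]
  have h2 := congrArg (qaMap B (algebraMap K (w.adicCompletion K))) h1
  rw [map_mul, map_pow, qaMap_mk, qaMap_mk, qaMap_mk] at h2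
  unfold LIp
  rw [h2]
  exact li_mul hli ⟨_, rfl⟩

theorem g3_int (h : QN B K N t T) (hB : B ≠ 0) (w : HeightOneSpectrum (𝓞 K))
    (h2 : (2 : 𝓞 K) ∉ w.asIdeal) (hBw : w.valuation K (B : K) = 1) (a b : K)
    (hz : ∀ P : HeightOneSpectrum (𝓞 N), w.asIdeal = P.asIdeal.under (𝓞 K) →
      P.valuation N (algebraMap K N a + algebraMap K N b * t) ≤ 1) :
    w.valuation K a ≤ 1 ∧ w.valuation K b ≤ 1 ∧ w.valuation K (a ^ 2 - B * b ^ 2) ≤ 1 := by
  obtain ⟨h3, h4⟩ := h.coord_le hB w h2 a b 1 (fun P hP => by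
    rw [map_one, map_one]
    exact hz P hP)
  rw [map_one] at h3
  rw [one_pow, map_one, map_mul, hBw, one_mul, map_pow] at h4
  have h5 : w.valuation K b ≤ 1 := (pow_le_one_iff_of_nonneg zero_le two_ne_zero).1 h4
  refine ⟨h3, h5, ?_⟩
  refine Valuation.map_sub_le _ ?_ ?_
  · rw [map_pow]
    exact pow_le_one' h3 2
  · rw [map_mul, hBw, one_mul, map_pow]
    exact h4

theorem g3_norm_one (h : QN B K N t T) (hB : B ≠ 0) (w : HeightOneSpectrum (𝓞 K))
    (h2 : (2 : 𝓞 K) ∉ w.asIdeal) (hBw : w.valuation K (B : K) = 1) (a b : K)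
    (hz0 : algebraMap K N a + algebraMap K N b * t ≠ 0)
    (hz : ∀ P : HeightOneSpectrum (𝓞 N), w.asIdeal = P.asIdeal.under (𝓞 K) →
      P.valuation N (algebraMap K N a + algebraMap K N b * t) = 1) :
    w.valuation K (a ^ 2 - B * b ^ 2) = 1 := by
  obtain ⟨c, d, hcd⟩ := h.span (algebraMap K N a + algebraMap K N b * t)⁻¹
  have h3 := (g3_int h hB w h2 hBw a b fun P hP => (hz P hP).le).2.2
  have h4 := (g3_int h hB w h2 hBw c d fun P hP => by
    rw [← hcd, map_inv₀, hz P hP, inv_one]).2.2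
  have h5 : (a ^ 2 - B * b ^ 2) * (c ^ 2 - B * d ^ 2) = 1 := by
    apply (algebraMap K N).injective
    rw [map_mul, ← h.norm_mk, ← h.norm_mk, ← hcd, map_one, map_inv₀]
    have hT0 : T (algebraMap K N a + algebraMap K N b * t) ≠ 0 := by
      rw [Ne, map_eq_zero]
      exact hz0
    field_simp
  have h6 := congrArg (w.valuation K) h5
  rw [map_mul, map_one] at h6
  refine le_antisymm h3 ?_
  calc (1 : WithZero (Multiplicative ℤ)) =
      w.valuation K (a ^ 2 - B * b ^ 2) * w.valuation K (c ^ 2 - B * d ^ 2) := h6.symm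
    _ ≤ w.valuation K (a ^ 2 - B * b ^ 2) * 1 := mul_le_mul' le_rfl h4
    _ = _ := mul_one _

theorem g3_fB (w : HeightOneSpectrum (𝓞 K)) (B : ℤ) :
    algebraMap K (w.adicCompletion K) (B : K) = (B : w.adicCompletion K) := map_intCast _ B

theorem g3_fnorm (w : HeightOneSpectrum (𝓞 K)) (B : ℤ) {a b n : K} (h : a ^ 2 - B * b ^ 2 = n ^ 3) :
    (algebraMap K (w.adicCompletion K) a) ^ 2 -
      (B : w.adicCompletion K) * (algebraMap K (w.adicCompletion K) b) ^ 2 =
      (algebraMap K (w.adicCompletion K) n) ^ 3 := by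
  rw [← g3_fB, ← map_pow, ← map_pow, ← map_pow, ← map_mul, ← map_sub, h]

theorem li_of_cnd (hB : B = -1 ∨ B = 27) (h : QN B K N t T) (h2 : H19X.UnrTwo K) (a b : K)
    (hm : Cnd3 K N T (algebraMap K N a + algebraMap K N b * t)) (w : HeightOneSpectrum (𝓞 K)) :
    LIp (w.adicCompletion K) (B : w.adicCompletion K) (algebraMap K (w.adicCompletion K) a)
      (algebraMap K (w.adicCompletion K) b) := by
  classical
  have hB0 : B ≠ 0 := by
    rcases hB with rfl | rfl
    · norm_num
    · norm_num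
  have hcz : CharZero (w.adicCompletion K) :=
    charZero_of_injective_algebraMap (algebraMap K (w.adicCompletion K)).injective
  have hBk : (B : w.adicCompletion K) ≠ 0 := Int.cast_ne_zero.2 hB0
  obtain ⟨c, hc⟩ : ∃ c : w.adicCompletion K, c ^ 3 = (B : w.adicCompletion K) := by
    rcases hB with rfl | rfl
    · exact ⟨-1, by push_cast; ring⟩
    · exact ⟨3, by push_cast; norm_num⟩
  obtain ⟨n, hn⟩ := hm.norm
  have hnorm := g3_norm h a b n hn
  have hn0 : n ≠ 0 := by
    rintro rfl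
    rw [map_zero, zero_pow three_ne_zero] at hn
    rcases mul_eq_zero.1 hn with h' | h'
    · exact hm.ne h'
    · rw [map_eq_zero] at h'
      exact hm.ne h'
  have hpr := w.isPrime
  by_cases c2 : (2 : 𝓞 K) ∈ w.asIdeal
  · -- above 2
    have hv2 : Valued.v (2 : w.adicCompletion K) = WithZero.exp (-1 : ℤ) := by
      have e := g3_cast w 2
      rw [Nat.cast_ofNat, Nat.cast_ofNat] at e
      rw [e]
      exact h2 w c2
    obtain ⟨B1, hB1, hB1v⟩ : ∃ B1 : w.adicCompletion K, (B : w.adicCompletion K) = 3 + 4 * B1 ∧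
        Valued.v B1 ≤ 1 := by
      rcases hB with rfl | rfl
      · refine ⟨-1, by push_cast; ring, ?_⟩
        rw [Valuation.map_neg, map_one]
      · refine ⟨6, by push_cast; norm_num, ?_⟩
        have e := g3_cast w 6
        rw [Nat.cast_ofNat, Nat.cast_ofNat] at e
        rw [e]
        exact_mod_cast g3_nat_le w 6
    apply li_of_cube hc hBk
    refine cube_two w hv2 _ B1 c hB1 hB1v hc _ (algebraMap K (w.adicCompletion K) n) ?_ ?_
    · rw [QuadraticAlgebra.norm_def, ← g3_fnorm w B hnorm]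
      ring
    · rw [Ne, map_eq_zero]
      exact hn0
  by_cases c3 : (3 : 𝓞 K) ∈ w.asIdeal
  · -- above 3
    obtain ⟨b0, hb0, hb0v⟩ := hm.three
    obtain ⟨a', b', hz⟩ := h.span ((algebraMap K N a + algebraMap K N b * t) / b0 ^ 3)
    obtain ⟨n', hn'⟩ := g3_norm' h _ b0 hb0 hm.norm a' b' hz
    obtain ⟨h3, h4⟩ := h.coord_le hB0 w c2 (a' - 1) b' 3 (fun P hP => by
      have h5 := hb0v P (by
        have := (g3_above hP 3).2 (by exact_mod_cast c3)
        exact_mod_cast this)
      rw [hz] at h5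
      have e1 : algebraMap K N (a' - 1) + algebraMap K N b' * t =
          algebraMap K N a' + algebraMap K N b' * t - 1 := by
        rw [map_sub, map_one]
        ring
      rw [e1, map_ofNat]
      exact h5)
    have hv3 : Valued.v (3 : w.adicCompletion K) = w.valuation K (3 : K) := by
      have e := g3_cast w 3
      rwa [Nat.cast_ofNat, Nat.cast_ofNat] at e
    apply g3_scale h hB0 w a b a' b' b0 hb0 hz
    refine li_three w ?_ _ c hc hBk _ _ _ (g3_fnorm w B hn') ?_ ?_
    · rw [hv3]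
      have := (g3_nat_lt w 3).2 (by exact_mod_cast c3)
      exact_mod_cast this
    · rw [← map_one (algebraMap K (w.adicCompletion K)), ← map_sub, H55C.valued_alg, hv3]
      exact h3
    · have hv9 : Valued.v (9 : w.adicCompletion K) = w.valuation K (9 : K) := by
        have e := g3_cast w 9
        rwa [Nat.cast_ofNat, Nat.cast_ofNat] at e
      rw [← g3_fB, ← map_pow, ← map_mul, H55C.valued_alg, hv9]
      have e9 : (9 : K) = 3 ^ 2 := by norm_num
      rw [e9]
      exact h4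
  · -- good places
    have hv2 : w.valuation K (2 : K) = 1 := by
      have := g3_nat_one w 2 (by exact_mod_cast c2)
      exact_mod_cast this
    have hv3 : w.valuation K (3 : K) = 1 := by
      have := g3_nat_one w 3 (by exact_mod_cast c3)
      exact_mod_cast this
    have hV2 : Valued.v (2 : w.adicCompletion K) = 1 := by
      have e := g3_cast w 2
      rw [Nat.cast_ofNat, Nat.cast_ofNat] at e
      rw [e, hv2]
    have hV3 : Valued.v (3 : w.adicCompletion K) = 1 := by
      have e := g3_cast w 3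
      rw [Nat.cast_ofNat, Nat.cast_ofNat] at e
      rw [e, hv3]
    have hBw : w.valuation K (B : K) = 1 := by
      rcases hB with rfl | rfl
      · push_cast
        rw [Valuation.map_neg, map_one]
      · have e : (((27 : ℤ) : K)) = 3 ^ 3 := by
          push_cast
          norm_num
        rw [e, map_pow, hv3, one_pow]
    have hBW : Valued.v (B : w.adicCompletion K) = 1 := by
      rw [← g3_fB, H55C.valued_alg, hBw]
    choose! k hk using hm.val
    obtain ⟨b0, hb0, hb0v⟩ := H19X.exists_val (H19X.Va_finite (N := N) w).toFinset k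
    have h6 : ∀ P : HeightOneSpectrum (𝓞 N), w.asIdeal = P.asIdeal.under (𝓞 K) →
        (6 : 𝓞 N) ∉ P.asIdeal := by
      intro P hP h6
      have h7 : (6 : 𝓞 K) ∈ w.asIdeal := by
        have := (g3_above hP 6).1 (by exact_mod_cast h6)
        exact_mod_cast this
      have e : (6 : 𝓞 K) = 2 * 3 := by norm_num
      rw [e] at h7
      rcases hpr.mem_or_mem h7 with h' | h'
      · exact c2 h'
      · exact c3 h'
    have hz1 : ∀ P : HeightOneSpectrum (𝓞 N), w.asIdeal = P.asIdeal.under (𝓞 K) →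
        P.valuation N ((algebraMap K N a + algebraMap K N b * t) / b0 ^ 3) = 1 := by
      intro P hP
      have e1 := hb0v P ((Set.Finite.mem_toFinset _).2 hP)
      rw [map_div₀, map_pow, e1, hk P (h6 P hP), ← WithZero.exp_nsmul, nsmul_eq_mul,
        Nat.cast_ofNat]
      exact div_self WithZero.exp_ne_zero
    obtain ⟨a', b', hz⟩ := h.span ((algebraMap K N a + algebraMap K N b * t) / b0 ^ 3)
    obtain ⟨n', hn'⟩ := g3_norm' h _ b0 hb0 hm.norm a' b' hz
    have hz0 : algebraMap K N a' + algebraMap K N b' * t ≠ 0 := by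
      rw [← hz]
      exact div_ne_zero hm.ne (pow_ne_zero 3 hb0)
    rw [hz] at hz1
    obtain ⟨i1, i2, -⟩ := g3_int h hB0 w c2 hBw a' b' fun P hP => (hz1 P hP).le
    have i3 := g3_norm_one h hB0 w c2 hBw a' b' hz0 hz1
    rw [hn', map_pow] at i3
    have i4 : w.valuation K n' = 1 := (pow_eq_one_iff.1 i3).resolve_right three_ne_zero
    apply g3_scale h hB0 w a b a' b' b0 hb0 hz
    refine li_good w hV2 hV3 _ c hc hBW _ _ (algebraMap K (w.adicCompletion K) n') ?_ ?_
      (g3_fnorm w B hn') ?_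
    · rw [H55C.valued_alg]
      exact i1
    · rw [H55C.valued_alg]
      exact i2
    · rw [H55C.valued_alg]
      exact i4

theorem sel_of_cnd (h : QN (-1) K N t T) (h2 : H19X.UnrTwo K) (a b : K)
    (hm : Cnd3 K N T (algebraMap K N a + algebraMap K N b * t)) :
    (AdjoinRoot.of _ a + AdjoinRoot.of _ b * AdjoinRoot.root _ : Qd K) ∈ Sel K := by
  obtain ⟨n, hn⟩ := hm.norm
  have hnorm := g3_norm h a b n hn
  have hn0 : n ≠ 0 := by
    rintro rfl
    rw [map_zero, zero_pow three_ne_zero] at hn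
    rcases mul_eq_zero.1 hn with h' | h'
    · exact hm.ne h'
    · rw [map_eq_zero] at h'
      exact hm.ne h'
  have hnorm2 : a ^ 2 + 1 * b ^ 2 = n ^ 3 := by
    rw [← hnorm]
    push_cast
    ring
  refine ⟨g3_unit (f := X ^ 2 + C 1) (c := 1) rfl a b ?_, ⟨n, ?_⟩, ?_⟩
  · rw [hnorm2]
    exact pow_ne_zero 3 hn0
  · rw [SG_norm (f := X ^ 2 + C 1) (c := 1) rfl, hnorm2]
  · intro w
    have h1 := li_of_cnd (Or.inl rfl) h h2 a b hm w
    have e1 : (((-1 : ℤ) : w.adicCompletion K)) = -1 := by push_cast; rfl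
    rw [e1] at h1
    have h3 := locIm_of_li h1
    have e2 : qmap (algebraMap K (w.adicCompletion K))
        (AdjoinRoot.of _ a + AdjoinRoot.of _ b * AdjoinRoot.root _ : Qd K) =
        AdjoinRoot.of _ (algebraMap K (w.adicCompletion K) a) +
          AdjoinRoot.of _ (algebraMap K (w.adicCompletion K) b) * AdjoinRoot.root _ := by
      unfold qmap
      rw [map_add, map_mul, AdjoinRoot.map_of, AdjoinRoot.map_of, AdjoinRoot.map_root]
    rw [e2]
    exact h3

theorem selE_of_cnd (h : QN 27 K N t T) (h2 : H19X.UnrTwo K) (a b : K)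
    (hm : Cnd3 K N T (algebraMap K N a + algebraMap K N b * t)) :
    (AdjoinRoot.of _ a + AdjoinRoot.of _ b * AdjoinRoot.root _ : Qe K) ∈ SelE K := by
  obtain ⟨n, hn⟩ := hm.norm
  have hnorm := g3_norm h a b n hn
  have hn0 : n ≠ 0 := by
    rintro rfl
    rw [map_zero, zero_pow three_ne_zero] at hn
    rcases mul_eq_zero.1 hn with h' | h'
    · exact hm.ne h'
    · rw [map_eq_zero] at h'
      exact hm.ne h'
  have hf : (X ^ 2 - C 27 : K[X]) = X ^ 2 + C (-27) := by
    rw [map_neg, sub_eq_add_neg]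
  have hnorm2 : a ^ 2 + (-27) * b ^ 2 = n ^ 3 := by
    rw [← hnorm]
    push_cast
    ring
  refine ⟨g3_unit (f := X ^ 2 - C 27) (c := -27) hf a b ?_, ⟨n, ?_⟩, ?_⟩
  · rw [hnorm2]
    exact pow_ne_zero 3 hn0
  · rw [SG_norm (f := X ^ 2 - C 27) (c := -27) hf, hnorm2]
  · intro w
    have h1 := li_of_cnd (Or.inr rfl) h h2 a b hm w
    have e1 : (((27 : ℤ) : w.adicCompletion K)) = 27 := by push_cast; rfl
    rw [e1] at h1
    have h3 := locImE_of_li h1
    have e2 : emap (algebraMap K (w.adicCompletion K))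
        (AdjoinRoot.of _ a + AdjoinRoot.of _ b * AdjoinRoot.root _ : Qe K) =
        AdjoinRoot.of _ (algebraMap K (w.adicCompletion K) a) +
          AdjoinRoot.of _ (algebraMap K (w.adicCompletion K) b) * AdjoinRoot.root _ := by
      unfold emap
      rw [map_add, map_mul, AdjoinRoot.map_of, AdjoinRoot.map_of, AdjoinRoot.map_root]
    rw [e2]
    exact h3

/-- If the Selmer group is trivial then the elements with Cnd3 are cubes. -/
theorem cube_of_cnd (h : QN (-1) K N t T) (h2 : H19X.UnrTwo K)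
    (hs : ∀ m ∈ Sel K, ∃ b : Qd K, m = b ^ 3) (m : N) (hm : Cnd3 K N T m) : ∃ z : N, m = z ^ 3 := by
  obtain ⟨a, b, rfl⟩ := h.span m
  obtain ⟨β, hβ⟩ := hs _ (sel_of_cnd h h2 a b hm)
  have ht : eval₂ (algebraMap K N) t (X ^ 2 + C 1) = 0 := by
    rw [eval₂_add, eval₂_pow, eval₂_X, eval₂_C, map_one, h.sq]
    push_cast
    ring
  refine ⟨AdjoinRoot.lift (algebraMap K N) t ht β, ?_⟩
  rw [← map_pow, ← hβ, map_add, map_mul, AdjoinRoot.lift_of, AdjoinRoot.lift_of,
    AdjoinRoot.lift_root]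

theorem cube_of_cndE (h : QN 27 K N t T) (h2 : H19X.UnrTwo K)
    (hs : ∀ m ∈ SelE K, ∃ b : Qe K, m = b ^ 3) (m : N) (hm : Cnd3 K N T m) : ∃ z : N, m = z ^ 3 := by
  obtain ⟨a, b, rfl⟩ := h.span m
  obtain ⟨β, hβ⟩ := hs _ (selE_of_cnd h h2 a b hm)
  have ht : eval₂ (algebraMap K N) t (X ^ 2 - C 27) = 0 := by
    rw [eval₂_sub, eval₂_pow, eval₂_X, eval₂_C, map_ofNat, h.sq]
    push_cast
    ring
  refine ⟨AdjoinRoot.lift (algebraMap K N) t ht β, ?_⟩
  rw [← map_pow, ← hβ, map_add, map_mul, AdjoinRoot.lift_of, AdjoinRoot.lift_of,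
    AdjoinRoot.lift_root]

end H35X
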