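import Mathlib
import Pool.Agent.Lib.H19T.Defs
import Pool.Agent.Lib.H35X.Defs

/-! Definitions for the exact criterion at 3 for y^2 = x^3 - 1. -/

open NumberField IsDedekindDomain

namespace H35X

open H55B H35T H19T H13E

open Classical in
/-- The number of torsion points of E144 over K. -/
noncomputable def tors3 (K : Type) [Field K] [NumberField K] : ℕ :=
  Nat.card {P : (E144.baseChange K).toAffine.Point // IsOfFinAddOrder P}

/-- The analytic order of the Tate-Shafarevich group of E144 over K predicted by the formula of Birch and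
Swinnerton-Dyer in rank 0 (with the order of the torsion subgroup; it is 0 if L1 = 0); L1 is the value of
the L-function at 1, L the period lattice of dx/(2y), Omr its real period, Om twice the area of a
period parallelogram, tam the Tamagawa numbers. -/
noncomputable def shaT3 (K : Type) [Field K] [NumberField K] (L : PeriodPair) (L1 : ℂ) : ℂ :=
  L1 * (Real.sqrt |(NumberField.discr K : ℝ)| : ℝ) * (tors3 K : ℂ) ^ 2 /
    ((Omr L : ℂ) ^ NumberField.InfinitePlace.nrRealPlaces K *
      (Om L : ℂ) ^ NumberField.InfinitePlace.nrComplexPlaces K *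
      ∏ᶠ w : HeightOneSpectrum (𝓞 K), (H13E.tam K w : ℂ))

/-- Positive valuation for every valuation above 3. -/
def Non3 (z : ℂ) : Prop := ∀ V : ValuationSubring ℂ, V.valuation 3 < 1 → V.valuation z < 1

/-- E144 has finitely many torsion points over K, and their number is prime to 3; the L-function of E144 over
K continues; the analytic order of the Tate-Shafarevich group is 3-integral; it is a 3-adic unit (and the value
at 1 is not 0) if and only if the Selmer groups of the two isogenies of degree 3 are trivial, if and only if all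
ramified primes of K not dividing 6 have norm 7 modulo 12; otherwise it has positive valuation for every
valuation above 3. -/
def Crit3 (K : Type) [Field K] [NumberField K] : Prop :=
  ¬ 3 ∣ tors3 K ∧ ∃ Λ : ℂ → ℂ, AnalyticOnNhd ℂ Λ {s | 1 / 2 < s.re} ∧
    (∀ s : ℂ, 3 / 2 < s.re →
      LSeriesSummable (fun n => (((E144.baseChange K).LFunction n : ℤ) : ℂ)) s ∧
      Λ s = (E144.baseChange K).LSeries s) ∧
    ∀ L : PeriodPair, L.g₂ = 0 → L.g₃ = 4 →
      Int3 (shaT3 K L (Λ 1)) ∧
      (SelZ3 K ↔ Λ 1 ≠ 0 ∧ Unit3 (shaT3 K L (Λ 1))) ∧
      (SelZ3 K ↔ GoodRam3 K) ∧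
      (¬ SelZ3 K → Non3 (shaT3 K L (Λ 1)))

end H35X
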