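import Mathlib
import Pool.Agent.Lib.H35T.A16

/-! The torsion subgroup of E144 is finite over every number field. -/

open NumberField IsDedekindDomain

namespace H35X

open H55B H35T

/-! Chunk V12a (M): adapt H55B/K1, K2, K3 (heights, duplication) to y^2 = x^3 - 1: x(2P) = (x^4 + 8 x)/(4 (x^3 - 1)) for y nonzero, 2P = 0 for y = 0 (then x^3 = 1, so
logHeight x = 0 as 3 logHeight x = logHeight 1). Height: A = X^4 + 8 X Z^3, B = 4 X^3 Z - 4 Z^4: certificate of degree 7 as in K1_q: (a X^3 + b Z^3) A + c X Z^2 B = const X^7,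
d X^2 Z A + (e Z^3 + f X^3) B = const Z^7 (solve: for example (9 X^3 - 8 Z^3) A ... find the constants by hand: with t = X^3, z = Z^3: A = X (t + 8 z), B = 4 Z (t - z):
(t + p z)(t + 8 z) + q z (t - z) = t^2 iff p + 8 + q = 0, 8 p - q = 0, so p = -8/9, q = -64/9; and q' t (t + 8 z) + (z + p' t)(t - z) = -z^2 iff q' + p' = 0, 8 q' + 1 - p' = 0,
q' = -1/9, p' = 1/9). Height.logHeight_eval_ge' as in H55B.height_dbl and H35T.height_lam. finite_tors144: H35T.A16_northcott gives that the points with bounded logHeight are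
finitely many (see the end of H35T.E_fin for the map from points to pairs); K3_iter, K3_bdd, finite_tors are copied. Use open Classical for DecidableEq K (see the statement). -/

open MvPolynomial in
/-- The coefficients of the certificate. -/
noncomputable def v12a_q (K : Type*) [Field K] : Fin 2 × Fin 2 → MvPolynomial (Fin 2) K := fun a =>
  (![![C ((9 : K)⁻¹ * 9) * X 0 ^ 3 + C ((9 : K)⁻¹ * (-8)) * X 1 ^ 3,
      C ((9 : K)⁻¹ * (-16)) * (X 0 * X 1 ^ 2)],
    ![C ((36 : K)⁻¹ * 4) * (X 0 ^ 2 * X 1),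
      C ((36 : K)⁻¹ * (-9)) * X 1 ^ 3 + C ((36 : K)⁻¹ * (-1)) * X 0 ^ 3]] : Fin 2 → Fin 2 → _) a.1 a.2

open MvPolynomial in
theorem v12a_hom (K : Type*) [Field K] (a : Fin 2 × Fin 2) : (v12a_q K a).IsHomogeneous 3 := by
  have h0 : (X 0 : MvPolynomial (Fin 2) K).IsHomogeneous 1 := isHomogeneous_X _ _
  have h1 : (X 1 : MvPolynomial (Fin 2) K).IsHomogeneous 1 := isHomogeneous_X _ _
  obtain ⟨i, j⟩ := a
  fin_cases i <;> fin_cases j
  · exact ((h0.pow 3).C_mul _).add ((h1.pow 3).C_mul _)
  · exact (h0.mul (h1.pow 2)).C_mul _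
  · exact ((h0.pow 2).mul h1).C_mul _
  · exact ((h1.pow 3).C_mul _).add ((h0.pow 3).C_mul _)

open MvPolynomial in
theorem v12a_height_dbl (K : Type*) [Field K] [NumberField K] : ∃ B : ℝ, ∀ x : K, x ^ 3 - 1 ≠ 0 →
    4 * Height.logHeight₁ x - B ≤ Height.logHeight₁ ((x ^ 4 + 8 * x) / (4 * (x ^ 3 - 1))) := by
  obtain ⟨C₀, hC₀⟩ := Height.logHeight_eval_ge' (K := K) (N := 4) (v12a_hom K)
  refine ⟨-C₀, fun x _ => ?_⟩
  have h9 : (9 : K) ≠ 0 := by norm_num
  have h36 : (36 : K) ≠ 0 := by norm_num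
  have h := hC₀ (![X 0 ^ 4 + 8 * (X 0 * X 1 ^ 3), 4 * (X 0 ^ 3 * X 1) - 4 * X 1 ^ 4] :
    Fin 2 → MvPolynomial (Fin 2) K) (x := ![x, 1]) (by
      intro k
      fin_cases k
      · simp only [v12a_q, Fin.sum_univ_two]
        simp
        field_simp
        ring
      · simp only [v12a_q, Fin.sum_univ_two]
        simp
        field_simp
        ring)
  rw [Height.logHeight₁_div_eq_logHeight, Height.logHeight₁_eq_logHeight]
  have e : (fun j => (MvPolynomial.eval ![x, 1]) ((![X 0 ^ 4 + 8 * (X 0 * X 1 ^ 3),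
      4 * (X 0 ^ 3 * X 1) - 4 * X 1 ^ 4] : Fin 2 → MvPolynomial (Fin 2) K) j)) =
      ![x ^ 4 + 8 * x, 4 * (x ^ 3 - 1)] := by
    funext j
    fin_cases j
    · simp
    · simp
      ring
  rw [e] at h
  push_cast at h
  linarith

open WeierstrassCurve in
theorem v12a_dbl_point (K : Type*) [Field K] [CharZero K] [DecidableEq K] (x y x' y' : K)
    (h : (E144.baseChange K).toAffine.Nonsingular x y) (hy : y ≠ 0)
    (hx' : x' * (4 * (x ^ 3 - 1)) = x ^ 4 + 8 * x)
    (hy' : y' * (2 * y) = -(3 * x ^ 2 * (x' - x)) - 2 * y ^ 2) :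
    ∃ h' : (E144.baseChange K).toAffine.Nonsingular x' y',
      (2 : ℕ) • (Affine.Point.some x y h : (E144.baseChange K).toAffine.Point) =
        Affine.Point.some x' y' h' := by
  obtain ⟨h1, h2, h3, h4, h6⟩ := A16_coeffs K
  have hE := (H35T.nonsing_iff K x y).mp h
  have h20 : (2 : K) ≠ 0 := two_ne_zero
  have hne : y ≠ (E144.baseChange K).toAffine.negY x y := by
    rw [Affine.negY, h1, h3]
    intro h0
    have : (2 : K) * y = 0 := by linear_combination h0
    rcases mul_eq_zero.mp this with h | h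
    · exact h20 h
    · exact hy h
  have hsl : (E144.baseChange K).toAffine.slope x x y y = 3 * x ^ 2 / (2 * y) := by
    rw [Affine.slope_of_Y_ne rfl hne, Affine.negY, h1, h2, h3, h4]
    congr 1
    · ring
    · ring
  have hD0 : (4 : K) * (x ^ 3 - 1) ≠ 0 := by
    rw [← hE]
    exact mul_ne_zero (by norm_num) (pow_ne_zero 2 hy)
  have hX : (E144.baseChange K).toAffine.addX x x ((E144.baseChange K).toAffine.slope x x y y) = x' := by
    rw [hsl, Affine.addX, h1, h2]
    have e : x' = (x ^ 4 + 8 * x) / (4 * y ^ 2) := by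
      rw [hE, eq_div_iff hD0, hx']
    rw [e]
    field_simp
    linear_combination (-32 * x) * hE
  have hY : (E144.baseChange K).toAffine.addY x x y ((E144.baseChange K).toAffine.slope x x y y) =
      y' := by
    rw [Affine.addY, Affine.negAddY, Affine.negY, hX, hsl, h1, h3]
    have ht : 3 * x ^ 2 / (2 * y) * (2 * y) = 3 * x ^ 2 := div_mul_cancel₀ _ (mul_ne_zero h20 hy)
    have : (2 * y) * (-(3 * x ^ 2 / (2 * y) * (x' - x) + y) - 0 * x' - 0) =
        (2 * y) * y' := by
      linear_combination (-(x' - x)) * ht - hy'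
    exact mul_left_cancel₀ (mul_ne_zero h20 hy) this
  have hns := Affine.nonsingular_add h h fun hxy => hne hxy.right
  have hadd := Affine.Point.add_self_of_Y_ne (h₁ := h) hne
  rw [hX, hY] at hns
  refine ⟨hns, ?_⟩
  rw [two_nsmul, hadd]
  simp only [hX, hY]

/-- A point with y = 0 has order 2. -/
theorem v12a_dbl_zero (K : Type*) [Field K] [CharZero K] [DecidableEq K] (x y : K)
    (h : (E144.baseChange K).toAffine.Nonsingular x y) (hy : y = 0) :
    (2 : ℕ) • (WeierstrassCurve.Affine.Point.some x y h : (E144.baseChange K).toAffine.Point) = 0 := by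
  obtain ⟨h1, h2, h3, h4, h6⟩ := A16_coeffs K
  rw [two_nsmul]
  refine WeierstrassCurve.Affine.Point.add_self_of_Y_eq ?_
  rw [WeierstrassCurve.Affine.negY, h1, h3, hy]
  ring

section

variable (K : Type*) [Field K] [NumberField K]

/-- The height of a point. -/
noncomputable def v12a_hgt : (E144.baseChange K).toAffine.Point → ℝ
  | .zero => 0
  | .some x _ _ => Height.logHeight₁ x

theorem v12a_hgt_nonneg (P : (E144.baseChange K).toAffine.Point) : 0 ≤ v12a_hgt K P := by
  cases P with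
  | zero => exact le_rfl
  | some x y h => exact Height.zero_le_logHeight₁ x

theorem v12a_dbl [DecidableEq K] : ∃ B : ℝ, 0 ≤ B ∧ ∀ Q : (E144.baseChange K).toAffine.Point,
    4 * v12a_hgt K Q - B ≤ v12a_hgt K ((2 : ℕ) • Q) := by
  obtain ⟨B₁, hB₁⟩ := v12a_height_dbl K
  refine ⟨max B₁ 0 + 4 * Height.logHeight₁ (1 : K), by
    have := Height.zero_le_logHeight₁ (1 : K)
    positivity, fun Q => ?_⟩
  have hpos : 0 ≤ Height.logHeight₁ (1 : K) := Height.zero_le_logHeight₁ _
  have hm : 0 ≤ max B₁ 0 := le_max_right _ _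
  have hm1 : B₁ ≤ max B₁ 0 := le_max_left _ _
  cases Q with
  | zero =>
    have h1 : v12a_hgt K (WeierstrassCurve.Affine.Point.zero) = 0 := rfl
    have h2 := v12a_hgt_nonneg K ((2 : ℕ) • (WeierstrassCurve.Affine.Point.zero :
      (E144.baseChange K).toAffine.Point))
    rw [h1]
    linarith
  | some x y h =>
    have h1 : v12a_hgt K (WeierstrassCurve.Affine.Point.some x y h) = Height.logHeight₁ x := rfl
    rw [h1]
    have hE := (H35T.nonsing_iff K x y).mp h
    by_cases hy : y = 0
    · rw [v12a_dbl_zero K x y h hy]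
      have h2 : v12a_hgt K (0 : (E144.baseChange K).toAffine.Point) = 0 := rfl
      rw [h2]
      have h3 : x ^ 3 = 1 := by
        rw [hy] at hE
        linear_combination -hE
      have h4 : Height.logHeight₁ (x ^ 3) = 3 * Height.logHeight₁ x := by
        rw [Height.logHeight₁_pow]
        norm_num
      rw [h3] at h4
      have h5 := Height.zero_le_logHeight₁ x
      linarith
    · have hD0 : x ^ 3 - 1 ≠ 0 := by
        rw [← hE]
        exact pow_ne_zero 2 hy
      have h40 : (4 : K) * (x ^ 3 - 1) ≠ 0 := mul_ne_zero (by norm_num) hD0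
      obtain ⟨h', hh⟩ := v12a_dbl_point K x y ((x ^ 4 + 8 * x) / (4 * (x ^ 3 - 1)))
        ((-(3 * x ^ 2 * ((x ^ 4 + 8 * x) / (4 * (x ^ 3 - 1)) - x)) - 2 * y ^ 2) /
          (2 * y)) h hy (div_mul_cancel₀ _ h40) (by
            rw [div_mul_cancel₀ _ (mul_ne_zero (two_ne_zero : (2 : K) ≠ 0) hy)])
      rw [hh]
      have h2 : v12a_hgt K (WeierstrassCurve.Affine.Point.some ((x ^ 4 + 8 * x) / (4 * (x ^ 3 - 1)))
        ((-(3 * x ^ 2 * ((x ^ 4 + 8 * x) / (4 * (x ^ 3 - 1)) - x)) - 2 * y ^ 2) /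
          (2 * y)) h') =
          Height.logHeight₁ ((x ^ 4 + 8 * x) / (4 * (x ^ 3 - 1))) := rfl
      rw [h2]
      have h3 := hB₁ x hD0
      linarith

theorem v12a_iter [DecidableEq K] : ∃ B : ℝ, 0 ≤ B ∧ ∀ (n : ℕ)
    (Q : (E144.baseChange K).toAffine.Point),
    4 ^ n * (v12a_hgt K Q - B) ≤ v12a_hgt K ((2 ^ n : ℕ) • Q) - B := by
  obtain ⟨B, hB, h⟩ := v12a_dbl K
  refine ⟨B / 3, by positivity, fun n => ?_⟩
  induction n with
  | zero =>
    intro Q
    simp
  | succ n ih =>
    intro Q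
    have h1 := ih ((2 : ℕ) • Q)
    have h2 := h Q
    rw [smul_smul, ← pow_succ] at h1
    have h3 : (4 : ℝ) ^ n * (4 * (v12a_hgt K Q - B / 3)) ≤
        4 ^ n * (v12a_hgt K ((2 : ℕ) • Q) - B / 3) := by
      refine mul_le_mul_of_nonneg_left ?_ (by positivity)
      linarith
    calc (4 : ℝ) ^ (n + 1) * (v12a_hgt K Q - B / 3) = 4 ^ n * (4 * (v12a_hgt K Q - B / 3)) := by ring
      _ ≤ _ := h3
      _ ≤ _ := h1

end

theorem v12a_northcott (K : Type) [Field K] [NumberField K] (B : ℝ) :
    {P : (E144.baseChange K).toAffine.Point | v12a_hgt K P ≤ B}.Finite := by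
  have hT := A16_northcott K B
  let φ : (E144.baseChange K).toAffine.Point → Option (K × K) := fun P =>
    match P with
    | .zero => none
    | .some x y h => some (x, y)
  have hφ : Function.Injective φ := by
    intro P Q h
    cases P with
    | zero =>
      cases Q with
      | zero => rfl
      | some x y h' => simp [φ] at h
    | some x y h' =>
      cases Q with
      | zero => simp [φ] at h
      | some x' y' h'' =>
        simp only [φ, Option.some.injEq, Prod.mk.injEq] at h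
        obtain ⟨rfl, rfl⟩ := h
        rfl
  refine Set.Finite.of_finite_image (((hT.image some).insert none).subset ?_) hφ.injOn
  rintro _ ⟨P, hP, rfl⟩
  cases P with
  | zero => exact Or.inl rfl
  | some x y h => exact Or.inr ⟨(x, y), ⟨(H35T.nonsing_iff K x y).mp h, hP⟩, rfl⟩

/-- Torsion points have bounded height. -/
theorem v12a_bdd (K : Type*) [Field K] [NumberField K] [DecidableEq K] (B : ℝ)
    (hit : ∀ (n : ℕ) (Q : (E144.baseChange K).toAffine.Point),
      4 ^ n * (v12a_hgt K Q - B) ≤ v12a_hgt K ((2 ^ n : ℕ) • Q) - B)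
    (P : (E144.baseChange K).toAffine.Point) (hP : IsOfFinAddOrder P) : v12a_hgt K P ≤ B := by
  -- the multiples of `P` have bounded height
  have hfin : (Set.range fun n : ℕ => (n : ℕ) • P).Finite := by
    have := (isOfFinAddOrder_iff_nsmul_eq_zero (x := P)).mp hP
    obtain ⟨N, hN, hN0⟩ := this
    refine ((Finset.range N).finite_toSet.image fun n : ℕ => n • P).subset ?_
    rintro _ ⟨n, rfl⟩
    refine ⟨n % N, by simpa using Nat.mod_lt n hN, ?_⟩
    have h1 := Nat.mod_add_div n N
    calc (n % N) • P = (n % N) • P + (n / N) • (N • P) := by rw [hN0, smul_zero, add_zero]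
      _ = (n % N + N * (n / N)) • P := by rw [add_nsmul, ← mul_nsmul]
      _ = n • P := by rw [h1]
  obtain ⟨C, hC⟩ := (hfin.image (v12a_hgt K)).bddAbove
  have hC' : ∀ n : ℕ, v12a_hgt K ((n : ℕ) • P) ≤ C := fun n => hC ⟨n • P, ⟨n, rfl⟩, rfl⟩
  by_contra hcon
  push Not at hcon
  obtain ⟨n, hn⟩ := pow_unbounded_of_one_lt ((C - B) / (v12a_hgt K P - B)) (by norm_num : (1 : ℝ) < 4)
  rw [div_lt_iff₀ (by linarith)] at hn
  have h1 := hit n P
  have h2 := hC' (2 ^ n)
  linarith

open Classical in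
theorem finite_tors144 (K : Type) [Field K] [NumberField K] :
    Finite {P : (E144.baseChange K).toAffine.Point // IsOfFinAddOrder P} := by
  obtain ⟨B, hB, hit⟩ := v12a_iter K
  have hsub : {P : (E144.baseChange K).toAffine.Point | IsOfFinAddOrder P}.Finite := by
    refine (v12a_northcott K B).subset fun P hP => ?_
    exact v12a_bdd K B hit P hP
  exact hsub.to_subtype

end H35X
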