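import Mathlib
import Pool.Agent.Lib.H13E.Q2
import Pool.Agent.Lib.H19X.T4
import Pool.Agent.Lib.H35X.Defs

open NumberField IsDedekindDomain

namespace H35X

open H55B H35T H13E

/-! Chunk T4 (M): norms and ramification over Z. norm7_iff: K contains F, 6 not in w: q = absNorm w = card of the finite field k = 𝓞 K/w, of characteristic not 2, 3, containing a
primitive cube root of unity (om modulo w), so q = 1 modulo 3 and q is odd; -1 is a square in k iff q is not 3 modulo 4 (FiniteField.isSquare_neg_one_iff).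
good_up3: w of K, 6 not in w, e(w|Z) <> 1 (e_iff), w₀ below; e(w|w₀) = 1 (H19X.T4_one), so e(w₀|Z) <> 1 and N(w₀) = 7 modulo 12. N(w) = N(w₀)^f, f <= 2
(H19X.T2_le). f = 1: q = N(w₀) = 1 modulo 3, so X^2 + X + 1 has a root ρ in 𝓞 K₀ modulo w₀; om = ρ or ρ^2 modulo w ((om - ρ)(om - ρ^2) in w), and 𝓞 K is generated
by 𝓞 K₀ and om up to the factor 3 (z = a + b om, 3 a, 3 b integral: traces; or: the nontrivial element c of Gal(K/K₀) does not fix w when ... choose the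
simplest), so the residue fields are equal. bad_up3: w₀ of K₀, 6 not in w₀, e(w₀|Z) <> 1, w above w₀ (see H19X.bad_up): e(w|Z) <> 1, N(w) = 7 modulo 12, N(w) = N(w₀)^f
with f = 1 or 2, but a square is not 3 modulo 4, so N(w) = N(w₀). -/

theorem T4_mod3 {K : Type} [Field K] [NumberField K] [Algebra F K] (w : HeightOneSpectrum (𝓞 K))
    (h3 : (3 : 𝓞 K) ∉ w.asIdeal) : Ideal.absNorm w.asIdeal % 3 = 1 := by
  classical
  have hm := w.isMaximal
  let _ : Field (𝓞 K ⧸ w.asIdeal) := Ideal.Quotient.field _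
  have hfin : Finite (𝓞 K ⧸ w.asIdeal) := inferInstance
  have _ : Fintype (𝓞 K ⧸ w.asIdeal) := Fintype.ofFinite _
  have hq : Ideal.absNorm w.asIdeal = Nat.card (𝓞 K ⧸ w.asIdeal) := rfl
  set z : 𝓞 K ⧸ w.asIdeal := Ideal.Quotient.mk w.asIdeal (algebraMap O (𝓞 K) om) with hz
  have hrel : z ^ 2 + z + 1 = 0 := by
    have h := congrArg (algebraMap O (𝓞 K)) om_rel
    have h' := congrArg (Ideal.Quotient.mk w.asIdeal) h
    simpa only [map_add, map_pow, map_one, map_zero] using h'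
  have h30 : (3 : 𝓞 K ⧸ w.asIdeal) ≠ 0 := by
    intro h0
    apply h3
    rw [← Ideal.Quotient.eq_zero_iff_mem, map_ofNat]
    exact h0
  have hz3 : z ^ 3 = 1 := by linear_combination (z - 1) * hrel
  have hz1 : z ≠ 1 := by
    intro h
    rw [h] at hrel
    apply h30
    linear_combination hrel
  have hp : Fact (Nat.Prime 3) := ⟨Nat.prime_three⟩
  have hord : orderOf z = 3 := orderOf_eq_prime hz3 hz1
  have hz0 : z ≠ 0 := by
    intro h
    rw [h] at hz3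
    norm_num at hz3
  have hord' : orderOf (Units.mk0 z hz0) = 3 := by
    rw [← orderOf_units, Units.val_mk0]
    exact hord
  have hd : 3 ∣ Nat.card (𝓞 K ⧸ w.asIdeal)ˣ := by
    rw [← hord']
    exact orderOf_dvd_natCard _
  have hc : Nat.card (𝓞 K ⧸ w.asIdeal)ˣ = Nat.card (𝓞 K ⧸ w.asIdeal) - 1 := by
    rw [Nat.card_units]
  have hpos : 0 < Nat.card (𝓞 K ⧸ w.asIdeal) := Nat.card_pos
  rw [hq]
  omega

theorem T4_sq {K : Type} [Field K] [NumberField K] (w : HeightOneSpectrum (𝓞 K)) :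
    (∃ x : 𝓞 K, x ^ 2 + 1 ∈ w.asIdeal) ↔ Ideal.absNorm w.asIdeal % 4 ≠ 3 := by
  classical
  have hm := w.isMaximal
  let _ : Field (𝓞 K ⧸ w.asIdeal) := Ideal.Quotient.field _
  have hfin : Finite (𝓞 K ⧸ w.asIdeal) := inferInstance
  have _ : Fintype (𝓞 K ⧸ w.asIdeal) := Fintype.ofFinite _
  have hq : Ideal.absNorm w.asIdeal = Nat.card (𝓞 K ⧸ w.asIdeal) := rfl
  rw [hq, Nat.card_eq_fintype_card, ← FiniteField.isSquare_neg_one_iff]
  constructor
  · rintro ⟨x, hx⟩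
    refine ⟨Ideal.Quotient.mk w.asIdeal x, ?_⟩
    have h1 : Ideal.Quotient.mk w.asIdeal (x ^ 2 + 1) = 0 := Ideal.Quotient.eq_zero_iff_mem.2 hx
    rw [map_add, map_pow, map_one] at h1
    linear_combination -h1
  · rintro ⟨r, hr⟩
    obtain ⟨x, rfl⟩ := Ideal.Quotient.mk_surjective r
    refine ⟨x, ?_⟩
    rw [← Ideal.Quotient.eq_zero_iff_mem, map_add, map_pow, map_one]
    linear_combination -hr

theorem norm7_iff {K : Type} [Field K] [NumberField K] [Algebra F K] (w : HeightOneSpectrum (𝓞 K))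
    (h6 : (6 : 𝓞 K) ∉ w.asIdeal) :
    Ideal.absNorm w.asIdeal % 12 = 7 ↔ ¬ ∃ x : 𝓞 K, x ^ 2 + 1 ∈ w.asIdeal := by
  rw [T4_sq]
  have h1 := T4_mod3 w (H19X.T4_six h6)
  omega

theorem good_up3 {K₀ K : Type} [Field K₀] [NumberField K₀] [Field K] [NumberField K] [Algebra F K]
    [Algebra K₀ K] (hQ : Quad K₀ K) (h : GoodRam3 K₀) : GoodRam3 K := by
  intro w h6 he
  obtain ⟨w₀, hw⟩ := H19X.T4_under (K₀ := K₀) w
  have hl : w.asIdeal.LiesOver w₀.asIdeal := ⟨hw⟩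
  have h60 : (6 : 𝓞 K₀) ∉ w₀.asIdeal := by
    rw [hw, Ideal.mem_under, map_ofNat]
    exact h6
  rw [Ideal.ramificationIdx_tower (R := ℤ) (S := 𝓞 K₀) w₀.asIdeal w.asIdeal,
    H19X.T4_one hQ w (H19X.T4_six h6), mul_one] at he
  have h7 := h w₀ h60 he
  obtain ⟨f, -, hf, hf1, -⟩ := q2_main hQ w₀ (H19X.T4_six h60) w hw
  rw [hf1 (by omega), pow_one] at hf
  rw [hf]
  exact h7

theorem bad_up3 {K₀ K : Type} [Field K₀] [NumberField K₀] [Field K] [NumberField K] [Algebra F K]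
    [Algebra K₀ K] (hQ : Quad K₀ K) (h : GoodRam3 K) : GoodRam3 K₀ := by
  intro w₀ h6 he
  obtain ⟨Q, hQm, hQl⟩ := Ideal.exists_maximal_ideal_liesOver_of_isIntegral (S := 𝓞 K) w₀.asIdeal
  have hunder : w₀.asIdeal = Q.under (𝓞 K₀) := hQl.over
  have hQ0 : Q ≠ ⊥ := by
    rintro rfl
    apply w₀.ne_bot
    rw [hunder]
    exact Ideal.under_bot (𝓞 K₀) (𝓞 K)
  obtain ⟨w, hW⟩ : ∃ W : HeightOneSpectrum (𝓞 K), W.asIdeal = Q := ⟨⟨Q, hQm.isPrime, hQ0⟩, rfl⟩
  rw [← hW] at hunder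
  have hl : w.asIdeal.LiesOver w₀.asIdeal := ⟨hunder⟩
  have h6' : (6 : 𝓞 K) ∉ w.asIdeal := by
    intro h
    apply h6
    rw [hunder, Ideal.mem_under, map_ofNat]
    exact h
  have he' : w.asIdeal.ramificationIdx ℤ ≠ 1 := by
    rw [Ideal.ramificationIdx_tower (R := ℤ) (S := 𝓞 K₀) w₀.asIdeal w.asIdeal,
      H19X.T4_one hQ w (H19X.T4_six h6'), mul_one]
    exact he
  have h7 := h w h6' he'
  obtain ⟨f, -, hf, hf1, hf2⟩ := q2_main hQ w₀ (H19X.T4_six h6) w hunder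
  rcases norm_mod3 w₀ (H19X.T4_six h6) with h8 | h8
  · rw [hf1 h8, pow_one] at hf
    rw [← hf]
    exact h7
  · exfalso
    rw [hf2 h8] at hf
    rw [hf] at h7
    have h9 : Ideal.absNorm w₀.asIdeal ^ 2 % 4 = 3 := by omega
    rw [Nat.pow_mod] at h9
    have h10 : Ideal.absNorm w₀.asIdeal % 4 < 4 := Nat.mod_lt _ (by norm_num)
    interval_cases Ideal.absNorm w₀.asIdeal % 4 <;> norm_num at h9

end H35X
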