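import Mathlib
import Pool.Agent.Lib.H19X.EX1

open NumberField IsDedekindDomain

namespace H35X

/-! Chunk E1 (M): units modulo cubes. Adapt H19X.EX1 (squares -> cubes, Fin 2 -> Fin 3). H19X.ex1_rep can be used as it is; ex1_uniq: 3 divides the
order of the torsion subgroup (it contains the unit r, r^3 = 1, r <> 1). few_units3: classes of the exponents modulo 3 (no hypothesis). -/

theorem e1_tors (N : Type) [Field N] [NumberField N] (r : N) (hr : r ^ 2 + r + 1 = 0) :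
    3 ∣ Nat.card (Units.torsion N) := by
  have hr3 : r ^ 3 = 1 := by linear_combination (r - 1) * hr
  have hr1 : r ≠ 1 := by
    rintro rfl
    norm_num at hr
  have hint : IsIntegral ℤ r := by
    refine ⟨Polynomial.X ^ 3 - 1, Polynomial.monic_X_pow_sub_C 1 (by norm_num), ?_⟩
    simp [hr3]
  obtain ⟨a, ha⟩ : ∃ a : 𝓞 N, (a : N) = r := ⟨⟨r, hint⟩, rfl⟩
  have ha3 : a ^ 3 = 1 := by
    apply RingOfIntegers.ext
    have h5 : ((a ^ 3 : 𝓞 N) : N) = (a : N) ^ 3 := by push_cast; rfl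
    have h6 : ((1 : 𝓞 N) : N) = 1 := by push_cast; rfl
    rw [h5, h6, ha, hr3]
  have ha1 : a ≠ 1 := by
    intro h
    apply hr1
    rw [← ha, h]
    rfl
  obtain ⟨u, hu⟩ : ∃ u : (𝓞 N)ˣ, (u : 𝓞 N) = a :=
    ⟨Units.mkOfMulEqOne a (a ^ 2) (by rw [← ha3]; ring), rfl⟩
  have hu3 : u ^ 3 = 1 := by
    apply Units.ext
    rw [Units.val_pow_eq_pow_val, hu, ha3, Units.val_one]
  have hu1 : u ≠ 1 := by
    rintro rfl
    exact ha1 hu.symm
  have hut : u ∈ Units.torsion N := by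
    unfold Units.torsion
    rw [CommGroup.mem_torsion]
    exact isOfFinOrder_iff_pow_eq_one.2 ⟨3, by norm_num, hu3⟩
  have h3 : orderOf (⟨u, hut⟩ : Units.torsion N) = 3 := by
    have : Fact (Nat.Prime 3) := ⟨Nat.prime_three⟩
    apply orderOf_eq_prime
    · exact Subtype.ext hu3
    · intro h
      exact hu1 (congrArg Subtype.val h)
  rw [← h3]
  exact orderOf_dvd_natCard _

theorem e1_uniq (N : Type) [Field N] [NumberField N] (r : N) (hr : r ^ 2 + r + 1 = 0)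
    (z : Units.torsion N)
    (hz : ∀ x, x ∈ Subgroup.zpowers z) (j j' : ℤ) (e e' : Fin (Units.rank N) → ℤ)
    (h : (z : (𝓞 N)ˣ) ^ j * ∏ i, Units.fundSystem N i ^ e i =
      (z : (𝓞 N)ˣ) ^ j' * ∏ i, Units.fundSystem N i ^ e' i) :
    e = e' ∧ (3 : ℤ) ∣ j - j' := by
  obtain ⟨ζe, -, h2⟩ := Units.exist_unique_eq_mul_prod N
    ((z : (𝓞 N)ˣ) ^ j * ∏ i, Units.fundSystem N i ^ e i)
  have a1 := h2 (z ^ j, e) (by simp)
  have a2 := h2 (z ^ j', e') (by simp [h])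
  have a3 : (z ^ j, e) = (z ^ j', e') := a1.trans a2.symm
  have a4 : z ^ j = z ^ j' := congrArg Prod.fst a3
  have a5 : e = e' := congrArg Prod.snd a3
  refine ⟨a5, ?_⟩
  have h6 : z ^ (j - j') = 1 := by
    rw [zpow_sub, a4, mul_inv_cancel]
  have h7 : (orderOf z : ℤ) ∣ j - j' := orderOf_dvd_iff_zpow_eq_one.2 h6
  have h8 : orderOf z = Nat.card (Units.torsion N) := orderOf_eq_card_of_forall_mem_zpowers hz
  refine dvd_trans ?_ h7
  rw [h8]
  exact_mod_cast e1_tors N r hr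

theorem many_units3 (N : Type) [Field N] [NumberField N] (r : N) (hr : r ^ 2 + r + 1 = 0) :
    ∃ f : Fin (3 ^ Fintype.card (InfinitePlace N)) → (𝓞 N)ˣ,
      ∀ i j, i ≠ j → ¬ ∃ b : (𝓞 N)ˣ, f i = f j * b ^ 3 := by
  rw [← H19X.ex1_rank N]
  obtain ⟨z, hz⟩ := IsCyclic.exists_generator (α := Units.torsion N)
  let g : (Fin (Units.rank N + 1) → Fin 3) → (𝓞 N)ˣ := fun k =>
    (z : (𝓞 N)ˣ) ^ (((k 0 : Fin 3) : ℕ) : ℤ) * ∏ i : Fin (Units.rank N), Units.fundSystem N i ^ ((((k i.succ : Fin 3) : ℕ)) : ℤ)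
  refine ⟨fun n => g (finFunctionFinEquiv.symm n), ?_⟩
  have key : ∀ k k' : Fin (Units.rank N + 1) → Fin 3, (∃ b : (𝓞 N)ˣ, g k = g k' * b ^ 3) →
      k = k' := by
    rintro k k' ⟨b, hb⟩
    obtain ⟨j, e, hje⟩ := H19X.ex1_rep N z hz b
    have h1 : (z : (𝓞 N)ˣ) ^ (((k 0 : Fin 3) : ℕ) : ℤ) * ∏ i : Fin (Units.rank N), Units.fundSystem N i ^ ((((k i.succ : Fin 3) : ℕ)) : ℤ)
        = (z : (𝓞 N)ˣ) ^ ((((k' 0 : Fin 3) : ℕ) : ℤ) + 3 * j) * ∏ i : Fin (Units.rank N), Units.fundSystem N i ^ (((((k' i.succ : Fin 3) : ℕ)) : ℤ) + 3 * e i) := by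
      have h0 : g k = g k' * b ^ 3 := hb
      simp only [g] at h0
      rw [h0, hje]
      simp only [zpow_add, Finset.prod_mul_distrib, mul_pow, ← Finset.prod_pow]
      have e1 : ((z : (𝓞 N)ˣ) ^ j) ^ 3 = (z : (𝓞 N)ˣ) ^ (3 * j) := by
        rw [← zpow_natCast, ← zpow_mul, mul_comm]; norm_num
      have e2 : ∀ i, (Units.fundSystem N i ^ e i) ^ 3 = Units.fundSystem N i ^ (3 * e i) := by
        intro i
        rw [← zpow_natCast, ← zpow_mul, mul_comm]; norm_num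
      simp only [e1, e2]
      exact mul_mul_mul_comm _ _ _ _
    obtain ⟨h2, h3⟩ := e1_uniq N r hr z hz _ _ _ _ h1
    funext i
    refine Fin.cases ?_ (fun i => ?_) i
    · have a := (k 0).2
      have b := (k' 0).2
      ext
      omega
    · have h4 := congrFun h2 i
      have a := (k i.succ).2
      have b := (k' i.succ).2
      ext
      omega
  intro i j hij hb
  exact hij (finFunctionFinEquiv.symm.injective (key _ _ hb))

theorem few_units3 (N : Type) [Field N] [NumberField N] :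
    ∃ c : (𝓞 N)ˣ → Fin (3 ^ Fintype.card (InfinitePlace N)),
      ∀ u v, c u = c v → ∃ b : (𝓞 N)ˣ, u = v * b ^ 3 := by
  rw [← H19X.ex1_rank N]
  obtain ⟨z, hz⟩ := IsCyclic.exists_generator (α := Units.torsion N)
  choose J E hJE using H19X.ex1_rep N z hz
  obtain ⟨q, hp⟩ : ∃ q : ℤ → Fin 3, ∀ a b : ℤ, q a = q b → ∃ t, a = b + 3 * t := by
    refine ⟨fun a => ⟨(a % 3).toNat, by omega⟩, fun a b h => ⟨(a - b) / 3, ?_⟩⟩
    have h1 : (a % 3).toNat = (b % 3).toNat := congrArg Fin.val h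
    omega
  refine ⟨fun u => finFunctionFinEquiv (Fin.cons (α := fun _ => Fin 3) (q (J u))
    (fun i => q (E u i))), ?_⟩
  intro u v huv
  have h1 := finFunctionFinEquiv.injective huv
  have h2 := congrFun h1 0
  simp only [Fin.cons_zero] at h2
  have h3 : ∀ i : Fin (Units.rank N), q (E u i) = q (E v i) := by
    intro i
    have := congrFun h1 i.succ
    simpa only [Fin.cons_succ] using this
  obtain ⟨t, ht⟩ := hp _ _ h2
  choose s hs using fun i => hp _ _ (h3 i)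
  refine ⟨(z : (𝓞 N)ˣ) ^ t * ∏ i, Units.fundSystem N i ^ s i, ?_⟩
  conv_lhs => rw [hJE u]
  conv_rhs => rw [hJE v]
  rw [ht]
  simp only [hs, zpow_add, Finset.prod_mul_distrib, mul_pow, ← Finset.prod_pow]
  have e1 : ((z : (𝓞 N)ˣ) ^ t) ^ 3 = (z : (𝓞 N)ˣ) ^ (3 * t) := by
    rw [← zpow_natCast, ← zpow_mul, mul_comm]; norm_num
  have e2 : ∀ i, (Units.fundSystem N i ^ s i) ^ 3 = Units.fundSystem N i ^ (3 * s i) := by
    intro i
    rw [← zpow_natCast, ← zpow_mul, mul_comm]; norm_num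
  simp only [e1, e2]
  exact mul_mul_mul_comm _ _ _ _

end H35X
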