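import Mathlib
import Pool.Agent.Lib.H35X.E1
import Pool.Agent.Lib.H19X.EX2

open NumberField IsDedekindDomain

namespace H35X

/-! Chunk E2 (M): {P1, P2}-units modulo cubes are many. Adapt H19X.EX2 (EX2_main with exponents s, t < 3 and b^3; the lemmas EX2_o... can be used). In
the minimality argument: k s = k s' + 3 ord b with |s - s'| <= 2 gives |ord b| < k, ord b = 0 by minimality of k. -/

open H19X

section E2aux

variable {N : Type} [Field N] [NumberField N]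

theorem E2_main (P1 P2 : HeightOneSpectrum (𝓞 N)) (h12 : P1 ≠ P2) :
    ∃ x y : N, x ≠ 0 ∧ y ≠ 0 ∧
      (∀ P : HeightOneSpectrum (𝓞 N), P ≠ P1 → P ≠ P2 → P.valuation N x = 1) ∧
      (∀ P : HeightOneSpectrum (𝓞 N), P ≠ P1 → P ≠ P2 → P.valuation N y = 1) ∧
      ∀ (u u' : (𝓞 N)ˣ) (s s' t t' : ℕ), s < 3 → s' < 3 → t < 3 → t' < 3 → ∀ b : N,
        ((u : 𝓞 N) : N) * x ^ s * y ^ t = ((u' : 𝓞 N) : N) * x ^ s' * y ^ t' * b ^ 3 →
        s = s' ∧ t = t' ∧ ∃ c : (𝓞 N)ˣ, u = u' * c ^ 3 := by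
  classical
  have hex1 : ∃ k : ℕ, 0 < k ∧ ∃ x : N, x ≠ 0 ∧
      (∀ P : HeightOneSpectrum (𝓞 N), P ≠ P1 → P ≠ P2 → P.valuation N x = 1) ∧
      EX2_o P1 x = k := by
    obtain ⟨a, ha0, ha1, ha2⟩ := EX2_elt P1
    refine ⟨(EX2_o P1 a).toNat, by omega, a, ha0, fun P h _ => ha2 P h, by omega⟩
  have hex2 : ∃ k : ℕ, 0 < k ∧ ∃ x : N, x ≠ 0 ∧
      (∀ P : HeightOneSpectrum (𝓞 N), P ≠ P1 → P ≠ P2 → P.valuation N x = 1) ∧
      EX2_o P1 x = 0 ∧ EX2_o P2 x = k := by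
    obtain ⟨a, ha0, ha1, ha2⟩ := EX2_elt P2
    exact ⟨(EX2_o P2 a).toNat, by omega, a, ha0, fun P _ h => ha2 P h,
      (EX2_o_eq_zero_iff P1 ha0).2 (ha2 P1 h12), by omega⟩
  obtain ⟨hk0, x, hx0, hxP, hxk⟩ := Nat.find_spec hex1
  obtain ⟨hk0', y, hy0, hyP, hy1, hyk⟩ := Nat.find_spec hex2
  set k := Nat.find hex1 with hk
  set k' := Nat.find hex2 with hk'
  refine ⟨x, y, hx0, hy0, hxP, hyP, ?_⟩
  intro u u' s s' t t' hs hs' ht ht' b hb
  have hu0 : ∀ w : (𝓞 N)ˣ, ((w : 𝓞 N) : N) ≠ 0 := by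
    intro w h
    exact w.ne_zero (RingOfIntegers.coe_eq_zero_iff.1 h)
  have hb0 : b ≠ 0 := by
    rintro rfl
    rw [zero_pow three_ne_zero, mul_zero] at hb
    exact mul_ne_zero (mul_ne_zero (hu0 u) (pow_ne_zero _ hx0)) (pow_ne_zero _ hy0) hb
  have hord : ∀ P : HeightOneSpectrum (𝓞 N),
      (s : ℤ) * EX2_o P x + t * EX2_o P y = s' * EX2_o P x + t' * EX2_o P y + 3 * EX2_o P b := by
    intro P
    have h1 := congrArg (EX2_o P) hb
    rw [EX2_o_mul P (mul_ne_zero (hu0 u) (pow_ne_zero _ hx0)) (pow_ne_zero _ hy0),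
      EX2_o_mul P (hu0 u) (pow_ne_zero _ hx0),
      EX2_o_mul P (mul_ne_zero (mul_ne_zero (hu0 u') (pow_ne_zero _ hx0)) (pow_ne_zero _ hy0))
        (pow_ne_zero _ hb0),
      EX2_o_mul P (mul_ne_zero (hu0 u') (pow_ne_zero _ hx0)) (pow_ne_zero _ hy0),
      EX2_o_mul P (hu0 u') (pow_ne_zero _ hx0),
      (EX2_o_eq_zero_iff P (hu0 u)).2 (EX2_o_unit P u),
      (EX2_o_eq_zero_iff P (hu0 u')).2 (EX2_o_unit P u'), EX2_o_pow, EX2_o_pow, EX2_o_pow,
      EX2_o_pow, EX2_o_pow] at h1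
    push_cast at h1
    linarith
  have hbP : ∀ P : HeightOneSpectrum (𝓞 N), P ≠ P1 → P ≠ P2 → P.valuation N b = 1 := by
    intro P h1 h2
    rw [← EX2_o_eq_zero_iff P hb0]
    have h3 := hord P
    rw [(EX2_o_eq_zero_iff P hx0).2 (hxP P h1 h2), (EX2_o_eq_zero_iff P hy0).2 (hyP P h1 h2)] at h3
    omega
  have hbP' : ∀ P : HeightOneSpectrum (𝓞 N), P ≠ P1 → P ≠ P2 → P.valuation N b⁻¹ = 1 := by
    intro P h1 h2
    rw [map_inv₀, hbP P h1 h2, inv_one]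
  have hss : s = s' ∧ EX2_o P1 b = 0 := by
    have h1 := hord P1
    rw [hxk, hy1] at h1
    rcases lt_trichotomy (EX2_o P1 b) 0 with h2 | h2 | h2
    · exfalso
      have h3 : k ≤ (EX2_o P1 b⁻¹).toNat := by
        rw [hk]
        apply Nat.find_min' hex1
        rw [EX2_o_inv]
        exact ⟨by omega, b⁻¹, inv_ne_zero hb0, hbP', by rw [EX2_o_inv]; omega⟩
      rw [EX2_o_inv] at h3
      interval_cases s <;> interval_cases s' <;> omega
    · refine ⟨?_, h2⟩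
      rw [h2] at h1
      interval_cases s <;> interval_cases s' <;> omega
    · exfalso
      have h3 : k ≤ (EX2_o P1 b).toNat := by
        rw [hk]
        apply Nat.find_min' hex1
        exact ⟨by omega, b, hb0, hbP, by omega⟩
      interval_cases s <;> interval_cases s' <;> omega
  obtain ⟨rfl, hb1⟩ := hss
  have htt : t = t' ∧ EX2_o P2 b = 0 := by
    have h1 := hord P2
    rw [hyk] at h1
    rcases lt_trichotomy (EX2_o P2 b) 0 with h2 | h2 | h2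
    · exfalso
      have h3 : k' ≤ (EX2_o P2 b⁻¹).toNat := by
        rw [hk']
        apply Nat.find_min' hex2
        rw [EX2_o_inv]
        exact ⟨by omega, b⁻¹, inv_ne_zero hb0, hbP', by rw [EX2_o_inv, hb1, neg_zero],
          by rw [EX2_o_inv]; omega⟩
      rw [EX2_o_inv] at h3
      interval_cases t <;> interval_cases t' <;> omega
    · refine ⟨?_, h2⟩
      rw [h2] at h1
      interval_cases t <;> interval_cases t' <;> omega
    · exfalso
      have h3 : k' ≤ (EX2_o P2 b).toNat := by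
        rw [hk']
        apply Nat.find_min' hex2
        exact ⟨by omega, b, hb0, hbP, hb1, by omega⟩
      interval_cases t <;> interval_cases t' <;> omega
  obtain ⟨rfl, hb2⟩ := htt
  refine ⟨rfl, rfl, ?_⟩
  have hball : ∀ P : HeightOneSpectrum (𝓞 N), P.valuation N b = 1 := by
    intro P
    by_cases h1 : P = P1
    · rw [h1]
      exact (EX2_o_eq_zero_iff P1 hb0).1 hb1
    · by_cases h2 : P = P2
      · rw [h2]
        exact (EX2_o_eq_zero_iff P2 hb0).1 hb2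
      · exact hbP P h1 h2
  obtain ⟨c, hc⟩ := EX2_unit_of hball hb0
  refine ⟨c, ?_⟩
  have h1 : ((u : 𝓞 N) : N) = ((u' : 𝓞 N) : N) * b ^ 3 := by
    have h2 : x ^ s * y ^ t ≠ 0 := mul_ne_zero (pow_ne_zero _ hx0) (pow_ne_zero _ hy0)
    apply mul_right_cancel₀ h2
    linear_combination hb
  apply Units.ext
  apply FaithfulSMul.algebraMap_injective (𝓞 N) N
  rw [Units.val_mul, Units.val_pow_eq_pow_val, map_mul, map_pow]
  change ((u : 𝓞 N) : N) = ((u' : 𝓞 N) : N) * ((c : 𝓞 N) : N) ^ 3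
  rw [hc]
  exact h1

end E2aux

theorem many3 (N : Type) [Field N] [NumberField N] (r : N) (hr : r ^ 2 + r + 1 = 0)
    (P1 P2 : HeightOneSpectrum (𝓞 N)) (h : P1 ≠ P2) :
    ∃ f : Fin (3 ^ (Fintype.card (InfinitePlace N) + 2)) → N,
      (∀ i, f i ≠ 0 ∧ ∀ P : HeightOneSpectrum (𝓞 N), P ≠ P1 → P ≠ P2 → P.valuation N (f i) = 1) ∧
      ∀ i j, i ≠ j → ¬ ∃ b : N, f i = f j * b ^ 3 := by
  obtain ⟨x, y, hx0, hy0, hxP, hyP, hmain⟩ := E2_main P1 P2 h
  obtain ⟨g, hg⟩ := many_units3 N r hr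
  have hcard : 3 ^ (Fintype.card (InfinitePlace N) + 2) =
      3 ^ Fintype.card (InfinitePlace N) * (3 * 3) := by
    rw [pow_add]
    norm_num
  let e : Fin (3 ^ (Fintype.card (InfinitePlace N) + 2)) ≃
      Fin (3 ^ Fintype.card (InfinitePlace N)) × (Fin 3 × Fin 3) :=
    ((finCongr hcard).trans finProdFinEquiv.symm).trans
      (Equiv.prodCongr (Equiv.refl _) finProdFinEquiv.symm)
  have hu0 : ∀ w : (𝓞 N)ˣ, ((w : 𝓞 N) : N) ≠ 0 := by
    intro w h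
    exact w.ne_zero (RingOfIntegers.coe_eq_zero_iff.1 h)
  refine ⟨fun i => ((g (e i).1 : 𝓞 N) : N) * x ^ ((e i).2.1 : ℕ) * y ^ ((e i).2.2 : ℕ), ?_, ?_⟩
  · intro i
    refine ⟨mul_ne_zero (mul_ne_zero (hu0 _) (pow_ne_zero _ hx0)) (pow_ne_zero _ hy0), ?_⟩
    intro P h1 h2
    rw [map_mul, map_mul, map_pow, map_pow, EX2_o_unit, hxP P h1 h2, hyP P h1 h2]
    simp
  · rintro i j hij ⟨b, hb⟩
    obtain ⟨h1, h2, c, hc⟩ := hmain _ _ _ _ _ _ (e i).2.1.2 (e j).2.1.2 (e i).2.2.2 (e j).2.2.2 b hb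
    have h3 : (e i).1 = (e j).1 := by
      by_contra hne
      exact hg _ _ hne ⟨c, hc⟩
    apply hij
    apply e.injective
    apply Prod.ext h3
    exact Prod.ext (Fin.ext h1) (Fin.ext h2)

end H35X
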