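import Mathlib
import Pool.Agent.Lib.H35X.E1
import Pool.Agent.Lib.H19X.EX3

open NumberField IsDedekindDomain

namespace H35X

/-! Chunk E3 (M): {w}-units modulo cubes are few. Adapt H19X.EX3 (exponent modulo 3 instead of parity, few_units3). -/

theorem few3 (K : Type) [Field K] [NumberField K] (w : HeightOneSpectrum (𝓞 K)) :
    ∃ c : K → Fin (3 ^ (Fintype.card (InfinitePlace K) + 1)), ∀ a a' : K,
      (a ≠ 0 ∧ ∀ u : HeightOneSpectrum (𝓞 K), u ≠ w → u.valuation K a = 1) →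
      (a' ≠ 0 ∧ ∀ u : HeightOneSpectrum (𝓞 K), u ≠ w → u.valuation K a' = 1) → c a = c a' →
      ∃ b : K, a = a' * b ^ 3 := by
  classical
  let V : Subgroup Kˣ :=
    { carrier := {a | ∀ u : HeightOneSpectrum (𝓞 K), u ≠ w → u.valuation K (a : K) = 1}
      one_mem' := by intro u _; simp
      mul_mem' := by
        intro a b ha hb u hu
        rw [Units.val_mul, map_mul, ha u hu, hb u hu, one_mul]
      inv_mem' := by
        intro a ha u hu
        rw [Units.val_inv_eq_inv_val, map_inv₀, ha u hu, inv_one] }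
  let φ : V →* Multiplicative ℤ :=
    ((WithZero.unitsWithZeroEquiv (α := Multiplicative ℤ)).toMonoidHom.comp
      (Units.map ((w.valuation K).toMonoidWithZeroHom : K →* WithZero (Multiplicative ℤ)))).comp V.subtype
  have hφ : ∀ a : V, φ a = 1 → w.valuation K ((a : Kˣ) : K) = 1 := by
    intro a ha
    have h1 : (Units.map ((w.valuation K).toMonoidWithZeroHom : K →* WithZero (Multiplicative ℤ))) (a : Kˣ) = 1 := by
      have : (WithZero.unitsWithZeroEquiv (α := Multiplicative ℤ)) ((Units.map ((w.valuation K).toMonoidWithZeroHom : K →* WithZero (Multiplicative ℤ))) (a : Kˣ)) = 1 := ha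
      exact (MulEquiv.map_eq_one_iff (WithZero.unitsWithZeroEquiv (α := Multiplicative ℤ))).1 this
    have h2 := congrArg Units.val h1
    simpa using h2
  obtain ⟨⟨g, π, hπ⟩, hg⟩ := IsCyclic.exists_generator (α := φ.range)
  have hrep : ∀ a : V, ∃ (e : ℤ) (t : (𝓞 K)ˣ), ((a : Kˣ) : K) = ((π : Kˣ) : K) ^ e * ((t : 𝓞 K) : K) := by
    intro a
    obtain ⟨e, he⟩ := hg ⟨φ a, a, rfl⟩
    have he1 : φ π ^ e = φ a := by
      have := congrArg Subtype.val he
      simp only at this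
      rw [hπ]
      simpa using this
    have h1 : φ (a * (π ^ e)⁻¹) = 1 := by
      rw [map_mul, map_inv, map_zpow, he1, mul_inv_cancel]
    obtain ⟨t, ht⟩ := H19X.ex3_unit K ((a * (π ^ e)⁻¹ : V) : Kˣ) (by
      intro u
      by_cases hu : u = w
      · rw [hu]; exact hφ _ h1
      · exact (a * (π ^ e)⁻¹ : V).2 u hu)
    refine ⟨e, t, ?_⟩
    rw [ht]
    push_cast
    field_simp
  choose E T hET using hrep
  obtain ⟨c, hc⟩ := few_units3 K
  let ι : Fin 3 × Fin (3 ^ Fintype.card (InfinitePlace K)) → Fin (3 ^ (Fintype.card (InfinitePlace K) + 1)) :=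
    fun p => Fin.cast (pow_succ' 3 _).symm (finProdFinEquiv p)
  have hι : Function.Injective ι := by
    intro p q hpq
    exact finProdFinEquiv.injective (Fin.cast_injective _ hpq)
  have hE3 : ∀ n : ℤ, (n % 3).toNat < 3 := by
    intro n
    omega
  refine ⟨fun a => if h : ∃ v : V, ((v : Kˣ) : K) = a then
    ι (⟨(E h.choose % 3).toNat, hE3 _⟩, c (T h.choose)) else ι (0, ⟨0, by positivity⟩), ?_⟩
  rintro a a' ⟨ha0, ha⟩ ⟨ha0', ha'⟩ h
  have e1 : ∃ v : V, ((v : Kˣ) : K) = a := ⟨⟨Units.mk0 a ha0, ha⟩, rfl⟩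
  have e2 : ∃ v : V, ((v : Kˣ) : K) = a' := ⟨⟨Units.mk0 a' ha0', ha'⟩, rfl⟩
  simp only [dif_pos e1, dif_pos e2] at h
  have h3 := hι h
  have h4 := congrArg (fun p => (Prod.fst p).1) h3
  have h5 := congrArg Prod.snd h3
  simp only at h4 h5
  obtain ⟨b, hb⟩ := hc _ _ h5
  have hp : ∃ t, E e1.choose = E e2.choose + 3 * t := by
    refine ⟨(E e1.choose - E e2.choose) / 3, ?_⟩
    omega
  obtain ⟨t, ht⟩ := hp
  refine ⟨((π : Kˣ) : K) ^ t * ((b : 𝓞 K) : K), ?_⟩
  have k1 := hET e1.choose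
  have k2 := hET e2.choose
  rw [e1.choose_spec] at k1
  rw [e2.choose_spec] at k2
  have hπ0 : ((π : Kˣ) : K) ≠ 0 := Units.ne_zero _
  rw [k1, k2, hb, ht, zpow_add₀ hπ0, zpow_mul]
  push_cast
  have : (((π : Kˣ) : K) ^ (3 : ℤ)) ^ t = ((((π : Kˣ) : K)) ^ t) ^ 3 := by
    rw [← zpow_mul, ← zpow_natCast, ← zpow_mul, mul_comm]; norm_num
  rw [this]
  ring

end H35X
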