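import Mathlib
import Pool.Agent.Lib.H13E.S2Gen
import Pool.Agent.Lib.H35T.W9
import Pool.Agent.Lib.H55B.D1

open NumberField IsDedekindDomain

namespace H35X

open H55B H35T H13E

/-! Chunk E5a (M): e = product over the (finitely many) P containing 3 of (absNorm P - 1)^2; 3 divides absNorm P (𝓞 N/P is a finite field of
characteristic 3), so (absNorm P - 1)^2 = 1 modulo 3 and e = 1 modulo 3. z of valuation 1 at P: z = x/y with x, y not in P
(HeightOneSpectrum.exists_primeCompl_mul_eq_of_integer, see H19X.EX5_rep), x^(absNorm P - 1) = 1 modulo P (finite field). -/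

theorem e5a_norm {N : Type} [Field N] [NumberField N] (P : HeightOneSpectrum (𝓞 N))
    (hP : (3 : 𝓞 N) ∈ P.asIdeal) : 3 ∣ Ideal.absNorm P.asIdeal := by
  have hcard : Ideal.absNorm P.asIdeal = Nat.card (𝓞 N ⧸ P.asIdeal) := rfl
  rw [hcard]
  have h1 : (3 : ℕ) • (1 : 𝓞 N ⧸ P.asIdeal) = 0 := by
    have h3 : Ideal.Quotient.mk P.asIdeal (3 : 𝓞 N) = 0 := Ideal.Quotient.eq_zero_iff_mem.2 hP
    rw [map_ofNat] at h3
    simpa using h3
  have hne : (1 : 𝓞 N ⧸ P.asIdeal) ≠ 0 := by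
    intro h
    have : (1 : 𝓞 N) ∈ P.asIdeal := by
      rw [← Ideal.Quotient.eq_zero_iff_mem, map_one]
      exact h
    exact P.isPrime.ne_top ((Ideal.eq_top_iff_one _).2 this)
  have h2 : addOrderOf (1 : 𝓞 N ⧸ P.asIdeal) = 3 := by
    haveI : Fact (Nat.Prime 3) := ⟨Nat.prime_three⟩
    exact addOrderOf_eq_prime h1 hne
  rw [← h2]
  exact addOrderOf_dvd_natCard _

theorem e5a_pow {N : Type} [Field N] [NumberField N] (P : HeightOneSpectrum (𝓞 N))
    (x : 𝓞 N) (hx : x ∉ P.asIdeal) (e : ℕ) (he : (Ideal.absNorm P.asIdeal - 1) ∣ e) :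
    x ^ e - 1 ∈ P.asIdeal := by
  haveI := P.isPrime
  haveI hmax : P.asIdeal.IsMaximal := P.isMaximal
  haveI hfin : Finite (𝓞 N ⧸ P.asIdeal) := Ideal.finiteQuotientOfFreeOfNeBot _ P.ne_bot
  letI := Ideal.Quotient.field P.asIdeal
  letI : Fintype (𝓞 N ⧸ P.asIdeal) := Fintype.ofFinite _
  have hne : Ideal.Quotient.mk P.asIdeal x ≠ 0 := by
    intro h
    exact hx (Ideal.Quotient.eq_zero_iff_mem.1 h)
  have h1 := FiniteField.pow_card_sub_one_eq_one (Ideal.Quotient.mk P.asIdeal x) hne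
  obtain ⟨c, rfl⟩ := he
  have hcard : Ideal.absNorm P.asIdeal = Fintype.card (𝓞 N ⧸ P.asIdeal) := by
    rw [← Nat.card_eq_fintype_card]
    rfl
  rw [← Ideal.Quotient.eq_zero_iff_mem, map_sub, map_pow, map_one, hcard, pow_mul, h1, one_pow,
    sub_self]

theorem exists_exp (N : Type) [Field N] [NumberField N] : ∃ e : ℕ, e % 3 = 1 ∧
    ∀ P : HeightOneSpectrum (𝓞 N), (3 : 𝓞 N) ∈ P.asIdeal → ∀ z : N, P.valuation N z = 1 →
      P.valuation N (z ^ e - 1) < 1 := by
  classical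
  have h3 : (Ideal.span {(3 : 𝓞 N)}) ≠ 0 := by
    simp
  have hfin : {P : HeightOneSpectrum (𝓞 N) | (3 : 𝓞 N) ∈ P.asIdeal}.Finite := by
    have h := Ideal.finite_factors h3
    refine h.subset ?_
    intro P hP
    simp only [Set.mem_ofPred_eq] at *
    rw [Ideal.dvd_span_singleton]
    exact hP
  refine ⟨∏ P ∈ hfin.toFinset, (Ideal.absNorm P.asIdeal - 1) ^ 2, ?_, ?_⟩
  · have : ∀ s : Finset (HeightOneSpectrum (𝓞 N)), (∀ P ∈ s, (3 : 𝓞 N) ∈ P.asIdeal) →
        (∏ P ∈ s, (Ideal.absNorm P.asIdeal - 1) ^ 2) % 3 = 1 := by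
      intro s
      induction s using Finset.induction_on with
      | empty => intro _; simp
      | insert P s hPs ih =>
        intro h
        rw [Finset.prod_insert hPs, Nat.mul_mod,
          ih (fun Q hQ => h Q (Finset.mem_insert_of_mem hQ))]
        obtain ⟨c, hc⟩ := e5a_norm P (h P (Finset.mem_insert_self _ _))
        have hpos : 0 < Ideal.absNorm P.asIdeal := by
          rw [Nat.pos_iff_ne_zero]
          intro h0
          rw [Ideal.absNorm_eq_zero_iff] at h0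
          exact P.ne_bot h0
        obtain ⟨d, rfl⟩ : ∃ d, c = d + 1 := ⟨c - 1, by omega⟩
        have h2 : Ideal.absNorm P.asIdeal - 1 = 3 * d + 2 := by omega
        rw [h2]
        have h4 : (3 * d + 2) ^ 2 = 3 * (3 * d ^ 2 + 4 * d + 1) + 1 := by ring
        rw [h4]
        omega
    exact this _ (fun P hP => by simpa using hP)
  · intro P hP z hz
    have hdvd : (Ideal.absNorm P.asIdeal - 1) ∣
        ∏ P ∈ hfin.toFinset, (Ideal.absNorm P.asIdeal - 1) ^ 2 :=
      (dvd_pow_self _ two_ne_zero).trans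
        (Finset.dvd_prod_of_mem (fun P : HeightOneSpectrum (𝓞 N) =>
          (Ideal.absNorm P.asIdeal - 1) ^ 2) (by simpa using hP))
    set e := ∏ P ∈ hfin.toFinset, (Ideal.absNorm P.asIdeal - 1) ^ 2
    obtain ⟨x, y, hxy⟩ := HeightOneSpectrum.exists_primeCompl_mul_eq_of_integer P z hz.le
    have hy : (y : 𝓞 N) ∉ P.asIdeal := y.2
    have hvy : P.valuation N (algebraMap (𝓞 N) N y) = 1 :=
      (P.valuation_eq_one_iff_notMem (K := N)).2 hy
    have hvx : P.valuation N (algebraMap (𝓞 N) N x) = 1 := by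
      have h1 := congrArg (P.valuation N) hxy
      rw [map_mul, hz, one_mul, hvy] at h1
      exact h1.symm
    have hx : x ∉ P.asIdeal := (P.valuation_eq_one_iff_notMem (K := N)).1 hvx
    have h1 := e5a_pow P x hx e hdvd
    have h2 := e5a_pow P y hy e hdvd
    have h4 : x ^ e - (y : 𝓞 N) ^ e ∈ P.asIdeal := by
      have := P.asIdeal.sub_mem h1 h2
      have h5 : x ^ e - 1 - ((y : 𝓞 N) ^ e - 1) = x ^ e - (y : 𝓞 N) ^ e := by ring
      rwa [h5] at this
    have hlt : P.valuation N (algebraMap (𝓞 N) N (x ^ e - (y : 𝓞 N) ^ e)) < 1 :=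
      (P.valuation_lt_one_iff_mem (K := N) _).2 h4
    have hEq : (z ^ e - 1) * (algebraMap (𝓞 N) N y) ^ e =
        algebraMap (𝓞 N) N (x ^ e - (y : 𝓞 N) ^ e) := by
      rw [map_sub, map_pow, map_pow, ← hxy]
      ring
    have h6 := congrArg (P.valuation N) hEq
    rw [map_mul, map_pow, hvy, one_pow, mul_one] at h6
    rw [h6]
    exact hlt

end H35X
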