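import Mathlib
import Pool.Agent.Lib.H13E.S2Gen
import Pool.Agent.Lib.H35T.W9
import Pool.Agent.Lib.H55B.Z2

open NumberField IsDedekindDomain

namespace H35X

open H55B H35T H13E

/-! Chunk E5c (M): approx3: compare H19X.EX5_rep: a y = x with y = 1 modulo 3 (3 instead of t^2; y in the ideal of denominators of a, prime to 3), then a - x =
a (1 - y) has valuation <= v(3). res3: 𝓞 K/(om - 1) has 3^[K:F] elements (((om - 1)^2) = (3) as ideals, H55C three_eq: 3 = - om (om - 1)^2 or the like; absNorm^2 = absNorm (3) =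
3^[K:Q], [K:Q] = 2 [K:F], compare H19X.EX5_card); c a = class of x for a chosen x with w.valuation (a - x) <= w.valuation 3 (approx3). If x - x' is in (om - 1) then
a - a' = (a - x) + (x - x') - (a' - x') and w.valuation 3 <= w.valuation (om - 1). -/

/-- elements prime to 3 are invertible modulo 3 -/
theorem E5c_inv (K : Type) [Field K] [NumberField K] (D : Ideal (𝓞 K))
    (hD : ∀ P : HeightOneSpectrum (𝓞 K), (3 : 𝓞 K) ∈ P.asIdeal → ∃ x ∈ D, x ∉ P.asIdeal) :
    ∃ b ∈ D, b - 1 ∈ Ideal.span {(3 : 𝓞 K)} := by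
  have h1 : D ⊔ Ideal.span {(3 : 𝓞 K)} = ⊤ := by
    by_contra h
    obtain ⟨Q, hQ, hle⟩ := Ideal.exists_le_maximal _ h
    have htQ : (3 : 𝓞 K) ∈ Q := hle (Ideal.mem_sup_right (Ideal.mem_span_singleton_self _))
    have hQ0 : Q ≠ ⊥ := by
      rintro rfl
      rw [Ideal.mem_bot] at htQ
      exact (by norm_num : (3 : 𝓞 K) ≠ 0) htQ
    obtain ⟨x, hx, hxP⟩ := hD ⟨Q, hQ.isPrime, hQ0⟩ htQ
    exact hxP (hle (Ideal.mem_sup_left hx))
  rw [Ideal.eq_top_iff_one, Submodule.mem_sup] at h1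
  obtain ⟨b, hb, c, hc, h⟩ := h1
  refine ⟨b, hb, ?_⟩
  have : b - 1 = - c := by rw [← h]; ring
  rw [this]
  exact neg_mem hc

theorem approx3 (K : Type) [Field K] [NumberField K] (a : K)
    (ha : ∀ w : HeightOneSpectrum (𝓞 K), (3 : 𝓞 K) ∈ w.asIdeal → w.valuation K a ≤ 1) :
    ∃ x : 𝓞 K, ∀ w : HeightOneSpectrum (𝓞 K), (3 : 𝓞 K) ∈ w.asIdeal →
      w.valuation K (a - algebraMap (𝓞 K) K x) ≤ w.valuation K 3 := by
  set D : Ideal (𝓞 K) :=
    { carrier := {x | a * algebraMap (𝓞 K) K x ∈ (algebraMap (𝓞 K) K).range}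
      add_mem' := by
        intro x y hx hy
        simp only [Set.mem_ofPred_eq] at *
        rw [map_add, mul_add]
        exact add_mem hx hy
      zero_mem' := by simp
      smul_mem' := by
        intro c x hx
        simp only [Set.mem_ofPred_eq] at *
        rw [smul_eq_mul, map_mul, mul_left_comm]
        exact mul_mem ⟨c, rfl⟩ hx } with hDdef
  obtain ⟨b, hb, hb1⟩ := E5c_inv K D (by
    intro P hP
    obtain ⟨n, d, h⟩ := HeightOneSpectrum.exists_primeCompl_mul_eq_of_integer P a (ha P hP)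
    exact ⟨d, ⟨n, h.symm⟩, d.2⟩)
  obtain ⟨x, hx⟩ := hb
  refine ⟨x, fun w hw => ?_⟩
  obtain ⟨k, hk⟩ := Ideal.mem_span_singleton'.1 hb1
  have e : a - algebraMap (𝓞 K) K x = -(a * algebraMap (𝓞 K) K k) * 3 := by
    have hb2 : b = 1 + k * 3 := by rw [hk]; ring
    rw [hx, hb2]
    simp only [map_add, map_one, map_mul, map_ofNat]
    ring
  rw [e, map_mul, Valuation.map_neg, map_mul]
  have h1 : w.valuation K a * w.valuation K (algebraMap (𝓞 K) K k) ≤ 1 :=
    mul_le_one' (ha w hw) (w.valuation_le_one k)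
  exact mul_le_of_le_one_left' h1

/-- 𝓞 K/(om - 1) has 3^[K:F] elements. -/
theorem E5c_card (K : Type) [Field K] [NumberField K] [Algebra F K] :
    Ideal.absNorm (Ideal.span {algebraMap O (𝓞 K) (om - 1)}) = 3 ^ Module.finrank F K := by
  have h3 : (3 : O) = -om ^ 2 * (om - 1) ^ 2 := three_eq
  have hF : Module.finrank ℚ F = 2 := by
    rw [IsCyclotomicExtension.finrank (n := 3) F (Polynomial.cyclotomic.irreducible_rat (by norm_num))]
    decide
  have h0 : Ideal.span {(3 : 𝓞 K)} = Ideal.span {algebraMap O (𝓞 K) (om - 1)} ^ 2 := by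
    rw [Ideal.span_singleton_pow]
    have hu : IsUnit (algebraMap O (𝓞 K) (-om ^ 2)) := by
      refine IsUnit.map _ ?_
      refine IsUnit.neg (IsUnit.pow 2 ?_)
      have : om ^ 3 = 1 := by linear_combination (om - 1) * om_rel
      exact IsUnit.of_mul_eq_one (om ^ 2) (by rw [← this]; ring)
    have e : (3 : 𝓞 K) = algebraMap O (𝓞 K) (-om ^ 2) * algebraMap O (𝓞 K) (om - 1) ^ 2 := by
      rw [← map_pow, ← map_mul, ← h3, map_ofNat]
    rw [e]
    exact Ideal.span_singleton_mul_left_unit hu _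
  have h1 : Ideal.absNorm (Ideal.span {algebraMap O (𝓞 K) (om - 1)}) ^ 2 = (3 ^ Module.finrank F K) ^ 2 := by
    rw [← map_pow, ← h0]
    have : (3 : 𝓞 K) = ((3 : ℕ) : 𝓞 K) := by simp
    rw [this, Ideal.absNorm_span_natCast, NumberField.RingOfIntegers.rank,
      ← Module.finrank_mul_finrank ℚ F K, hF, mul_comm, pow_mul]
  exact Nat.pow_left_injective (by norm_num : (2 : ℕ) ≠ 0) h1

theorem res3 (K : Type) [Field K] [NumberField K] [Algebra F K] :
    ∃ c : K → Fin (3 ^ Module.finrank F K), ∀ a a' : K,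
      (∀ w : HeightOneSpectrum (𝓞 K), (3 : 𝓞 K) ∈ w.asIdeal → w.valuation K a ≤ 1) →
      (∀ w : HeightOneSpectrum (𝓞 K), (3 : 𝓞 K) ∈ w.asIdeal → w.valuation K a' ≤ 1) → c a = c a' →
      ∀ w : HeightOneSpectrum (𝓞 K), (3 : 𝓞 K) ∈ w.asIdeal →
        w.valuation K (a - a') ≤ w.valuation K (algebraMap O K (om - 1)) := by
  classical
  set l : 𝓞 K := algebraMap O (𝓞 K) (om - 1) with hl
  have hlK : algebraMap O K (om - 1) = algebraMap (𝓞 K) K l := by
    rw [hl]
    exact IsScalarTower.algebraMap_apply O (𝓞 K) K _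
  have hcard := E5c_card K
  rw [← hl] at hcard
  have hc2 : Nat.card (𝓞 K ⧸ Ideal.span {l}) = 3 ^ Module.finrank F K := by
    rw [← hcard, Ideal.absNorm_apply, Submodule.cardQuot_apply]
  have hfin : Finite (𝓞 K ⧸ Ideal.span {l}) := by
    apply Nat.finite_of_card_ne_zero
    rw [hc2]
    positivity
  let eq := Finite.equivFinOfCardEq hc2
  have hle3 : ∀ w : HeightOneSpectrum (𝓞 K), w.valuation K 3 ≤ w.valuation K (algebraMap (𝓞 K) K l) := by
    intro w
    have h3 : (3 : O) = -om ^ 2 * (om - 1) ^ 2 := three_eq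
    have e : (3 : K) = algebraMap (𝓞 K) K (algebraMap O (𝓞 K) (-om ^ 2 * (om - 1))) * algebraMap (𝓞 K) K l := by
      rw [hl, ← map_mul, ← map_mul]
      have : (-om ^ 2 * (om - 1)) * (om - 1) = (3 : O) := by rw [h3]; ring
      rw [this, map_ofNat, map_ofNat]
    rw [e, map_mul]
    exact mul_le_of_le_one_left' (w.valuation_le_one _)
  refine ⟨fun a => if h : ∀ w : HeightOneSpectrum (𝓞 K), (3 : 𝓞 K) ∈ w.asIdeal → w.valuation K a ≤ 1 then
    eq (Ideal.Quotient.mk _ (approx3 K a h).choose) else ⟨0, by positivity⟩, ?_⟩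
  intro a a' ha ha' h w hw
  simp only [dif_pos ha, dif_pos ha'] at h
  have h1 := eq.injective h
  have h2 := (approx3 K a ha).choose_spec w hw
  have h2' := (approx3 K a' ha').choose_spec w hw
  generalize (approx3 K a ha).choose = x at h1 h2
  generalize (approx3 K a' ha').choose = x' at h1 h2'
  rw [Ideal.Quotient.eq, Ideal.mem_span_singleton'] at h1
  obtain ⟨k, hk⟩ := h1
  have h4 : w.valuation K (algebraMap (𝓞 K) K (x - x')) ≤ w.valuation K (algebraMap (𝓞 K) K l) := by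
    rw [← hk, map_mul, map_mul]
    exact mul_le_of_le_one_left' (w.valuation_le_one _)
  have e : a - a' = (a - algebraMap (𝓞 K) K x) + algebraMap (𝓞 K) K (x - x') -
      (a' - algebraMap (𝓞 K) K x') := by
    rw [map_sub]
    ring
  rw [hlK, e]
  refine (Valuation.map_sub _ _ _).trans (max_le ?_ (h2'.trans (hle3 w)))
  exact (Valuation.map_add _ _ _).trans (max_le (h2.trans (hle3 w)) h4)

end H35X
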