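import Mathlib
import Pool.Agent.Lib.H35X.E5a
import Pool.Agent.Lib.H35X.E5c
import Pool.Agent.Lib.H35X.G2
import Pool.Agent.Lib.H19X.T4

open NumberField IsDedekindDomain

namespace H35X

open H55B H35T H13E

/-! Chunk E5b (M/L): the level above 3. λ = om - 1 in K (3 = unit * λ^2), v_w(λ) = exp(-1) for w above 3, hence v_P(λ) = exp(-1) for the primes P of N above 3 (QN.val_eq).
e from exists_exp for N. For z with P.valuation z = 1 at all P above 3: z^e = 1 + λ x, x integral at all P above 3 (x = (z^e - 1)/λ; valuation < 1 means <= exp(-1)).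
x = a0 + a1 t, a0, a1 in K integral at the w above 3 (QN.coord_le, c = 1; v(B b^2) = v(b)^2 <= 1). c z = res3-class of a1. Let c z = c z', z/z' of cube norm n^3:
v_w(a1 - a1') <= v_w(λ). z^e T z^e = (1 + λ x)(1 + λ T x) = 1 + 2 λ a0 + λ^2 (...), the same for z'; (z T z)^e = (z' T z')^e n^(3e). μ = n^e: μ^3 = 1 modulo λ
at all w above 3 (v(n) = 1), (μ - 1)^3 = μ^3 - 1 - 3 (μ^2 - μ) so v(μ - 1) < 1, μ = 1 + λ s, μ^3 = 1 + 3 λ s + 3 λ^2 s^2 + λ^3 s^3 = 1 modulo λ^2. So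
1 + 2 λ a0 = 1 + 2 λ a0' modulo λ^2, v_w(a0 - a0') <= v_w(λ). Hence x - x' = (a0 - a0') + (a1 - a1') t is divisible by λ, z^e - z'^e divisible by λ^2, i.e.
P.valuation ((z/z')^e - 1) <= P.valuation 3. e = 1 + 3 f: with b = (z/z')^(-f): (z/z')/b^3 = (z/z')^(1 + 3 f) = (z/z')^e. -/

section E5b

variable {k : Type} [Field k] (v : Valuation k (WithZero (Multiplicative ℤ)))

theorem E5b_le {x : k} (hx : v x < 1) : v x ≤ WithZero.exp (-1 : ℤ) := by
  by_cases hx0 : v x = 0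
  · rw [hx0]
    exact zero_le
  · rw [← WithZero.exp_log hx0, WithZero.exp_le_exp]
    rw [← WithZero.exp_log hx0, ← WithZero.exp_zero, WithZero.exp_lt_exp] at hx
    omega

theorem E5b_lt : (WithZero.exp (-1 : ℤ)) < (1 : WithZero (Multiplicative ℤ)) := by
  rw [← WithZero.exp_zero, WithZero.exp_lt_exp]
  norm_num

theorem E5b_int (n : ℕ) : v (n : k) ≤ 1 := by
  induction n with
  | zero => simp
  | succ n ih =>
    rw [Nat.cast_succ]
    exact (v.map_add _ _).trans (max_le ih (le_of_eq v.map_one))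

theorem E5b_mul {x y : k} {g : WithZero (Multiplicative ℤ)} (hx : v x ≤ 1) (hy : v y ≤ g) :
    v (x * y) ≤ g := by
  rw [map_mul]
  calc v x * v y ≤ 1 * g := mul_le_mul' hx hy
    _ = g := one_mul g

theorem E5b_cube (l : k) (hl : v l = WithZero.exp (-1 : ℤ)) (h3 : v 3 = v l ^ 2) (μ : k)
    (hμ : v (μ ^ 3 - 1) < 1) : v (μ ^ 3 - 1) ≤ v l ^ 2 := by
  have hl1 : v l < 1 := by rw [hl]; exact E5b_lt
  have h31 : v (3 : k) < 1 := by
    rw [h3]
    exact pow_lt_one₀ zero_le hl1 two_ne_zero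
  have hv : v μ = 1 := by
    have h1 : v (μ ^ 3) = 1 := by
      have e : μ ^ 3 = 1 + (μ ^ 3 - 1) := by ring
      rw [e, Valuation.map_add_eq_of_lt_left v (by rw [map_one]; exact hμ), map_one]
    rw [map_pow] at h1
    exact (pow_eq_one_iff_of_nonneg zero_le three_ne_zero).1 h1
  have h4 : v (μ * (μ - 1)) ≤ 1 := by
    refine E5b_mul v hv.le ?_
    exact (v.map_sub _ _).trans (max_le hv.le (le_of_eq v.map_one))
  have h5 : v (μ - 1) < 1 := by
    have e : (μ - 1) ^ 3 = (μ ^ 3 - 1) - (μ * (μ - 1)) * 3 := by ring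
    have h6 : v ((μ - 1) ^ 3) < 1 := by
      rw [e]
      refine (v.map_sub _ _).trans_lt (max_lt hμ ?_)
      rw [map_mul]
      exact mul_lt_one_of_nonneg_of_lt_one_right h4 zero_le h31
    rw [map_pow] at h6
    exact (pow_lt_one_iff_of_nonneg zero_le three_ne_zero).1 h6
  have h6 : v (μ - 1) ≤ v l := by
    rw [hl]
    exact E5b_le v h5
  have e : μ ^ 3 - 1 = (μ - 1) * (μ - 1) ^ 2 + (μ * (μ - 1)) * 3 := by ring
  rw [e]
  refine (v.map_add _ _).trans (max_le ?_ ?_)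
  · refine E5b_mul v h5.le ?_
    rw [map_pow]
    exact pow_le_pow_left₀ zero_le h6 2
  · exact E5b_mul v h4 h3.le

theorem E5b_main (l : k) (hl : v l = WithZero.exp (-1 : ℤ)) (h3 : v 3 = v l ^ 2)
    (h2 : v 2 = 1) (a b a' b' μ : k) (ha : v a ≤ 1) (hb : v b ≤ 1) (ha' : v a' ≤ 1)
    (hb' : v b' ≤ 1) (h : 1 + 2 * l * a + l ^ 2 * (a ^ 2 + b ^ 2) =
      (1 + 2 * l * a' + l ^ 2 * (a' ^ 2 + b' ^ 2)) * μ ^ 3) : v (a - a') ≤ v l := by
  have hl1 : v l < 1 := by rw [hl]; exact E5b_lt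
  have hl0 : v l ≠ 0 := by rw [hl]; exact WithZero.exp_ne_zero
  have key : ∀ x y : k, v x ≤ 1 → v y ≤ 1 → v (x ^ 2 + y ^ 2) ≤ 1 := by
    intro x y hx hy
    refine (v.map_add _ _).trans (max_le ?_ ?_)
    · rw [map_pow]
      exact pow_le_one₀ zero_le hx
    · rw [map_pow]
      exact pow_le_one₀ zero_le hy
  have key2 : ∀ x y : k, v x ≤ 1 → v y ≤ 1 →
      v (2 * l * x + l ^ 2 * (x ^ 2 + y ^ 2)) < 1 := by
    intro x y hx hy
    have e : 2 * l * x + l ^ 2 * (x ^ 2 + y ^ 2) = (2 * x + l * (x ^ 2 + y ^ 2)) * l := by ring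
    rw [e, map_mul]
    refine mul_lt_one_of_nonneg_of_lt_one_right ?_ zero_le hl1
    refine (v.map_add _ _).trans (max_le ?_ ?_)
    · exact E5b_mul v h2.le hx
    · exact E5b_mul v hl1.le (key x y hx hy)
  set M : k := 1 + 2 * l * a' + l ^ 2 * (a' ^ 2 + b' ^ 2) with hM
  have hMv : v M = 1 := by
    have e : M = 1 + (2 * l * a' + l ^ 2 * (a' ^ 2 + b' ^ 2)) := by rw [hM]; ring
    rw [e, Valuation.map_add_eq_of_lt_left v (by rw [map_one]; exact key2 a' b' ha' hb'), map_one]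
  have e1 : M * (μ ^ 3 - 1) = (2 * l * a + l ^ 2 * (a ^ 2 + b ^ 2)) -
      (2 * l * a' + l ^ 2 * (a' ^ 2 + b' ^ 2)) := by
    have e2 : M * (μ ^ 3 - 1) = M * μ ^ 3 - M := by ring
    rw [e2, ← h, hM]
    ring
  have h5 : v (μ ^ 3 - 1) < 1 := by
    have h6 : v (M * (μ ^ 3 - 1)) < 1 := by
      rw [e1]
      exact (v.map_sub _ _).trans_lt (max_lt (key2 a b ha hb) (key2 a' b' ha' hb'))
    rwa [map_mul, hMv, one_mul] at h6
  have h6 := E5b_cube v l hl h3 μ h5
  have e3 : l * (2 * (a - a')) = M * (μ ^ 3 - 1) -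
      ((a ^ 2 + b ^ 2) - (a' ^ 2 + b' ^ 2)) * l ^ 2 := by
    rw [e1]
    ring
  have h7 : v (l * (2 * (a - a'))) ≤ v l ^ 2 := by
    rw [e3]
    refine (v.map_sub _ _).trans (max_le (E5b_mul v hMv.le h6) ?_)
    refine E5b_mul v ?_ (by rw [map_pow])
    exact (v.map_sub _ _).trans (max_le (key a b ha hb) (key a' b' ha' hb'))
  rw [map_mul, map_mul, h2, one_mul, pow_two] at h7
  exact (mul_le_mul_iff_right₀ (zero_lt_iff.2 hl0)).1 h7

end E5b

theorem E5b_three {K : Type} [Field K] [NumberField K] [Algebra F K] (w : HeightOneSpectrum (𝓞 K)) :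
    w.valuation K 3 = w.valuation K (algebraMap O K (om - 1)) ^ 2 := by
  have h1 : (algebraMap O K om) ^ 2 + algebraMap O K om + 1 = 0 := by
    have h := congrArg (algebraMap O K) om_rel
    simpa only [map_add, map_pow, map_one, map_zero] using h
  have h2 : (algebraMap O K om) ^ 3 = 1 := by
    linear_combination (algebraMap O K om - 1) * h1
  have h3 : w.valuation K (algebraMap O K om) = 1 := by
    have h4 := congrArg (w.valuation K) h2
    rw [map_pow, map_one] at h4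
    exact (pow_eq_one_iff_of_nonneg zero_le three_ne_zero).1 h4
  have e : (3 : K) = -(algebraMap O K (om - 1)) ^ 2 * (algebraMap O K om) ^ 2 := by
    rw [map_sub, map_one]
    generalize algebraMap O K om = z at h1
    linear_combination (z ^ 2 - 3 * z + 3) * h1
  have e' : w.valuation K (3 : K) = w.valuation K (-(algebraMap O K (om - 1)) ^ 2 *
      (algebraMap O K om) ^ 2) := congrArg _ e
  rw [e', map_mul, Valuation.map_neg, map_pow, map_pow, h3, one_pow, mul_one]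

theorem E5b_two {K : Type} [Field K] [NumberField K] (w : HeightOneSpectrum (𝓞 K))
    (h3 : (3 : 𝓞 K) ∈ w.asIdeal) : (2 : 𝓞 K) ∉ w.asIdeal ∧ w.valuation K 2 = 1 := by
  have h1 : (2 : 𝓞 K) ∉ w.asIdeal := by
    intro h2
    apply w.isPrime.ne_top
    rw [Ideal.eq_top_iff_one]
    have e : (1 : 𝓞 K) = 3 - 2 := by norm_num
    rw [e]
    exact w.asIdeal.sub_mem h3 h2
  refine ⟨h1, ?_⟩
  have e : (2 : K) = algebraMap (𝓞 K) K 2 := by rw [map_ofNat]
  rw [e, w.valuation_eq_one_iff_notMem]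
  exact h1

theorem level3 {K N : Type} [Field K] [NumberField K] [Algebra F K] [Field N] [NumberField N]
    [Algebra K N] {t : N} {T : N ≃ₐ[K] N} (h : QN (-1) K N t T)
    (hK : ∀ w : HeightOneSpectrum (𝓞 K), (3 : 𝓞 K) ∈ w.asIdeal →
      w.valuation K (algebraMap O K (om - 1)) = WithZero.exp (-1 : ℤ)) :
    ∃ c : N → Fin (3 ^ Module.finrank F K), ∀ z z' : N,
      (∀ P : HeightOneSpectrum (𝓞 N), (3 : 𝓞 N) ∈ P.asIdeal → P.valuation N z = 1) →
      (∀ P : HeightOneSpectrum (𝓞 N), (3 : 𝓞 N) ∈ P.asIdeal → P.valuation N z' = 1) →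
      c z = c z' → (∃ n : K, (z / z') * T (z / z') = algebraMap K N n ^ 3) →
      ∃ b : N, b ≠ 0 ∧ ∀ P : HeightOneSpectrum (𝓞 N), (3 : 𝓞 N) ∈ P.asIdeal →
        P.valuation N (z / z' / b ^ 3 - 1) ≤ P.valuation N 3 := by
  obtain ⟨e, he3, he⟩ := exists_exp N
  obtain ⟨cr, hcr⟩ := res3 K
  choose p q hpq using h.span
  set l : K := algebraMap O K (om - 1) with hl
  set L : N := algebraMap K N l with hL
  have hB : (-1 : ℤ) ≠ 0 := by norm_num
  have hl0 : l ≠ 0 := by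
    intro h0
    have h1 := om_rel
    have h2 : (om : O) - 1 = 0 := by
      have hinj : Function.Injective (algebraMap O K) := by
        have : (algebraMap O K) = (algebraMap F K).comp (algebraMap O F) := rfl
        rw [this]
        exact (algebraMap F K).injective.comp (IsFractionRing.injective O F)
      apply hinj
      rw [map_zero]
      exact h0
    have h3 : (om : O) = 1 := sub_eq_zero.1 h2
    rw [h3] at h1
    norm_num at h1
  have hL0 : L ≠ 0 := (map_ne_zero _).2 hl0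
  set X : N → N := fun z => (z ^ e - 1) / L with hX
  have hP : ∀ P : HeightOneSpectrum (𝓞 N), (3 : 𝓞 N) ∈ P.asIdeal →
      ∃ w : HeightOneSpectrum (𝓞 K), w.asIdeal = P.asIdeal.under (𝓞 K) ∧ (3 : 𝓞 K) ∈ w.asIdeal := by
    intro P h3
    obtain ⟨w, hw⟩ := H19X.T4_under (K₀ := K) P
    refine ⟨w, hw, ?_⟩
    rw [hw, Ideal.mem_under, map_ofNat]
    exact h3
  have hPw : ∀ (P : HeightOneSpectrum (𝓞 N)) (w : HeightOneSpectrum (𝓞 K)),
      w.asIdeal = P.asIdeal.under (𝓞 K) → (3 : 𝓞 K) ∈ w.asIdeal → (3 : 𝓞 N) ∈ P.asIdeal := by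
    intro P w hw h3
    rw [hw, Ideal.mem_under, map_ofNat] at h3
    exact h3
  have hPL : ∀ P : HeightOneSpectrum (𝓞 N), (3 : 𝓞 N) ∈ P.asIdeal →
      P.valuation N L = WithZero.exp (-1 : ℤ) := by
    intro P h3
    obtain ⟨w, hw, hw3⟩ := hP P h3
    rw [hL, h.val_eq P (E5b_two P h3).1 w hw, hK w hw3]
  have hXint : ∀ z : N, (∀ P : HeightOneSpectrum (𝓞 N), (3 : 𝓞 N) ∈ P.asIdeal → P.valuation N z = 1) →
      ∀ P : HeightOneSpectrum (𝓞 N), (3 : 𝓞 N) ∈ P.asIdeal → P.valuation N (X z) ≤ 1 := by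
    intro z hz P h3
    have h1 := E5b_le (P.valuation N) (he P h3 z (hz P h3))
    show P.valuation N ((z ^ e - 1) / L) ≤ 1
    rw [map_div₀, hPL P h3, div_le_one₀ (zero_lt_iff.2 WithZero.exp_ne_zero)]
    exact h1
  have hco : ∀ z : N, (∀ P : HeightOneSpectrum (𝓞 N), (3 : 𝓞 N) ∈ P.asIdeal → P.valuation N z = 1) →
      ∀ w : HeightOneSpectrum (𝓞 K), (3 : 𝓞 K) ∈ w.asIdeal →
        w.valuation K (p (X z)) ≤ 1 ∧ w.valuation K (q (X z)) ≤ 1 := by
    intro z hz w h3
    obtain ⟨h4, h5⟩ := h.coord_le hB w (E5b_two w h3).1 (p (X z)) (q (X z)) 1 (by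
      intro P hPw'
      rw [← hpq, map_one, map_one]
      exact hXint z hz P (hPw P w hPw' h3))
    rw [map_one] at h4
    refine ⟨h4, ?_⟩
    rw [one_pow, map_one] at h5
    have h6 : w.valuation K (q (X z) ^ 2) ≤ 1 := by
      have e6 : ((-1 : ℤ) : K) * q (X z) ^ 2 = -(q (X z) ^ 2) := by push_cast; ring
      rw [e6, Valuation.map_neg] at h5
      exact h5
    rw [map_pow] at h6
    exact (pow_le_one_iff_of_nonneg zero_le two_ne_zero).1 h6
  refine ⟨fun z => cr (q (X z)), ?_⟩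
  intro z z' hz hz' hcz hn
  obtain ⟨n, hn⟩ := hn
  by_cases hz0 : z = 0
  · -- no primes above 3 is impossible, but we do not need it
    refine ⟨1, one_ne_zero, fun P h3 => ?_⟩
    have h1 := hz P h3
    rw [hz0, map_zero] at h1
    exact absurd h1 zero_ne_one
  by_cases hz0' : z' = 0
  · refine ⟨1, one_ne_zero, fun P h3 => ?_⟩
    have h1 := hz' P h3
    rw [hz0', map_zero] at h1
    exact absurd h1 zero_ne_one
  have hze : ∀ z : N, z ^ e = 1 + L * X z := by
    intro z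
    show z ^ e = 1 + L * ((z ^ e - 1) / L)
    field_simp
    ring
  have hnormN : ∀ z : N, z ^ e * T (z ^ e) = algebraMap K N (1 + 2 * l * p (X z) +
      l ^ 2 * (p (X z) ^ 2 + q (X z) ^ 2)) := by
    intro z
    have e1 : z ^ e = algebraMap K N (1 + l * p (X z)) + algebraMap K N (l * q (X z)) * t := by
      rw [hze z]
      conv_lhs => rw [hpq (X z)]
      rw [map_add, map_mul, map_mul, map_one]
      ring
    rw [e1, h.norm_mk]
    congr 1
    push_cast
    ring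
  have hdiv : (z / z') ^ e * T ((z / z') ^ e) = algebraMap K N (n ^ e) ^ 3 := by
    rw [map_pow T, ← mul_pow, hn, ← map_pow, ← map_pow, ← map_pow, ← pow_mul, ← pow_mul, mul_comm]
  have hrel : 1 + 2 * l * p (X z) + l ^ 2 * (p (X z) ^ 2 + q (X z) ^ 2) =
      (1 + 2 * l * p (X z') + l ^ 2 * (p (X z') ^ 2 + q (X z') ^ 2)) * (n ^ e) ^ 3 := by
    apply (algebraMap K N).injective
    rw [map_mul, ← hnormN z, ← hnormN z', map_pow _ (n ^ e), ← hdiv]
    have e1 : z ^ e = z' ^ e * (z / z') ^ e := by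
      rw [← mul_pow, mul_div_cancel₀ _ hz0']
    conv_lhs => rw [e1]
    rw [map_mul T]
    ring
  have hmain : ∀ w : HeightOneSpectrum (𝓞 K), (3 : 𝓞 K) ∈ w.asIdeal →
      w.valuation K (p (X z) - p (X z')) ≤ w.valuation K l ∧
      w.valuation K (q (X z) - q (X z')) ≤ w.valuation K l := by
    intro w h3
    refine ⟨?_, hcr _ _ (fun w h3 => (hco z hz w h3).2) (fun w h3 => (hco z' hz' w h3).2) hcz w h3⟩
    exact E5b_main (w.valuation K) l (hK w h3) (E5b_three w) (E5b_two w h3).2 _ _ _ _ (n ^ e)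
      (hco z hz w h3).1 (hco z hz w h3).2 (hco z' hz' w h3).1 (hco z' hz' w h3).2 hrel
  obtain ⟨f, hf⟩ : ∃ f : ℕ, e = 1 + 3 * f := ⟨e / 3, by omega⟩
  have hu0 : z / z' ≠ 0 := div_ne_zero hz0 hz0'
  refine ⟨((z / z') ^ f)⁻¹, inv_ne_zero (pow_ne_zero f hu0), ?_⟩
  intro P h3
  have e2 : z / z' / (((z / z') ^ f)⁻¹) ^ 3 = (z / z') ^ e := by
    rw [hf, inv_pow, div_inv_eq_mul, ← pow_mul, pow_add, pow_one, mul_comm f 3]
  rw [e2]
  have e3 : (z / z') ^ e - 1 = (z ^ e - z' ^ e) / z' ^ e := by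
    rw [div_pow, sub_div, div_self (pow_ne_zero e hz0')]
  rw [e3, map_div₀, map_pow _ z' e, hz' P h3, one_pow, div_one]
  obtain ⟨w, hw, hw3⟩ := hP P h3
  have e4 : z ^ e - z' ^ e = L * (algebraMap K N (p (X z) - p (X z')) +
      t * algebraMap K N (q (X z) - q (X z'))) := by
    rw [hze z, hze z']
    conv_lhs => rw [hpq (X z), hpq (X z')]
    rw [map_sub, map_sub]
    ring
  have ht : P.valuation N t ≤ 1 := by
    have h5 := congrArg (P.valuation N) h.sq
    push_cast at h5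
    rw [map_pow, Valuation.map_neg, map_one] at h5
    exact le_of_eq ((pow_eq_one_iff_of_nonneg zero_le two_ne_zero).1 h5)
  have h2P := (E5b_two P h3).1
  obtain ⟨m1, m2⟩ := hmain w hw3
  have h7 : P.valuation N (algebraMap K N (p (X z) - p (X z')) +
      t * algebraMap K N (q (X z) - q (X z'))) ≤ P.valuation N L := by
    rw [hL, h.val_eq P h2P w hw]
    refine (Valuation.map_add _ _ _).trans (max_le ?_ ?_)
    · rw [h.val_eq P h2P w hw]
      exact m1
    · refine E5b_mul _ ht ?_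
      rw [h.val_eq P h2P w hw]
      exact m2
  have h8 : P.valuation N 3 = P.valuation N L ^ 2 := by
    have e5 : (3 : N) = algebraMap K N 3 := by rw [map_ofNat]
    rw [e5, h.val_eq P h2P w hw, hL, h.val_eq P h2P w hw]
    exact E5b_three w
  rw [e4, map_mul, h8, pow_two]
  exact mul_le_mul_right h7 _

end H35X
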