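import Mathlib
import Pool.Agent.Lib.H19X.EX6
import Pool.Agent.Lib.H35T.I4
import Pool.Agent.Lib.H35X.G1

open NumberField IsDedekindDomain

namespace H35X

open H55B H35T H13E

/-! Chunk E6 (M): compare H19X.EX6 (exists_two). t = i is an algebraic integer ι of N, x^2 = -1 modulo w; the ideals (w, ι - x) and (w, ι + x) of
𝓞 N are not the unit ideal (if 1 = m + (ι - x) y with m in w 𝓞 N then ι + x = (ι + x) m - (x^2 + 1) y is in w 𝓞 N, so by the trace argument of EX6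
(H19X.EX6_trace; Algebra.trace K N (ι (ι + x)) = -2) 2 is in w), and a prime containing both contains 2 x, and x^2 = -1. H19X.EX6_prime. -/

open H19X

theorem E6_tr {K N : Type} [Field K] [NumberField K] [Field N] [NumberField N] [Algebra K N]
    {t : N} {T : N ≃ₐ[K] N} (h : QN (-1) K N t T) (a b : K) :
    Algebra.trace K N (algebraMap K N a + algebraMap K N b * t) = 2 * a := by
  have h1 : Algebra.trace K N t = 0 := by
    have h2 := Algebra.trace_eq_of_algEquiv T t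
    rw [h.Tt, map_neg] at h2
    have h3 : (2 : K) * Algebra.trace K N t = 0 := by linear_combination -h2
    exact (mul_eq_zero.1 h3).resolve_left two_ne_zero
  rw [map_add, Algebra.trace_algebraMap, h.rank (by norm_num), ← Algebra.smul_def, map_smul, h1,
    smul_zero, add_zero, nsmul_eq_mul]
  norm_num

theorem E6_two {K N : Type} [Field K] [NumberField K] [Field N] [NumberField N] [Algebra K N]
    {t : N} {T : N ≃ₐ[K] N} (h : QN (-1) K N t T) (z : 𝓞 N) (b : K)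
    (hz : (z : N) = algebraMap K N (-1) + algebraMap K N b * t) :
    Algebra.intTrace (𝓞 K) (𝓞 N) z = -2 := by
  have h1 : algebraMap (𝓞 K) K (Algebra.intTrace (𝓞 K) (𝓞 N) z) = Algebra.trace K N (z : N) :=
    Algebra.algebraMap_intTrace (A := 𝓞 K) (K := K) (L := N) (B := 𝓞 N) z
  rw [hz, E6_tr h] at h1
  apply RingOfIntegers.ext
  change algebraMap (𝓞 K) K (Algebra.intTrace (𝓞 K) (𝓞 N) z) = algebraMap (𝓞 K) K (-2)
  rw [h1, map_neg, map_ofNat]
  norm_num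

theorem exists_two3 {K N : Type} [Field K] [NumberField K] [Field N] [NumberField N] [Algebra K N]
    {t : N} {T : N ≃ₐ[K] N} (h : QN (-1) K N t T) (w : HeightOneSpectrum (𝓞 K))
    (h6 : (6 : 𝓞 K) ∉ w.asIdeal) (x : 𝓞 K) (hx : x ^ 2 + 1 ∈ w.asIdeal) :
    ∃ P1 P2 : HeightOneSpectrum (𝓞 N), P1 ≠ P2 ∧ w.asIdeal = P1.asIdeal.under (𝓞 K) ∧
      w.asIdeal = P2.asIdeal.under (𝓞 K) := by
  have hint : IsIntegral ℤ t := by
    refine IsIntegral.of_pow (n := 2) (by norm_num) ?_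
    rw [h.sq]
    exact isIntegral_algebraMap (R := ℤ) (A := N) (x := -1)
  obtain ⟨θ, hθ⟩ : ∃ θ : 𝓞 N, (θ : N) = t := ⟨⟨t, hint⟩, rfl⟩
  have hc : θ ^ 2 = -1 := by
    apply RingOfIntegers.ext
    have h1 : ((θ ^ 2 : 𝓞 N) : N) = (θ : N) ^ 2 := rfl
    have h2 : ((-1 : 𝓞 N) : N) = -1 := rfl
    rw [h1, h2, hθ, h.sq]
    norm_num
  obtain ⟨y, hy⟩ : ∃ y : 𝓞 N, y = algebraMap (𝓞 K) (𝓞 N) x := ⟨_, rfl⟩
  have hyN : (y : N) = algebraMap K N (x : K) := by
    rw [hy]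
    rfl
  have hyw : y ^ 2 + 1 ∈ Ideal.map (algebraMap (𝓞 K) (𝓞 N)) w.asIdeal := by
    have h1 := Ideal.mem_map_of_mem (algebraMap (𝓞 K) (𝓞 N)) hx
    rwa [map_add, map_pow, map_one, ← hy] at h1
  have h6' : ∀ b : K, ∀ z : 𝓞 N, z ∈ Ideal.map (algebraMap (𝓞 K) (𝓞 N)) w.asIdeal →
      ((z * θ : 𝓞 N) : N) = algebraMap K N (-1) + algebraMap K N b * t → False := by
    intro b z hz hzz
    have h2 := EX6_trace w.asIdeal hz θ
    rw [E6_two h _ b hzz] at h2
    apply h6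
    have h3 : (6 : 𝓞 K) = (-3) * (-2) := by norm_num
    rw [h3]
    exact w.asIdeal.mul_mem_left _ h2
  have hI1 : Ideal.map (algebraMap (𝓞 K) (𝓞 N)) w.asIdeal ⊔ Ideal.span {θ - y} ≠ ⊤ := by
    intro h
    rw [Ideal.eq_top_iff_one, Submodule.mem_sup] at h
    obtain ⟨m, hm, s, hs, hms⟩ := h
    rw [Ideal.mem_span_singleton'] at hs
    obtain ⟨u, hu⟩ := hs
    have hq : θ + y ∈ Ideal.map (algebraMap (𝓞 K) (𝓞 N)) w.asIdeal := by
      have h1 : θ + y = (θ + y) * m + (-u) * (y ^ 2 + 1) := by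
        linear_combination (-(θ + y)) * hms - (θ + y) * hu + u * hc
      rw [h1]
      exact Ideal.add_mem _ (Ideal.mul_mem_left _ _ hm) (Ideal.mul_mem_left _ _ hyw)
    refine h6' (x : K) _ hq ?_
    have h3 : (θ + y) * θ = -1 + y * θ := by
      linear_combination hc
    rw [h3]
    have h5 : ((-1 + y * θ : 𝓞 N) : N) = -1 + (y : N) * (θ : N) := rfl
    rw [h5, hθ, hyN, map_neg, map_one]
  have hI2 : Ideal.map (algebraMap (𝓞 K) (𝓞 N)) w.asIdeal ⊔ Ideal.span {θ + y} ≠ ⊤ := by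
    intro h
    rw [Ideal.eq_top_iff_one, Submodule.mem_sup] at h
    obtain ⟨m, hm, s, hs, hms⟩ := h
    rw [Ideal.mem_span_singleton'] at hs
    obtain ⟨u, hu⟩ := hs
    have hq : θ - y ∈ Ideal.map (algebraMap (𝓞 K) (𝓞 N)) w.asIdeal := by
      have h1 : θ - y = (θ - y) * m + (-u) * (y ^ 2 + 1) := by
        linear_combination (-(θ - y)) * hms - (θ - y) * hu + u * hc
      rw [h1]
      exact Ideal.add_mem _ (Ideal.mul_mem_left _ _ hm) (Ideal.mul_mem_left _ _ hyw)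
    refine h6' (-(x : K)) _ hq ?_
    have h3 : (θ - y) * θ = -1 + (-y) * θ := by
      linear_combination hc
    rw [h3]
    have h5 : ((-1 + (-y) * θ : 𝓞 N) : N) = -1 + (-(y : N)) * (θ : N) := rfl
    rw [h5, hθ, hyN, map_neg, map_one, map_neg]
  obtain ⟨P1, hP1, hwP1⟩ := EX6_prime w _ hI1 le_sup_left
  obtain ⟨P2, hP2, hwP2⟩ := EX6_prime w _ hI2 le_sup_left
  refine ⟨P1, P2, ?_, hwP1, hwP2⟩
  rintro rfl
  have h1 : θ - y ∈ P1.asIdeal := hP1 (Submodule.mem_sup_right (Ideal.mem_span_singleton_self _))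
  have h2 : θ + y ∈ P1.asIdeal :=
    hP2 (Submodule.mem_sup_right (Ideal.mem_span_singleton_self _))
  have h3 : y ^ 2 + 1 ∈ P1.asIdeal := hP1 (Submodule.mem_sup_left hyw)
  have h4 : (6 : 𝓞 N) = 3 * y * (θ - y) - 3 * y * (θ + y) + 6 * (y ^ 2 + 1) := by ring
  have h5 : (6 : 𝓞 N) ∈ P1.asIdeal := by
    rw [h4]
    exact Ideal.add_mem _ (Ideal.sub_mem _ (Ideal.mul_mem_left _ _ h1)
      (Ideal.mul_mem_left _ _ h2)) (Ideal.mul_mem_left _ _ h3)
  apply h6
  rw [hwP1, Ideal.under_def, Ideal.mem_comap, map_ofNat]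
  exact h5

end H35X
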