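import Mathlib
import Pool.Agent.Lib.H35X.E2
import Pool.Agent.Lib.H35X.E3
import Pool.Agent.Lib.H35X.E5b
import Pool.Agent.Lib.H35X.E6

open NumberField IsDedekindDomain

namespace H35X

open H55B H35T H13E

/-! Chunk E7 (M): existence, compare H19X.EX7 (exists_z). n = number of infinite places of K = [K : F] (H19X.places_F: 2 card = [K:Q], [K:Q] = 2 [K:F]), N
has 2 n (places_F for Algebra F N, [N:K] = 2). many3 for N (r = om): 3^(2n+2) elements f i; the classes: few3 for the norms n_i in K (f i T f i = algebraMap n_i,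
QN.norm_mk; units outside w: P.valuation (T z) = P'.valuation z, H19X.EX7_under): 3^(n+1), and level3: 3^n. 3^(2n+1) < 3^(2n+2): i <> j with the same classes,
z = f i/f j, norm b^3 with b from few3, level3 gives the last condition (P1, P2 are above w, not above 3, as 6 is not in w). -/

theorem exists_z3 {K N : Type} [Field K] [NumberField K] [Algebra F K] [Field N] [NumberField N]
    [Algebra K N] {t : N} {T : N ≃ₐ[K] N} (h : QN (-1) K N t T)
    (hK : ∀ w : HeightOneSpectrum (𝓞 K), (3 : 𝓞 K) ∈ w.asIdeal →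
      w.valuation K (algebraMap O K (om - 1)) = WithZero.exp (-1 : ℤ))
    (w : HeightOneSpectrum (𝓞 K)) (h6 : (6 : 𝓞 K) ∉ w.asIdeal) (x : 𝓞 K)
    (hx : x ^ 2 + 1 ∈ w.asIdeal) :
    ∃ z : N, z ≠ 0 ∧ (¬ ∃ b : N, z = b ^ 3) ∧ (∃ n : K, z * T z = algebraMap K N n ^ 3) ∧
      (∀ P : HeightOneSpectrum (𝓞 N), w.asIdeal ≠ P.asIdeal.under (𝓞 K) → P.valuation N z = 1) ∧
      ∃ b : N, b ≠ 0 ∧ ∀ P : HeightOneSpectrum (𝓞 N), (3 : 𝓞 N) ∈ P.asIdeal →
        P.valuation N (z / b ^ 3 - 1) ≤ P.valuation N 3 := by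
  obtain ⟨P1, P2, h12, hP1, hP2⟩ := exists_two3 h w h6 x hx
  -- a primitive cube root of unity in N
  have hr : (algebraMap K N ((algebraMap O K om : K))) ^ 2 + algebraMap K N (algebraMap O K om) + 1 = 0 := by
    have h1 := congrArg (algebraMap K N) (H55C.A18_om K)
    simpa only [map_add, map_pow, map_one, map_zero] using h1
  obtain ⟨f, hf, hne⟩ := many3 N _ hr P1 P2 h12
  obtain ⟨c1, hc1⟩ := few3 K w
  obtain ⟨c2, hc2⟩ := level3 h hK
  have hnorm : ∀ z : N, ∃ n : K, z * T z = algebraMap K N n := by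
    intro z
    obtain ⟨a, b, rfl⟩ := h.span z
    exact ⟨_, h.norm_mk a b⟩
  choose nn hnn using hnorm
  have hunit : ∀ i, ∀ P : HeightOneSpectrum (𝓞 N), w.asIdeal ≠ P.asIdeal.under (𝓞 K) →
      P.valuation N (f i) = 1 := by
    intro i P hP
    apply (hf i).2
    · rintro rfl
      exact hP hP1
    · rintro rfl
      exact hP hP2
  have h3w : (3 : 𝓞 K) ∉ w.asIdeal := by
    intro h
    apply h6
    have h7 : (6 : 𝓞 K) = 2 * 3 := by norm_num
    rw [h7]
    exact w.asIdeal.mul_mem_left _ h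
  have habove : ∀ P : HeightOneSpectrum (𝓞 N), (3 : 𝓞 N) ∈ P.asIdeal →
      w.asIdeal ≠ P.asIdeal.under (𝓞 K) := by
    intro P hP hw
    apply h3w
    rw [hw, Ideal.under_def, Ideal.mem_comap, map_ofNat]
    exact hP
  have hn0 : ∀ i, nn (f i) ≠ 0 := by
    intro i h0
    have h1 := hnn (f i)
    rw [h0, map_zero] at h1
    rcases mul_eq_zero.1 h1 with h2 | h2
    · exact (hf i).1 h2
    · exact (hf i).1 ((map_eq_zero T).1 h2)
  have hnu : ∀ i, nn (f i) ≠ 0 ∧
      ∀ u : HeightOneSpectrum (𝓞 K), u ≠ w → u.valuation K (nn (f i)) = 1 := by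
    intro i
    refine ⟨hn0 i, fun u hu => ?_⟩
    have hz : ∀ P : HeightOneSpectrum (𝓞 N), u.asIdeal = P.asIdeal.under (𝓞 K) →
        P.valuation N (f i) = 1 := by
      intro P hP
      apply hunit
      intro hw
      exact hu (HeightOneSpectrum.ext (hP.trans hw.symm))
    obtain ⟨P, hP⟩ := H19X.EX7_above (N := N) u
    obtain ⟨v, e, hv, he, hval⟩ := H55C.A4_glob (K := K) (N := N) P
    have hvu : v = u := HeightOneSpectrum.ext (hv.trans hP.symm)
    subst hvu
    obtain ⟨P', hP', -⟩ := H55C.val_auto (T : N ≃+* N) P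
    have h1 := H19X.EX7_under T P P' hP'
    have h3 : P.valuation N (T (f i)) = P'.valuation N (f i) := hP' (f i)
    have h6 : P.valuation N (algebraMap K N (nn (f i))) = 1 := by
      rw [← hnn, map_mul, h3, hz P hP, hz P' (hP.trans h1.symm), one_mul]
    rw [hval] at h6
    exact (pow_eq_one_iff.1 h6).resolve_right he
  have hQ : 2 * Fintype.card (InfinitePlace K) = Module.finrank ℚ K := H19X.places_F K
  have hFK : Module.finrank F K = Fintype.card (InfinitePlace K) := by
    have h1 := Module.finrank_mul_finrank ℚ F K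
    have h2 : Module.finrank ℚ F = 2 := by
      have h3 := IsCyclotomicExtension.finrank (n := 3) F
        (Polynomial.cyclotomic.irreducible_rat (by norm_num : 0 < 3))
      rw [h3]
      decide
    rw [h2] at h1
    omega
  have hN : Fintype.card (InfinitePlace N) = 2 * Fintype.card (InfinitePlace K) := by
    letI : Algebra F N := ((algebraMap K N).comp (algebraMap F K)).toAlgebra
    have h1 := H19X.places_F N
    have h2 := Module.finrank_mul_finrank ℚ K N
    rw [h.rank (by norm_num)] at h2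
    omega
  have hcard : Fintype.card (Fin (3 ^ (Fintype.card (InfinitePlace K) + 1)) ×
      Fin (3 ^ Module.finrank F K)) <
      Fintype.card (Fin (3 ^ (Fintype.card (InfinitePlace N) + 2))) := by
    rw [Fintype.card_prod, Fintype.card_fin, Fintype.card_fin, Fintype.card_fin, hN, hFK, ← pow_add]
    exact Nat.pow_lt_pow_right (by norm_num) (by omega)
  obtain ⟨i, j, hij, hg⟩ := Fintype.exists_ne_map_eq_of_card_lt
    (fun i => (c1 (nn (f i)), c2 (f i))) hcard
  have hg1 : c1 (nn (f i)) = c1 (nn (f j)) := congrArg Prod.fst hg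
  have hg2 : c2 (f i) = c2 (f j) := congrArg Prod.snd hg
  obtain ⟨b, hb⟩ := hc1 _ _ (hnu i) (hnu j) hg1
  have hcube : (f i / f j) * T (f i / f j) = algebraMap K N b ^ 3 := by
    rw [map_div₀, div_mul_div_comm, hnn, hnn, hb, map_mul, map_pow]
    have h7 : algebraMap K N (nn (f j)) ≠ 0 := (map_ne_zero _).2 (hn0 j)
    field_simp
  refine ⟨f i / f j, div_ne_zero (hf i).1 (hf j).1, ?_, ⟨b, hcube⟩, ?_, ?_⟩
  · rintro ⟨b, hb⟩
    apply hne i j hij
    refine ⟨b, ?_⟩
    rw [← hb, mul_div_cancel₀ _ (hf j).1]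
  · intro P hP
    rw [map_div₀, hunit i P hP, hunit j P hP, div_one]
  · exact hc2 (f i) (f j) (fun P hP => hunit i P (habove P hP))
      (fun P hP => hunit j P (habove P hP)) hg2 ⟨b, hcube⟩

end H35X
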