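import Mathlib
import Pool.Agent.Lib.H35X.G1

open NumberField IsDedekindDomain Polynomial

namespace H35X

open H55B H35T H13E

/-! Chunk U1 (M): non-cubes stay non-cubes in K'(i), K'/K Galois, K contains a root r of X^2 + X + 1 (r^3 = 1, r <> 1). j : N -> N' with j t = t', j = algebraMap on K. Let
j z = y^3, y = a + b t' (a, b in K'). For g in Gal(K'/K): y_g = g a + g b t'; y_g^3 = j z: the coordinates of (a + b t')^3 are a^3 - 3 a b^2 and
3 a^2 b - b^3 (t'^2 = -1), they are in the image of K because j z = algebraMap p + algebraMap q t' with p, q in K (QN.indep for N'), so g fixes them.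
Hence (y_g/y)^3 = 1 (y <> 0), y_g = r^k y, k in {0, 1, 2} (x^3 - 1 = (x - 1)(x - r)(x - r^2) in the field N'), i.e. g a = r^k a, g b = r^k b (QN.indep).
Norm: z T z = n^3, so (a^2 + b^2)^3 = n^3 (apply j, norm_mk), a^2 + b^2 = r^l n in K (n <> 0), so g fixes it: r^(2k) (a^2 + b^2) = a^2 + b^2, r^(2k) = 1, k = 0. So g a = a, g b = b for
all g: a, b in K (IsGalois: fixed by all g implies in the range of algebraMap), y = j b0, and z = b0^3 by injectivity of j. -/

theorem nonc_up {K K' N N' : Type} [Field K] [NumberField K] [Field K'] [NumberField K'] [Algebra K K']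
    [IsGalois K K'] [Field N] [NumberField N] [Algebra K N] [Field N'] [NumberField N'] [Algebra K' N']
    {t : N} {T : N ≃ₐ[K] N} {t' : N'} {T' : N' ≃ₐ[K'] N'} (h : QN (-1) K N t T)
    (h' : QN (-1) K' N' t' T') (j : N →+* N')
    (hj : ∀ x : K, j (algebraMap K N x) = algebraMap K' N' (algebraMap K K' x)) (hjt : j t = t')
    (r : K) (hr : r ^ 2 + r + 1 = 0) (z : N) (hz : z ≠ 0) (n : K)
    (hn : z * T z = algebraMap K N n ^ 3) (hnc : ¬ ∃ b : N, z = b ^ 3) :
    ¬ ∃ b : N', j z = b ^ 3 := by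
  rintro ⟨y, hy⟩
  obtain ⟨p, q, hpq⟩ := h.span z
  obtain ⟨a, b, hab⟩ := h'.span y
  have ht' : t' ^ 2 = -1 := by rw [h'.sq]; norm_num
  have hind : ∀ x x' y y' : K', algebraMap K' N' x + algebraMap K' N' y * t' =
      algebraMap K' N' x' + algebraMap K' N' y' * t' → x = x' ∧ y = y' := by
    intro x x' y y' hxy
    have h1 := h'.indep (by norm_num) (x - x') (y - y') (by
      rw [map_sub, map_sub]
      linear_combination hxy)
    exact ⟨sub_eq_zero.1 h1.1, sub_eq_zero.1 h1.2⟩
  have hcube : ∀ x y : K', (algebraMap K' N' x + algebraMap K' N' y * t') ^ 3 =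
      algebraMap K' N' (x ^ 3 - 3 * x * y ^ 2) + algebraMap K' N' (3 * x ^ 2 * y - y ^ 3) * t' := by
    intro x y
    simp only [map_sub, map_mul, map_pow, map_ofNat]
    linear_combination (3 * algebraMap K' N' x * algebraMap K' N' y ^ 2 +
      algebraMap K' N' y ^ 3 * t') * ht'
  have hjz : j z = algebraMap K' N' (algebraMap K K' p) + algebraMap K' N' (algebraMap K K' q) * t' := by
    rw [hpq, map_add, map_mul, hj, hj, hjt]
  obtain ⟨h1, h2⟩ := hind _ _ _ _ (by rw [← hcube, ← hab, ← hy, hjz] :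
    algebraMap K' N' (a ^ 3 - 3 * a * b ^ 2) + algebraMap K' N' (3 * a ^ 2 * b - b ^ 3) * t' =
      algebraMap K' N' (algebraMap K K' p) + algebraMap K' N' (algebraMap K K' q) * t')
  -- norms
  have hnorm : p ^ 2 + q ^ 2 = n ^ 3 := by
    have h3 := h.norm_mk p q
    rw [← hpq, hn, ← map_pow] at h3
    have h4 := (algebraMap K N).injective h3
    rw [h4]
    push_cast
    ring
  have hn0 : n ≠ 0 := by
    rintro rfl
    rw [map_zero, zero_pow three_ne_zero] at hn
    rcases mul_eq_zero.1 hn with h3 | h3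
    · exact hz h3
    · exact hz ((map_eq_zero T).1 h3)
  have hc0 : (3 : K') ≠ 0 := by norm_num
  set R : K' := algebraMap K K' r with hR
  have hR' : R ^ 2 + R + 1 = 0 := by
    rw [hR, ← map_pow, ← map_add, ← map_one (algebraMap K K'), ← map_add, hr, map_zero]
  have hs3 : (a ^ 2 + b ^ 2) ^ 3 = (algebraMap K K' n) ^ 3 := by
    rw [← map_pow, ← hnorm, map_add, map_pow, map_pow, ← h1, ← h2]
    ring
  have hn0' : algebraMap K K' n ≠ 0 := (_root_.map_ne_zero _).2 hn0
  have hs0 : a ^ 2 + b ^ 2 ≠ 0 := by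
    intro h0
    rw [h0, zero_pow three_ne_zero] at hs3
    exact pow_ne_zero 3 hn0' hs3.symm
  have hsr : ∃ m : K, a ^ 2 + b ^ 2 = algebraMap K K' m := by
    have h3 : (a ^ 2 + b ^ 2 - algebraMap K K' n) * ((a ^ 2 + b ^ 2 - R * algebraMap K K' n) *
        (a ^ 2 + b ^ 2 - R ^ 2 * algebraMap K K' n)) = 0 := by
      generalize a ^ 2 + b ^ 2 = s at hs3
      generalize algebraMap K K' n = m at hs3
      linear_combination hs3 + (-(s ^ 2 * m) + s * m ^ 2 * R - (R - 1) * m ^ 3) * hR'
    rcases mul_eq_zero.1 h3 with h4 | h4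
    · exact ⟨n, sub_eq_zero.1 h4⟩
    rcases mul_eq_zero.1 h4 with h5 | h5
    · exact ⟨r * n, by rw [map_mul]; exact sub_eq_zero.1 h5⟩
    · exact ⟨r ^ 2 * n, by rw [map_mul, map_pow]; exact sub_eq_zero.1 h5⟩
  obtain ⟨m, hm⟩ := hsr
  have hfix : ∀ g : K' ≃ₐ[K] K', g a = a ∧ g b = b := by
    intro g
    have e1 : g a ^ 3 - 3 * g a * g b ^ 2 = algebraMap K K' p := by
      have h3 := congrArg g h1
      simp only [map_sub, map_mul, map_pow, map_ofNat, AlgEquiv.commutes] at h3
      exact h3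
    have e2 : 3 * g a ^ 2 * g b - g b ^ 3 = algebraMap K K' q := by
      have h3 := congrArg g h2
      simp only [map_sub, map_mul, map_pow, map_ofNat, AlgEquiv.commutes] at h3
      exact h3
    have e3 : (algebraMap K' N' (g a) + algebraMap K' N' (g b) * t') ^ 3 = y ^ 3 := by
      rw [hcube, e1, e2, ← hjz, hy]
    have hRR : (algebraMap K' N' R) ^ 2 + algebraMap K' N' R + 1 = 0 := by
      rw [← map_pow, ← map_add, ← map_one (algebraMap K' N'), ← map_add, hR', map_zero]
    have e4 : (algebraMap K' N' (g a) + algebraMap K' N' (g b) * t' - y) *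
        ((algebraMap K' N' (g a) + algebraMap K' N' (g b) * t' - algebraMap K' N' R * y) *
        (algebraMap K' N' (g a) + algebraMap K' N' (g b) * t' - algebraMap K' N' R ^ 2 * y)) = 0 := by
      generalize algebraMap K' N' (g a) + algebraMap K' N' (g b) * t' = s at e3
      generalize algebraMap K' N' R = R' at hRR
      linear_combination e3 + (-(s ^ 2 * y) + s * y ^ 2 * R' - (R' - 1) * y ^ 3) * hRR
    have e5 : g (a ^ 2 + b ^ 2) = a ^ 2 + b ^ 2 := by
      rw [hm, g.commutes]
    rw [map_add, map_pow, map_pow] at e5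
    rcases mul_eq_zero.1 e4 with h4 | h4
    · rw [hab] at h4
      exact hind _ _ _ _ (sub_eq_zero.1 h4)
    rcases mul_eq_zero.1 h4 with h5 | h5
    · exfalso
      obtain ⟨h6, h7⟩ := hind (g a) (R * a) (g b) (R * b) (by
        rw [sub_eq_zero.1 h5, hab, map_mul, map_mul]
        ring)
      rw [h6, h7] at e5
      have h8 : (a ^ 2 + b ^ 2) * (R ^ 2 - 1) = 0 := by linear_combination e5
      have h9 := (mul_eq_zero.1 h8).resolve_left hs0
      apply hc0
      have h10 : R = -2 := by linear_combination hR' - h9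
      rw [h10] at h9
      linear_combination h9
    · exfalso
      obtain ⟨h6, h7⟩ := hind (g a) (R ^ 2 * a) (g b) (R ^ 2 * b) (by
        rw [sub_eq_zero.1 h5, hab, map_mul, map_mul, map_pow]
        ring)
      rw [h6, h7] at e5
      have h8 : (a ^ 2 + b ^ 2) * (R ^ 4 - 1) = 0 := by linear_combination e5
      have h9 := (mul_eq_zero.1 h8).resolve_left hs0
      have h10 : R = 1 := by linear_combination h9 - (R ^ 2 - R) * hR'
      rw [h10] at hR'
      apply hc0
      linear_combination hR'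
  obtain ⟨a0, ha0⟩ := (IsGalois.mem_range_algebraMap_iff_fixed (F := K) a).2 fun g => (hfix g).1
  obtain ⟨b0, hb0⟩ := (IsGalois.mem_range_algebraMap_iff_fixed (F := K) b).2 fun g => (hfix g).2
  apply hnc
  refine ⟨algebraMap K N a0 + algebraMap K N b0 * t, j.injective ?_⟩
  rw [hy, map_pow, map_add, map_mul, hj, hj, hjt, ha0, hb0, ← hab]

end H35X
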