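import Mathlib
import Pool.Agent.Lib.H19X.T2
import Pool.Agent.Lib.H35X.G1

open NumberField IsDedekindDomain Polynomial

namespace H35X

open H55B H35T H13E

/-! Chunk U2 (M): compare H19X.UP (cnd_up, cnd_mono). U2_T: j (T z) = T' (j z) (coordinates). cnd_mono3: ne, norm (j (z T z) = (algebraMap n)^3), val: P' of N', P
below (Algebra N N' := j.toAlgebra, H55C.A4_glob), P'.valuation (j z) = P.valuation z ^ e; three: with j b. cnd_up3: the same except val at
P' whose P is above w: e(P'/P) e(P/w) = e(P'/u) e(u/w) with u = P' ∩ K' above w; e(u/w) = 3 (K'/K Galois of degree 3 with a ramified prime above w: all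
ramification indices are equal, divide 3 and are <> 1; UP_e2 in H19X.UP with 2 replaced by 3), e(P/w) <= 2 (H19X.T2_le, rank 2), so 3 divides e(P'/P), and
P'.valuation (j z) = exp (i e(P'/P)). -/

section

variable {K K' N N' : Type} [Field K] [NumberField K] [Field K'] [NumberField K'] [Algebra K K']
  [Field N] [NumberField N] [Algebra K N] [Field N'] [NumberField N'] [Algebra K' N']
  {t : N} {T : N ≃ₐ[K] N} {t' : N'} {T' : N' ≃ₐ[K'] N'}

theorem U2_T {B : ℤ} (h : QN B K N t T) (h' : QN B K' N' t' T') (j : N →+* N')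
    (hj : ∀ x : K, j (algebraMap K N x) = algebraMap K' N' (algebraMap K K' x)) (hjt : j t = t')
    (z : N) : j (T z) = T' (j z) := by
  obtain ⟨a, b, rfl⟩ := h.span z
  rw [h.T_mk, map_sub, map_mul, map_add, map_mul, hj, hj, hjt, h'.T_mk]

theorem U2_val (j : N →+* N') (P' : HeightOneSpectrum (𝓞 N')) :
    ∃ (P : HeightOneSpectrum (𝓞 N)) (e : ℕ),
      (∀ x : ℤ, (x : 𝓞 N) ∈ P.asIdeal ↔ (x : 𝓞 N') ∈ P'.asIdeal) ∧ e ≠ 0 ∧
      ∀ z : N, P'.valuation N' (j z) = P.valuation N z ^ e := by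
  let _ : Algebra N N' := j.toAlgebra
  obtain ⟨P, e, hP, he, hval⟩ := H55C.A4_glob (K := N) (N := N') P'
  refine ⟨P, e, fun x => ?_, he, hval⟩
  rw [hP, Ideal.mem_comap, map_intCast]

theorem U2_three (j : N →+* N') (z : N)
    (ht : ∃ b : N, b ≠ 0 ∧ ∀ P : HeightOneSpectrum (𝓞 N), (3 : 𝓞 N) ∈ P.asIdeal →
      P.valuation N (z / b ^ 3 - 1) ≤ P.valuation N 3) :
    ∃ b : N', b ≠ 0 ∧ ∀ P : HeightOneSpectrum (𝓞 N'), (3 : 𝓞 N') ∈ P.asIdeal →
      P.valuation N' (j z / b ^ 3 - 1) ≤ P.valuation N' 3 := by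
  obtain ⟨b, hb, h⟩ := ht
  refine ⟨j b, (map_ne_zero j).mpr hb, fun P' h3 => ?_⟩
  obtain ⟨P, e, hP, he, hval⟩ := U2_val j P'
  have h3' : (3 : 𝓞 N) ∈ P.asIdeal := by
    have h4 := (hP 3).mpr (by exact_mod_cast h3)
    exact_mod_cast h4
  have e1 : j z / (j b) ^ 3 - 1 = j (z / b ^ 3 - 1) := by
    rw [map_sub, map_div₀, map_pow, map_one]
  have e2 : (3 : N') = j 3 := by rw [map_ofNat]
  rw [e1, e2, hval, hval]
  exact pow_le_pow_left₀ zero_le (h P h3') e

theorem U2_norm {B : ℤ} (h : QN B K N t T) (h' : QN B K' N' t' T') (j : N →+* N')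
    (hj : ∀ x : K, j (algebraMap K N x) = algebraMap K' N' (algebraMap K K' x)) (hjt : j t = t')
    (z : N) (n : K) (hn : z * T z = algebraMap K N n ^ 3) :
    j z * T' (j z) = algebraMap K' N' (algebraMap K K' n) ^ 3 := by
  rw [← U2_T h h' j hj hjt, ← map_mul, hn, map_pow, hj]

theorem cnd_mono3 {B : ℤ} (h : QN B K N t T) (h' : QN B K' N' t' T') (j : N →+* N')
    (hj : ∀ x : K, j (algebraMap K N x) = algebraMap K' N' (algebraMap K K' x)) (hjt : j t = t')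
    (z : N) (hz : Cnd3 K N T z) : Cnd3 K' N' T' (j z) := by
  obtain ⟨n, hn⟩ := hz.norm
  refine ⟨(map_ne_zero j).mpr hz.ne, ⟨algebraMap K K' n, U2_norm h h' j hj hjt z n hn⟩, ?_,
    U2_three j z hz.three⟩
  intro P' hP'
  obtain ⟨P, e, hP, he, hval⟩ := U2_val j P'
  have h6 : (6 : 𝓞 N) ∉ P.asIdeal := by
    intro h4
    apply hP'
    have h5 := (hP 6).mp (by exact_mod_cast h4)
    exact_mod_cast h5
  obtain ⟨k, hk⟩ := hz.val P h6
  refine ⟨e * k, ?_⟩
  rw [hval, hk, ← WithZero.exp_nsmul, WithZero.exp_inj, nsmul_eq_mul]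
  ring

/-- all primes above w have ramification index three -/
theorem U2_e3 [IsGalois K K'] (h3 : Module.finrank K K' = 3) (w : HeightOneSpectrum (𝓞 K))
    (w' : HeightOneSpectrum (𝓞 K'))
    (hw : w.asIdeal = w'.asIdeal.under (𝓞 K)) (he : w'.asIdeal.ramificationIdx (𝓞 K) ≠ 1)
    (u : HeightOneSpectrum (𝓞 K')) (hu : u.asIdeal.LiesOver w.asIdeal) :
    u.asIdeal.ramificationIdx (𝓞 K) = 3 := by
  have hfin : FiniteDimensional K K' := Module.Finite.right ℚ K K'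
  have hw'p := w'.isPrime
  have hwp := w.isPrime
  have hup := u.isPrime
  have hl : w'.asIdeal.LiesOver w.asIdeal := ⟨hw⟩
  have h1 := Ideal.ncard_primesOver_mul_ramificationIdxIn_mul_inertiaDegIn w.asIdeal (𝓞 K')
    (K' ≃ₐ[K] K')
  have e1 := Ideal.ramificationIdxIn_eq_ramificationIdx w.asIdeal w'.asIdeal (K' ≃ₐ[K] K')
  have e2 := Ideal.ramificationIdxIn_eq_ramificationIdx w.asIdeal u.asIdeal (K' ≃ₐ[K] K')
  rw [← e1] at he
  rw [← e2]
  rw [IsGalois.card_aut_eq_finrank, h3] at h1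
  have h3 : w.asIdeal.ramificationIdxIn (𝓞 K') ∣ 3 :=
    ⟨(w.asIdeal.primesOver (𝓞 K')).ncard * w.asIdeal.inertiaDegIn (𝓞 K'), h1.symm.trans (by ring)⟩
  rcases (Nat.dvd_prime Nat.prime_three).1 h3 with h4 | h4
  · exact absurd h4 he
  · exact h4

theorem cnd_up3 [IsGalois K K'] (h3 : Module.finrank K K' = 3) (h : QN (-1) K N t T)
    (h' : QN (-1) K' N' t' T') (j : N →+* N')
    (hj : ∀ x : K, j (algebraMap K N x) = algebraMap K' N' (algebraMap K K' x)) (hjt : j t = t')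
    (w : HeightOneSpectrum (𝓞 K)) (w' : HeightOneSpectrum (𝓞 K'))
    (hw : w.asIdeal = w'.asIdeal.under (𝓞 K)) (he : w'.asIdeal.ramificationIdx (𝓞 K) ≠ 1)
    (z : N) (hz : z ≠ 0) (n : K) (hn : z * T z = algebraMap K N n ^ 3)
    (hv : ∀ P : HeightOneSpectrum (𝓞 N), w.asIdeal ≠ P.asIdeal.under (𝓞 K) → P.valuation N z = 1)
    (ht : ∃ b : N, b ≠ 0 ∧ ∀ P : HeightOneSpectrum (𝓞 N), (3 : 𝓞 N) ∈ P.asIdeal →
      P.valuation N (z / b ^ 3 - 1) ≤ P.valuation N 3) :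
    Cnd3 K' N' T' (j z) := by
  refine ⟨(map_ne_zero j).mpr hz, ⟨algebraMap K K' n, U2_norm h h' j hj hjt z n hn⟩, ?_,
    U2_three j z ht⟩
  intro P' _
  let _ : Algebra N N' := j.toAlgebra
  let _ : Algebra K N' := ((algebraMap K' N').comp (algebraMap K K')).toAlgebra
  have t1 : IsScalarTower K K' N' := IsScalarTower.of_algebraMap_eq (fun x => rfl)
  have t2 : IsScalarTower K N N' := IsScalarTower.of_algebraMap_eq (fun x => (hj x).symm)
  have t1' : IsScalarTower (𝓞 K) (𝓞 K') (𝓞 N') := inferInstance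
  have t2' : IsScalarTower (𝓞 K) (𝓞 N) (𝓞 N') := inferInstance
  have hP'p := P'.isPrime
  have hP'm := P'.isMaximal
  let P : HeightOneSpectrum (𝓞 N) := ⟨P'.asIdeal.under (𝓞 N), P'.isPrime.under (𝓞 N),
    Ideal.IsIntegral.comap_ne_bot _ P'.ne_bot⟩
  let u : HeightOneSpectrum (𝓞 K') := ⟨P'.asIdeal.under (𝓞 K'), P'.isPrime.under (𝓞 K'),
    Ideal.IsIntegral.comap_ne_bot _ P'.ne_bot⟩
  have hl : P'.asIdeal.LiesOver P.asIdeal := ⟨rfl⟩
  have hlu : P'.asIdeal.LiesOver u.asIdeal := ⟨rfl⟩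
  have hval : P'.valuation N' (j z) =
      P.valuation N z ^ P.asIdeal.ramificationIdx' P'.asIdeal :=
    (HeightOneSpectrum.valuation_liesOver N' P P' z).symm
  by_cases hPw : w.asIdeal = P.asIdeal.under (𝓞 K)
  · have hlPw : P.asIdeal.LiesOver w.asIdeal := ⟨hPw⟩
    have hlPw' : P'.asIdeal.LiesOver w.asIdeal :=
      Ideal.LiesOver.trans P'.asIdeal P.asIdeal w.asIdeal
    have hluw : u.asIdeal.LiesOver w.asIdeal := by
      refine ⟨?_⟩
      rw [hlPw'.over]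
      change P'.asIdeal.under (𝓞 K) = (P'.asIdeal.under (𝓞 K')).under (𝓞 K)
      rw [Ideal.under_under]
    have e1 : P'.asIdeal.ramificationIdx (𝓞 K) = P.asIdeal.ramificationIdx (𝓞 K) *
        P'.asIdeal.ramificationIdx (𝓞 N) := Ideal.ramificationIdx_tower P.asIdeal P'.asIdeal
    have e2 : P'.asIdeal.ramificationIdx (𝓞 K) = u.asIdeal.ramificationIdx (𝓞 K) *
        P'.asIdeal.ramificationIdx (𝓞 K') := Ideal.ramificationIdx_tower u.asIdeal P'.asIdeal
    have e3 : P.asIdeal.ramificationIdx' P'.asIdeal = P'.asIdeal.ramificationIdx (𝓞 N) :=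
      Ideal.ramificationIdx'_eq_ramificationIdx P.asIdeal P'.asIdeal P.ne_bot
    have hPp := P.isPrime
    have hle := H19X.T2_le (K1 := K) P
    rw [h.rank (by norm_num)] at hle
    have hep := P.asIdeal.ramificationIdx_pos (𝓞 K)
    have hfp := P.asIdeal.inertiaDeg_pos (𝓞 K)
    have hP2 : P.asIdeal.ramificationIdx (𝓞 K) ≤ 2 := by nlinarith
    rw [U2_e3 h3 w w' hw he u hluw, e1] at e2
    have hdvd : 3 ∣ P'.asIdeal.ramificationIdx (𝓞 N) := by
      have h5 : 3 ∣ P.asIdeal.ramificationIdx (𝓞 K) * P'.asIdeal.ramificationIdx (𝓞 N) :=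
        ⟨_, e2⟩
      refine (Nat.Coprime.dvd_mul_left ?_).1 h5
      have h6 : P.asIdeal.ramificationIdx (𝓞 K) = 1 ∨ P.asIdeal.ramificationIdx (𝓞 K) = 2 := by
        omega
      rcases h6 with h6 | h6 <;> rw [h6] <;> norm_num
    obtain ⟨l, hl⟩ := hdvd
    have hPz : P.valuation N z ≠ 0 := (Valuation.ne_zero_iff _).2 hz
    obtain ⟨i, hi⟩ : ∃ i : ℤ, P.valuation N z = WithZero.exp i :=
      ⟨WithZero.log (P.valuation N z), (WithZero.exp_log hPz).symm⟩
    refine ⟨l * i, ?_⟩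
    rw [hval, e3, hl, hi, ← WithZero.exp_nsmul, WithZero.exp_inj, nsmul_eq_mul]
    push_cast
    ring
  · refine ⟨0, ?_⟩
    rw [hval, hv P hPw, one_pow, mul_zero, WithZero.exp_zero]

end

end H35X
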