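import Mathlib
import Pool.Agent.Lib.H19X.T2
import Pool.Agent.Lib.H35X.Defs

open NumberField IsDedekindDomain Polynomial

namespace H35X

open H55B H35T H13E

/-! Chunk Q1 (M): descent from N/K to N₁/K₀. j : N₁ -> N (degree 2), σ an involution of N commuting with T, σ = c on K, the fixed elements of σ are in
the image of j, j m₁ = m σ(m). ne: clear. norm: m T m = n^3; j (m₁ T₁ m₁) = m σ m T m T σ m = (n c(n))^3; n c(n) is fixed by c, so it is n₀ in K₀ (hypothesis fixc);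
j injective. Let P₁ be a prime of N₁; Algebra N₁ N := j.toAlgebra; P above P₁ (H19X.EX7_above), P.valuation (j x) = P₁.valuation x ^ e with
e = ramification index <= 2 (H19X.T2_le, finrank N₁ N = 2), e <> 0. val: 6 not in P₁, so 6 not in P and 6 not in P' where P.valuation (σ x) = P'.valuation x
(H55C.val_auto; membership of integers in P and P' is the same: use valuation < 1 of 6, σ 6 = 6): P₁.valuation m₁ ^ e = exp (3 (k + k')); e = 1 or 2: write
P₁.valuation m₁ = exp l, e l = 3 (k + k'), so 3 divides l. three: b from Cnd3.three, b σ(b) is fixed by σ (σ σ b = b): = j b₁. x = m/b^3, j (m₁/b₁^3) = x σ(x). P above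
P₁, 3 in P: P.valuation (x - 1) <= P.valuation 3, P.valuation (σ x - 1) = P'.valuation (x - 1) <= P'.valuation 3 = P.valuation 3. x σx - 1 = (x - 1) σx + (σx - 1), σx has
valuation <= 1. So P₁.valuation (m₁/b₁^3 - 1)^e <= P₁.valuation 3 ^ e. -/

theorem Q1_mem {N : Type} [Field N] [NumberField N] (P : HeightOneSpectrum (𝓞 N)) (n : ℕ)
    [n.AtLeastTwo] : (OfNat.ofNat n : 𝓞 N) ∈ P.asIdeal ↔ P.valuation N (OfNat.ofNat n : N) < 1 := by
  rw [← HeightOneSpectrum.valuation_lt_one_iff_mem (K := N)]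
  have e : algebraMap (𝓞 N) N (OfNat.ofNat n) = OfNat.ofNat n := map_ofNat _ _
  change P.valuation N (algebraMap (𝓞 N) N (OfNat.ofNat n)) < 1 ↔ _
  rw [e]

theorem Q1_over {N N₁ : Type} [Field N] [NumberField N] [Field N₁] [NumberField N₁]
    (j : N₁ →+* N) (hrank : Module.finrank ℚ N = 2 * Module.finrank ℚ N₁)
    (P₁ : HeightOneSpectrum (𝓞 N₁)) :
    ∃ (P : HeightOneSpectrum (𝓞 N)) (e : ℕ), (e = 1 ∨ e = 2) ∧
      ∀ x : N₁, P.valuation N (j x) = P₁.valuation N₁ x ^ e := by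
  let : Algebra N₁ N := j.toAlgebra
  have hfr : Module.finrank N₁ N = 2 := by
    have h := Module.finrank_mul_finrank ℚ N₁ N
    rw [hrank, mul_comm 2] at h
    exact Nat.eq_of_mul_eq_mul_left Module.finrank_pos h
  obtain ⟨P, hP⟩ := H19X.EX7_above (N := N) P₁
  have hl : P.asIdeal.LiesOver P₁.asIdeal := ⟨hP⟩
  refine ⟨P, P₁.asIdeal.ramificationIdx' P.asIdeal, ?_, fun x =>
    (HeightOneSpectrum.valuation_liesOver N P₁ P x).symm⟩
  have h1 := H19X.T2_le (K1 := N₁) P
  have h2 := P.asIdeal.inertiaDeg_pos (𝓞 N₁)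
  have hPp := P.isPrime
  have h3 := P.asIdeal.ramificationIdx_pos (𝓞 N₁)
  rw [Ideal.ramificationIdx'_eq_ramificationIdx P₁.asIdeal P.asIdeal P₁.ne_bot]
  rw [hfr] at h1
  have h4 : P.asIdeal.ramificationIdx (𝓞 N₁) ≤ 2 := by nlinarith
  omega

theorem cnd_down {K₀ K N N₁ : Type} [Field K₀] [NumberField K₀] [Field K] [NumberField K] [Field N]
    [NumberField N] [Field N₁] [NumberField N₁] [Algebra K₀ K] [Algebra K N] [Algebra K₀ N₁]
    (T : N ≃ₐ[K] N) (T₁ : N₁ ≃ₐ[K₀] N₁) (j : N₁ →+* N) (σ : N ≃+* N) (c : K ≃ₐ[K₀] K)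
    (hj : ∀ x : K₀, j (algebraMap K₀ N₁ x) = algebraMap K N (algebraMap K₀ K x))
    (hjT : ∀ z, j (T₁ z) = T (j z)) (hσK : ∀ x : K, σ (algebraMap K N x) = algebraMap K N (c x))
    (hσT : ∀ z, σ (T z) = T (σ z)) (hσ2 : ∀ z, σ (σ z) = z)
    (hfix : ∀ z, σ z = z → ∃ x, j x = z) (hfixc : ∀ x : K, c x = x → ∃ y : K₀, algebraMap K₀ K y = x)
    (hrank : Module.finrank ℚ N = 2 * Module.finrank ℚ N₁)
    (m : N) (hm : Cnd3 K N T m) (m₁ : N₁) (hm₁ : j m₁ = m * σ m) : Cnd3 K₀ N₁ T₁ m₁ := by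
  have hσ0 : ∀ z : N, z ≠ 0 → σ z ≠ 0 := fun z hz h => hz ((map_eq_zero_iff σ σ.injective).1 h)
  have hcc : ∀ x : K, c (c x) = x := by
    intro x
    apply (algebraMap K N).injective
    rw [← hσK, ← hσK, hσ2]
  refine ⟨?_, ?_, ?_, ?_⟩
  · rintro rfl
    rw [map_zero] at hm₁
    exact mul_ne_zero hm.ne (hσ0 m hm.ne) hm₁.symm
  · obtain ⟨n, hn⟩ := hm.norm
    obtain ⟨n₀, hn₀⟩ := hfixc (n * c n) (by rw [map_mul, hcc, mul_comm])
    refine ⟨n₀, j.injective ?_⟩
    rw [map_mul, hjT, hm₁, map_mul, map_pow, hj, hn₀, map_mul, ← hσT]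
    have h1 := congrArg σ hn
    rw [map_mul, map_pow, hσK] at h1
    calc m * σ m * (T m * σ (T m)) = (m * T m) * (σ m * σ (T m)) := by ring
      _ = _ := by rw [hn, h1, mul_pow]
  · intro P₁ h6
    obtain ⟨P, e, he, hv⟩ := Q1_over j hrank P₁
    obtain ⟨P', hP', -⟩ := H55C.val_auto σ P
    have he0 : e ≠ 0 := by omega
    have h6P : (6 : 𝓞 N) ∉ P.asIdeal := by
      intro h
      apply h6
      have h' := (Q1_mem P 6).1 h
      have h2 : (OfNat.ofNat 6 : N) = j (OfNat.ofNat 6) := by rw [map_ofNat]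
      rw [h2, hv] at h'
      exact (Q1_mem P₁ 6).2 ((pow_lt_one_iff he0).1 h')
    have h6P' : (6 : 𝓞 N) ∉ P'.asIdeal := by
      intro h
      apply h6P
      have h' := (Q1_mem P' 6).1 h
      rw [← hP', map_ofNat] at h'
      exact (Q1_mem P 6).2 h'
    obtain ⟨k, hk⟩ := hm.val P h6P
    obtain ⟨k', hk'⟩ := hm.val P' h6P'
    have hm0 : m₁ ≠ 0 := by
      rintro rfl
      rw [map_zero] at hm₁
      exact mul_ne_zero hm.ne (hσ0 m hm.ne) hm₁.symm
    have h1 : P₁.valuation N₁ m₁ ^ e = WithZero.exp (3 * (k + k')) := by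
      rw [← hv, hm₁, map_mul, hP', hk, hk', ← WithZero.exp_add, mul_add]
    have hv0 : P₁.valuation N₁ m₁ ≠ 0 := by
      rw [Ne, map_eq_zero]
      exact hm0
    obtain ⟨l, hl⟩ : ∃ l : ℤ, P₁.valuation N₁ m₁ = WithZero.exp l :=
      ⟨WithZero.log (P₁.valuation N₁ m₁), (WithZero.exp_log hv0).symm⟩
    rw [hl, ← WithZero.exp_nsmul, nsmul_eq_mul] at h1
    have h2 : (e : ℤ) * l = 3 * (k + k') := WithZero.exp_injective h1
    have h3 : ∃ q : ℤ, l = 3 * q := by
      rcases he with rfl | rfl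
      · exact ⟨k + k', by push_cast at h2; omega⟩
      · push_cast at h2
        exact ⟨l - (k + k'), by omega⟩
    obtain ⟨q, hq⟩ := h3
    exact ⟨q, by rw [hl, hq]⟩
  · obtain ⟨b, hb0, hb⟩ := hm.three
    obtain ⟨b₁, hb₁⟩ := hfix (b * σ b) (by rw [map_mul, hσ2, mul_comm])
    have hσb := hσ0 b hb0
    refine ⟨b₁, ?_, ?_⟩
    · rintro rfl
      rw [map_zero] at hb₁
      exact mul_ne_zero hb0 hσb hb₁.symm
    · intro P₁ h3
      obtain ⟨P, e, he, hv⟩ := Q1_over j hrank P₁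
      obtain ⟨P', hP', -⟩ := H55C.val_auto σ P
      have he0 : e ≠ 0 := by omega
      have h3v := (Q1_mem P₁ 3).1 h3
      have e3 : (OfNat.ofNat 3 : N) = j (OfNat.ofNat 3) := by rw [map_ofNat]
      have h3v' : P.valuation N (OfNat.ofNat 3 : N) < 1 := by
        rw [e3, hv]
        exact (pow_lt_one_iff he0).2 h3v
      have h33 : P'.valuation N (3 : N) = P.valuation N (3 : N) := by
        rw [← hP', map_ofNat]
      have h3P : (3 : 𝓞 N) ∈ P.asIdeal := (Q1_mem P 3).2 h3v'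
      have h3P' : (3 : 𝓞 N) ∈ P'.asIdeal := by
        refine (Q1_mem P' 3).2 ?_
        change P'.valuation N (3 : N) < 1
        rw [h33]
        exact h3v'
      set x : N := m / b ^ 3 with hx
      have h1 := hb P h3P
      have h2 := hb P' h3P'
      have h2' : P.valuation N (σ x - 1) ≤ P.valuation N 3 := by
        have : σ x - 1 = σ (x - 1) := by rw [map_sub, map_one]
        rw [this, hP', ← h33]
        exact h2
      have hσx : P.valuation N (σ x) ≤ 1 := by
        have : σ x = (σ x - 1) + 1 := by ring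
        rw [this]
        refine (Valuation.map_add _ _ _).trans (max_le (h2'.trans h3v'.le) ?_)
        rw [map_one]
      have hjx : j (m₁ / b₁ ^ 3 - 1) = (x - 1) * σ x + (σ x - 1) := by
        rw [map_sub, map_div₀, map_pow, map_one, hm₁, hb₁, hx, map_div₀, map_pow]
        field_simp
        ring
      have h4 : P.valuation N (j (m₁ / b₁ ^ 3 - 1)) ≤ P.valuation N 3 := by
        rw [hjx]
        refine (Valuation.map_add _ _ _).trans (max_le ?_ h2')
        rw [map_mul]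
        calc P.valuation N (x - 1) * P.valuation N (σ x) ≤ P.valuation N 3 * 1 :=
              mul_le_mul' h1 hσx
          _ = _ := mul_one _
      have e3' : (3 : N) = j 3 := by rw [map_ofNat]
      rw [e3', hv, hv] at h4
      exact le_of_pow_le_pow_left₀ he0 zero_le h4

end H35X
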