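import Mathlib
import Pool.Agent.Lib.H35X.G1
import Pool.Agent.Lib.H35X.Q1

open NumberField IsDedekindDomain Polynomial

namespace H35X

open H55B H35T H13E

/-! Chunk Q2 (M): K = K₀(om), N = K(i). c = the conjugation of K/K₀ (H13E.exists_c: c om = om^2, c c = id, fixed elements are in K₀). s = 3 sq3 in K (sq3 = 2 om + 1, sq3^2 = -3):
s^2 = -27, c s = - s. By QN.lift: σ₁ : N -> N extending x ↦ algebraMap (c x), t ↦ t, and σ₂ with t ↦ -t; both are involutions (compare on K and t, span), so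
RingEquiv.ofRingHom; they commute with T; σ₂ = σ₁ T. -1 is not a square in K₀ (it would be one in K: then t is in K, contradiction QN.indep); 27 is
not a square in K₀ (x^2 = 27 gives (s/x)^2 = -1 in K). exists_QN: N₁ (B = -1), N₂ (B = 27). j₁ : N₁ -> N, t₁ ↦ t; j₂ : N₂ -> N, t₂ ↦ s t (square -27 * -1 = 27)
(QN.lift). Fixed elements: σ₁ (a + b t) = c a + c b t: a, b in K₀, in the image of j₁. σ₂ (a + b t) = c a - c b t: c a = a, c b = - b, b = b₀ s (b/s is fixed):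
in the image of j₂. Commutation j T₁ = T j on K₀ and t. Ranks: QN.rank, Quad.rank, finrank_mul_finrank. m₁ with j₁ m₁ = m σ₁ m, m₂ with j₂ m₂ = m σ₂ m
(fixed by σ). cnd_down. If m₁ = b₁^3 and m₂ = b₂^3 then m^2 σ₁(m) σ₂(m) = (j₁ b₁ j₂ b₂)^3 and σ₁(m) σ₂(m) = σ₁ (m T m) = (c n)^3, so m^2 is a cube and m = m^3/m^2
is a cube: contradiction. -/

theorem Q2_sig {K N : Type} [Field K] [Field N] [CharZero N] [Algebra K N] {t : N} {T : N ≃ₐ[K] N}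
    (h : QN (-1) K N t T) (c : K →+* K) (hcc : ∀ z, c (c z) = z) (ε : ℤ) (hε : ε * ε = 1) :
    ∃ σ : N ≃+* N, (∀ x : K, σ (algebraMap K N x) = algebraMap K N (c x)) ∧ σ t = (ε : N) * t ∧
      (∀ z, σ (σ z) = z) ∧ ∀ z, σ (T z) = T (σ z) := by
  have hε' : (ε : N) * (ε : N) = 1 := by exact_mod_cast congrArg (Int.cast : ℤ → N) hε
  obtain ⟨f, hf, hft⟩ := h.lift (by norm_num) ((algebraMap K N).comp c) ((ε : N) * t)
    (by rw [mul_pow, h.sq, pow_two, hε', one_mul])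
  have hf' : ∀ x : K, f (algebraMap K N x) = algebraMap K N (c x) := hf
  have hff : ∀ z, f (f z) = z := by
    intro z
    obtain ⟨a, b, rfl⟩ := h.span z
    simp only [map_add, map_mul, hf', hft, hcc, map_intCast]
    rw [← mul_assoc (ε : N), hε', one_mul]
  refine ⟨RingEquiv.ofBijective f ⟨f.injective, fun z => ⟨f z, hff z⟩⟩, hf', hft, hff, ?_⟩
  intro z
  change f (T z) = T (f z)
  obtain ⟨a, b, rfl⟩ := h.span z
  simp only [map_add, map_mul, hf', hft, AlgEquiv.commutes, h.Tt, map_neg, map_intCast]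
  ring

theorem Q2_nosq {K N : Type} [Field K] [Field N] [CharZero N] [Algebra K N] {t : N} {T : N ≃ₐ[K] N}
    (h : QN (-1) K N t T) (x : K) (hx : x ^ 2 = -1) : False := by
  have h1 : (t - algebraMap K N x) * (t + algebraMap K N x) = 0 := by
    have h2 := congrArg (algebraMap K N) hx
    rw [map_pow, map_neg, map_one] at h2
    have h3 := h.sq
    push_cast at h3
    linear_combination h3 - h2
  rcases mul_eq_zero.1 h1 with h2 | h2
  · have := (h.indep (by norm_num) (-x) 1 (by rw [map_neg, map_one]; linear_combination h2)).2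
    exact one_ne_zero this
  · have := (h.indep (by norm_num) x 1 (by rw [map_one]; linear_combination h2)).2
    exact one_ne_zero this

theorem Q2_rank {K₀ K N N₁ : Type} [Field K₀] [NumberField K₀] [Field K] [NumberField K] [Field N]
    [NumberField N] [Field N₁] [NumberField N₁] [Algebra K₀ K] [Algebra K N] [Algebra K₀ N₁]
    (h1 : Module.finrank K₀ K = 2) (h2 : Module.finrank K N = 2) (h3 : Module.finrank K₀ N₁ = 2) :
    Module.finrank ℚ N = 2 * Module.finrank ℚ N₁ := by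
  have e1 := Module.finrank_mul_finrank ℚ K₀ K
  have e2 := Module.finrank_mul_finrank ℚ K N
  have e3 := Module.finrank_mul_finrank ℚ K₀ N₁
  rw [h1] at e1
  rw [h2] at e2
  rw [h3] at e3
  omega

theorem descQ {K₀ K N : Type} [Field K₀] [NumberField K₀] [Field K] [NumberField K] [Algebra F K]
    [Algebra K₀ K] (hQ : Quad K₀ K) [Field N] [NumberField N] [Algebra K N] {t : N} {T : N ≃ₐ[K] N}
    (h : QN (-1) K N t T) (m : N) (hm : Cnd3 K N T m) (hnc : ¬ ∃ b : N, m = b ^ 3) :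
    (∃ (N₁ : Type) (_ : Field N₁) (_ : NumberField N₁) (_ : Algebra K₀ N₁) (t₁ : N₁)
      (T₁ : N₁ ≃ₐ[K₀] N₁) (m₁ : N₁), QN (-1) K₀ N₁ t₁ T₁ ∧ Cnd3 K₀ N₁ T₁ m₁ ∧
        ¬ ∃ b : N₁, m₁ = b ^ 3) ∨
    (∃ (N₂ : Type) (_ : Field N₂) (_ : NumberField N₂) (_ : Algebra K₀ N₂) (t₂ : N₂)
      (T₂ : N₂ ≃ₐ[K₀] N₂) (m₂ : N₂), QN 27 K₀ N₂ t₂ T₂ ∧ Cnd3 K₀ N₂ T₂ m₂ ∧
        ¬ ∃ b : N₂, m₂ = b ^ 3) := by
  obtain ⟨c, -, hcO, hcc, -, hcfix⟩ := exists_c hQ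
  have hz := q1_rel (K := K)
  have hcz : c (algebraMap O K om) = -1 - algebraMap O K om := by
    rw [hcO, cj_om, map_pow]
    linear_combination hz
  generalize algebraMap O K om = z at hz hcz
  obtain ⟨s, hs⟩ : ∃ s : K, s = 3 * (2 * z + 1) := ⟨_, rfl⟩
  have hs2 : s ^ 2 = -27 := by
    rw [hs]
    linear_combination 36 * hz
  have hcs : c s = -s := by
    rw [hs, map_mul, map_add, map_mul, hcz]
    simp only [map_ofNat, map_one]
    ring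
  have hs0 : s ≠ 0 := by
    rintro rfl
    norm_num at hs2
  have hB1 : (-1 : ℤ) ≠ 0 := by norm_num
  have hB2 : (27 : ℤ) ≠ 0 := by norm_num
  obtain ⟨σ₁, hσ₁K, hσ₁t, hσ₁2, hσ₁T⟩ := Q2_sig h (c : K →+* K) hcc 1 (by norm_num)
  obtain ⟨σ₂, hσ₂K, hσ₂t, hσ₂2, hσ₂T⟩ := Q2_sig h (c : K →+* K) hcc (-1) (by norm_num)
  have hσ₁K' : ∀ x : K, σ₁ (algebraMap K N x) = algebraMap K N (c x) := hσ₁K
  have hσ₂K' : ∀ x : K, σ₂ (algebraMap K N x) = algebraMap K N (c x) := hσ₂K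
  rw [Int.cast_one, one_mul] at hσ₁t
  rw [Int.cast_neg, Int.cast_one, neg_one_mul] at hσ₂t
  have hσ12 : ∀ x, σ₂ x = σ₁ (T x) := by
    intro x
    obtain ⟨a, b, rfl⟩ := h.span x
    simp only [map_add, map_mul, hσ₁K', hσ₂K', hσ₁t, hσ₂t, AlgEquiv.commutes, h.Tt, map_neg]
  have hno1 : ¬ ∃ x : K₀, x ^ 2 = ((-1 : ℤ) : K₀) := by
    rintro ⟨x, hx⟩
    refine Q2_nosq h (algebraMap K₀ K x) ?_
    rw [← map_pow, hx]
    simp
  have hno2 : ¬ ∃ x : K₀, x ^ 2 = ((27 : ℤ) : K₀) := by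
    rintro ⟨x, hx⟩
    have hx' : (algebraMap K₀ K x) ^ 2 = 27 := by
      rw [← map_pow, hx, map_intCast]
      norm_num
    refine Q2_nosq h (s / algebraMap K₀ K x) ?_
    rw [div_pow, hs2, hx', neg_div, div_self (by norm_num)]
  obtain ⟨N₁, iF1, iN1, iA1, t₁, T₁, h₁⟩ := exists_QN (-1) K₀ hno1
  obtain ⟨N₂, iF2, iN2, iA2, t₂, T₂, h₂⟩ := exists_QN 27 K₀ hno2
  have hts : (algebraMap K N s * t) ^ 2 = ((27 : ℤ) : N) := by
    rw [mul_pow, ← map_pow, hs2, h.sq, map_neg, map_ofNat]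
    norm_num
  obtain ⟨j₁, hj₁, hj₁t⟩ := h₁.lift hB1 ((algebraMap K N).comp (algebraMap K₀ K)) t h.sq
  obtain ⟨j₂, hj₂, hj₂t⟩ := h₂.lift hB2 ((algebraMap K N).comp (algebraMap K₀ K)) _ hts
  have hj₁' : ∀ x : K₀, j₁ (algebraMap K₀ N₁ x) = algebraMap K N (algebraMap K₀ K x) := hj₁
  have hj₂' : ∀ x : K₀, j₂ (algebraMap K₀ N₂ x) = algebraMap K N (algebraMap K₀ K x) := hj₂
  have hj₁T : ∀ z, j₁ (T₁ z) = T (j₁ z) := by
    intro z
    obtain ⟨a, b, rfl⟩ := h₁.span z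
    simp only [map_add, map_mul, hj₁', hj₁t, AlgEquiv.commutes, h.Tt, h₁.Tt, map_neg]
  have hj₂T : ∀ z, j₂ (T₂ z) = T (j₂ z) := by
    intro z
    obtain ⟨a, b, rfl⟩ := h₂.span z
    simp only [map_add, map_mul, hj₂', hj₂t, AlgEquiv.commutes, h.Tt, h₂.Tt, map_neg, mul_neg]
  have hfix1 : ∀ z, σ₁ z = z → ∃ x, j₁ x = z := by
    intro z hz'
    obtain ⟨a, b, rfl⟩ := h.span z
    rw [map_add, map_mul, hσ₁K', hσ₁K', hσ₁t] at hz'
    obtain ⟨e1, e2⟩ := h.indep hB1 (c a - a) (c b - b) (by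
      rw [map_sub, map_sub]
      linear_combination hz')
    obtain ⟨a₀, rfl⟩ := hcfix a (sub_eq_zero.1 e1)
    obtain ⟨b₀, rfl⟩ := hcfix b (sub_eq_zero.1 e2)
    exact ⟨algebraMap K₀ N₁ a₀ + algebraMap K₀ N₁ b₀ * t₁, by rw [map_add, map_mul, hj₁', hj₁', hj₁t]⟩
  have hfix2 : ∀ z, σ₂ z = z → ∃ x, j₂ x = z := by
    intro z hz'
    obtain ⟨a, b, rfl⟩ := h.span z
    rw [map_add, map_mul, hσ₂K', hσ₂K', hσ₂t] at hz'
    obtain ⟨e1, e2⟩ := h.indep hB1 (c a - a) (-(c b + b)) (by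
      rw [map_sub, map_neg, map_add]
      linear_combination hz')
    obtain ⟨a₀, rfl⟩ := hcfix a (sub_eq_zero.1 e1)
    have hb : c (b / s) = b / s := by
      rw [map_div₀, hcs, eq_neg_of_add_eq_zero_left (neg_eq_zero.1 e2), neg_div_neg_eq]
    obtain ⟨b₀, hb₀⟩ := hcfix _ hb
    refine ⟨algebraMap K₀ N₂ a₀ + algebraMap K₀ N₂ b₀ * t₂, ?_⟩
    rw [map_add, map_mul, hj₂', hj₂', hj₂t, hb₀, ← mul_assoc, ← map_mul, div_mul_cancel₀ b hs0]
  obtain ⟨m₁, hm₁⟩ := hfix1 (m * σ₁ m) (by rw [map_mul, hσ₁2, mul_comm])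
  obtain ⟨m₂, hm₂⟩ := hfix2 (m * σ₂ m) (by rw [map_mul, hσ₂2, mul_comm])
  have hr1 := Q2_rank (K₀ := K₀) (K := K) (N := N) (N₁ := N₁) hQ.rank (h.rank hB1) (h₁.rank hB1)
  have hr2 := Q2_rank (K₀ := K₀) (K := K) (N := N) (N₁ := N₂) hQ.rank (h.rank hB1) (h₂.rank hB2)
  have hc1 : Cnd3 K₀ N₁ T₁ m₁ :=
    cnd_down T T₁ j₁ σ₁ c hj₁' hj₁T hσ₁K' hσ₁T hσ₁2 hfix1 hcfix hr1 m hm m₁ hm₁
  have hc2 : Cnd3 K₀ N₂ T₂ m₂ :=
    cnd_down T T₂ j₂ σ₂ c hj₂' hj₂T hσ₂K' hσ₂T hσ₂2 hfix2 hcfix hr2 m hm m₂ hm₂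
  by_cases n1 : ∃ b : N₁, m₁ = b ^ 3
  · by_cases n2 : ∃ b : N₂, m₂ = b ^ 3
    · exfalso
      obtain ⟨b₁, rfl⟩ := n1
      obtain ⟨b₂, rfl⟩ := n2
      obtain ⟨n, hn⟩ := hm.norm
      have hσn : σ₁ m * σ₂ m = algebraMap K N (c n) ^ 3 := by
        rw [hσ12, ← map_mul, hn, map_pow, hσ₁K']
      have hn0 : algebraMap K N (c n) ≠ 0 := by
        intro h0
        rw [h0] at hσn
        have : σ₁ m * σ₂ m ≠ 0 := mul_ne_zero
          (fun h' => hm.ne ((map_eq_zero_iff σ₁ σ₁.injective).1 h'))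
          (fun h' => hm.ne ((map_eq_zero_iff σ₂ σ₂.injective).1 h'))
        apply this
        rw [hσn]
        ring
      rw [map_pow] at hm₁ hm₂
      have key : m ^ 2 = (j₁ b₁ * j₂ b₂ / algebraMap K N (c n)) ^ 3 := by
        rw [div_pow, mul_pow, hm₁, hm₂, eq_div_iff (pow_ne_zero 3 hn0), ← hσn]
        ring
      apply hnc
      refine ⟨m / (j₁ b₁ * j₂ b₂ / algebraMap K N (c n)), ?_⟩
      rw [div_pow, ← key, eq_div_iff (pow_ne_zero 2 hm.ne)]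
      ring
    · exact Or.inr ⟨N₂, iF2, iN2, iA2, t₂, T₂, m₂, h₂, hc2, n2⟩
  · exact Or.inl ⟨N₁, iF1, iN1, iA1, t₁, T₁, m₁, h₁, hc1, n1⟩

end H35X
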