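import Mathlib
import Pool.Agent.Lib.H19T.A9a
import Pool.Agent.Lib.H19Y.Y0
import Pool.Agent.Lib.H35N.U3
import Pool.Agent.Lib.H35X.Defs

/-!
# H35X: the exact criterion at p = 3, analytic half. Definitions (compare H19Y.Y0, H19T.Defs). See PROOF.md.
-/

open NumberField IsDedekindDomain

namespace H35X

open H55B H35T H55N H19T H13E

/-- Cubic characters with conductor dividing f, on ideals, trivial on principal ideals of
elements congruent to 1 modulo f; f is prime to 6. -/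
structure CChr6 {K : Type} [Field K] [NumberField K] (f : Ideal (𝓞 K)) (χ : Ideal (𝓞 K) →*₀ ℂ) :
    Prop where
  ne : f ≠ ⊥
  six : IsCoprime f (Ideal.span {(6 : 𝓞 K)})
  val : ∀ a : Ideal (𝓞 K), a ≠ ⊥ → IsCoprime a f → χ a ^ 3 = 1
  zero : ∀ a : Ideal (𝓞 K), ¬ IsCoprime a f → χ a = 0
  per : ∀ x y : 𝓞 K, x ≠ 0 → y ≠ 0 → IsCoprime (Ideal.span {x}) f → x - y ∈ f →
    χ (Ideal.span {x}) = χ (Ideal.span {y})

/-- Λ is the analytic continuation of the Dirichlet series of h to Re s > 1/2. -/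
def LC {K : Type} [Field K] [NumberField K] (h : Ideal (𝓞 K) →*₀ ℂ) (Λ : ℂ → ℂ) : Prop :=
  AnalyticOnNhd ℂ Λ {s | 1 / 2 < s.re} ∧ ∀ s : ℂ, 3 / 2 < s.re → HasSum (tm h s) (Λ s)

/-- The period: e(sqrt(-3)) times the real period. -/
noncomputable def RT : ℂ := e sq3 * R0

/-- A bad ramified prime: a prime w, not above 6, where -1 is a square in the residue field, ramified
over F. -/
def Bad3 (K : Type) [Field K] [NumberField K] [Algebra F K] : Prop :=
  ∃ w : HeightOneSpectrum (𝓞 K), (6 : 𝓞 K) ∉ w.asIdeal ∧ (∃ x : 𝓞 K, x ^ 2 + 1 ∈ w.asIdeal) ∧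
    w.asIdeal.ramificationIdx O ≠ 1

theorem unr3_six {K : Type} [Field K] [NumberField K] [Algebra F K] (hU : H19X.UnrSix K) :
    H35N.Unr3 K := fun w h3 => hU w (H19Y.six_of_three w h3)

/-- The inertia degrees of a field of the class are powers of 3. -/
theorem Sub6T.inertia {K : Type} [Field K] [NumberField K] [Algebra F K] (h : Sub6T K)
    (w : HeightOneSpectrum (𝓞 K)) : ∃ j : ℕ, w.asIdeal.inertiaDeg O = 3 ^ j := by
  obtain ⟨L, _, _, _, _, _, ⟨hG, k, hk⟩, -⟩ := h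
  obtain ⟨W, hW, hW2⟩ := T0_above L w
  obtain ⟨j, hj⟩ := inertia_pow3 hG k hk W
  have h2 := Ideal.inertiaDeg_tower (R := O) w.asIdeal W.asIdeal
  have h3 : w.asIdeal.inertiaDeg O ∣ 3 ^ j := by
    rw [← hj, h2]
    exact dvd_mul_right _ _
  obtain ⟨i, -, hi⟩ := (Nat.dvd_prime_pow Nat.prime_three).1 h3
  exact ⟨i, hi⟩

theorem CChr6.norm_le {K : Type} [Field K] [NumberField K] {f : Ideal (𝓞 K)}
    {χ : Ideal (𝓞 K) →*₀ ℂ} (h : CChr6 f χ) (a : Ideal (𝓞 K)) : ‖χ a‖ ≤ 1 := by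
  by_cases ha : a = ⊥
  · have : χ ⊥ = 0 := χ.map_zero
    rw [ha, this, norm_zero]
    exact zero_le_one
  · by_cases hc : IsCoprime a f
    · exact (Complex.norm_eq_one_of_pow_eq_one (h.val a ha hc) three_ne_zero).le
    · rw [h.zero a hc, norm_zero]
      exact zero_le_one

/-- The square of a cubic character. -/
theorem CChr6.sq {K : Type} [Field K] [NumberField K] {f : Ideal (𝓞 K)}
    {χ : Ideal (𝓞 K) →*₀ ℂ} (h : CChr6 f χ) : CChr6 f (χ * χ) := by
  have hap : ∀ a : Ideal (𝓞 K), (χ * χ) a = χ a * χ a := fun a => rfl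
  refine ⟨h.ne, h.six, ?_, ?_, ?_⟩
  · intro a ha hc
    rw [hap, mul_pow, h.val a ha hc, one_mul]
  · intro a hc
    rw [hap, h.zero a hc, mul_zero]
  · intro x y hx hy hc hxy
    rw [hap, hap, h.per x y hx hy hc hxy]

end H35X
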