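import Mathlib
import Pool.Agent.Lib.H13E.T7
import Pool.Agent.Lib.H13N.R1
import Pool.Agent.Lib.H19Y.Y0
import Pool.Agent.Lib.H35X.V9

/-! Counting real places and primes above 3 (T7 of H13E, R1, R2 of H13N, for fields unramified above 6). -/

open NumberField IsDedekindDomain

namespace H35X

open H55B H35T H13E H13N

section

variable {K : Type} [Field K] [NumberField K] [Algebra F K]

theorem T7_ram6 (hU : H19X.UnrSix K) (w : HeightOneSpectrum (𝓞 K)) (h3 : (3 : 𝓞 K) ∈ w.asIdeal) :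
    w.asIdeal.ramificationIdx ℤ = 2 := by
  have hl := T7_under w h3
  have hwm := w.isMaximal
  have h4 := HeightOneSpectrum.valuation_liesOver K T7_v w (3 : ℚ)
  have h5 : (3 : ℚ) = algebraMap ℤ ℚ 3 := by simp
  have h6 : T7_v.valuation ℚ (3 : ℚ) = WithZero.exp (-1 : ℤ) := by
    rw [h5, HeightOneSpectrum.valuation_of_algebraMap]
    exact HeightOneSpectrum.intValuation_singleton T7_v (by norm_num) rfl
  rw [h6, map_ofNat, H19Y.val_three hU w h3, ← WithZero.exp_nsmul] at h4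
  have h7 := WithZero.exp_injective h4
  rw [Ideal.ramificationIdx'_eq_ramificationIdx T7_v.asIdeal w.asIdeal T7_v.ne_bot] at h7
  simp only [nsmul_eq_mul] at h7
  omega

theorem T7_inertia6 (hG : IsGalois ℚ K) (hU : H19X.UnrSix K) (w : HeightOneSpectrum (𝓞 K))
    (h3 : (3 : 𝓞 K) ∈ w.asIdeal) : Nat.card (w.asIdeal.inertia (K ≃ₐ[ℚ] K)) = 2 := by
  have hl := T7_under w h3
  have hwm := w.isMaximal
  have hvm := T7_v.isMaximal
  rw [Ideal.card_inertia_eq_ramificationIdxIn (G := K ≃ₐ[ℚ] K) T7_v.asIdeal w.asIdeal,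
    Ideal.ramificationIdxIn_eq_ramificationIdx T7_v.asIdeal w.asIdeal (K ≃ₐ[ℚ] K), T7_ram6 hU w h3]

theorem T7_exists6 (hG : IsGalois ℚ K) (hU : H19X.UnrSix K) (w : HeightOneSpectrum (𝓞 K))
    (h3 : (3 : 𝓞 K) ∈ w.asIdeal) : ∃ γ : K ≃ₐ[ℚ] K, γ ≠ 1 ∧ γ * γ = 1 ∧
      ∀ δ : K ≃ₐ[ℚ] K, δ ≠ 1 → ((∀ y : 𝓞 K, δ • y - y ∈ w.asIdeal) ↔ γ = δ) := by
  have h := T7_inertia6 hG hU w h3
  have hmem : ∀ δ : K ≃ₐ[ℚ] K, δ ∈ w.asIdeal.inertia (K ≃ₐ[ℚ] K) ↔
      ∀ y : 𝓞 K, δ • y - y ∈ w.asIdeal := fun δ => Iff.rfl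
  obtain ⟨x, y, hxy, huniv⟩ := Nat.card_eq_two_iff.1 h
  have hall : ∀ z : w.asIdeal.inertia (K ≃ₐ[ℚ] K), z = x ∨ z = y := by
    intro z
    have : z ∈ ({x, y} : Set _) := by
      rw [huniv]
      exact Set.mem_univ z
    simpa using this
  obtain ⟨g, hg1, hg⟩ : ∃ g : w.asIdeal.inertia (K ≃ₐ[ℚ] K), g ≠ 1 ∧ ∀ z, z = 1 ∨ z = g := by
    rcases hall 1 with h1 | h1
    · refine ⟨y, ?_, ?_⟩
      · rw [h1]
        exact hxy.symm
      · intro z
        rw [h1]
        exact hall z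
    · refine ⟨x, ?_, ?_⟩
      · rw [h1]
        exact hxy
      · intro z
        rw [h1]
        exact (hall z).symm
  refine ⟨g, ?_, ?_, ?_⟩
  · intro h1
    exact hg1 (Subtype.ext h1)
  · rcases hg (g * g) with h1 | h1
    · exact congrArg Subtype.val h1
    · exact absurd (mul_eq_left.1 h1) hg1
  · intro δ hδ
    rw [← hmem]
    constructor
    · intro h1
      rcases hg ⟨δ, h1⟩ with h2 | h2
      · exact absurd (congrArg Subtype.val h2) hδ
      · exact (congrArg Subtype.val h2).symm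
    · rintro rfl
      exact g.2

theorem prime_norm6 (hG : IsGalois F K) (hU : H19X.UnrSix K) : ∃ d : ℕ,
    (∀ w : HeightOneSpectrum (𝓞 K), (3 : 𝓞 K) ∈ w.asIdeal → Ideal.absNorm w.asIdeal = 3 ^ d) ∧
      Nat.card {w : HeightOneSpectrum (𝓞 K) // (3 : 𝓞 K) ∈ w.asIdeal} * d = Module.finrank F K := by
  let v : HeightOneSpectrum O := ⟨Ideal.span {om - 1},
    (Ideal.span_singleton_prime lam_prime.ne_zero).2 lam_prime, by simpa using lam_prime.ne_zero⟩
  have hvm := v.isMaximal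
  have hvp := v.isPrime
  have h3v : (3 : O) ∈ v.asIdeal := by
    show (3 : O) ∈ Ideal.span {om - 1}
    rw [three_eq, Ideal.mem_span_singleton]
    exact Dvd.intro_left (-om ^ 2 * (om - 1)) (by ring)
  have hunder : ∀ w : HeightOneSpectrum (𝓞 K), (3 : 𝓞 K) ∈ w.asIdeal →
      v.asIdeal = w.asIdeal.under O := by
    intro w h3
    have hwm := w.isMaximal
    apply hvm.eq_of_le (Ideal.IsPrime.ne_top inferInstance)
    show Ideal.span {om - 1} ≤ _
    rw [Ideal.span_singleton_le_iff_mem]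
    exact A4_lam w h3
  have hnorm : Ideal.absNorm v.asIdeal = 3 := by
    have h1 : Ideal.absNorm v.asIdeal = Nm (om - 1 : O) := rfl
    rw [h1, A4_nm]
  have h1 := Ideal.ncard_primesOver_mul_ramificationIdxIn_mul_inertiaDegIn v.asIdeal (𝓞 K)
    (K ≃ₐ[F] K)
  rw [IsGalois.card_aut_eq_finrank] at h1
  have hcard : Nat.card {w : HeightOneSpectrum (𝓞 K) // (3 : 𝓞 K) ∈ w.asIdeal} =
      (v.asIdeal.primesOver (𝓞 K)).ncard := by
    rw [← Nat.card_coe_set_eq]
    have hmem : ∀ P : v.asIdeal.primesOver (𝓞 K), (3 : 𝓞 K) ∈ P.1 := by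
      intro P
      have h2 := P.2.2.over
      have h4 : (3 : O) ∈ P.1.under O := by
        rw [← h2]
        exact h3v
      have h5 : algebraMap O (𝓞 K) 3 ∈ P.1 := h4
      rwa [map_ofNat] at h5
    refine Nat.card_congr
      { toFun := fun w => ⟨w.1.asIdeal, w.1.isPrime, ⟨hunder w.1 w.2⟩⟩
        invFun := fun P => ⟨⟨P.1, P.2.1, by
          intro h
          have h4 := hmem P
          rw [h, Ideal.mem_bot] at h4
          exact absurd h4 (by norm_num)⟩, hmem P⟩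
        left_inv := fun x => rfl
        right_inv := fun x => rfl }
  refine ⟨v.asIdeal.inertiaDegIn (𝓞 K), ?_, ?_⟩
  · intro w h3
    have hl : w.asIdeal.LiesOver v.asIdeal := ⟨hunder w h3⟩
    have hwp := w.isPrime
    rw [absNorm_inertia K w v (hunder w h3), hnorm,
      Ideal.inertiaDegIn_eq_inertiaDeg v.asIdeal w.asIdeal (K ≃ₐ[F] K)]
  · have he : v.asIdeal.ramificationIdxIn (𝓞 K) = 1 := by
      obtain ⟨P⟩ := (inferInstance : Nonempty (v.asIdeal.primesOver (𝓞 K)))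
      have h5 : algebraMap O (𝓞 K) 3 ∈ P.1 := by
        have h2 := P.2.2.over
        have h4 : (3 : O) ∈ P.1.under O := by
          rw [← h2]
          exact h3v
        exact h4
      have hP : (P : Ideal (𝓞 K)) ≠ ⊥ := by
        intro h
        rw [h, map_ofNat, Ideal.mem_bot] at h5
        exact absurd h5 (by norm_num)
      let w : HeightOneSpectrum (𝓞 K) := ⟨P.1, P.2.1, hP⟩
      have hl : P.1.LiesOver v.asIdeal := P.2.2
      have hp : P.1.IsPrime := P.2.1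
      rw [Ideal.ramificationIdxIn_eq_ramificationIdx v.asIdeal P.1 (K ≃ₐ[F] K)]
      exact hU w (H19Y.six_of_three w (by rwa [map_ofNat] at h5))
    rw [he, one_mul] at h1
    rw [hcard]
    exact h1

end

variable {K₀ N : Type} [Field K₀] [NumberField K₀] [Field N] [NumberField N] [Algebra F N] [Algebra K₀ N]

theorem real_countN6 {k : ℕ} (hN : GalN6 N k) :
    InfinitePlace.nrRealPlaces K₀ * Module.finrank K₀ N * Nat.card (H13N.Inv (N ≃ₐ[ℚ] N)) =
      2 * 3 ^ k * Nat.card (H13N.Inv (N ≃ₐ[K₀] N)) := by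
  have hGQ := hN.gal
  have hcard : Nat.card (N ≃ₐ[ℚ] N) = 2 * 3 ^ k := by
    rw [IsGalois.card_aut_eq_finrank, T6_rankQ N, hN.deg]
  have hodd : ¬ 2 ∣ 3 ^ k := by
    intro h
    have := Nat.prime_two.dvd_of_dvd_pow h
    omega
  let a1 := T6_act N
  let a2 := T6_act2 (N ≃ₐ[ℚ] N)
  -- complex conjugation at an embedding
  have hex : ∀ i : N →+* ℂ, ∃ γ : N ≃ₐ[ℚ] N, ∀ z, i (γ z) = (starRingEnd ℂ) (i z) := by
    intro i
    have h1 : i.comp (algebraMap ℚ N) = ((starRingEnd ℂ).comp i).comp (algebraMap ℚ N) :=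
      Subsingleton.elim _ _
    obtain ⟨σ, hσ⟩ := ComplexEmbedding.exists_comp_symm_eq_of_comp_eq i _ h1
    exact ⟨σ.symm, fun z => congrArg (fun φ : N →+* ℂ => φ z) hσ⟩
  have hprop : ∀ (i : N →+* ℂ) (γ : N ≃ₐ[ℚ] N), (∀ z, i (γ z) = (starRingEnd ℂ) (i z)) →
      γ ≠ 1 ∧ γ * γ = 1 := by
    intro i γ h
    constructor
    · rintro rfl
      apply T6_nonreal i
      ext z
      exact (h z).symm
    · ext z
      apply i.injective
      change i (γ (γ z)) = i z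
      rw [h, h, Complex.conj_conj]
  choose f0 hf0 using hex
  let f : (N →+* ℂ) → H13N.Inv (N ≃ₐ[ℚ] N) := fun i => ⟨f0 i, hprop i _ (hf0 i)⟩
  have huniq : ∀ (i : N →+* ℂ) (γ : N ≃ₐ[ℚ] N), (∀ z, i (γ z) = (starRingEnd ℂ) (i z)) →
      f0 i = γ := by
    intro i γ h
    ext z
    apply i.injective
    rw [hf0, h]
  have hf : ∀ (g : N ≃ₐ[ℚ] N) (i : N →+* ℂ), f (g • i) = g • f i := by
    intro g i
    apply Subtype.ext
    change f0 (g • i) = g * f0 i * g⁻¹
    apply huniq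
    intro z
    change i (g⁻¹ (g (f0 i (g⁻¹ z)))) = (starRingEnd ℂ) (i (g⁻¹ z))
    rw [← hf0]
    congr 1
    change (g⁻¹ * g) (f0 i (g⁻¹ z)) = _
    rw [inv_mul_cancel]
    rfl
  have ht : ∀ γ δ : H13N.Inv (N ≃ₐ[ℚ] N), ∃ g : N ≃ₐ[ℚ] N, g • γ = δ := by
    intro γ δ
    obtain ⟨g, hg⟩ := inv_conj (3 ^ k) hodd hcard γ.1 δ.1 γ.2 δ.2
    exact ⟨g, Subtype.ext hg⟩
  have h3 : Nat.card (N →+* ℂ) = 2 * 3 ^ k := by
    rw [Nat.card_eq_fintype_card, Embeddings.card, T6_rankQ N, hN.deg]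
  -- the fibres
  have hfin : Finite (H13N.Inv (N ≃ₐ[ℚ] N)) := Subtype.finite
  have i₀ : Nonempty (N →+* ℂ) := by
    have : Nat.card (N →+* ℂ) ≠ 0 := by
      rw [h3]
      positivity
    exact (Nat.card_ne_zero.1 this).1
  obtain ⟨i₀⟩ := i₀
  set c : ℕ := Nat.card {x : N →+* ℂ // f x = f i₀} with hc
  have hY : Nat.card (N →+* ℂ) = Nat.card (H13N.Inv (N ≃ₐ[ℚ] N)) * c := fiber_card f hf ht (f i₀)
  have hYpos : 0 < Nat.card (H13N.Inv (N ≃ₐ[ℚ] N)) := Nat.card_pos_iff.2 ⟨⟨f i₀⟩, hfin⟩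
  have hcc : ∀ y, Nat.card {x : N →+* ℂ // f x = y} = c := by
    intro y
    have h4 := fiber_card f hf ht y
    rw [hY] at h4
    exact (Nat.eq_of_mul_eq_mul_left hYpos h4).symm
  -- restriction of scalars
  let ρ : H13N.Inv (N ≃ₐ[K₀] N) → H13N.Inv (N ≃ₐ[ℚ] N) := fun γ => ⟨AlgEquiv.restrictScalars ℚ γ.1, by
    intro h
    apply γ.2.1
    ext z
    exact congrArg (fun σ : N ≃ₐ[ℚ] N => σ z) h, by
    ext z
    exact congrArg (fun σ : N ≃ₐ[K₀] N => σ z) γ.2.2⟩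
  have hρ : Function.Injective ρ := by
    intro γ δ h
    apply Subtype.ext
    ext z
    exact congrArg (fun σ : H13N.Inv (N ≃ₐ[ℚ] N) => σ.1 z) h
  have hfin0 : Finite (H13N.Inv (N ≃ₐ[K₀] N)) := Finite.of_injective ρ hρ
  have hkey : ∀ i : N →+* ℂ, ComplexEmbedding.IsReal (i.comp (algebraMap K₀ N)) ↔
      ∃ z, ρ z = f i := by
    intro i
    rw [ComplexEmbedding.isReal_iff]
    constructor
    · intro h
      have hcomm : ∀ r : K₀, f0 i (algebraMap K₀ N r) = algebraMap K₀ N r := by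
        intro r
        apply i.injective
        rw [hf0]
        exact congrArg (fun φ : K₀ →+* ℂ => φ r) h
      let γ : N ≃ₐ[K₀] N := AlgEquiv.ofRingEquiv (f := (f0 i).toRingEquiv) hcomm
      have hγ : ∀ z, γ z = f0 i z := fun z => rfl
      refine ⟨⟨γ, ?_, ?_⟩, ?_⟩
      · intro h1
        apply (f i).2.1
        ext z
        show f0 i z = z
        rw [← hγ, h1]
        rfl
      · ext z
        show γ (γ z) = z
        rw [hγ, hγ]
        exact congrArg (fun σ : N ≃ₐ[ℚ] N => σ z) (f i).2.2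
      · apply Subtype.ext
        ext z
        rfl
    · rintro ⟨γ, hγ⟩
      ext r
      have h1 : f0 i (algebraMap K₀ N r) = algebraMap K₀ N r := by
        have h2 : (ρ γ).1 (algebraMap K₀ N r) = algebraMap K₀ N r := γ.1.commutes r
        rw [hγ] at h2
        exact h2
      have h3 := hf0 i (algebraMap K₀ N r)
      rw [h1] at h3
      exact h3.symm
  have h5 := r1_fib f ρ hρ c hcc
  have h6 : Nat.card {i : N →+* ℂ // ComplexEmbedding.IsReal (i.comp (algebraMap K₀ N))} =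
      Nat.card {x : N →+* ℂ // ∃ z, ρ z = f x} :=
    Nat.card_congr (Equiv.subtypeEquivRight hkey)
  rw [← r1_real, h6, h5, ← h3, hY]
  ring

open scoped Pointwise in
theorem prime_countN6 {k : ℕ} (hN : GalN6 N k) :
    Nat.card (WI K₀ N) * Nat.card (H13N.Inv (N ≃ₐ[ℚ] N)) =
      Nat.card (W3 N) * Nat.card (H13N.Inv (N ≃ₐ[K₀] N)) := by
  have hGQ := hN.gal
  have hcard : Nat.card (N ≃ₐ[ℚ] N) = 2 * 3 ^ k := by
    rw [IsGalois.card_aut_eq_finrank, T6_rankQ N, hN.deg]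
  letI := T7_act (K := N)
  letI := T7_conj (K := N)
  haveI := T7_finite (K := N)
  have hfin : Finite (N ≃ₐ[ℚ] N) := inferInstance
  haveI : Finite (T7_Y N) := Subtype.finite
  choose f hf1 hf2 hf3 using fun w : T7_X N => T7_exists6 hGQ hN.unr w.1 w.2
  let φ : T7_X N → T7_Y N := fun w => ⟨f w, hf1 w, hf2 w⟩
  have hequi : ∀ (g : N ≃ₐ[ℚ] N) (x : T7_X N), φ (g • x) = g • φ x := by
    intro g x
    apply Subtype.ext
    show f (T7_smul g x) = g * f x * g⁻¹
    have hne : g * f x * g⁻¹ ≠ 1 := by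
      intro h
      apply hf1 x
      have h1 : f x = g⁻¹ * (g * f x * g⁻¹) * g := by group
      rw [h1, h]
      group
    rw [← hf3 (T7_smul g x) _ hne]
    intro y
    have h1 := (hf3 x (f x) (hf1 x)).2 rfl (g⁻¹ • y)
    show _ ∈ g • x.1.asIdeal
    rw [Ideal.mem_pointwise_smul_iff_inv_smul_mem, smul_sub, smul_smul]
    have h2 : g⁻¹ * (g * f x * g⁻¹) = f x * g⁻¹ := by group
    rw [h2, ← smul_smul]
    exact h1
  have htrans : ∀ y z : T7_Y N, ∃ g : N ≃ₐ[ℚ] N, g • y = z := by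
    intro y z
    obtain ⟨g, hg⟩ := inv_conj (3 ^ k) (by
      intro h
      exact absurd (Nat.Prime.dvd_of_dvd_pow Nat.prime_two h) (by norm_num)) hcard
      y.1 z.1 y.2 z.2
    exact ⟨g, Subtype.ext hg⟩
  -- restriction of scalars
  let ρ : H13N.Inv (N ≃ₐ[K₀] N) → T7_Y N := fun γ => ⟨AlgEquiv.restrictScalars ℚ γ.1, by
    intro h
    apply γ.2.1
    ext z
    exact congrArg (fun σ : N ≃ₐ[ℚ] N => σ z) h, by
    ext z
    exact congrArg (fun σ : N ≃ₐ[K₀] N => σ z) γ.2.2⟩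
  have hρ : Function.Injective ρ := by
    intro γ δ h
    apply Subtype.ext
    ext z
    exact congrArg (fun σ : T7_Y N => σ.1 z) h
  have hfin0 : Finite (H13N.Inv (N ≃ₐ[K₀] N)) := Finite.of_injective ρ hρ
  have hkey : ∀ x : T7_X N, (∃ γ : N ≃ₐ[K₀] N, γ ≠ 1 ∧ ∀ y : 𝓞 N, γ • y - y ∈ x.1.asIdeal) ↔
      ∃ z, ρ z = φ x := by
    intro x
    constructor
    · rintro ⟨γ, hγ1, hγ⟩
      have hne : (AlgEquiv.restrictScalars ℚ γ : N ≃ₐ[ℚ] N) ≠ 1 := by
        intro h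
        apply hγ1
        ext z
        exact congrArg (fun σ : N ≃ₐ[ℚ] N => σ z) h
      have h1 : f x = AlgEquiv.restrictScalars ℚ γ := (hf3 x _ hne).1 hγ
      have h2 : γ * γ = 1 := by
        have h3 := hf2 x
        rw [h1] at h3
        ext z
        exact congrArg (fun σ : N ≃ₐ[ℚ] N => σ z) h3
      exact ⟨⟨γ, hγ1, h2⟩, Subtype.ext h1.symm⟩
    · rintro ⟨z, hz⟩
      have h1 : f x = AlgEquiv.restrictScalars ℚ z.1 := (congrArg Subtype.val hz).symm
      exact ⟨z.1, z.2.1, (hf3 x _ (ρ z).2.1).2 h1⟩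
  have hWI : Nat.card (WI K₀ N) = Nat.card {x : T7_X N // ∃ z, ρ z = φ x} :=
    Nat.card_congr
      { toFun := fun w => ⟨⟨w.1, w.2.1⟩, (hkey _).1 w.2.2⟩
        invFun := fun x => ⟨x.1.1, x.1.2, (hkey x.1).2 x.2⟩
        left_inv := fun x => rfl
        right_inv := fun x => rfl }
  by_cases hemp : Nonempty (T7_X N)
  · obtain ⟨x₀⟩ := hemp
    have hY := fiber_card φ hequi htrans (φ x₀)
    have hYpos : 0 < Nat.card (T7_Y N) := Nat.card_pos_iff.2 ⟨⟨φ x₀⟩, inferInstance⟩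
    have hcc : ∀ y, Nat.card {x : T7_X N // φ x = y} = Nat.card {x : T7_X N // φ x = φ x₀} := by
      intro y
      have h4 := fiber_card φ hequi htrans y
      rw [hY] at h4
      exact (Nat.eq_of_mul_eq_mul_left hYpos h4).symm
    have h5 := r1_fib φ ρ hρ _ hcc
    rw [hWI, h5]
    have h6 : Nat.card (W3 N) = Nat.card (T7_Y N) * Nat.card {x : T7_X N // φ x = φ x₀} := hY
    rw [h6]
    ring
  · have h7 : Nat.card (W3 N) = 0 := Nat.card_eq_zero.2 (Or.inl (not_nonempty_iff.1 hemp))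
    have h8 : Nat.card (WI K₀ N) = 0 := by
      rw [hWI, Nat.card_eq_zero]
      left
      exact ⟨fun x => hemp ⟨x.1⟩⟩
    rw [h7, h8, zero_mul, zero_mul]

end H35X
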