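import Mathlib
import Pool.Agent.Lib.H19T.A3
import Pool.Agent.Lib.H35X.V0
import Pool.Agent.Lib.H55N.H8

/-! The L-function of E144 over fields containing F unramified above 6 (A3, A4 of H19T). -/

open NumberField IsDedekindDomain

namespace H35X

open H55B H35T H55N H19T H13E

theorem LEF6T {K : Type} [Field K] [NumberField K] [Algebra F K] (hU : H19X.UnrSix K)
    (w : HeightOneSpectrum (𝓞 K)) :
    LEF K w = ArithmeticFunction.ofPowerSeries (Ideal.absNorm w.asIdeal)
        ((1 - PowerSeries.C (PsiT K w.asIdeal) * PowerSeries.X)⁻¹ : PowerSeries ℂ) *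
      ArithmeticFunction.ofPowerSeries (Ideal.absNorm w.asIdeal)
        ((1 - PowerSeries.C ((starRingEnd ℂ) (PsiT K w.asIdeal)) *
          PowerSeries.X)⁻¹ : PowerSeries ℂ) := by
  by_cases h3 : (3 : 𝓞 K) ∈ w.asIdeal
  · rw [a3_zero w (Or.inr h3), map_zero (starRingEnd ℂ), H7_ps, map_one, mul_one]
    exact euler_bad w (Or.inr (H19Y.val_three hU w h3))
  · by_cases h2 : (2 : 𝓞 K) ∈ w.asIdeal
    · rw [a3_zero w (Or.inl h2), map_zero (starRingEnd ℂ), H7_ps, map_one, mul_one]
      exact euler_bad w (Or.inl (H19Y.val_two hU w h2))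
    · obtain ⟨v, hv⟩ := H1_below w
      obtain ⟨hv3, _⟩ := I1_under w h3 h2 v hv
      rw [I1_LEF w h3 h2 v hv, PsiT_prime w v hv, psiT_prime v hv3,
        map_pow (starRingEnd ℂ) ((starRingEnd ℂ) (fe v)), Complex.conj_conj, mul_comm]

theorem LFunction_PsiT6 (K : Type) [Field K] [NumberField K] [Algebra F K] (hU : H19X.UnrSix K) (n : ℕ) :
    (((E144.baseChange K).LFunction n : ℤ) : ℂ) =
      (AI (PsiT K) * AI (fun a => (starRingEnd ℂ) (PsiT K a))) n := by
  classical
  set L : HeightOneSpectrum (𝓞 K) → ArithmeticFunction ℤ := fun w =>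
    ((E144.baseChange K).baseChange (w.adicCompletion K)).localEulerFactor
      (w.adicCompletionIntegers K) with hLdef
  have hL : ∀ᶠ T in Filter.atTop, (∏ w ∈ T, L w) n = (E144.baseChange K).LFunction n := by
    have hN : Northcott (fun w : HeightOneSpectrum (𝓞 K) =>
        Nat.card (IsLocalRing.ResidueField (w.adicCompletionIntegers K))) := by
      have h1 : (fun w : HeightOneSpectrum (𝓞 K) =>
        Nat.card (IsLocalRing.ResidueField (w.adicCompletionIntegers K))) =
          fun w => Ideal.absNorm w.asIdeal := funext fun w => (residue_card K w).2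
      rw [h1]
      infer_instance
    exact ArithmeticFunction.tendsTo_eulerProduct_ofPowerSeries
      (fun w : HeightOneSpectrum (𝓞 K) =>
        Nat.card (IsLocalRing.ResidueField (w.adicCompletionIntegers K)))
      (fun w => ((E144.baseChange K).baseChange (w.adicCompletion K)).localPowerSeries
        (w.adicCompletionIntegers K))
      (fun w => by simp [WeierstrassCurve.localPowerSeries]) n
  have hA : ∀ᶠ T : Finset (HeightOneSpectrum (𝓞 K)) in Filter.atTop,
      ∀ m ∈ Finset.range (n + 1),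
      (∏ w ∈ T, ArithmeticFunction.ofPowerSeries (Ideal.absNorm w.asIdeal)
        ((1 - PowerSeries.C (PsiT K w.asIdeal) * PowerSeries.X)⁻¹ : PowerSeries ℂ)) m =
          AI (PsiT K) m ∧
      (∏ w ∈ T, ArithmeticFunction.ofPowerSeries (Ideal.absNorm w.asIdeal)
        ((1 - PowerSeries.C ((starRingEnd ℂ) (PsiT K w.asIdeal)) *
          PowerSeries.X)⁻¹ : PowerSeries ℂ)) m =
          AI (fun a => (starRingEnd ℂ) (PsiT K a)) m := by
    rw [Filter.eventually_all_finset]
    intro m _
    exact (AI_euler (PsiT K) m).and (AI_euler (a3_conj K) m)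
  obtain ⟨T, hT1, hT2⟩ := (hL.and hA).exists
  rw [← hT1, ← ArithmeticFunction.intCoe_apply, I2_cast_prod]
  have h1 : ∀ w ∈ T, ((L w : ArithmeticFunction ℤ) : ArithmeticFunction ℂ) =
      ArithmeticFunction.ofPowerSeries (Ideal.absNorm w.asIdeal)
        ((1 - PowerSeries.C (PsiT K w.asIdeal) * PowerSeries.X)⁻¹ : PowerSeries ℂ) *
      ArithmeticFunction.ofPowerSeries (Ideal.absNorm w.asIdeal)
        ((1 - PowerSeries.C ((starRingEnd ℂ) (PsiT K w.asIdeal)) *
          PowerSeries.X)⁻¹ : PowerSeries ℂ) := fun w _ => LEF6T hU w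
  rw [Finset.prod_congr rfl h1, Finset.prod_mul_distrib]
  refine I2_mul_congr ?_ ?_ n le_rfl
  · intro m hm
    exact (hT2 m (Finset.mem_range.2 (by omega))).1
  · intro m hm
    exact (hT2 m (Finset.mem_range.2 (by omega))).2

theorem L_of_lc3 (K : Type) [Field K] [NumberField K] [Algebra F K] (hU : H19X.UnrSix K)
    (L : ℂ → ℂ) (h : LC (PsiT K) L) :
    ∃ Λ : ℂ → ℂ, AnalyticOnNhd ℂ Λ {s | 1 / 2 < s.re} ∧
      (∀ s : ℂ, 3 / 2 < s.re →
        LSeriesSummable (fun n => (((E144.baseChange K).LFunction n : ℤ) : ℂ)) s ∧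
        Λ s = (E144.baseChange K).LSeries s) ∧
      Λ 1 = L 1 * (starRingEnd ℂ) (L 1) := by
  obtain ⟨hLa, hLs⟩ := h
  refine ⟨fun z => L z * (starRingEnd ℂ) (L ((starRingEnd ℂ) z)), hLa.mul (I4_conj hLa), ?_, ?_⟩
  · intro z hz
    have hz' : 3 / 2 < ((starRingEnd ℂ) z).re := by simpa using hz
    have h0 : PsiT K ⊥ = 0 := (PsiT K).map_zero
    have h1 := AI_LSeries (fun a => PsiT K a) h0 z (tm_summable _ PsiT_norm_le z hz)
    have h2 := AI_LSeries (fun a => (starRingEnd ℂ) (PsiT K a)) (by rw [h0, map_zero]) z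
      (tm_summable _ (fun a => by rw [RCLike.norm_conj]; exact PsiT_norm_le a) z hz)
    have e1 : ∑' a, tm (fun a => PsiT K a) z a = L z := (hLs z hz).tsum_eq
    have e2 : ∑' a, tm (fun a => (starRingEnd ℂ) (PsiT K a)) z a =
        (starRingEnd ℂ) (L ((starRingEnd ℂ) z)) := by
      have h3 := (Complex.hasSum_conj').2 (hLs _ hz')
      have h4 := h3.tsum_eq
      rw [← h4]
      exact tsum_congr fun a => H8_tm _ z a
    rw [e1] at h1
    rw [e2] at h2
    have h3 := ArithmeticFunction.LSeriesHasSum_mul h1 h2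
    have e3 : (fun n => (((E144.baseChange K).LFunction n : ℤ) : ℂ)) = fun n =>
        (AI (PsiT K) * AI (fun a => (starRingEnd ℂ) (PsiT K a))) n :=
      funext fun n => LFunction_PsiT6 K hU n
    have key : LSeriesHasSum (fun n => (((E144.baseChange K).LFunction n : ℤ) : ℂ)) z
        (L z * (starRingEnd ℂ) (L ((starRingEnd ℂ) z))) := by
      rw [e3]
      exact h3
    exact ⟨key.LSeriesSummable, key.LSeries_eq.symm⟩
  · show L 1 * (starRingEnd ℂ) (L ((starRingEnd ℂ) 1)) = _
    rw [map_one]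

end H35X
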