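import Mathlib
import Pool.Agent.Lib.H13N.L2
import Pool.Agent.Lib.H35X.V6

/-! The L-function of E144 over fields K₀ not containing F, K = K₀ F unramified above 6 (Q5, Q6 of H13E, L2, L3 of H13N). -/

open NumberField IsDedekindDomain

namespace H35X

open H55B H35T H55N H19T H13E H13N

variable {K₀ K : Type} [Field K₀] [NumberField K₀] [Field K] [NumberField K] [Algebra F K] [Algebra K₀ K]

theorem val0_two6 (K : Type) [Field K] [NumberField K] [Algebra F K] [Algebra K₀ K] (hU : H19X.UnrSix K)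
    (w' : HeightOneSpectrum (𝓞 K₀)) (h2 : (2 : 𝓞 K₀) ∈ w'.asIdeal) :
    w'.valuation K₀ (2 : K₀) = WithZero.exp (-1 : ℤ) := by
  obtain ⟨w, e, hw, he, hv⟩ := q5_above K w'
  have h1 := H19Y.val_two hU w ((q5_mem w' w hw 2).1 h2)
  have h3 := hv 2
  rw [map_ofNat, h1] at h3
  obtain ⟨k, hk, hk2⟩ := q5_val w' two_ne_zero h3
  have h4 : (e : ℤ) ∣ 1 := ⟨-k, by linear_combination -hk2⟩
  have h5 : (e : ℤ) = 1 := by
    have h6 := Int.le_of_dvd one_pos h4
    omega
  rw [hk]
  congr 1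
  rw [h5] at hk2
  omega

theorem LEF_bad6 (K : Type) [Field K] [NumberField K] [Algebra F K] [Algebra K₀ K] (hU : H19X.UnrSix K) (w' : HeightOneSpectrum (𝓞 K₀))
    (h : (2 : 𝓞 K₀) ∈ w'.asIdeal ∨ (3 : 𝓞 K₀) ∈ w'.asIdeal) : LEF K₀ w' = 1 := by
  have h432 : (432 : K₀) = 2 ^ 4 * 3 ^ 3 := by norm_num
  rcases h with h | h
  · have h2 := val0_two6 K hU w' h
    have h3 : w'.valuation K₀ (3 : K₀) = 1 := by
      have e1 : (3 : K₀) = 1 + 2 := by norm_num
      rw [e1, Valuation.map_add_eq_of_lt_left, map_one]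
      rw [h2, map_one, ← WithZero.exp_zero, WithZero.exp_lt_exp]
      norm_num
    apply q5_bad K₀ w' (-4) (by intro k; omega)
    rw [h432, map_mul, map_pow, map_pow, h3, h2, one_pow, mul_one, ← WithZero.exp_nsmul]
    norm_num
  · rcases H19Y.val0_three K hU w' h with h3 | h3
    · have h2 : w'.valuation K₀ (2 : K₀) = 1 := by
        have e1 : (2 : K₀) = -1 + 3 := by norm_num
        rw [e1, Valuation.map_add_eq_of_lt_left, Valuation.map_neg, map_one]
        rw [h3, Valuation.map_neg, map_one, ← WithZero.exp_zero, WithZero.exp_lt_exp]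
        norm_num
      apply q5_bad K₀ w' (-3) (by intro k; omega)
      rw [h432, map_mul, map_pow, map_pow, h3, h2, one_pow, one_mul, ← WithZero.exp_nsmul]
      norm_num
    · have h2 : w'.valuation K₀ (2 : K₀) = 1 := by
        have e1 : (2 : K₀) = -1 + 3 := by norm_num
        rw [e1, Valuation.map_add_eq_of_lt_left, Valuation.map_neg, map_one]
        rw [h3, Valuation.map_neg, map_one, ← WithZero.exp_zero, WithZero.exp_lt_exp]
        norm_num
      apply q5_bad K₀ w' (-6) (by intro k; omega)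
      rw [h432, map_mul, map_pow, map_pow, h3, h2, one_pow, one_mul, ← WithZero.exp_nsmul]
      norm_num

theorem LEF_badK6 (hU : H19X.UnrSix K) (w : HeightOneSpectrum (𝓞 K))
    (h : (2 : 𝓞 K) ∈ w.asIdeal ∨ (3 : 𝓞 K) ∈ w.asIdeal) : LEF K w = 1 :=
  euler_bad w (h.imp (fun h2 => H19Y.val_two hU w h2) (fun h3 => H19Y.val_three hU w h3))

theorem LFun_sq6 (hQ : Quad K₀ K) (hU : H19X.UnrSix K) (n : ℕ) :
    (((E144.baseChange K).LFunction n : ℤ) : ℂ) =
      ((((E144.baseChange K₀).LFunction : ArithmeticFunction ℤ) : ArithmeticFunction ℂ) *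
        (((E144.baseChange K₀).LFunction : ArithmeticFunction ℤ) : ArithmeticFunction ℂ)) n := by
  classical
  obtain ⟨s0, hs0⟩ := Filter.eventually_atTop.1 (q6_ev K n)
  have hR : ∀ᶠ t : Finset (HeightOneSpectrum (𝓞 K₀)) in Filter.atTop,
      ∀ m ∈ Finset.range (n + 1),
      (∏ w ∈ t, LEF K₀ w) m = (((E144.baseChange K₀).LFunction m : ℤ) : ℂ) := by
    rw [Filter.eventually_all_finset]
    intro m _
    exact q6_ev K₀ m
  obtain ⟨t0, ht0⟩ := Filter.eventually_atTop.1 hR
  set ov : HeightOneSpectrum (𝓞 K₀) → Finset (HeightOneSpectrum (𝓞 K)) :=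
    fun v => (q6_fin K v).toFinset with hov
  have hmo : ∀ v w, w ∈ ov v ↔ v.asIdeal = w.asIdeal.under (𝓞 K₀) := by
    intro v w
    simp [hov]
  set t : Finset (HeightOneSpectrum (𝓞 K₀)) := t0 ∪ s0.image (q6_under K₀) with ht
  set T : Finset (HeightOneSpectrum (𝓞 K)) := t.biUnion ov with hTdef
  have hsub : s0 ⊆ T := by
    intro w hw
    rw [hTdef, Finset.mem_biUnion]
    refine ⟨q6_under K₀ w, Finset.mem_union_right _ (Finset.mem_image_of_mem _ hw), ?_⟩
    rw [hmo]
    rfl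
  rw [← hs0 T hsub, hTdef, Finset.prod_biUnion]
  · have h2 : ∀ v ∈ t, ∏ w ∈ ov v, LEF K w = LEF K₀ v * LEF K₀ v := by
      intro v _
      by_cases hb : (2 : 𝓞 K₀) ∈ v.asIdeal ∨ (3 : 𝓞 K₀) ∈ v.asIdeal
      · rw [LEF_bad6 K hU v hb, mul_one]
        apply Finset.prod_eq_one
        intro w hw
        rw [hmo] at hw
        refine LEF_badK6 hU w (hb.imp (fun h => ?_) (fun h => ?_))
        · exact (q5_mem v w hw 2).1 h
        · exact (q5_mem v w hw 3).1 h
      · rw [not_or] at hb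
        exact LEF_sq hQ v hb.2 hb.1 (ov v) (hmo v)
    rw [Finset.prod_congr rfl h2, Finset.prod_mul_distrib]
    have hts : t0 ⊆ t := Finset.subset_union_left
    refine I2_mul_congr ?_ ?_ n le_rfl
    · intro m hm
      rw [ht0 t hts m (Finset.mem_range.2 (by omega)), ArithmeticFunction.intCoe_apply]
    · intro m hm
      rw [ht0 t hts m (Finset.mem_range.2 (by omega)), ArithmeticFunction.intCoe_apply]
  · intro v _ v' _ hne
    rw [Function.onFun, Finset.disjoint_left]
    intro w hw hw'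
    rw [hmo] at hw hw'
    apply hne
    apply HeightOneSpectrum.ext
    rw [hw, hw']

theorem LFun0_eq6 (hQ : Quad K₀ K) (hU : H19X.UnrSix K) (n : ℕ) :
    (((E144.baseChange K₀).LFunction n : ℤ) : ℂ) = AI (PsiT K) n := by
  have h := sqrt_unique
    (f := (((E144.baseChange K₀).LFunction : ArithmeticFunction ℤ) : ArithmeticFunction ℂ))
    (g := AI (PsiT K)) (by
      rw [ArithmeticFunction.intCoe_apply]
      exact C4_LFun_one K₀) l2_one (by
      intro n
      rw [← LFun_sq6 hQ hU n, LFunction_PsiT6 K hU n, AI_real hQ])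
  rw [← h, ArithmeticFunction.intCoe_apply]

/-- The L-function over K₀. -/
theorem L_of_lc03 (hQ : Quad K₀ K) (hU : H19X.UnrSix K) (L : ℂ → ℂ) (h : LC (PsiT K) L) :
    ∀ s : ℂ, 3 / 2 < s.re →
      LSeriesSummable (fun n => (((E144.baseChange K₀).LFunction n : ℤ) : ℂ)) s ∧
      L s = (E144.baseChange K₀).LSeries s := by
  obtain ⟨hLa, hLs⟩ := h
  intro z hz
  have h0 : PsiT K ⊥ = 0 := (PsiT K).map_zero
  have h1 := AI_LSeries (fun a => PsiT K a) h0 z (tm_summable _ PsiT_norm_le z hz)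
  have e1 : ∑' a, tm (fun a => PsiT K a) z a = L z := (hLs z hz).tsum_eq
  rw [e1] at h1
  have e3 : (fun n => (((E144.baseChange K₀).LFunction n : ℤ) : ℂ)) = fun n => AI (PsiT K) n :=
    funext fun n => LFun0_eq6 hQ hU n
  have key : LSeriesHasSum (fun n => (((E144.baseChange K₀).LFunction n : ℤ) : ℂ)) z (L z) := by
    rw [e3]
    exact h1
  exact ⟨key.LSeriesSummable, key.LSeries_eq.symm⟩

end H35X
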