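import Mathlib
import Pool.Agent.Lib.H13E.T2
import Pool.Agent.Lib.H35T.I4
import Pool.Agent.Lib.H35X.V7

/-! Tamagawa numbers of E144 over subfields of fields unramified above 6 (W12 of H35T, T2, T3, T10 of H13E). -/

open NumberField IsDedekindDomain

namespace H35X

open H55B H35T H55N H19T H13E H13N

theorem tam_three6 (K : Type) [Field K] [NumberField K] [Algebra F K] (hK : H19X.UnrSix K)
    (w : HeightOneSpectrum (𝓞 K)) (h : (3 : 𝓞 K) ∈ w.asIdeal) : ¬ 3 ∣ H35T.tam K w := by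
  classical
  obtain ⟨T, h3, hT⟩ := cosets K w (H19Y.val_three hK w h)
  unfold H35T.tam
  refine H35T.W12_index _ T h3 fun P => ?_
  rcases hT P with h1 | ⟨j, h1⟩
  · exact Or.inl (AddSubgroup.subset_closure h1)
  · exact Or.inr ⟨j, AddSubgroup.subset_closure h1⟩

variable {K₀ : Type} [Field K₀] [NumberField K₀]

theorem tam0_three6 (K : Type) [Field K] [NumberField K] [Algebra F K] [Algebra K₀ K] (hU : H19X.UnrSix K)
    (w' : HeightOneSpectrum (𝓞 K₀)) (h : (3 : 𝓞 K₀) ∈ w'.asIdeal) : ¬ 3 ∣ H13E.tam K₀ w' := by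
  classical
  obtain ⟨Q, hQ, hQl⟩ := Ideal.exists_maximal_ideal_liesOver_of_isIntegral (S := 𝓞 K) w'.asIdeal
  have hunder : w'.asIdeal = Q.under (𝓞 K₀) := hQl.over
  have hQ0 : Q ≠ ⊥ := by
    rintro rfl
    apply w'.ne_bot
    rw [hunder]
    exact Ideal.under_bot (𝓞 K₀) (𝓞 K)
  obtain ⟨w, hw⟩ : ∃ w : HeightOneSpectrum (𝓞 K), w.asIdeal = Q := ⟨⟨Q, hQ.isPrime, hQ0⟩, rfl⟩
  rw [← hw] at hunder
  have h3w : (3 : 𝓞 K) ∈ w.asIdeal := by
    have h1 : (3 : 𝓞 K₀) ∈ w.asIdeal.under (𝓞 K₀) := hunder ▸ h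
    rw [Ideal.mem_under] at h1
    rwa [map_ofNat] at h1
  obtain ⟨ι, e, he, -, hv⟩ := H55C.exists_iota K₀ K w w' hunder
  intro hd
  apply tam_three6 K hU w h3w
  exact hd.trans (T2_index (Valued.v (R := w'.adicCompletion K₀)) (Valued.v (R := w.adicCompletion K))
    (T1_val3 K₀ w' h) (T1_val3 K w h3w) ι e he hv)

theorem T3_v26 (K : Type) [Field K] [NumberField K] [Algebra F K] [Algebra K₀ K] (hU : H19X.UnrSix K)
    (w' : HeightOneSpectrum (𝓞 K₀)) (h : Valued.v (2 : w'.adicCompletion K₀) < 1) :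
    Valued.v (2 : w'.adicCompletion K₀) = WithZero.exp (-1 : ℤ) := by
  rw [W10_val K₀ w' 2] at h ⊢
  refine val0_two6 K hU w' ?_
  have h3 : (2 : K₀) = algebraMap (𝓞 K₀) K₀ (2 : 𝓞 K₀) := (map_ofNat (algebraMap (𝓞 K₀) K₀) 2).symm
  rw [h3] at h
  exact (w'.valuation_lt_one_iff_mem (K := K₀) (2 : 𝓞 K₀)).mp h

theorem T3_E06 (K : Type) [Field K] [NumberField K] [Algebra F K] [Algebra K₀ K] (hU : H19X.UnrSix K)
    (w' : HeightOneSpectrum (𝓞 K₀)) (h : (3 : 𝓞 K₀) ∉ w'.asIdeal) : H13E.E0 K₀ w' = Set.univ := by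
  rw [Set.eq_univ_iff_forall]
  intro P
  rcases P with _ | ⟨x, y, hP⟩
  · left
    rfl
  · right
    exact ⟨x, y, hP, rfl, W10_gen _ x y (W10_v3 K₀ w' h) (T3_v26 K hU w')
      (W10_eqn (w'.adicCompletion K₀) x y hP)⟩

/-! Chunk T3 (S): the Tamagawa number is 1 at primes not above 3: the proof of H35T.W10 (tam_one) with val0_two in place of val_two. -/

theorem tam0_one6 (K : Type) [Field K] [NumberField K] [Algebra F K] [Algebra K₀ K] (hU : H19X.UnrSix K)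
    (w' : HeightOneSpectrum (𝓞 K₀)) (h : (3 : 𝓞 K₀) ∉ w'.asIdeal) : H13E.tam K₀ w' = 1 := by
  classical
  unfold H13E.tam
  rw [T3_E06 K hU w' h, AddSubgroup.closure_univ, AddSubgroup.index_top]

theorem tam0_prod6 (K : Type) [Field K] [NumberField K] [Algebra F K] [Algebra K₀ K] (hU : H19X.UnrSix K) :
    Unit3 (∏ᶠ w : HeightOneSpectrum (𝓞 K₀), (H13E.tam K₀ w : ℂ)) := by
  refine finprod_induction Unit3 ?_ (fun x y hx hy => hx.mul hy) fun w => ?_
  · exact Unit3.one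
  · apply Unit3.nat
    by_cases h : (3 : 𝓞 K₀) ∈ w.asIdeal
    · exact tam0_three6 K hU w h
    · rw [tam0_one6 K hU w h]
      norm_num

end H35X
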