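import Mathlib
import Pool.Agent.Lib.H13E.T10
import Pool.Agent.Lib.H35T.I5
import Pool.Agent.Lib.H35X.Stat
import Pool.Agent.Lib.H35X.V11
import Pool.Agent.Lib.H35X.V8

/-! The analytic order of Sha is the value at 1 divided by the power of the period, times a unit (R5 of H13N). -/

open NumberField IsDedekindDomain

namespace H35X

open H55B H35T H55N H19T H13E H13N

variable {K₀ N : Type} [Field K₀] [NumberField K₀] [Field N] [NumberField N] [Algebra F N] [Algebra K₀ N]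

theorem RT_eq : RT = R (e om - 1) * e sq3 := mul_comm _ _

theorem RT_ne : RT ≠ 0 := by
  rw [RT_eq]
  refine mul_ne_zero R0_ne ?_
  intro h
  have h1 := e_sq3
  rw [h] at h1
  norm_num at h1

theorem shaT3_lin (L : PeriodPair) (c L1 : ℂ) (hc : c ≠ 0) :
    shaT3 K₀ L L1 = (L1 / c) * shaT3 K₀ L c := by
  unfold shaT3
  generalize ((Omr L : ℂ) ^ NumberField.InfinitePlace.nrRealPlaces K₀ *
      (Om L : ℂ) ^ NumberField.InfinitePlace.nrComplexPlaces K₀ *
      ∏ᶠ w : HeightOneSpectrum (𝓞 K₀), (H13E.tam K₀ w : ℂ)) = D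
  have h : L1 = L1 / c * c := (div_mul_cancel₀ _ hc).symm
  nth_rewrite 1 [h]
  ring

theorem shaT3_eq {k : ℕ} (hN : GalN6 N k) (hE : ¬ 3 ∣ tors3 K₀) (L : PeriodPair)
    (h2 : L.g₂ = 0) (h3 : L.g₃ = 4) :
    ∃ u : ℂ, Unit3 u ∧ ∀ L1 : ℂ, shaT3 K₀ L L1 = (L1 / RT ^ Module.finrank ℚ K₀) * u := by
  obtain ⟨m, hm, hD⟩ := disc0N6 (K₀ := K₀) (N := N) hN
  have hn : Module.finrank ℚ K₀ =
      InfinitePlace.nrRealPlaces K₀ + 2 * InfinitePlace.nrComplexPlaces K₀ :=
    (InfinitePlace.card_add_two_mul_card_eq_rank K₀).symm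
  obtain ⟨ho, hOm⟩ := Omr_eq L h2 h3
  have hv := Omr_unit L h2 h3
  have ht := tam0_prod6 (K₀ := K₀) N hN.unr
  have hE' := (Unit3.nat hE).pow 2
  have hc0 : RT ^ Module.finrank ℚ K₀ ≠ 0 := pow_ne_zero _ RT_ne
  refine ⟨shaT3 K₀ L (RT ^ Module.finrank ℚ K₀), ?_, fun L1 => shaT3_lin L _ L1 hc0⟩
  refine Unit3.of_pow (n := 2) (by norm_num) ?_
  have ho' : (Omr L : ℂ) ≠ 0 := by exact_mod_cast ho.ne'
  have hs : (((Real.sqrt |(NumberField.discr K₀ : ℝ)| : ℝ) : ℂ)) ^ 2 =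
      3 ^ InfinitePlace.nrComplexPlaces K₀ * (m : ℂ) := by
    have h1 : (((Real.sqrt |(NumberField.discr K₀ : ℝ)| : ℝ) : ℂ)) ^ 2 =
        (((NumberField.discr K₀).natAbs : ℕ) : ℂ) := by
      rw [← Complex.ofReal_pow, Real.sq_sqrt (abs_nonneg _), ← Int.cast_abs, Int.abs_eq_natAbs]
      simp only [Int.cast_natCast, Complex.ofReal_natCast]
    rw [h1, hD]
    push_cast
    rfl
  have hp : (Om L : ℂ) ^ 2 = 3 * (Omr L : ℂ) ^ 4 := by
    rw [hOm]
    have h4 : (Real.sqrt 3 * Omr L ^ 2) ^ 2 = 3 * Omr L ^ 4 := by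
      rw [mul_pow, Real.sq_sqrt (by norm_num)]
      ring
    exact_mod_cast h4
  have hc : RT ^ 2 = -3 * R (e om - 1) ^ 2 := by
    rw [RT_eq, mul_pow, e_sq3]
    ring
  unfold shaT3
  rw [T10_alg (RT ^ Module.finrank ℚ K₀) _ _ _ _ _ RT m (R (e om - 1)) _ _ ho' R0_ne hs hp hc, ← hn,
    div_self hc0, one_pow]
  have h1 : Unit3 (1 : ℂ) := Unit3.one
  exact ((((h1.mul (W13_neg _)).mul (hv.pow _)).mul (Unit3.nat hm)).mul
    (hE'.pow 2)).div (ht.pow 2)

/-- The value over a field containing F in terms of the Hecke L-value. -/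
theorem val_F (K : Type) [Field K] [NumberField K] [Algebra F K] (L1 : ℂ) :
    (L1 * (starRingEnd ℂ) L1) / RT ^ Module.finrank ℚ K =
      (-1) ^ Module.finrank F K * ((L1 / RT ^ Module.finrank F K) *
        (starRingEnd ℂ) (L1 / RT ^ Module.finrank F K)) := by
  have hR : RT ≠ 0 := RT_ne
  have hconj : (starRingEnd ℂ) RT = -RT := by
    have h1 := i5_sq3
    have h2 := e_sq3
    have h0 : e sq3 ≠ 0 := by
      intro h
      rw [h] at h2
      norm_num at h2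
    have h3 : (starRingEnd ℂ) (e sq3) = -e sq3 := by
      apply mul_left_cancel₀ h0
      rw [h1]
      linear_combination h2
    rw [RT_eq, map_mul, R_real, h3]
    ring
  have h1 : (RT ^ Module.finrank F K) ≠ 0 := pow_ne_zero _ hR
  have h2 : ((-1 : ℂ)) ^ Module.finrank F K ≠ 0 := pow_ne_zero _ (by norm_num)
  have h3 : ((-1 : ℂ)) ^ Module.finrank F K * (-1) ^ Module.finrank F K = 1 := by
    rw [← mul_pow]
    norm_num
  rw [T6_rankQ K, map_div₀, map_pow, hconj, neg_pow RT, two_mul, pow_add]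
  rw [div_mul_div_comm, ← mul_div_assoc, div_eq_div_iff (mul_ne_zero h1 h1)
    (mul_ne_zero h1 (mul_ne_zero h2 h1))]
  linear_combination (-(L1 * (starRingEnd ℂ) L1) * RT ^ Module.finrank F K * RT ^ Module.finrank F K) * h3 +
    (L1 * (starRingEnd ℂ) L1) * RT ^ Module.finrank F K * RT ^ Module.finrank F K * h3

end H35X
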