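import Mathlib
import Pool.Agent.Lib.H13E.S2Gen
import Pool.Agent.Lib.H19T.A12
import Pool.Agent.Lib.H19T.A7

open NumberField IsDedekindDomain

namespace H35X

open H55B H35T H55N H19T H13E

/-! Chunk V3 (M): Euler factors at s = 1 modulo 3 (adapt H19Y/Y3.lean). Max3.int, ..., Max3.conj, Int3.conj: as in H19Y.Y3 (Non2 -> Max3; H35T.i4_lt, i4_eq and
H35T.exists_val3 instead of B9_lt, exists_val). fe_unit: fe v = conj(e(eta(gen v))) e(gen v): eta(gen v) has sixth power 1 (H19T.Unit3_eta; gen v is prime to 2), gen v = 1 modulo 3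
(gen_spec), so Nm (gen v) is prime to 3 (H35T.i4_norm, i4_three) and H35T.val_e_unit. tm_eqT: as tm_eq with H19T.PsiT_prime, psiT_prime, absNorm_inertia, fe_mul_conj
(see the end of H19T.Efac_unitT in H19T/A12.lean). Efac_int3: v = I2_under w; 2, 3 not in v. Efac_unit3: then Good v (an x in O with x^2 + 1 in v gives one in 𝓞 K), H19T.Efac_unitT.
Efac_non3: the residue field of w is an extension of odd degree inertiaDeg = 3^j of the residue field of v, and x modulo w is a root of X^2 + 1; so X^2 + 1 has a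
root in O/v (else the degree would be even; or by counting: card(𝓞 K/w) = (Nv)^(3^j), and -1 is a square in a finite field with q odd elements iff q is not 3
modulo 4, FiniteField.isSquare_neg_one_iff; q^(3^j) = q modulo 4 as 3^j is odd). So Nm (gen v) = Nv = 1 modulo 4, eta(gen v) = om^j (compare H35T.eta_good), fe v = e y with
(om - 1) | y - 1 (compare H35T.i4_fe), (om - 1) | y^f - 1, so e(y)^f - 1 = e(om - 1) e(z) is in Max3 (Max3_root of H19T with om^3 = 1 and Int3 (e z)). -/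

theorem Max3.int {x : ℂ} (h : Max3 x) : Int3 x := fun V hV => (h V hV).le

theorem Max3.add {x y : ℂ} (h : Max3 x) (hy : Max3 y) : Max3 (x + y) := fun V hV =>
  lt_of_le_of_lt (Valuation.map_add _ _ _) (max_lt (h V hV) (hy V hV))

theorem Max3.not_unit {x : ℂ} (h : Max3 x) : ¬ Unit3 x := by
  intro hu
  obtain ⟨V, hV⟩ := exists_val3
  exact absurd (h V hV) (by rw [hu V hV]; exact lt_irrefl _)

theorem Max3.conj {x : ℂ} (h : Max3 x) : Max3 ((starRingEnd ℂ) x) := by
  intro A hA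
  have h2 : (3 : ℂ) ≠ 0 := three_ne_zero
  by_cases hx : x = 0
  · rw [hx, map_zero, map_zero]
    exact zero_lt_one
  set B : ValuationSubring ℂ := A.comap (starRingEnd ℂ) with hB
  have hmem : ∀ z : ℂ, z ∈ B ↔ (starRingEnd ℂ) z ∈ A := fun z => Iff.rfl
  have hB2 : B.valuation 3 < 1 := by
    rw [i4_lt B h2, hmem, map_inv₀, map_ofNat, ← i4_lt A h2]
    exact hA
  have h3 := (i4_lt B hx).1 (h B hB2)
  rw [hmem, map_inv₀] at h3
  exact (i4_lt A ((map_ne_zero (starRingEnd ℂ)).2 hx)).2 h3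

theorem Int3.conj {x : ℂ} (h : Int3 x) : Int3 ((starRingEnd ℂ) x) := by
  intro A hA
  have h2 : (3 : ℂ) ≠ 0 := three_ne_zero
  set B : ValuationSubring ℂ := A.comap (starRingEnd ℂ) with hB
  have hmem : ∀ z : ℂ, z ∈ B ↔ (starRingEnd ℂ) z ∈ A := fun z => Iff.rfl
  have hB2 : B.valuation 3 < 1 := by
    rw [i4_lt B h2, hmem, map_inv₀, map_ofNat, ← i4_lt A h2]
    exact hA
  have h3 := (ValuationSubring.valuation_le_one_iff B x).1 (h B hB2)
  exact (ValuationSubring.valuation_le_one_iff A _).2 ((hmem x).1 h3)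

theorem Int3.add {x y : ℂ} (h : Int3 x) (hy : Int3 y) : Int3 (x + y) := fun V hV =>
  (Valuation.map_add _ _ _).trans (max_le (h V hV) (hy V hV))

theorem Int3.pow {x : ℂ} (h : Int3 x) (n : ℕ) : Int3 (x ^ n) := fun V hV => by
  rw [map_pow]
  exact pow_le_one' (h V hV) n

theorem Int3.prod {ι : Type} (S : Finset ι) (x : ι → ℂ) (hx : ∀ i ∈ S, Int3 (x i)) :
    Int3 (∏ i ∈ S, x i) := fun V hV => by
  rw [map_prod]
  exact Finset.prod_le_one' fun i hi => hx i hi V hV

/-- A product of integral numbers one of which is in the maximal ideals. -/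
theorem Max3.prod {ι : Type} (S : Finset ι) (x : ι → ℂ) (hx : ∀ i ∈ S, Int3 (x i))
    (i : ι) (hi : i ∈ S) (hm : Max3 (x i)) : Max3 (∏ i ∈ S, x i) := by
  classical
  rw [← Finset.mul_prod_erase S x hi]
  exact Max3_mul hm (Int3.prod _ _ fun j hj => hx j (Finset.mem_of_mem_erase hj))

theorem v3_gen (v : HeightOneSpectrum O) (h3 : (3 : O) ∉ v.asIdeal) : (om - 1) ∣ gen v - 1 :=
  i4_three.trans (gen_spec v h3).2

theorem fe_unit (v : HeightOneSpectrum O) (h2 : (2 : O) ∉ v.asIdeal) (h3 : (3 : O) ∉ v.asIdeal) :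
    Unit3 (fe v) := by
  have hcop : IsCoprime (gen v) 2 := by
    refine ((gen_prime v h3).irreducible.coprime_iff_not_dvd).2 fun h => h2 ?_
    exact (gen_dvd_iff v h3 2).1 h
  unfold fe
  refine (Unit3_eta _ hcop).conj.mul fun A hA => ?_
  exact val_e_unit A hA _ (i4_norm (Or.inl (v3_gen v h3)))

variable {K : Type} [Field K] [NumberField K] [Algebra F K]

theorem tm_eqT (w : HeightOneSpectrum (𝓞 K)) (v : HeightOneSpectrum O)
    (hv : v.asIdeal = w.asIdeal.under O) (h2 : (2 : O) ∉ v.asIdeal) (h3 : (3 : O) ∉ v.asIdeal) :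
    tm (PsiT K) 1 w.asIdeal = (fe v ^ w.asIdeal.inertiaDeg O)⁻¹ := by
  have hx1 := fe_unit v h2 h3
  have hx0 := hx1.ne_zero
  have hcx0 := hx1.conj.ne_zero
  unfold tm
  rw [PsiT_prime w v hv, psiT_prime v h3, absNorm_inertia K w v hv, Nat.cast_pow,
    ← fe_mul_conj v h3 h2, Complex.cpow_neg_one, mul_pow]
  field_simp

omit [NumberField K] in
theorem v3_under (w : HeightOneSpectrum (𝓞 K)) (h6 : (6 : 𝓞 K) ∉ w.asIdeal) :
    (2 : O) ∉ (I2_under w).asIdeal ∧ (3 : O) ∉ (I2_under w).asIdeal := by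
  constructor
  · intro h
    apply h6
    have h1 : algebraMap O (𝓞 K) 2 ∈ w.asIdeal := h
    rw [map_ofNat] at h1
    have h2 := w.asIdeal.mul_mem_left 3 h1
    rwa [show (3 : 𝓞 K) * 2 = 6 by norm_num] at h2
  · intro h
    apply h6
    have h1 : algebraMap O (𝓞 K) 3 ∈ w.asIdeal := h
    rw [map_ofNat] at h1
    have h2 := w.asIdeal.mul_mem_left 2 h1
    rwa [show (2 : 𝓞 K) * 3 = 6 by norm_num] at h2

/-- The Euler factors at primes not above 6 are integral. -/
theorem Efac_int3 (w : HeightOneSpectrum (𝓞 K)) (h6 : (6 : 𝓞 K) ∉ w.asIdeal) :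
    Int3 (1 - tm (PsiT K) 1 w.asIdeal) := by
  obtain ⟨h2, h3⟩ := v3_under w h6
  rw [tm_eqT w (I2_under w) rfl h2 h3, sub_eq_add_neg]
  refine Int3.add (Int3_of_unit Unit3.one) fun V hV => ?_
  rw [Valuation.map_neg]
  exact Int3_of_unit ((fe_unit _ h2 h3).pow _).inv V hV

omit [Algebra F K] in
theorem v3_card (w : HeightOneSpectrum (𝓞 K)) (hx : ∃ x : 𝓞 K, x ^ 2 + 1 ∈ w.asIdeal) :
    Ideal.absNorm w.asIdeal % 4 ≠ 3 := by
  classical
  obtain ⟨x, hx⟩ := hx
  have hfin : Finite (𝓞 K ⧸ w.asIdeal) := w.asIdeal.finiteQuotientOfFreeOfNeBot w.ne_bot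
  let _i := Ideal.Quotient.field w.asIdeal
  let _j := Fintype.ofFinite (𝓞 K ⧸ w.asIdeal)
  have h1 : IsSquare (-1 : 𝓞 K ⧸ w.asIdeal) := by
    refine ⟨Ideal.Quotient.mk _ x, ?_⟩
    rw [← Ideal.Quotient.eq_zero_iff_mem, map_add, map_pow, map_one, pow_two] at hx
    linear_combination -hx
  rw [FiniteField.isSquare_neg_one_iff] at h1
  have h2 : Ideal.absNorm w.asIdeal = Fintype.card (𝓞 K ⧸ w.asIdeal) := by
    rw [Ideal.absNorm_apply, Submodule.cardQuot_apply, Nat.card_eq_fintype_card]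
  rw [h2]
  exact h1

/-- The Euler factors at primes modulo which -1 is a square are not units. -/
theorem Efac_non3 (w : HeightOneSpectrum (𝓞 K)) (h6 : (6 : 𝓞 K) ∉ w.asIdeal)
    (hf : ∃ j : ℕ, w.asIdeal.inertiaDeg O = 3 ^ j) (hx : ∃ x : 𝓞 K, x ^ 2 + 1 ∈ w.asIdeal) :
    Max3 (1 - tm (PsiT K) 1 w.asIdeal) := by
  obtain ⟨h2, h3⟩ := v3_under w h6
  set v := I2_under w with hv
  have hodd : Odd (w.asIdeal.inertiaDeg O) := by
    obtain ⟨j, hj⟩ := hf
    rw [hj]
    exact Odd.pow (by decide)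
  have hcard := v3_card w hx
  rw [absNorm_inertia K w v rfl, absNorm_gen v h3] at hcard
  have h2g : ¬ (2 : O) ∣ gen v := by
    rintro ⟨c, hc⟩
    have hg : gen v ∈ v.asIdeal := by
      rw [(gen_spec v h3).1]
      exact Ideal.mem_span_singleton_self _
    have hcv : c ∈ v.asIdeal := by
      rw [hc] at hg
      exact (v.isPrime.mem_or_mem hg).resolve_left h2
    rw [(gen_spec v h3).1] at hcv
    obtain ⟨t, ht⟩ := Ideal.mem_span_singleton.1 hcv
    rw [ht] at hc
    have hg0 : gen v ≠ 0 := by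
      intro h0
      apply v.ne_bot
      rw [(gen_spec v h3).1, h0]
      simp
    have h5 : (1 : O) = 2 * t := by
      apply mul_left_cancel₀ hg0
      linear_combination hc
    apply v.isPrime.ne_top
    rw [Ideal.eq_top_iff_one]
    have h6' : Nm (1 : O) = Nm ((2 : O) * t) := by rw [← h5]
    have h7 : (Nm (2 : O) : ℤ) = 4 := by
      have h8 : (2 : O) = ((2 : ℤ) : O) + ((0 : ℤ) : O) * om := by push_cast; ring
      rw [h8, Nm_repr]
      norm_num
    have h9 : Nm (2 : O) = 4 := by exact_mod_cast h7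
    rw [Nm_mul, h9, Nm_eq_one.2 isUnit_one] at h6'
    omega
  have hNodd : Nm (gen v) % 2 = 1 := by
    by_contra hcon
    apply h2g
    obtain ⟨a, b, hab⟩ := exists_repr (gen v)
    have h5 := Nm_repr a b
    rw [← hab] at h5
    have h6' : (a ^ 2 - a * b + b ^ 2) % 2 = 0 := by omega
    obtain ⟨a', ha⟩ := Int.even_or_odd' a
    obtain ⟨b', hb⟩ := Int.even_or_odd' b
    rcases ha with ha | ha <;> rcases hb with hb | hb
    · refine ⟨(a' : O) + (b' : O) * om, ?_⟩
      rw [hab, ha, hb]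
      push_cast
      ring
    · exfalso
      have h7 : a ^ 2 - a * b + b ^ 2 = 2 * (2 * a' ^ 2 - a' * b + 2 * b' ^ 2 + 2 * b') + 1 := by
        rw [ha, hb]
        ring
      omega
    · exfalso
      have h7 : a ^ 2 - a * b + b ^ 2 = 2 * (2 * a' ^ 2 + 2 * a' - a * b' + 2 * b' ^ 2) + 1 := by
        rw [ha, hb]
        ring
      omega
    · exfalso
      have h7 : a ^ 2 - a * b + b ^ 2 = 2 * (2 * a' ^ 2 + a' - 2 * a' * b' + 2 * b' ^ 2 + b') + 1 := by
        rw [ha, hb]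
        ring
      omega
  have hN4 : Nm (gen v) % 4 = 1 := by
    by_contra hcon
    have h5 : Nm (gen v) % 4 = 3 := by omega
    apply hcard
    obtain ⟨k, hk⟩ := hodd
    rw [hk, Nat.pow_mod, h5, pow_add, pow_mul, Nat.mul_mod, Nat.pow_mod]
    norm_num
  have hchi : ZMod.χ₄ (Nm (gen v) : ZMod 4) = 1 := by
    have h2' : ((Nm (gen v) : ℕ) : ZMod 4) = ((Nm (gen v) % 4 : ℕ) : ZMod 4) := (ZMod.natCast_mod _ 4).symm
    rw [h2', hN4]
    decide
  obtain ⟨j, hj⟩ : ∃ j : ℕ, eta (gen v) = om ^ j := by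
    have h2' : ∃ j : ℕ, kap (gen v) = om ^ j := by
      rcases (kap_spec (gen v)).2 with h | h | h | h
      · exact absurd ((kap_zero _).1 h) h2g
      · exact ⟨0, by rw [h, pow_zero]⟩
      · exact ⟨1, by rw [h, pow_one]⟩
      · exact ⟨2, h⟩
    obtain ⟨j, hj⟩ := h2'
    refine ⟨j, ?_⟩
    unfold eta
    rw [hchi, hj]
    push_cast
    ring
  obtain ⟨y, hy, hd⟩ : ∃ y : O, fe v = e y ∧ (om - 1) ∣ y - 1 := by
    refine ⟨(om ^ 2) ^ j * gen v, ?_, ?_⟩
    · unfold fe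
      rw [← e_cj, ← map_mul, hj, map_pow, cj_om]
    · have h1 : (om - 1) ∣ (om ^ 2) ^ j - 1 := by
        have h2 : om ^ 2 - 1 ∣ (om ^ 2) ^ j - 1 := by
          have := sub_dvd_pow_sub_pow (om ^ 2) 1 j
          rwa [one_pow] at this
        exact dvd_trans ⟨om + 1, by ring⟩ h2
      obtain ⟨r, hr⟩ := h1
      obtain ⟨c, hc⟩ := v3_gen v h3
      refine ⟨r * gen v + c, ?_⟩
      linear_combination (gen v) * hr + hc
  have hu := (fe_unit v h2 h3).pow (w.asIdeal.inertiaDeg O)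
  have hu0 := hu.ne_zero
  rw [tm_eqT w v rfl h2 h3]
  obtain ⟨z, hz⟩ : (om - 1) ∣ y ^ w.asIdeal.inertiaDeg O - 1 := by
    refine hd.trans ?_
    have := sub_dvd_pow_sub_pow y 1 (w.asIdeal.inertiaDeg O)
    rwa [one_pow] at this
  have hz' := congrArg e hz
  rw [map_sub, map_pow, ← hy, map_one, map_mul, map_sub, map_one] at hz'
  have h6 : 1 - (fe v ^ w.asIdeal.inertiaDeg O)⁻¹ =
      (e om - 1) * (e z * (fe v ^ w.asIdeal.inertiaDeg O)⁻¹) := by
    rw [← mul_assoc, ← hz']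
    field_simp
  rw [h6]
  refine Max3_mul (Max3_root ?_) (Int3_mul (a12_int z) (Int3_of_unit hu.inv))
  rw [← map_pow, L5_om_cube, map_one]

/-- The Euler factors at primes modulo which -1 is not a square are units. -/
theorem Efac_unit3 (w : HeightOneSpectrum (𝓞 K)) (h6 : (6 : 𝓞 K) ∉ w.asIdeal)
    (hf : ∃ j : ℕ, w.asIdeal.inertiaDeg O = 3 ^ j) (hx : ¬ ∃ x : 𝓞 K, x ^ 2 + 1 ∈ w.asIdeal) :
    Unit3 (1 - tm (PsiT K) 1 w.asIdeal) := by
  obtain ⟨h2, h3⟩ := v3_under w h6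
  refine Efac_unitT K w (I2_under w) rfl ⟨h2, h3, ?_⟩ hf
  rintro ⟨x, hx'⟩
  apply hx
  refine ⟨algebraMap O (𝓞 K) x, ?_⟩
  have h1 : algebraMap O (𝓞 K) (x ^ 2 + 1) ∈ w.asIdeal := hx'
  rwa [map_add, map_pow, map_one] at h1

end H35X
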