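import Mathlib
import Pool.Agent.Lib.H19T.A9b
import Pool.Agent.Lib.H19X.EX7
import Pool.Agent.Lib.H19X.T1
import Pool.Agent.Lib.H35X.Defs

open NumberField IsDedekindDomain

namespace H35X

open H55B H35T H13E

/-! Chunk T1 (M): subfields of 3-extensions. sub6T_rank, exists_sub6T: copy H19X.T1 (sub6_rank) resp. H19T.A9b (exists_sub3, which gives the Galois
property): the same proofs with UnrSix instead of UnrOut. sub6T_unr: H19X.sub6_unrSix copied. unrTwo_six: H19X.T1_val with the prime 2 and hU
(as in hypF_of_sub6); lam_six the same with om - 1. unrTwo_down: w of K above w₀ (H19X.EX7_above), exp(-1) = w.valuation 2 = w₀.valuation 2 ^ e. -/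

theorem sub6T_rank {K : Type} [Field K] [NumberField K] [Algebra F K] (hS : Sub6T K) :
    ∃ k : ℕ, Module.finrank F K = 3 ^ k := by
  obtain ⟨L, _, _, _, _, _, ⟨-, k, hk⟩, -⟩ := hS
  have h1 := Module.finrank_mul_finrank F K L
  have h2 : Module.finrank F K ∣ 3 ^ k := by
    rw [← hk, ← h1]
    exact dvd_mul_right _ _
  obtain ⟨j, -, hj⟩ := (Nat.dvd_prime_pow Nat.prime_three).1 h2
  exact ⟨j, hj⟩

theorem t1_exists_sub6T (K' : Type) [Field K'] [NumberField K'] [Algebra F K'] (hS : Sub6T K')
    (hn : Module.finrank F K' ≠ 1) :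
    ∃ (K : Type) (_ : Field K) (_ : NumberField K) (_ : Algebra F K) (_ : Algebra K K')
      (_ : IsScalarTower F K K'), Sub6T K ∧ Module.finrank K K' = 3 ∧ IsGalois K K' := by
  obtain ⟨L, _, _, _, _, _, ⟨hG, k, hk⟩, hU⟩ := hS
  have : FiniteDimensional F L := Module.finite_of_finrank_pos (by rw [hk]; positivity)
  let f : K' →ₐ[F] L := IsScalarTower.toAlgHom F K' L
  let M' : IntermediateField F L := f.fieldRange
  let E : K' ≃ₐ[F] M' := AlgEquiv.ofInjectiveField f
  have h1 : Module.finrank F M' = Module.finrank F K' := E.toLinearEquiv.finrank_eq.symm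
  have h2 : Module.finrank F M' * Module.finrank M' L = 3 ^ k := by
    rw [Module.finrank_mul_finrank, hk]
  obtain ⟨j, hj, hj2⟩ := (Nat.dvd_prime_pow Nat.prime_three).1
    (Dvd.intro_left _ h2 : Module.finrank M' L ∣ 3 ^ k)
  have h3 : Nat.card M'.fixingSubgroup = 3 ^ j := by
    rw [IsGalois.card_fixingSubgroup_eq_finrank, hj2]
  have hcardG : Nat.card (L ≃ₐ[F] L) = 3 ^ k := by
    rw [IsGalois.card_aut_eq_finrank, hk]
  have hjk : j < k := by
    rcases lt_or_eq_of_le hj with h | h
    · exact h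
    · exfalso
      apply hn
      rw [hj2, h, h1] at h2
      have h4 : (0 : ℕ) < 3 ^ k := by positivity
      exact Nat.eq_of_mul_eq_mul_right h4 (by rw [one_mul]; exact h2)
  have := Fact.mk Nat.prime_three
  obtain ⟨H, hH, hle⟩ := Sylow.exists_subgroup_card_pow_succ (p := 3) (G := L ≃ₐ[F] L) (n := j)
    (by rw [hcardG]; exact pow_dvd_pow 3 hjk) h3
  let M : IntermediateField F L := IntermediateField.fixedField H
  have hM : M ≤ M' := by
    intro x hx
    rw [← IsGalois.fixedField_fixingSubgroup M', IntermediateField.mem_fixedField_iff]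
    intro σ hσ
    exact (IntermediateField.mem_fixedField_iff H x).1 hx σ (hle hσ)
  let N : IntermediateField F K' := M.comap f
  have hN : N.map f = M := by
    ext x
    constructor
    · rintro ⟨y, hy, rfl⟩
      exact hy
    · intro hx
      obtain ⟨y, hy⟩ := hM hx
      have hy' : f y = x := hy
      refine ⟨y, ?_, hy⟩
      show f y ∈ M
      rw [hy']
      exact hx
  have h5 : Module.finrank F N = Module.finrank F M := by
    rw [← hN]
    exact (IntermediateField.equivMap N f).toLinearEquiv.finrank_eq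
  have h6 : Module.finrank M L = 3 ^ (j + 1) := by
    rw [IntermediateField.finrank_fixedField_eq_card, hH]
  have h7 : Module.finrank F M * Module.finrank M L = 3 ^ k := by
    rw [Module.finrank_mul_finrank, hk]
  have h8 : Module.finrank F N * Module.finrank N K' = Module.finrank F K' :=
    Module.finrank_mul_finrank F N K'
  have h9 : Module.finrank N K' = 3 := by
    rw [h5] at h8
    rw [h1, hj2, ← h8] at h2
    rw [h6] at h7
    have h10 : 0 < Module.finrank F M := Module.finrank_pos
    have h11 : Module.finrank F M * 3 ^ j * Module.finrank N K' =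
        Module.finrank F M * 3 ^ j * 3 := by
      calc _ = Module.finrank F M * Module.finrank N K' * 3 ^ j := by ring
        _ = 3 ^ k := h2
        _ = Module.finrank F M * 3 ^ (j + 1) := h7.symm
        _ = _ := by rw [pow_succ]; ring
    exact Nat.eq_of_mul_eq_mul_left (by positivity) h11
  -- elements of `H` map the image of `K'` to itself
  have hnorm := H19T.a9b_normal M'.fixingSubgroup H j h3 hH hle
  have hstab : ∀ σ ∈ H, ∀ y : K', ∃ z : K', f z = σ (f y) := by
    intro σ hσ y
    have hmem : σ (f y) ∈ M' := by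
      rw [← IsGalois.fixedField_fixingSubgroup M', IntermediateField.mem_fixedField_iff]
      intro τ hτ
      have h12 : (⟨τ, hle hτ⟩ : H) ∈ M'.fixingSubgroup.subgroupOf H := by
        rw [Subgroup.mem_subgroupOf]
        exact hτ
      have h13 := hnorm.conj_mem _ h12 (⟨σ, hσ⟩ : H)⁻¹
      rw [Subgroup.mem_subgroupOf] at h13
      have h14 : σ⁻¹ * τ * σ ∈ M'.fixingSubgroup := by
        simpa using h13
      have h15 : (σ⁻¹ * τ * σ) (f y) = f y :=
        (IntermediateField.mem_fixingSubgroup_iff M' _).1 h14 (f y) ⟨y, rfl⟩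
      have h16 : τ (σ (f y)) = σ ((σ⁻¹ * τ * σ) (f y)) := by
        rw [← AlgEquiv.mul_apply, ← AlgEquiv.mul_apply]
        congr 1
        group
      rw [h16, h15]
    obtain ⟨z, hz⟩ := hmem
    exact ⟨z, hz⟩
  have hfinj : Function.Injective f := f.injective
  have hfix : ∀ σ ∈ H, ∀ n : N, σ (f (n : K')) = f (n : K') := by
    intro σ hσ n
    have h17 : f (n : K') ∈ M := n.2
    exact (IntermediateField.mem_fixedField_iff H _).1 h17 σ hσ
  let τ : (σ : L ≃ₐ[F] L) → σ ∈ H → (K' →ₐ[N] K') := fun σ hσ =>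
    { toFun := fun y => (hstab σ hσ y).choose
      map_one' := hfinj (by rw [(hstab σ hσ 1).choose_spec, map_one, map_one])
      map_mul' := fun x y => hfinj (by
        rw [(hstab σ hσ (x * y)).choose_spec, map_mul, map_mul, map_mul,
          (hstab σ hσ x).choose_spec, (hstab σ hσ y).choose_spec])
      map_zero' := hfinj (by rw [(hstab σ hσ 0).choose_spec, map_zero, map_zero])
      map_add' := fun x y => hfinj (by
        rw [(hstab σ hσ (x + y)).choose_spec, map_add, map_add, map_add,
          (hstab σ hσ x).choose_spec, (hstab σ hσ y).choose_spec])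
      commutes' := fun n => hfinj (by
        rw [(hstab σ hσ (algebraMap N K' n)).choose_spec]
        exact hfix σ hσ n) }
  have hτ : ∀ σ hσ y, f (τ σ hσ y) = σ (f y) := fun σ hσ y => (hstab σ hσ y).choose_spec
  have hGal : IsGalois N K' := by
    apply IsGalois.of_fixedField_eq_bot
    rw [eq_bot_iff]
    intro y hy
    have hyN : y ∈ N := by
      show f y ∈ M
      rw [IntermediateField.mem_fixedField_iff]
      intro σ hσ
      let τ' : K' ≃ₐ[N] K' := AlgEquiv.ofBijective (τ σ hσ) (Algebra.IsAlgebraic.algHom_bijective _)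
      have h18 : τ' y = y := (IntermediateField.mem_fixedField_iff _ _).1 hy τ' (Subgroup.mem_top _)
      have h19 := hτ σ hσ y
      have h20 : τ σ hσ y = y := h18
      rw [h20] at h19
      exact h19.symm
    exact IntermediateField.mem_bot.2 ⟨⟨y, hyN⟩, rfl⟩
  refine ⟨N, inferInstance, inferInstance, inferInstance, inferInstance, inferInstance,
    ⟨L, inferInstance, inferInstance, inferInstance, inferInstance, inferInstance, ⟨hG, k, hk⟩, hU⟩,
    h9, hGal⟩

theorem exists_sub6T (K' : Type) [Field K'] [NumberField K'] [Algebra F K'] (hS : Sub6T K')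
    (hn : 1 < Module.finrank F K') :
    ∃ (K : Type) (_ : Field K) (_ : NumberField K) (_ : Algebra F K) (_ : Algebra K K')
      (_ : IsScalarTower F K K'), Sub6T K ∧ Module.finrank K K' = 3 ∧ IsGalois K K' :=
  t1_exists_sub6T K' hS hn.ne'

theorem sub6T_unr {K : Type} [Field K] [NumberField K] [Algebra F K] (hS : Sub6T K) : H19X.UnrSix K := by
  obtain ⟨L, _, _, _, _, _, -, hU⟩ := hS
  intro w hw
  obtain ⟨W, hW, -⟩ := H55N.T0_above L w
  have h6 : (6 : 𝓞 L) ∈ W.asIdeal := by
    have h3 : (6 : 𝓞 K) ∈ W.asIdeal.under (𝓞 K) := hW.over ▸ hw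
    rw [Ideal.mem_under, map_ofNat] at h3
    exact h3
  have h1 := hU W h6
  have h2 := Ideal.ramificationIdx_tower (R := O) w.asIdeal W.asIdeal
  rw [h1] at h2
  exact Nat.eq_one_of_mul_eq_one_right h2.symm

theorem unrTwo_six {K : Type} [Field K] [NumberField K] [Algebra F K] (hU : H19X.UnrSix K) :
    H19X.UnrTwo K := by
  intro w hw
  have h6 : (6 : 𝓞 K) ∈ w.asIdeal := by
    have e : (6 : 𝓞 K) = 3 * 2 := by norm_num
    rw [e]
    exact w.asIdeal.mul_mem_left _ hw
  have h := H19X.T1_val w (hU w h6) 2 H55B.two_prime (by rw [map_ofNat]; exact hw)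
  rwa [map_ofNat] at h

theorem lam_six {K : Type} [Field K] [NumberField K] [Algebra F K] (hU : H19X.UnrSix K)
    (w : HeightOneSpectrum (𝓞 K)) (h3 : (3 : 𝓞 K) ∈ w.asIdeal) :
    w.valuation K (algebraMap O K (om - 1)) = WithZero.exp (-1 : ℤ) := by
  have h6 : (6 : 𝓞 K) ∈ w.asIdeal := by
    have e : (6 : 𝓞 K) = 2 * 3 := by norm_num
    rw [e]
    exact w.asIdeal.mul_mem_left _ h3
  have hwm := w.isMaximal
  have hwp := w.isPrime
  apply H19X.T1_val w (hU w h6) (om - 1) H55B.lam_prime
  have h1 : (3 : 𝓞 K) = algebraMap O (𝓞 K) 3 := (map_ofNat (algebraMap O (𝓞 K)) 3).symm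
  rw [h1, H55B.three_eq, neg_mul, map_neg, Ideal.neg_mem_iff, map_mul] at h3
  rcases hwp.mem_or_mem h3 with h2 | h2
  · exact absurd h2 (H55B.G5_om _ _ hwm.ne_top)
  · rw [map_pow] at h2
    exact hwp.mem_of_pow_mem _ h2

/-- For the fields K₀ which do not contain F. -/
theorem unrTwo_down {K₀ K : Type} [Field K₀] [NumberField K₀] [Field K] [NumberField K] [Algebra K₀ K]
    (h : H19X.UnrTwo K) : H19X.UnrTwo K₀ := by
  intro w₀ hw₀
  obtain ⟨P, hP⟩ := H19X.EX7_above (K := K₀) (N := K) w₀
  obtain ⟨w, e, hw, he, hval⟩ := H55C.A4_glob (K := K₀) (N := K) P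
  have hww : w = w₀ := HeightOneSpectrum.ext (hw.trans hP.symm)
  subst hww
  have h2 : (2 : 𝓞 K) ∈ P.asIdeal := by
    have h3 : (2 : 𝓞 K₀) ∈ P.asIdeal.under (𝓞 K₀) := hw ▸ hw₀
    rw [Ideal.mem_under, map_ofNat] at h3
    exact h3
  have h5 := hval 2
  rw [map_ofNat, h P h2] at h5
  have h6 : w.valuation K₀ (2 : K₀) ≠ 0 := (Valuation.ne_zero_iff _).2 two_ne_zero
  have hn := (WithZero.exp_log h6).symm
  set n := WithZero.log (w.valuation K₀ (2 : K₀)) with hnd
  rw [hn, ← WithZero.exp_nsmul] at h5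
  have h7 : (-1 : ℤ) = e • n := WithZero.exp_injective h5
  rw [nsmul_eq_mul] at h7
  rw [hn]
  congr 1
  rcases Int.eq_one_or_neg_one_of_mul_eq_neg_one h7.symm with h8 | h8
  · rw [h8, one_mul] at h7
    exact h7.symm
  · have : (0 : ℤ) ≤ (e : ℤ) := Int.natCast_nonneg e
    omega

end H35X
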