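import Mathlib
import Pool.Agent.Lib.H35X.T1

open NumberField IsDedekindDomain

namespace H35X

open H55B H35T H13E

/-! Chunk T1b (M): no_i: F has no square root of -1 (search H55B/H35T for a lemma that -1 is not a square in F; or: i in F = span of 1, om over Q:
(a + b om)^2 = -1 gives a^2 - b^2 = -1 and 2ab - b^2 = 0, impossible in Q); [K : F] = 3^k is odd (sub6T_rank), x^2 = -1 in K has degree 1 or 2 over F,
dividing 3^k, so degree 1. sq_down3: compare H19X.cube_down: the residue degree of w over w1 divides 3 (Galois: e f g = 3,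
Ideal.ncard_primesOver_mul_ramificationIdxIn_mul_inertiaDegIn), so it is odd; X^2 + 1 without root over the residue field of w1 is irreducible of degree 2 and has no root in
an extension of odd degree. -/

private theorem T1b_noF (i : F) (hi : i ^ 2 = -1) : False := by
  have h4 : IsPrimitiveRoot i 4 := by
    rw [IsPrimitiveRoot.iff_def]
    refine ⟨by linear_combination (i ^ 2 - 1) * hi, ?_⟩
    intro l hl
    have h1 : orderOf i = 2 ^ (1 + 1) := by
      apply orderOf_eq_prime_pow
      · intro h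
        rw [pow_one, hi] at h
        norm_num at h
      · norm_num
        linear_combination (i ^ 2 - 1) * hi
    have h2 := orderOf_dvd_of_pow_eq_one hl
    rw [h1] at h2
    exact h2
  have := h4.dvd_of_isCyclotomicExtension (K := F) 3 (by norm_num)
  omega

theorem no_i {K : Type} [Field K] [NumberField K] [Algebra F K] (hS : Sub6T K) :
    ¬ ∃ x : K, x ^ 2 = ((-1 : ℤ) : K) := by
  rintro ⟨x, hx⟩
  obtain ⟨k, hk⟩ := sub6T_rank hS
  have hx2 : x ^ 2 = -1 := by rw [hx]; push_cast; rfl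
  have hirr : Irreducible (Polynomial.X ^ 2 - Polynomial.C (-1 : F)) := by
    refine X_pow_sub_C_irreducible_of_prime Nat.prime_two ?_
    intro b hb
    exact T1b_noF b hb
  have hroot : Polynomial.aeval x (Polynomial.X ^ 2 - Polynomial.C (-1 : F)) = 0 := by
    rw [map_sub, map_pow, Polynomial.aeval_X, Polynomial.aeval_C, map_neg, map_one, hx2, sub_self]
  have hmin := minpoly.eq_of_irreducible_of_monic hirr hroot
    (Polynomial.monic_X_pow_sub_C _ two_ne_zero)
  have hfp : 0 < Module.finrank F K := by rw [hk]; positivity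
  have hfin : FiniteDimensional F K := FiniteDimensional.of_finrank_pos hfp
  have hdvd : (minpoly F x).natDegree ∣ Module.finrank F K :=
    minpoly.degree_dvd (IsIntegral.of_finite _ _)
  rw [← hmin, Polynomial.natDegree_X_pow_sub_C, hk] at hdvd
  have h3 := Nat.Prime.dvd_of_dvd_pow Nat.prime_two hdvd
  omega

theorem sq_down3 {K1 K : Type} [Field K1] [NumberField K1] [Field K] [NumberField K] [Algebra K1 K]
    [IsGalois K1 K] (h3 : Module.finrank K1 K = 3) (w : HeightOneSpectrum (𝓞 K))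
    (w1 : HeightOneSpectrum (𝓞 K1)) (hw : w1.asIdeal = w.asIdeal.under (𝓞 K1)) (x : 𝓞 K)
    (hx : x ^ 2 + 1 ∈ w.asIdeal) : ∃ y : 𝓞 K1, y ^ 2 + 1 ∈ w1.asIdeal := by
  by_contra hno
  have hwp := w.isPrime
  have hl : w.asIdeal.LiesOver w1.asIdeal := ⟨hw⟩
  have hmax := w1.isMaximal
  have hWm := w.isMaximal
  have hfp := w.asIdeal.inertiaDeg_pos (𝓞 K1)
  have hdv : w.asIdeal.inertiaDeg (𝓞 K1) ∣ 3 := by
    have h1 := Ideal.ncard_primesOver_mul_ramificationIdxIn_mul_inertiaDegIn w1.asIdeal (𝓞 K)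
      (K ≃ₐ[K1] K)
    rw [IsGalois.card_aut_eq_finrank, h3,
      Ideal.inertiaDegIn_eq_inertiaDeg w1.asIdeal w.asIdeal (K ≃ₐ[K1] K)] at h1
    rw [← mul_assoc] at h1
    exact Dvd.intro_left _ h1
  rw [Ideal.inertiaDeg_eq_of_isMaximal w1.asIdeal w.asIdeal] at hdv hfp
  let : Field (𝓞 K1 ⧸ w1.asIdeal) := Ideal.Quotient.field _
  let : Field (𝓞 K ⧸ w.asIdeal) := Ideal.Quotient.field _
  have hirr : Irreducible (Polynomial.X ^ 2 - Polynomial.C (-1 : 𝓞 K1 ⧸ w1.asIdeal)) := by
    refine X_pow_sub_C_irreducible_of_prime Nat.prime_two ?_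
    intro b hb
    obtain ⟨y, rfl⟩ := Ideal.Quotient.mk_surjective b
    apply hno
    refine ⟨y, ?_⟩
    rw [← Ideal.Quotient.eq_zero_iff_mem, map_add, map_pow, hb, map_one, neg_add_cancel]
  have hroot : Polynomial.aeval (Ideal.Quotient.mk w.asIdeal x)
      (Polynomial.X ^ 2 - Polynomial.C (-1 : 𝓞 K1 ⧸ w1.asIdeal)) = 0 := by
    rw [map_sub, map_pow, Polynomial.aeval_X, Polynomial.aeval_C, map_neg, map_one, sub_neg_eq_add]
    have h1 := Ideal.Quotient.eq_zero_iff_mem.2 hx
    rw [map_add, map_pow, map_one] at h1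
    exact h1
  have hmin := minpoly.eq_of_irreducible_of_monic hirr hroot
    (Polynomial.monic_X_pow_sub_C _ two_ne_zero)
  have hfin : FiniteDimensional (𝓞 K1 ⧸ w1.asIdeal) (𝓞 K ⧸ w.asIdeal) :=
    FiniteDimensional.of_finrank_pos hfp
  have hdvd : (minpoly (𝓞 K1 ⧸ w1.asIdeal) (Ideal.Quotient.mk w.asIdeal x)).natDegree ∣
      Module.finrank (𝓞 K1 ⧸ w1.asIdeal) (𝓞 K ⧸ w.asIdeal) :=
    minpoly.degree_dvd (IsIntegral.of_finite _ _)
  rw [← hmin, Polynomial.natDegree_X_pow_sub_C] at hdvd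
  have := dvd_trans hdvd hdv
  omega

end H35X
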