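import Mathlib
import Pool.Agent.Lib.H35X.E7
import Pool.Agent.Lib.H35X.T1b
import Pool.Agent.Lib.H35X.U1
import Pool.Agent.Lib.H35X.U2

open NumberField IsDedekindDomain

namespace H35X

open H55B H35T H13E

/-! Chunk T2 (M): induction over the tower of cyclic cubic extensions, compare H19X.T2 (T2_ind). Base: e(w|O) = 1. Step: K1 from exists_sub6T, w1 = w ∩ 𝓞 K1,
e(w|O) = e(w1|O) e(w|w1). N from exists_QN (-1) K (no_i). If e(w|w1) = 1: the induction hypothesis for K1 gives N1, m, then j : N1 -> N from QN.lift (f =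
(algebraMap K N).comp (algebraMap K1 K)), cnd_mono3, nonc_up (r = om, Cnd3.norm). If e(w|w1) <> 1: N1 from exists_QN, exists_z3 for K1, w1 (sq_down3, lam_six), cnd_up3,
nonc_up. -/

theorem T2_ind3 : ∀ (k : ℕ) (K : Type) [Field K] [NumberField K] [Algebra F K],
    Sub6T K → Module.finrank F K = 3 ^ k → ∀ (w : HeightOneSpectrum (𝓞 K)), (6 : 𝓞 K) ∉ w.asIdeal →
    (∃ x : 𝓞 K, x ^ 2 + 1 ∈ w.asIdeal) → w.asIdeal.ramificationIdx O ≠ 1 →
    ∃ (N : Type) (_ : Field N) (_ : NumberField N) (_ : Algebra K N) (t : N) (T : N ≃ₐ[K] N) (m : N),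
      QN (-1) K N t T ∧ Cnd3 K N T m ∧ ¬ ∃ b : N, m = b ^ 3 := by
  intro k
  induction k with
  | zero =>
    intro K _ _ _ hS hk w h6 hx he
    exfalso
    apply he
    have hwp := w.isPrime
    have hle := H19X.T2_le (K1 := F) w
    have hep := w.asIdeal.ramificationIdx_pos O
    have hfp := w.asIdeal.inertiaDeg_pos O
    rw [hk] at hle
    nlinarith
  | succ k ih =>
    intro K _ _ _ hS hk w h6 hx he
    have h1 : 1 < Module.finrank F K := by
      rw [hk]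
      exact Nat.one_lt_pow (by omega) (by norm_num)
    obtain ⟨K1, i1, i2, i3, i4, i5, hS1, h3, hG⟩ := exists_sub6T K hS h1
    have hk1 : Module.finrank F K1 = 3 ^ k := by
      have h := Module.finrank_mul_finrank F K1 K
      rw [h3, hk, pow_succ] at h
      omega
    have hwp := w.isPrime
    have hp : (w.asIdeal.under (𝓞 K1)).IsPrime := inferInstance
    have hne : w.asIdeal.under (𝓞 K1) ≠ ⊥ := by
      intro h
      exact w.ne_bot (Ideal.eq_bot_of_comap_eq_bot (R := 𝓞 K1) (I := w.asIdeal) h)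
    obtain ⟨w1, hw⟩ : ∃ w1 : HeightOneSpectrum (𝓞 K1), w1.asIdeal = w.asIdeal.under (𝓞 K1) :=
      ⟨⟨w.asIdeal.under (𝓞 K1), hp, hne⟩, rfl⟩
    have hl : w.asIdeal.LiesOver w1.asIdeal := ⟨hw⟩
    obtain ⟨x, hx⟩ := hx
    obtain ⟨y, hy⟩ := sq_down3 h3 w w1 hw x hx
    have h61 : (6 : 𝓞 K1) ∉ w1.asIdeal := by
      rw [hw, Ideal.mem_under, map_ofNat]
      exact h6
    have htow : w.asIdeal.ramificationIdx O =
        w1.asIdeal.ramificationIdx O * w.asIdeal.ramificationIdx (𝓞 K1) :=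
      Ideal.ramificationIdx_tower w1.asIdeal w.asIdeal
    have hr : (algebraMap O K1 om) ^ 2 + algebraMap O K1 om + 1 = 0 := by
      rw [← map_pow, ← map_add, ← map_one (algebraMap O K1), ← map_add, om_rel, map_zero]
    obtain ⟨N, j1, j2, j3, t, T, hQ⟩ := exists_QN (-1) K (no_i hS)
    by_cases he1 : w.asIdeal.ramificationIdx (𝓞 K1) = 1
    · rw [he1, mul_one] at htow
      obtain ⟨N1, l1, l2, l3, t1, T1, m, hQ1, hm, hns⟩ := ih K1 hS1 hk1 w1 h61 ⟨y, hy⟩ (by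
        rw [← htow]; exact he)
      obtain ⟨j, hj, hjt⟩ := hQ1.lift (by norm_num)
        ((algebraMap K N).comp (algebraMap K1 K)) t hQ.sq
      obtain ⟨n, hn⟩ := hm.norm
      exact ⟨N, j1, j2, j3, t, T, j m, hQ, cnd_mono3 hQ1 hQ j hj hjt m hm,
        nonc_up hQ1 hQ j hj hjt _ hr m hm.ne n hn hns⟩
    · obtain ⟨N1, l1, l2, l3, t1, T1, hQ1⟩ := exists_QN (-1) K1 (no_i hS1)
      obtain ⟨z, hz, hzs, ⟨n, hn⟩, hzv, hzt⟩ := exists_z3 hQ1 (lam_six (sub6T_unr hS1)) w1 h61 y hy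
      obtain ⟨j, hj, hjt⟩ := hQ1.lift (by norm_num)
        ((algebraMap K N).comp (algebraMap K1 K)) t hQ.sq
      exact ⟨N, j1, j2, j3, t, T, j z, hQ,
        cnd_up3 h3 hQ1 hQ j hj hjt w1 w hw he1 z hz n hn hzv hzt,
        nonc_up hQ1 hQ j hj hjt _ hr z hz n hn hzs⟩

theorem exists_cnd_F3 (K : Type) [Field K] [NumberField K] [Algebra F K] (hS : Sub6T K)
    (w : HeightOneSpectrum (𝓞 K)) (h6 : (6 : 𝓞 K) ∉ w.asIdeal) (x : 𝓞 K)
    (hx : x ^ 2 + 1 ∈ w.asIdeal) (he : w.asIdeal.ramificationIdx O ≠ 1) :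
    ∃ (N : Type) (_ : Field N) (_ : NumberField N) (_ : Algebra K N) (t : N) (T : N ≃ₐ[K] N) (m : N),
      QN (-1) K N t T ∧ Cnd3 K N T m ∧ ¬ ∃ b : N, m = b ^ 3 := by
  obtain ⟨k, hk⟩ := sub6T_rank hS
  exact T2_ind3 k K hS hk w h6 ⟨x, hx⟩ he

end H35X
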