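import Mathlib
import Pool.Agent.Lib.H19T.Defs
import Pool.Agent.Lib.H19X.T3
import Pool.Agent.Lib.H35X.Defs

open NumberField IsDedekindDomain

namespace H35X

open H55B H35T H13E

/-! Chunk T3 (M): copy H19X.T3 with 3 instead of 2: t3_iff, t3_conj, t3_smul_O, inertia_iff (find it through H19X.T3) are general. cls6T_cases: as cls6_cases. sub3_of_sub6T: as sub2_of_sub6;
the condition at a prime w not above 6: x^2 + 1 in w implies e(w|O) = 1; Good v (H35T.Good): 2, 3 not in v and -1 is not a square modulo v. -/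

private theorem T3_case1 (K L : Type) [Field K] [NumberField K] [Field L] [NumberField L]
    [Algebra F L] [Algebra K L] (hT : ThreeExt L) (hU : H19X.UnrSix L) (ζ : K)
    (hζ : ζ ^ 2 + ζ + 1 = 0) : ∃ _ : Algebra F K, Sub6T K := by
  have hz := H55D.X3_z_root L
  have hmem : H55D.X3_z L ∈ (⊥ : IntermediateField K L) := by
    have h1 : (algebraMap K L ζ) ^ 2 + algebraMap K L ζ + 1 = 0 := by
      have h := congrArg (algebraMap K L) hζ
      simpa only [map_add, map_pow, map_one, map_zero] using h
    have h2 : (H55D.X3_z L - algebraMap K L ζ) * (H55D.X3_z L + algebraMap K L ζ + 1) = 0 := by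
      linear_combination hz - h1
    rw [IntermediateField.mem_bot]
    rcases mul_eq_zero.1 h2 with h | h
    · exact ⟨ζ, (sub_eq_zero.1 h).symm⟩
    · refine ⟨-ζ - 1, ?_⟩
      rw [map_sub, map_neg, map_one]
      linear_combination -h
  let ψ : F →+* (⊥ : IntermediateField K L) :=
    (algebraMap F L).codRestrict (⊥ : IntermediateField K L)
      (H55D.X3_range K L (⊥ : IntermediateField K L) hmem)
  let φ : F →+* K := ((IntermediateField.botEquiv K L : (⊥ : IntermediateField K L) →+* K)).comp ψ
  let hFK : Algebra F K := φ.toAlgebra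
  have hcomp : ∀ x : F, algebraMap F L x = algebraMap K L (algebraMap F K x) := by
    intro x
    have h1 : algebraMap K L (IntermediateField.botEquiv K L (ψ x)) = algebraMap F L x := by
      have h2 := (IntermediateField.botEquiv K L).symm_apply_apply (ψ x)
      have h3 := IntermediateField.botEquiv_symm (F := K) (E := L)
        (IntermediateField.botEquiv K L (ψ x))
      rw [h2] at h3
      have h4 := congrArg (fun z : (⊥ : IntermediateField K L) => (z : L)) h3
      exact h4.symm
    exact h1.symm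
  have htow : IsScalarTower F K L := IsScalarTower.of_algebraMap_eq hcomp
  exact ⟨hFK, L, inferInstance, inferInstance, inferInstance, inferInstance, htow, hT, hU⟩

theorem cls6T_cases (K : Type) [Field K] [NumberField K] (h : Cls6T K) :
    (∃ _ : Algebra F K, Sub6T K) ∨
    ∃ (K₁ : Type) (_ : Field K₁) (_ : NumberField K₁) (_ : Algebra F K₁) (_ : Algebra K K₁),
      Quad K K₁ ∧ Sub6T K₁ := by
  classical
  obtain ⟨L, hL1, hL2, hL3, hL4, hT, hUL⟩ := h
  by_cases hnr : ∀ x : K, x ^ 2 + x + 1 ≠ 0
  · right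
    have hz := H55D.X3_z_root L
    let E : IntermediateField K L := IntermediateField.adjoin K {H55D.X3_z L}
    have hmem : H55D.X3_z L ∈ E := IntermediateField.mem_adjoin_simple_self K _
    have hint : ∀ x ∈ ({H55D.X3_z L} : Set L), IsIntegral K x := by
      rintro x rfl
      refine ⟨Polynomial.X ^ 2 + Polynomial.X + 1, by monicity!, ?_⟩
      simp only [Polynomial.eval₂_add, Polynomial.eval₂_pow, Polynomial.eval₂_X,
        Polynomial.eval₂_one]
      exact hz
    have hEfin : FiniteDimensional K E := IntermediateField.finiteDimensional_adjoin hint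
    have hnf : NumberField E := NumberField.of_module_finite K E
    let ψ : F →+* E := (algebraMap F L).codRestrict E (H55D.X3_range K L E hmem)
    let hFE : Algebra F E := ψ.toAlgebra
    have hFEL : IsScalarTower F E L := IsScalarTower.of_algebraMap_eq (fun x => rfl)
    exact ⟨E, inferInstance, hnf, hFE, inferInstance, ⟨H55D.X3_rank K L _ hz hnr, hnr⟩,
      L, hL1, hL2, hL3, inferInstance, hFEL, hT, hUL⟩
  · left
    push Not at hnr
    obtain ⟨ζ, hζ⟩ := hnr
    exact T3_case1 K L hT hUL ζ hζ

theorem sub3_of_sub6T {K : Type} [Field K] [NumberField K] [Algebra F K] (hS : Sub6T K)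
    (h : ∀ w : HeightOneSpectrum (𝓞 K), (6 : 𝓞 K) ∉ w.asIdeal → (∃ x : 𝓞 K, x ^ 2 + 1 ∈ w.asIdeal) →
      w.asIdeal.ramificationIdx O = 1) : H19T.Sub3 K := by
  obtain ⟨L, hL1, hL2, hL3, hL4, hL5, hT, hU⟩ := hS
  obtain ⟨hG, k, hk⟩ := hT
  let E : IntermediateField F L := (IsScalarTower.toAlgHom F K L).fieldRange
  let H : Subgroup (L ≃ₐ[F] L) := E.fixingSubgroup
  let C : Subgroup (L ≃ₐ[F] L) := H.normalCore
  let L' : IntermediateField F L := IntermediateField.fixedField C
  have hmemH : ∀ g : L ≃ₐ[F] L, g ∈ H ↔ ∀ x : K, g (algebraMap K L x) = algebraMap K L x := by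
    intro g
    rw [show H = E.fixingSubgroup from rfl, IntermediateField.mem_fixingSubgroup_iff]
    constructor
    · intro h1 x
      exact h1 _ ⟨x, rfl⟩
    · rintro h1 _ ⟨x, rfl⟩
      exact h1 x
  have hKL' : ∀ x : K, algebraMap K L x ∈ L' := by
    intro x c
    exact (hmemH c.1).1 (H.normalCore_le c.2) x
  have hGal : IsGalois F L' := IsGalois.of_fixedField_normal_subgroup C
  have hnf : NumberField L' := NumberField.of_module_finite F L'
  let ψ : K →+* L' := (algebraMap K L).codRestrict L' hKL'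
  let hKL : Algebra K L' := ψ.toAlgebra
  have htow : IsScalarTower F K L' := IsScalarTower.of_algebraMap_eq (fun x => by
    apply Subtype.ext
    show algebraMap F L x = algebraMap K L (algebraMap F K x)
    exact IsScalarTower.algebraMap_apply F K L x)
  have hdeg : ∃ j : ℕ, Module.finrank F L' = 3 ^ j := by
    have h1 := Module.finrank_mul_finrank F L' L
    have h2 : Module.finrank F L' ∣ 3 ^ k := by
      rw [← hk, ← h1]
      exact dvd_mul_right _ _
    obtain ⟨j, -, hj⟩ := (Nat.dvd_prime_pow Nat.prime_three).1 h2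
    exact ⟨j, hj⟩
  refine ⟨L', inferInstance, hnf, inferInstance, hKL, htow, ⟨hGal, hdeg⟩, ?_⟩
  intro w v hv hbad
  obtain ⟨W, hW, hW2⟩ := H55N.T0_above L w
  rw [H19X.t3_iff W w hW]
  -- the inertia group of W is contained in C
  have key : ∀ i : L ≃ₐ[F] L, (∀ y : 𝓞 L, i • y - y ∈ W.asIdeal) → i ∈ C := by
    intro i hi
    by_cases h6 : (6 : O) ∈ v.asIdeal
    · have h6W : (6 : 𝓞 L) ∈ W.asIdeal := by
        rw [hv, hW2] at h6
        have h7 : algebraMap O (𝓞 L) 6 ∈ W.asIdeal := h6
        rwa [map_ofNat] at h7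
      have h8 := (H55C.inertia_iff W).1 (hU W h6W) i hi
      rw [h8]
      exact C.one_mem
    · have hsq : ∃ x : O, x ^ 2 + 1 ∈ v.asIdeal := by
        by_contra hne
        apply hbad
        have hvp := v.isPrime
        refine ⟨fun h2 => h6 ?_, fun h3 => h6 ?_, hne⟩
        · rw [show (6 : O) = 2 * 3 by norm_num]
          exact v.asIdeal.mul_mem_right _ h2
        · rw [show (6 : O) = 2 * 3 by norm_num]
          exact v.asIdeal.mul_mem_left _ h3
      obtain ⟨x, hx⟩ := hsq
      show ∀ g : L ≃ₐ[F] L, g * i * g⁻¹ ∈ H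
      intro g
      obtain ⟨W', hW'⟩ := H19X.t3_conj W g
      have hW'p := W'.isPrime
      -- W' lies over v
      have hO : ∀ z : O, algebraMap O (𝓞 L) z ∈ W'.asIdeal ↔ z ∈ v.asIdeal := by
        intro z
        rw [hW', H19X.t3_smul_O, hv, hW2]
        rfl
      have hp : (W'.asIdeal.under (𝓞 K)).IsPrime := inferInstance
      have hne : W'.asIdeal.under (𝓞 K) ≠ ⊥ := by
        intro h
        exact W'.ne_bot (Ideal.eq_bot_of_comap_eq_bot (R := 𝓞 K) (I := W'.asIdeal) h)
      let wK : HeightOneSpectrum (𝓞 K) := ⟨W'.asIdeal.under (𝓞 K), hp, hne⟩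
      have hl : W'.asIdeal.LiesOver wK.asIdeal := ⟨rfl⟩
      have hmemK : ∀ z : O, algebraMap O (𝓞 K) z ∈ wK.asIdeal ↔ z ∈ v.asIdeal := by
        intro z
        rw [← hO]
        show algebraMap (𝓞 K) (𝓞 L) (algebraMap O (𝓞 K) z) ∈ W'.asIdeal ↔ _
        rw [← IsScalarTower.algebraMap_apply O (𝓞 K) (𝓞 L)]
      have h1 : (6 : 𝓞 K) ∉ wK.asIdeal := by
        intro h2
        apply h6
        rw [← hmemK, map_ofNat]
        exact h2
      have h2 : ∃ x : 𝓞 K, x ^ 2 + 1 ∈ wK.asIdeal := by
        refine ⟨algebraMap O (𝓞 K) x, ?_⟩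
        have h3 := (hmemK _).2 hx
        rwa [map_add, map_pow, map_one] at h3
      have h3 := h wK h1 h2
      have h4 := (H19X.t3_iff W' wK hl).1 h3 (g * i * g⁻¹) (fun y => by
        rw [hW', smul_sub, ← mul_smul]
        have h5 := hi (g⁻¹ • y)
        rwa [← mul_smul, show i * g⁻¹ = g⁻¹ * (g * i * g⁻¹) by group] at h5)
      exact (hmemH _).2 h4
  intro g hg x
  exact x.2 ⟨g, key g hg⟩

end H35X
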