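import Mathlib
import Pool.Agent.Lib.H13E.Fin3
import Pool.Agent.Lib.H35X.G3
import Pool.Agent.Lib.H35X.Q2
import Pool.Agent.Lib.H35X.T2
import Pool.Agent.Lib.H35X.T3
import Pool.Agent.Lib.H35X.T4

open NumberField IsDedekindDomain

namespace H35X

open H55B H35T H13E

/-! Assembly of the algebraic half (helper35). -/

theorem goodRam_of_sel_F (K : Type) [Field K] [NumberField K] [Algebra F K] (hS : Sub6T K)
    (hs : SelZ3 K) : GoodRam3 K := by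
  intro w h6 he
  rw [norm7_iff w h6]
  rintro ⟨x, hx⟩
  have h3 : (3 : 𝓞 K) ∉ w.asIdeal := H19X.T4_six h6
  have he' : w.asIdeal.ramificationIdx O ≠ 1 := fun h => he ((H19X.e_iff w h3).2 h)
  obtain ⟨N, i1, i2, i3, t, T, m, hQ, hm, hns⟩ := exists_cnd_F3 K hS w h6 x hx he'
  exact hns (cube_of_cnd hQ (unrTwo_six (sub6T_unr hS)) hs.1 m hm)

theorem goodRam_of_sel_0 (K₀ K : Type) [Field K₀] [NumberField K₀] [Field K] [NumberField K]
    [Algebra F K] [Algebra K₀ K] (hQ : Quad K₀ K) (hS : Sub6T K) (hs : SelZ3 K₀) : GoodRam3 K₀ := by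
  apply bad_up3 hQ
  intro w h6 he
  rw [norm7_iff w h6]
  rintro ⟨x, hx⟩
  have h3 : (3 : 𝓞 K) ∉ w.asIdeal := H19X.T4_six h6
  have he' : w.asIdeal.ramificationIdx O ≠ 1 := fun h => he ((H19X.e_iff w h3).2 h)
  obtain ⟨N, i1, i2, i3, t, T, m, hN, hm, hns⟩ := exists_cnd_F3 K hS w h6 x hx he'
  have h2 := unrTwo_down (K₀ := K₀) (unrTwo_six (sub6T_unr hS))
  rcases descQ hQ hN m hm hns with ⟨N₁, j1, j2, j3, t₁, T₁, m₁, hN₁, hm₁, hc⟩ |
    ⟨N₂, j1, j2, j3, t₂, T₂, m₂, hN₂, hm₂, hc⟩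
  · exact hc (cube_of_cnd hN₁ h2 hs.1 m₁ hm₁)
  · exact hc (cube_of_cndE hN₂ h2 hs.2 m₂ hm₂)

/-- The algebraic half of the exact criterion. -/
theorem goodRam_of_sel (K : Type) [Field K] [NumberField K] (hK : Cls6T K) (hs : SelZ3 K) :
    GoodRam3 K := by
  rcases cls6T_cases K hK with ⟨i, hS⟩ | ⟨K₁, i1, i2, i3, i4, hQ, hS⟩
  · exact goodRam_of_sel_F K hS hs
  · exact goodRam_of_sel_0 K K₁ hQ hS hs

theorem sub3_F (K : Type) [Field K] [NumberField K] [Algebra F K] (hS : Sub6T K)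
    (hg : GoodRam3 K) : H19T.Sub3 K := by
  refine sub3_of_sub6T hS fun w h6 hx => ?_
  have h3 : (3 : 𝓞 K) ∉ w.asIdeal := H19X.T4_six h6
  by_contra he
  have he' : w.asIdeal.ramificationIdx ℤ ≠ 1 := fun h => he ((H19X.e_iff w h3).1 h)
  exact (norm7_iff w h6).1 (hg w h6 he') hx

/-- A field of the class all whose ramified primes outside 6 are good is in the class of ThreePart. -/
theorem sub3_of_goodRam (K : Type) [Field K] [NumberField K] (hK : Cls6T K) (hg : GoodRam3 K) :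
    H13E.Sub3 K := by
  rcases cls6T_cases K hK with ⟨i, hS⟩ | ⟨K₁, i1, i2, i3, i4, hQ, hS⟩
  · obtain ⟨L, j1, j2, j3, j4, j5, ⟨hG, hk⟩, hU⟩ := sub3_F K hS hg
    exact ⟨L, j1, j2, j3, j4, hG, hk, hU⟩
  · obtain ⟨L, j1, j2, j3, j4, j5, ⟨hG, hk⟩, hU⟩ := sub3_F K₁ hS (good_up3 hQ hg)
    exact ⟨L, j1, j2, j3, ((algebraMap K₁ L).comp (algebraMap K K₁)).toAlgebra, hG, hk, hU⟩

end H35X
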