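import Mathlib
import Pool.Agent.Lib.H35X.Stat
import Pool.Agent.Lib.H35X.V12a

/-! The order of the torsion subgroup is not divisible by 3. -/

open NumberField IsDedekindDomain

namespace H35X

open H55B H35T H55N H19T H13E

open Classical in
/-- E144 has no point of order 3 over a field of 3-power degree over F. -/
theorem no3_pt (K : Type) [Field K] [NumberField K] [Algebra F K] (k : ℕ)
    (hk : Module.finrank F K = 3 ^ k) (P : (E144.baseChange K).toAffine.Point)
    (h3P : (3 : ℕ) • P = 0) : P = 0 := by
  by_contra hP0
  obtain ⟨h1, h2, h3, h4, h6⟩ := A16_coeffs K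
  cases P with
  | zero => exact hP0 rfl
  | some x y h =>
    have hE := (H35T.nonsing_iff K x y).1 h
    have h2P : WeierstrassCurve.Affine.Point.some x y h + WeierstrassCurve.Affine.Point.some x y h =
        -(WeierstrassCurve.Affine.Point.some x y h) := by
      rw [eq_neg_iff_add_eq_zero, ← h3P]
      rw [show (3 : ℕ) = 2 + 1 from rfl, add_nsmul, one_nsmul, two_nsmul]
    have hx0 : x ≠ 0 := by
      rintro rfl
      refine H35T.no_i K k hk y ?_
      rw [hE]
      ring
    by_cases hy : y = 0
    · have h5 : WeierstrassCurve.Affine.Point.some x y h + WeierstrassCurve.Affine.Point.some x y h = 0 := by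
        refine WeierstrassCurve.Affine.Point.add_self_of_Y_eq ?_
        rw [WeierstrassCurve.Affine.negY, h1, h3, hy]
        ring
      rw [h5] at h2P
      exact hP0 (neg_eq_zero.1 h2P.symm)
    · have hne : y ≠ (E144.baseChange K).toAffine.negY x y := by
        rw [WeierstrassCurve.Affine.negY, h1, h3]
        intro h0
        have : (2 : K) * y = 0 := by linear_combination h0
        rcases mul_eq_zero.mp this with h | h
        · norm_num at h
        · exact hy h
      have hsl : (E144.baseChange K).toAffine.slope x x y y = 3 * x ^ 2 / (2 * y) := by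
        rw [WeierstrassCurve.Affine.slope_of_Y_ne rfl hne, WeierstrassCurve.Affine.negY, h1, h2, h3, h4]
        congr 1
        · ring
        · ring
      rw [WeierstrassCurve.Affine.Point.add_self_of_Y_ne (h₁ := h) hne,
        WeierstrassCurve.Affine.Point.neg_some] at h2P
      simp only [WeierstrassCurve.Affine.Point.some.injEq] at h2P
      obtain ⟨hX, -⟩ := h2P
      rw [hsl, WeierstrassCurve.Affine.addX, h1, h2] at hX
      have h5 : 9 * x ^ 4 = 12 * x * y ^ 2 := by
        have h7 : (3 * x ^ 2 / (2 * y)) ^ 2 = 3 * x := by linear_combination hX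
        rw [div_pow, div_eq_iff (pow_ne_zero 2 (mul_ne_zero two_ne_zero hy))] at h7
        linear_combination h7
      have h7 : x ^ 3 = 4 := by
        have : (3 * x) * (x ^ 3 - 4) = 0 := by
          linear_combination (-1) * h5 + (-12 * x) * hE
        rcases mul_eq_zero.mp this with h | h
        · exact absurd h (mul_ne_zero (by norm_num) hx0)
        · linear_combination h
      have hy2 : y ^ 2 = 3 := by
        rw [hE, h7]; norm_num
      have hs := A16_sq3 K
      have hs0 : algebraMap O K sq3 ≠ 0 := by
        intro h
        rw [h] at hs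
        norm_num at hs
      refine H35T.no_i K k hk (y / algebraMap O K sq3) ?_
      rw [div_pow, hy2, hs]
      norm_num

/-- The order of the torsion subgroup over a subfield. -/
theorem tors3_cop (K₀ K : Type) [Field K₀] [NumberField K₀] [Field K] [NumberField K] [Algebra F K]
    [Algebra K₀ K] (k : ℕ) (hk : Module.finrank F K = 3 ^ k) : ¬ 3 ∣ tors3 K₀ := by
  classical
  let f : K₀ →ₐ[ℚ] K := (algebraMap K₀ K).toRatAlgHom
  let g : (E144.baseChange K₀).toAffine.Point →+ (E144.baseChange K).toAffine.Point :=
    WeierstrassCurve.Affine.Point.map (W' := E144) f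
  have hg : Function.Injective g := WeierstrassCurve.Affine.Point.map_injective (W' := E144) f
  let T : AddSubgroup (E144.baseChange K₀).toAffine.Point :=
    AddCommGroup.torsion (E144.baseChange K₀).toAffine.Point
  have hTfin : Finite T := by
    have h := finite_tors144 K₀
    exact h
  have hcard : tors3 K₀ = Nat.card T := by
    unfold tors3
    exact Nat.card_congr (Equiv.refl _)
  rw [hcard]
  intro hd
  haveI : Fact (Nat.Prime 3) := ⟨Nat.prime_three⟩
  obtain ⟨P, hP⟩ := exists_prime_addOrderOf_dvd_card' (G := T) 3 hd
  have h1 : (3 : ℕ) • P = 0 := by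
    have h2 := addOrderOf_nsmul_eq_zero P
    rwa [hP] at h2
  have h2 : (3 : ℕ) • g P.1 = 0 := by
    have h3 := congrArg (fun Q : T => g Q.1) h1
    simpa using h3
  have h3 := no3_pt K k hk _ h2
  have h4 : P.1 = 0 := hg (by rw [h3, map_zero])
  have h5 : P = 0 := Subtype.ext h4
  rw [h5, addOrderOf_zero] at hP
  omega

end H35X
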