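import Mathlib
import Pool.Agent.Lib.H19T.A10
import Pool.Agent.Lib.H19Y.Y5
import Pool.Agent.Lib.H35X.T1b
import Pool.Agent.Lib.H35X.V2
import Pool.Agent.Lib.H35X.V3
import Pool.Agent.Lib.H35X.V4

/-! The Hecke L-values over the tower, p = 3. -/

open NumberField IsDedekindDomain

namespace H35X

open H55B H35T H55N H19T H13E

/-- The three statements on the value at 1 of a continuation. -/
structure Val3 {K : Type} [Field K] [NumberField K] [Algebra F K] (h : Ideal (𝓞 K) →*₀ ℂ)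
    (Λ : ℂ → ℂ) : Prop where
  lc : LC h Λ
  int : Int3 (Λ 1 / RT ^ Module.finrank F K)
  unit : ¬ Bad3 K → Unit3 (Λ 1 / RT ^ Module.finrank F K)
  non : Bad3 K → Max3 (Λ 1 / RT ^ Module.finrank F K)

theorem not_bad3_base (K : Type) [Field K] [NumberField K] [Algebra F K]
    (h1 : Module.finrank F K = 1) : ¬ Bad3 K := by
  rintro ⟨w, -, -, h⟩
  exact h (H19Y.e_one_of_rank_one K h1 w)

/-- Badness goes up. -/
theorem Bad3.up {K K' : Type} [Field K] [NumberField K] [Algebra F K] [Field K'] [NumberField K']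
    [Algebra F K'] [Algebra K K'] [IsScalarTower F K K'] (w : HeightOneSpectrum (𝓞 K))
    (h6 : (6 : 𝓞 K) ∉ w.asIdeal) (x : 𝓞 K) (hx : x ^ 2 + 1 ∈ w.asIdeal)
    (W : HeightOneSpectrum (𝓞 K')) (hW : w.asIdeal = W.asIdeal.under (𝓞 K))
    (he : W.asIdeal.ramificationIdx O ≠ 1) : Bad3 K' := by
  refine ⟨W, ?_, ⟨algebraMap (𝓞 K) (𝓞 K') x, ?_⟩, he⟩
  · intro h
    apply h6
    rw [hW, Ideal.under_def, Ideal.mem_comap, map_ofNat]
    exact h
  · rw [hW, Ideal.under_def, Ideal.mem_comap, map_add, map_pow, map_one] at hx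
    exact hx


theorem step3 (K K' : Type) [Field K] [NumberField K] [Algebra F K] [Field K'] [NumberField K']
    [Algebra F K'] [Algebra K K'] [IsScalarTower F K K'] (h3 : Module.finrank K K' = 3)
    (hG : IsGalois K K')
    (hS : Sub6T K) (hS' : Sub6T K') (ΛK : ℂ → ℂ) (h : Val3 (PsiT K) ΛK) :
    ∃ Λ : ℂ → ℂ, Val3 (PsiT K') Λ := by
  have hU' := sub6T_unr hS'
  obtain ⟨f, χ, hf, hχ, hram⟩ := exists_chr6T K K' h3 hG hU'
  obtain ⟨Λ₂, S, u, r, hlc, hSf, hu, hr, hval⟩ := twist_cong3 hS f χ hf ΛK h.lc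
  obtain ⟨Λ₃, S', u', r', hlc', hSf', hu', hr', hval'⟩ := twist_cong3 hS f (χ * χ) hf.sq ΛK h.lc
  have hSS : S' = S := by
    ext w
    rw [hSf, hSf']
  subst hSS
  have h6S : ∀ w ∈ S', (6 : 𝓞 K) ∉ w.asIdeal := by
    intro w hw h6
    have h1 := (hSf w).1 hw
    have h3 := Ideal.isCoprime_iff_sup_eq.1 hf.six
    apply w.isPrime.ne_top
    rw [← top_le_iff, ← h3]
    exact sup_le h1 ((Ideal.span_singleton_le_iff_mem _).2 h6)
  have hE : Int3 (∏ w ∈ S', (1 - tm (PsiT K) 1 w.asIdeal)) :=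
    Int3.prod _ _ fun w hw => Efac_int3 w (h6S w hw)
  have hrank : Module.finrank F K' = Module.finrank F K + (Module.finrank F K +
      Module.finrank F K) := by
    rw [← Module.finrank_mul_finrank F K K', h3]; ring
  have hvalp : (ΛK 1 * (Λ₂ 1 * Λ₃ 1)) / RT ^ Module.finrank F K' =
      (ΛK 1 / RT ^ Module.finrank F K) * ((Λ₂ 1 / RT ^ Module.finrank F K) *
        (Λ₃ 1 / RT ^ Module.finrank F K)) := by
    rw [hrank, pow_add, pow_add, mul_div_mul_comm, mul_div_mul_comm]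
  have hint2 : Int3 (Λ₂ 1 / RT ^ Module.finrank F K) := by
    rw [hval]
    exact Int3.add (Int3_mul (Int3_of_unit hu) (Int3_mul hE h.int)) (Max3.int hr)
  have hint3 : Int3 (Λ₃ 1 / RT ^ Module.finrank F K) := by
    rw [hval']
    exact Int3.add (Int3_mul (Int3_of_unit hu') (Int3_mul hE h.int)) (Max3.int hr')
  -- the continuation
  have hcont : LC (PsiT K') (fun s => ΛK s * (Λ₂ s * Λ₃ s)) := by
    obtain ⟨ha1, hs1⟩ := h.lc
    obtain ⟨ha2, hs2⟩ := hlc
    obtain ⟨ha3, hs3⟩ := hlc'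
    refine ⟨fun s hs => (ha1 s hs).mul ((ha2 s hs).mul (ha3 s hs)), fun s hs => ?_⟩
    have hb : ∀ ψ : Ideal (𝓞 K) →*₀ ℂ, (∀ a, ‖ψ a‖ ≤ 1) → ∀ a : Ideal (𝓞 K),
        ‖(PsiT K * ψ : Ideal (𝓞 K) →*₀ ℂ) a‖ ^ 2 ≤ Ideal.absNorm a := by
      intro ψ hψ a
      refine le_trans ?_ (PsiT_norm_le a)
      have h4 : (PsiT K * ψ : Ideal (𝓞 K) →*₀ ℂ) a = PsiT K a * ψ a := rfl
      rw [h4, norm_mul, mul_pow]
      exact mul_le_of_le_one_right (by positivity) (pow_le_one₀ (norm_nonneg _) (hψ a))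
    have hsum := tm_summable (PsiT K') (fun a => PsiT_norm_le a) s hs
    have hL := AI_LSeries (PsiT K') (PsiT K').map_zero s hsum
    have hsum1 := tm_summable (PsiT K) (fun a => PsiT_norm_le a) s hs
    have hL1 := AI_LSeries (PsiT K) (PsiT K).map_zero s hsum1
    have hsum2 := tm_summable (PsiT K * χ : Ideal (𝓞 K) →*₀ ℂ) (hb χ hf.norm_le) s hs
    have hL2 := AI_LSeries (PsiT K * χ : Ideal (𝓞 K) →*₀ ℂ)
      (PsiT K * χ : Ideal (𝓞 K) →*₀ ℂ).map_zero s hsum2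
    have hsum3 := tm_summable (PsiT K * (χ * χ) : Ideal (𝓞 K) →*₀ ℂ) (hb (χ * χ) hf.sq.norm_le) s hs
    have hL3 := AI_LSeries (PsiT K * (χ * χ) : Ideal (𝓞 K) →*₀ ℂ)
      (PsiT K * (χ * χ) : Ideal (𝓞 K) →*₀ ℂ).map_zero s hsum3
    have hL4 := ArithmeticFunction.LSeriesHasSum_mul hL1
      (ArithmeticFunction.LSeriesHasSum_mul hL2 hL3)
    rw [← AI_stepT K K' χ hχ] at hL4
    have h5 : ∑' a, tm (PsiT K') s a = ΛK s * (Λ₂ s * Λ₃ s) := by
      rw [hL.unique hL4, (hs1 s hs).tsum_eq, (hs2 s hs).tsum_eq, (hs3 s hs).tsum_eq]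
    show HasSum (tm (PsiT K') s) (ΛK s * (Λ₂ s * Λ₃ s))
    rw [← h5]
    exact hsum.of_norm.hasSum
  refine ⟨fun s => ΛK s * (Λ₂ s * Λ₃ s), hcont, ?_, ?_, ?_⟩
  · show Int3 ((ΛK 1 * (Λ₂ 1 * Λ₃ 1)) / RT ^ Module.finrank F K')
    rw [hvalp]
    exact Int3_mul h.int (Int3_mul hint2 hint3)
  · intro hnb
    show Unit3 ((ΛK 1 * (Λ₂ 1 * Λ₃ 1)) / RT ^ Module.finrank F K')
    rw [hvalp]
    have hnbK : ¬ Bad3 K := by
      rintro ⟨w, h6, ⟨x, hx⟩, he⟩
      obtain ⟨W, hW, -⟩ := T0_above K' w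
      apply hnb
      refine Bad3.up w h6 x hx W hW.over ?_
      rw [Ideal.ramificationIdx_tower (R := O) w.asIdeal W.asIdeal]
      intro h1
      exact he (Nat.eq_one_of_mul_eq_one_right h1)
    have hEu : Unit3 (∏ w ∈ S', (1 - tm (PsiT K) 1 w.asIdeal)) := by
      refine Unit3.prod _ _ fun w hw => ?_
      refine Efac_unit3 w (h6S w hw) (Sub6T.inertia hS w) ?_
      rintro ⟨x, hx⟩
      obtain ⟨W, hW, -⟩ := T0_above K' w
      have heW : W.asIdeal.ramificationIdx (𝓞 K) ≠ 1 := (hram w W hW.over).1 ((hSf w).1 hw)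
      apply hnb
      refine Bad3.up w (h6S w hw) x hx W hW.over ?_
      rw [Ideal.ramificationIdx_tower (R := O) w.asIdeal W.asIdeal]
      intro h1
      exact heW (Nat.eq_one_of_mul_eq_one_left h1)
    refine (h.unit hnbK).mul ?_
    rw [hval, hval']
    exact (Unit3_add (hu.mul (hEu.mul (h.unit hnbK))) hr).mul
      (Unit3_add (hu'.mul (hEu.mul (h.unit hnbK))) hr')
  · intro hb
    show Max3 ((ΛK 1 * (Λ₂ 1 * Λ₃ 1)) / RT ^ Module.finrank F K')
    rw [hvalp]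
    by_cases hbK : Bad3 K
    · exact Max3_mul (h.non hbK) (Int3_mul hint2 hint3)
    · have key : Max3 (Λ₂ 1 / RT ^ Module.finrank F K) := by
        obtain ⟨W, h6, ⟨x, hx⟩, he⟩ := hb
        obtain ⟨w, hw⟩ := H19Y.exists_under (K := K) W
        obtain ⟨y, hy⟩ := sq_down3 h3 W w hw x hx
        have h6w : (6 : 𝓞 K) ∉ w.asIdeal := by
          intro h
          apply h6
          rw [hw, Ideal.under_def, Ideal.mem_comap, map_ofNat] at h
          exact h
        have hlw : W.asIdeal.LiesOver w.asIdeal := ⟨hw⟩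
        have hew : w.asIdeal.ramificationIdx O = 1 := by
          by_contra hne
          exact hbK ⟨w, h6w, ⟨y, hy⟩, hne⟩
        have heW : W.asIdeal.ramificationIdx (𝓞 K) ≠ 1 := by
          intro h1
          apply he
          rw [Ideal.ramificationIdx_tower (R := O) w.asIdeal W.asIdeal, hew, h1]
        have hwS : w ∈ S' := (hSf w).2 ((hram w W hw).2 heW)
        have hEn : Max3 (∏ w ∈ S', (1 - tm (PsiT K) 1 w.asIdeal)) :=
          Max3.prod S' _ (fun w' hw' => Efac_int3 w' (h6S w' hw')) w hwS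
            (Efac_non3 w h6w (Sub6T.inertia hS w) ⟨y, hy⟩)
        rw [hval]
        refine Max3.add ?_ hr
        rw [mul_comm u]
        exact Max3_mul (Max3_mul hEn h.int) (Int3_of_unit hu)
      rw [mul_comm]
      exact Max3_mul (Max3_mul key hint3) h.int

/-- The L-value over K is integral; it is a unit if K is not bad, and not a unit if K is bad. -/
theorem L_all3 (k : ℕ) : ∀ (K : Type) [Field K] [NumberField K] [Algebra F K], Sub6T K →
    Module.finrank F K = 3 ^ k → ∃ Λ : ℂ → ℂ, Val3 (PsiT K) Λ := by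
  induction k with
  | zero =>
    intro K _ _ _ _ hk
    rw [pow_zero] at hk
    obtain ⟨Λ, h1, h2, h3⟩ := LVT_base K hk
    exact ⟨Λ, ⟨h1, h2⟩, Int3_of_unit h3, fun _ => h3, fun hb => absurd hb (not_bad3_base K hk)⟩
  | succ k ih =>
    intro K' _ _ _ hS hk
    obtain ⟨K, i1, i2, i3, i4, i5, hSK, h2, hG⟩ := exists_sub6T K' hS (by
      rw [hk]
      exact Nat.one_lt_pow (Nat.succ_ne_zero k) (by norm_num))
    have h3 : Module.finrank F K = 3 ^ k := by
      have h4 := Module.finrank_mul_finrank F K K'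
      rw [h2, hk, pow_succ] at h4
      exact Nat.eq_of_mul_eq_mul_right (by norm_num) h4
    obtain ⟨ΛK, hΛK⟩ := ih K hSK h3
    exact step3 K K' h2 hG hSK hS ΛK hΛK

end H35X
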