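import Mathlib
import Pool.Agent.Lib.H13N.Main
import Pool.Agent.Lib.H35X.FinA
import Pool.Agent.Lib.H35X.V12
import Pool.Agent.Lib.H35X.V13
import Pool.Agent.Lib.H35X.V5

/-! The exact criterion at 3. -/

open NumberField IsDedekindDomain

namespace H35X

open H55B H35T H55N H19T H13E H13N

theorem goodRam3_iff (K : Type) [Field K] [NumberField K] [Algebra F K] : GoodRam3 K ↔ ¬ Bad3 K := by
  constructor
  · rintro h ⟨w, h6, hx, he⟩
    have h3 : (3 : 𝓞 K) ∉ w.asIdeal := fun h3 => h6 (H19Y.six_of_three w h3)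
    exact (norm7_iff w h6).1 (h w h6 fun h1 => he ((H19X.e_iff w h3).1 h1)) hx
  · intro h w h6 he
    rw [norm7_iff w h6]
    intro hx
    have h3 : (3 : 𝓞 K) ∉ w.asIdeal := fun h3 => h6 (H19Y.six_of_three w h3)
    exact h ⟨w, h6, hx, fun h1 => he ((H19X.e_iff w h3).2 h1)⟩

/-- In the good case the conclusions of ThreePart hold. -/
theorem bsd3_of_good (K : Type) [Field K] [NumberField K] (hK : Cls6T K) (hg : GoodRam3 K) : BSD3 K :=
  H13N.main K (sub3_of_goodRam K hK hg)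

/-- Assembly of the criterion from the value at 1. -/
theorem crit3_of_val (K N : Type) [Field K] [NumberField K] [Field N] [NumberField N] [Algebra F N]
    [Algebra K N] (hK : Cls6T K) {k : ℕ} (hN : GalN6 N k) (Λ : ℂ → ℂ)
    (a1 : AnalyticOnNhd ℂ Λ {s | 1 / 2 < s.re})
    (a2 : ∀ s : ℂ, 3 / 2 < s.re →
      LSeriesSummable (fun n => (((E144.baseChange K).LFunction n : ℤ) : ℂ)) s ∧
      Λ s = (E144.baseChange K).LSeries s)
    (hi : Int3 (Λ 1 / RT ^ Module.finrank ℚ K))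
    (hg : GoodRam3 K → Unit3 (Λ 1 / RT ^ Module.finrank ℚ K))
    (hb : ¬ GoodRam3 K → Max3 (Λ 1 / RT ^ Module.finrank ℚ K)) : Crit3 K := by
  have hsg : SelZ3 K ↔ GoodRam3 K :=
    ⟨fun hs => goodRam_of_sel K hK hs, fun h =>
      ⟨(bsd3_of_good K hK h).2.1, (bsd3_of_good K hK h).2.2.1⟩⟩
  refine ⟨tors3_cop K N k hN.deg, Λ, a1, a2, fun L g2 g3 => ?_⟩
  obtain ⟨u, hu, hsha⟩ := shaT3_eq (K₀ := K) hN (tors3_cop K N k hN.deg) L g2 g3
  rw [hsha]
  refine ⟨Int3_mul hi (Int3_of_unit hu), ?_, hsg, fun hs => ?_⟩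
  · constructor
    · intro hs
      have h1 := hg (hsg.1 hs)
      exact ⟨(div_ne_zero_iff.1 h1.ne_zero).1, h1.mul hu⟩
    · rintro ⟨-, h⟩
      rw [hsg]
      by_contra hng
      exact Max3.not_unit (Max3_mul (hb hng) (Int3_of_unit hu)) h
  · exact Max3_mul (hb fun h => hs (hsg.2 h)) (Int3_of_unit hu)

/-- Fields containing the cube roots of unity. -/
theorem critF3 (K N : Type) [Field K] [NumberField K] [Algebra F K] [Field N] [NumberField N] [Algebra F N]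
    [Algebra K N] (hK : Cls6T K) {k : ℕ} (hN : GalN6 N k) (hS : Sub6T K) : Crit3 K := by
  obtain ⟨l, hl⟩ := sub6T_rank hS
  obtain ⟨ΛK, hΛK⟩ := L_all3 l K hS hl
  obtain ⟨Λ, a1, a2, a3⟩ := L_of_lc3 K (sub6T_unr hS) ΛK hΛK.lc
  have hu : Unit3 ((-1 : ℂ) ^ Module.finrank F K) := W13_neg _
  refine crit3_of_val K N hK hN Λ a1 a2 ?_ ?_ ?_ <;> rw [a3, val_F K]
  · exact Int3_mul (Int3_of_unit hu) (Int3_mul hΛK.int (Int3.conj hΛK.int))
  · intro hg
    have h1 := hΛK.unit ((goodRam3_iff K).1 hg)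
    exact hu.mul (h1.mul h1.conj)
  · intro hg
    have h1 := hΛK.non (by
      by_contra h
      exact hg ((goodRam3_iff K).2 h))
    rw [mul_comm]
    exact Max3_mul (Max3_mul h1 (Int3.conj hΛK.int)) (Int3_of_unit hu)

/-- Fields not containing the cube roots of unity. -/
theorem crit03 (K₀ K N : Type) [Field K₀] [NumberField K₀] [Field K] [NumberField K] [Algebra F K]
    [Algebra K₀ K] [Field N] [NumberField N] [Algebra F N] [Algebra K₀ N] (hQ : Quad K₀ K)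
    (hK : Cls6T K₀) {k : ℕ} (hN : GalN6 N k) (hS : Sub6T K) : Crit3 K₀ := by
  obtain ⟨l, hl⟩ := sub6T_rank hS
  obtain ⟨ΛK, hΛK⟩ := L_all3 l K hS hl
  have a2 := L_of_lc03 hQ (sub6T_unr hS) ΛK hΛK.lc
  refine crit3_of_val K₀ N hK hN ΛK hΛK.lc.1 a2 ?_ ?_ ?_ <;> rw [← rank_rel hQ]
  · exact hΛK.int
  · intro hg
    exact hΛK.unit ((goodRam3_iff K).1 (good_up3 hQ hg))
  · intro hg
    refine hΛK.non ?_
    by_contra h
    exact hg (bad_up3 hQ ((goodRam3_iff K).2 h))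

/-- THEOREM (the exact criterion at 3). -/
theorem crit3 (K : Type) [Field K] [NumberField K] (hK : Cls6T K) : Crit3 K := by
  obtain ⟨L, i1, i2, i3, i4, ⟨hG, k, hk⟩, hU⟩ := id hK
  obtain ⟨N, j1, j2, j3, j4, j5, m, hN⟩ := exists_galN6 L hG k hk hU
  letI : Algebra K N := ((algebraMap L N).comp (algebraMap K L)).toAlgebra
  rcases cls6T_cases K hK with ⟨i, hS⟩ | ⟨K₁, h1, h2, h3, h4, hQ, hS⟩
  · exact critF3 K N hK hN hS
  · exact crit03 K K₁ N hQ hK hN hS

end H35X
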