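import Mathlib
import Pool.Agent.Lib.H35X.Defs
import Pool.Agent.Lib.H13N.X1

/-! Fields which are Galois over the rationals, of 3-power degree and unramified at 2 and 3 (X1 of H13N). -/

open NumberField IsDedekindDomain

namespace H35X

open H55B H35T H13E H13N

theorem x1_unr6 (K₀ E : Type) [Field K₀] [NumberField K₀] (hG : IsGalois ℚ K₀) (hU : ∀ w : HeightOneSpectrum (𝓞 K₀), (6 : 𝓞 K₀) ∈ w.asIdeal → w.asIdeal.ramificationIdx ℤ = 1)
    [Field E] [NumberField E] [Algebra F E] [Algebra K₀ E] (hGE : IsGalois F E)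
    (htop : IntermediateField.adjoin K₀ {H55D.X3_z E} = ⊤) : H19X.UnrSix E := by
  have htow : IsScalarTower ℚ F E := IsScalarTower.of_algebraMap_eq' (Subsingleton.elim _ _)
  have htow' : IsScalarTower ℚ K₀ E := IsScalarTower.of_algebraMap_eq' (Subsingleton.elim _ _)
  intro w h6
  rw [H55C.inertia_iff w]
  intro g hg
  let g' : E ≃ₐ[ℚ] E := g.restrictScalars ℚ
  let g₀ : K₀ ≃ₐ[ℚ] K₀ := g'.restrictNormal K₀
  have hg₀ : ∀ x : K₀, algebraMap K₀ E (g₀ x) = g (algebraMap K₀ E x) := fun x =>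
    AlgEquiv.restrictNormal_commutes g' K₀ x
  have hwp := w.isPrime
  have hp : (w.asIdeal.under (𝓞 K₀)).IsPrime := inferInstance
  have hne : w.asIdeal.under (𝓞 K₀) ≠ ⊥ := by
    intro h
    exact w.ne_bot (Ideal.eq_bot_of_comap_eq_bot (R := 𝓞 K₀) (I := w.asIdeal) h)
  let w₀ : HeightOneSpectrum (𝓞 K₀) := ⟨w.asIdeal.under (𝓞 K₀), hp, hne⟩
  have h1 : ∀ y : 𝓞 K₀, g₀ • y - y ∈ w₀.asIdeal := by
    intro y
    show algebraMap (𝓞 K₀) (𝓞 E) (g₀ • y - y) ∈ w.asIdeal
    have h2 : algebraMap (𝓞 K₀) (𝓞 E) (g₀ • y) = g • algebraMap (𝓞 K₀) (𝓞 E) y := by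
      apply NumberField.RingOfIntegers.ext
      exact hg₀ _
    rw [map_sub, h2]
    exact hg _
  have h6w₀ : (6 : 𝓞 K₀) ∈ w₀.asIdeal := by
    show algebraMap (𝓞 K₀) (𝓞 E) (6 : 𝓞 K₀) ∈ w.asIdeal
    rwa [map_ofNat]
  have hr := hU w₀ h6w₀
  have hg1 : g₀ = 1 := H55D.X3_inertia w₀ hr g₀ h1
  have hfix : ∀ x : K₀, g (algebraMap K₀ E x) = algebraMap K₀ E x := by
    intro x
    rw [← hg₀, hg1]
    rfl
  have hz : g (H55D.X3_z E) = H55D.X3_z E := g.commutes _
  ext x
  have hx : x ∈ IntermediateField.adjoin K₀ {H55D.X3_z E} := by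
    rw [htop]
    exact IntermediateField.mem_top
  show g x = x
  refine IntermediateField.adjoin_induction K₀ (p := fun x _ => g x = x) ?_ hfix ?_ ?_ ?_ hx
  · rintro x rfl
    exact hz
  · intro x y _ _ h1 h2
    rw [map_add, h1, h2]
  · intro x _ h1
    rw [map_inv₀, h1]
  · intro x y _ _ h1 h2
    rw [map_mul, h1, h2]

theorem cls_of_rat (K₀ : Type) [Field K₀] [NumberField K₀] (hG : IsGalois ℚ K₀) (k : ℕ)
    (hk : Module.finrank ℚ K₀ = 3 ^ k) (hU : ∀ w : HeightOneSpectrum (𝓞 K₀), (6 : 𝓞 K₀) ∈ w.asIdeal → w.asIdeal.ramificationIdx ℤ = 1) : Cls6T K₀ := by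
  classical
  let φ : F →ₐ[ℚ] AlgebraicClosure K₀ := IsAlgClosed.lift
  let _ : Algebra F (AlgebraicClosure K₀) := φ.toRingHom.toAlgebra
  have hz := H55D.X3_z_root (AlgebraicClosure K₀)
  let E : IntermediateField K₀ (AlgebraicClosure K₀) :=
    IntermediateField.adjoin K₀ {H55D.X3_z (AlgebraicClosure K₀)}
  have hmem : H55D.X3_z (AlgebraicClosure K₀) ∈ E :=
    IntermediateField.mem_adjoin_simple_self K₀ _
  have hint : ∀ x ∈ ({H55D.X3_z (AlgebraicClosure K₀)} : Set (AlgebraicClosure K₀)),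
      IsIntegral K₀ x := by
    intro x _
    exact (Algebra.IsAlgebraic.isAlgebraic x).isIntegral
  have hEfin : FiniteDimensional K₀ E := IntermediateField.finiteDimensional_adjoin hint
  have hnf : NumberField E := NumberField.of_module_finite K₀ E
  let ψ : F →+* E := (algebraMap F (AlgebraicClosure K₀)).codRestrict E
    (H55D.X3_range K₀ (AlgebraicClosure K₀) E hmem)
  let hFE : Algebra F E := ψ.toAlgebra
  have htow : IsScalarTower ℚ F E := IsScalarTower.of_algebraMap_eq' (Subsingleton.elim _ _)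
  have htow' : IsScalarTower ℚ K₀ E := IsScalarTower.of_algebraMap_eq' (Subsingleton.elim _ _)
  have hzE : ((H55D.X3_z E : E) : AlgebraicClosure K₀) = H55D.X3_z (AlgebraicClosure K₀) := rfl
  have hrank : Module.finrank K₀ E = 2 := H55D.X3_rank K₀ _ _ hz (x1_noroot hk)
  have hN : Normal ℚ E := H55D.X3_normal K₀ hG _ hz
  have hGQ : IsGalois ℚ E := { to_normal := hN }
  have hGF : IsGalois F E := IsGalois.tower_top_of_isGalois ℚ F E
  have htop : IntermediateField.adjoin K₀ {H55D.X3_z E} = ⊤ := by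
    have h1 : IntermediateField.map E.val (IntermediateField.adjoin K₀ {H55D.X3_z E}) =
        IntermediateField.map E.val ⊤ := by
      rw [IntermediateField.adjoin_map, Set.image_singleton]
      show IntermediateField.adjoin K₀ {H55D.X3_z (AlgebraicClosure K₀)} = _
      rw [← AlgHom.fieldRange_eq_map, IntermediateField.fieldRange_val]
    exact IntermediateField.map_injective E.val h1
  refine ⟨E, inferInstance, hnf, hFE, inferInstance, ⟨hGF, k, ?_⟩,
    x1_unr6 K₀ E hG hU hGF htop⟩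
  have h1 := Module.finrank_mul_finrank ℚ F E
  have h2 := Module.finrank_mul_finrank ℚ K₀ E
  rw [H55D.X3_finrank] at h1
  rw [hk, hrank] at h2
  omega

end H35X
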