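import Mathlib
import Pool.Agent.Lib.H35X.Defs

open NumberField IsDedekindDomain

namespace H35X

open H55B H35T H13E

/-! Chunk X2 (M): the discriminant. unr23_of: NumberField.not_dvd_discr_iff_forall_mem (see H19Y.odd_discr in H19Y/Y0.lean for both directions) with p = 2 and p = 3: a prime w above 6 contains 2 or 3.
goodRam_rat, from left to right: p divides the discriminant, so there is w above p with e(w) not 1 (not_dvd_discr_iff_forall_mem and Ideal.ramificationIdx_eq_one_iff); p is not 2, 3, so 6 is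
not in w; N(w) = p^f (Ideal.absNorm_eq_pow_inertiaDeg or absNorm_inertia like lemmas; N(w) is the card of the residue field, of characteristic p: a prime power FiniteField.card') is 7 modulo 12; p^2 = 1 modulo 12
for p prime to 6 (p^2 % 12 from p % 12 in {1, 5, 7, 11}), so f is odd and p = 7 modulo 12. From right to left: w not above 6, ramified, over the prime number p; p divides the discriminant, so p = 7 modulo 12;
N(w) = p^f, f divides [K : Q] = 3^k (Galois: Ideal.ncard_primesOver_mul_ramificationIdxIn_mul_inertiaDegIn, as in H13E.prime_norm), so f is odd and N(w) = p = 7 modulo 12. -/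

theorem x2_lies {K : Type} [Field K] [NumberField K] (w : HeightOneSpectrum (𝓞 K)) (p : ℕ)
    (hp : p.Prime) (hpw : (p : 𝓞 K) ∈ w.asIdeal) :
    w.asIdeal.LiesOver (Ideal.span {(p : ℤ)}) := by
  have hwp := w.isPrime
  have hpi : Prime (p : ℤ) := Nat.prime_iff_prime_int.1 hp
  have hsp : (Ideal.span {(p : ℤ)}).IsPrime :=
    (Ideal.span_singleton_prime hpi.ne_zero).2 hpi
  have hm : (Ideal.span {(p : ℤ)}).IsMaximal :=
    hsp.isMaximal (by simpa using hpi.ne_zero)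
  refine ⟨?_⟩
  apply hm.eq_of_le (Ideal.IsPrime.ne_top inferInstance)
  rw [Ideal.span_singleton_le_iff_mem]
  show algebraMap ℤ (𝓞 K) (p : ℤ) ∈ w.asIdeal
  rw [map_natCast]
  exact hpw

theorem x2_prime {K : Type} [Field K] [NumberField K] (w : HeightOneSpectrum (𝓞 K)) :
    ∃ p : ℕ, p.Prime ∧ (p : 𝓞 K) ∈ w.asIdeal := by
  have hwp := w.isPrime
  have key : ∀ n : ℕ, n ≠ 0 → (n : 𝓞 K) ∈ w.asIdeal → ∃ p : ℕ, p.Prime ∧ (p : 𝓞 K) ∈ w.asIdeal := by
    intro n
    induction n using Nat.strong_induction_on with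
    | _ n ih =>
      intro hn0 hn
      have hn1 : n ≠ 1 := by
        rintro rfl
        rw [Nat.cast_one] at hn
        exact hwp.ne_top ((Ideal.eq_top_iff_one _).2 hn)
      have hmp := Nat.minFac_prime hn1
      have hmul : n.minFac * (n / n.minFac) = n := Nat.mul_div_cancel' (Nat.minFac_dvd n)
      rw [← hmul, Nat.cast_mul] at hn
      rcases hwp.mem_or_mem hn with h | h
      · exact ⟨_, hmp, h⟩
      · refine ih (n / n.minFac) (Nat.div_lt_self (Nat.pos_of_ne_zero hn0) hmp.one_lt) ?_ h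
        intro h0
        rw [h0, mul_zero] at hmul
        exact hn0 hmul.symm
  refine key (Ideal.absNorm w.asIdeal) ?_ (Ideal.absNorm_mem _)
  rw [Ne, Ideal.absNorm_eq_zero_iff]
  exact w.ne_bot

theorem x2_norm {K : Type} [Field K] [NumberField K] (w : HeightOneSpectrum (𝓞 K)) (p : ℕ)
    (hp : p.Prime) (hpw : (p : 𝓞 K) ∈ w.asIdeal) :
    Ideal.absNorm w.asIdeal = p ^ (w.asIdeal.inertiaDeg ℤ) := by
  have hl := x2_lies w p hp hpw
  have hwm := w.isMaximal
  have hpi : Prime (p : ℤ) := Nat.prime_iff_prime_int.1 hp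
  have hsp : (Ideal.span {(p : ℤ)}).IsPrime :=
    (Ideal.span_singleton_prime hpi.ne_zero).2 hpi
  have hm : (Ideal.span {(p : ℤ)}).IsMaximal :=
    hsp.isMaximal (by simpa using hpi.ne_zero)
  rw [Ideal.absNorm_eq_pow_inertiaDeg' w.asIdeal hp, Ideal.inertiaDeg'_algebraMap,
    Ideal.inertiaDeg_eq_of_isMaximal (Ideal.span {(p : ℤ)}) w.asIdeal]

theorem x2_inertia {K : Type} [Field K] [NumberField K] (hG : IsGalois ℚ K) (k : ℕ)
    (hk : Module.finrank ℚ K = 3 ^ k) (w : HeightOneSpectrum (𝓞 K)) :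
    ∃ j : ℕ, w.asIdeal.inertiaDeg ℤ = 3 ^ j := by
  have hwp := w.isPrime
  have hp : (w.asIdeal.under ℤ).IsPrime := inferInstance
  have hl : w.asIdeal.LiesOver (w.asIdeal.under ℤ) := ⟨rfl⟩
  have hne : w.asIdeal.under ℤ ≠ ⊥ := by
    intro h
    have h1 := Ideal.eq_bot_of_comap_eq_bot (R := ℤ) (I := w.asIdeal) h
    exact w.ne_bot h1
  have hmax : (w.asIdeal.under ℤ).IsMaximal := hp.isMaximal hne
  have h1 := Ideal.ncard_primesOver_mul_ramificationIdxIn_mul_inertiaDegIn (w.asIdeal.under ℤ) (𝓞 K)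
    (K ≃ₐ[ℚ] K)
  rw [IsGalois.card_aut_eq_finrank, hk,
    Ideal.inertiaDegIn_eq_inertiaDeg (w.asIdeal.under ℤ) w.asIdeal (K ≃ₐ[ℚ] K)] at h1
  have h2 : w.asIdeal.inertiaDeg ℤ ∣ 3 ^ k := by
    rw [← h1]
    exact Dvd.intro_left _ (by rw [← mul_assoc])
  obtain ⟨j, _, hj⟩ := (Nat.dvd_prime_pow Nat.prime_three).1 h2
  exact ⟨j, hj⟩

theorem x2_sq {p : ℕ} (h2 : p % 2 ≠ 0) (h3 : p % 3 ≠ 0) : p ^ 2 % 12 = 1 := by
  have h : p % 12 = 1 ∨ p % 12 = 5 ∨ p % 12 = 7 ∨ p % 12 = 11 := by omega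
  rcases h with h | h | h | h <;> rw [Nat.pow_mod, h]

theorem x2_pow {p f : ℕ} (h2 : p % 2 ≠ 0) (h3 : p % 3 ≠ 0) (h : p ^ f % 12 = 7) :
    p % 12 = 7 := by
  have hs := x2_sq h2 h3
  rcases Nat.even_or_odd' f with ⟨m, rfl | rfl⟩
  · rw [pow_mul, Nat.pow_mod, hs, one_pow] at h
    norm_num at h
  · rw [pow_succ, pow_mul, Nat.mul_mod, Nat.pow_mod, hs, one_pow] at h
    norm_num at h
    exact h

theorem x2_odd {p f : ℕ} (h : p % 12 = 7) (hf : f % 2 = 1) : p ^ f % 12 = 7 := by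
  obtain ⟨m, hm⟩ : ∃ m, f = 2 * m + 1 := ⟨f / 2, by omega⟩
  have hs := x2_sq (p := p) (by omega) (by omega)
  rw [hm, pow_succ, pow_mul, Nat.mul_mod, Nat.pow_mod, hs, one_pow, h]
  norm_num

theorem x2_ndvd {d : ℤ} (h : IsCoprime d 6) : ¬ (2 : ℤ) ∣ d ∧ ¬ (3 : ℤ) ∣ d := by
  constructor
  · intro h2
    have h3 := h.isUnit_of_dvd' h2 ⟨3, by norm_num⟩
    rw [Int.isUnit_iff] at h3
    omega
  · intro h2
    have h3 := h.isUnit_of_dvd' h2 ⟨2, by norm_num⟩
    rw [Int.isUnit_iff] at h3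
    omega

theorem x2_23 {K : Type} [Field K] [NumberField K] (w : HeightOneSpectrum (𝓞 K))
    (h6 : (6 : 𝓞 K) ∈ w.asIdeal) : (2 : 𝓞 K) ∈ w.asIdeal ∨ (3 : 𝓞 K) ∈ w.asIdeal := by
  apply w.isPrime.mem_or_mem
  norm_num
  exact h6

theorem x2_cop {K : Type} [Field K] [NumberField K] (w : HeightOneSpectrum (𝓞 K)) {a b : ℕ}
    (h : Nat.Coprime a b) (ha : (a : 𝓞 K) ∈ w.asIdeal) (hb : (b : 𝓞 K) ∈ w.asIdeal) : False := by
  obtain ⟨x, y, hxy⟩ := Nat.isCoprime_iff_coprime.2 h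
  apply w.isPrime.ne_top
  rw [Ideal.eq_top_iff_one]
  have h7 := congrArg (Int.cast : ℤ → 𝓞 K) hxy
  push_cast at h7
  rw [← h7]
  exact Ideal.add_mem _ (Ideal.mul_mem_left _ _ ha) (Ideal.mul_mem_left _ _ hb)

theorem unr23_of (K : Type) [Field K] [NumberField K] (h : IsCoprime (NumberField.discr K) 6) :
    ∀ w : HeightOneSpectrum (𝓞 K), (6 : 𝓞 K) ∈ w.asIdeal → w.asIdeal.ramificationIdx ℤ = 1 := by
  intro w h6
  have hwp := w.isPrime
  obtain ⟨hn2, hn3⟩ := x2_ndvd h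
  rcases x2_23 w h6 with h2 | h3
  · have h1 := (NumberField.not_dvd_discr_iff_forall_mem K (𝓞 K) Int.prime_two).1 hn2 w.asIdeal
      w.isPrime (by exact_mod_cast h2)
    exact Ideal.ramificationIdx_eq_one_iff.2 h1
  · have h1 := (NumberField.not_dvd_discr_iff_forall_mem K (𝓞 K) Int.prime_three).1 hn3 w.asIdeal
      w.isPrime (by exact_mod_cast h3)
    exact Ideal.ramificationIdx_eq_one_iff.2 h1

theorem goodRam_rat (K : Type) [Field K] [NumberField K] (hG : IsGalois ℚ K) (k : ℕ)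
    (hk : Module.finrank ℚ K = 3 ^ k) (h : IsCoprime (NumberField.discr K) 6) :
    GoodRam3 K ↔ ∀ p : ℕ, p.Prime → (p : ℤ) ∣ NumberField.discr K → p % 12 = 7 := by
  obtain ⟨hn2, hn3⟩ := x2_ndvd h
  constructor
  · intro hR p hp hpd
    have hpi : Prime (p : ℤ) := Nat.prime_iff_prime_int.1 hp
    have hp2 : p ≠ 2 := by
      rintro rfl
      exact hn2 hpd
    have hp3 : p ≠ 3 := by
      rintro rfl
      exact hn3 hpd
    have h1 := (not_congr (NumberField.not_dvd_discr_iff_forall_mem K (𝓞 K) hpi)).1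
      (not_not.2 hpd)
    push Not at h1
    obtain ⟨P, hP, hpP, hram⟩ := h1
    have hpP' : (p : 𝓞 K) ∈ P := by exact_mod_cast hpP
    have hPne : P ≠ ⊥ := by
      rintro rfl
      rw [Ideal.mem_bot] at hpP'
      exact hp.ne_zero (by exact_mod_cast hpP')
    let w : HeightOneSpectrum (𝓞 K) := ⟨P, hP, hPne⟩
    have h6 : (6 : 𝓞 K) ∉ w.asIdeal := by
      intro h6
      rcases x2_23 w h6 with h2 | h3
      · exact x2_cop w ((Nat.coprime_primes hp Nat.prime_two).2 hp2) hpP' (by exact_mod_cast h2)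
      · exact x2_cop w ((Nat.coprime_primes hp Nat.prime_three).2 hp3) hpP' (by exact_mod_cast h3)
    have h2 := hR w h6 (fun h => hram (Ideal.ramificationIdx_eq_one_iff.1 h))
    rw [x2_norm w p hp hpP'] at h2
    refine x2_pow ?_ ?_ h2
    · intro h0
      exact hp2 (((Nat.prime_dvd_prime_iff_eq Nat.prime_two hp).1 (Nat.dvd_of_mod_eq_zero h0)).symm)
    · intro h0
      exact hp3 (((Nat.prime_dvd_prime_iff_eq Nat.prime_three hp).1
        (Nat.dvd_of_mod_eq_zero h0)).symm)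
  · intro hR w h6 hram
    have hwp := w.isPrime
    obtain ⟨p, hp, hpw⟩ := x2_prime w
    have hpi : Prime (p : ℤ) := Nat.prime_iff_prime_int.1 hp
    have hpd : (p : ℤ) ∣ NumberField.discr K := by
      by_contra hnd
      have h1 := (NumberField.not_dvd_discr_iff_forall_mem K (𝓞 K) hpi).1 hnd w.asIdeal
        w.isPrime (by exact_mod_cast hpw)
      exact hram (Ideal.ramificationIdx_eq_one_iff.2 h1)
    obtain ⟨j, hj⟩ := x2_inertia hG k hk w
    rw [x2_norm w p hp hpw, hj]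
    apply x2_odd (hR p hp hpd)
    rw [Nat.pow_mod]
    norm_num

end H35X
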