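import Mathlib
import Pool.Agent.Lib.H13E.S2Gen
import Pool.Agent.Lib.H35T.W9
import Pool.Agent.Lib.H55B.Z1

open NumberField IsDedekindDomain

namespace H35X

open H55B H35T H13E

/-! Chunk X3: pure cubic fields. pure_inertia (M): E/F Galois, w a prime above 6, t^3 = a in O with a not in w and a = 1 or -1 modulo 3(om - 1); g in the inertia group of w. Then g t = t.
Proof: (g t)^3 = a, so g t = ρ t with ρ in {1, om, om^2} (the image of O in E). If 2 in w: g t - t = (ρ - 1) t is in w, t is not in w (t^3 = a), so ρ - 1 is in w; if ρ is not 1 then ρ - 1 is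
om - 1 times a unit, so 3 is in w, and with 2 in w, w = 1, contradiction. If 3 in w: replace t by -t if a = -1 modulo 3(om - 1) (say a = 1). s = (t - 1)/(om - 1) is integral: s is a root of the monic polynomial
s^3 + (3/l) s^2 + (3/l^2) s - (a - 1)/l^3, l = om - 1, 3 = -om^2 l^2 (H55B.three_eq), so 3/l = -om^2 l, 3/l^2 = -om^2, and l^3 divides a - 1 as 3 l does. g s - s = (ρ - 1) t/l is in w; if ρ is not 1 then
(ρ - 1)/l is a unit, so t is in w, contradiction. -/

theorem x3_cases {R : Type} [CommRing R] [IsDomain R] {z t u : R} (hz : z ^ 2 + z + 1 = 0)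
    (h : u ^ 3 = t ^ 3) : u = t ∨ u = z * t ∨ u = z ^ 2 * t := by
  have h1 : (u - t) * ((u - z * t) * (u - z ^ 2 * t)) = 0 := by
    linear_combination h + (-u ^ 2 * t + u * t ^ 2 * z - t ^ 3 * (z - 1)) * hz
  rcases mul_eq_zero.1 h1 with h2 | h2
  · exact Or.inl (sub_eq_zero.1 h2)
  · rcases mul_eq_zero.1 h2 with h3 | h3
    · exact Or.inr (Or.inl (sub_eq_zero.1 h3))
    · exact Or.inr (Or.inr (sub_eq_zero.1 h3))

theorem x3_fld {E : Type} [Field E] (Z T B : E) (h2 : Z ^ 2 + Z + 1 = 0)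
    (h1 : T ^ 3 - 1 = 3 * (Z - 1) * B) (hZ : Z - 1 ≠ 0) :
    ((T - 1) / (Z - 1)) ^ 3 + -(Z ^ 2 * (Z - 1)) * ((T - 1) / (Z - 1)) ^ 2 +
        -Z ^ 2 * ((T - 1) / (Z - 1)) + Z ^ 2 * B = 0 := by
  obtain ⟨W, hW⟩ : ∃ W : E, W = (T - 1) / (Z - 1) := ⟨_, rfl⟩
  rw [← hW]
  have hT : T = 1 + (Z - 1) * W := by
    rw [hW]
    field_simp
    ring
  rw [hT] at h1
  have h3 : (Z - 1) ^ 3 * (W ^ 3 + -(Z ^ 2 * (Z - 1)) * W ^ 2 + -Z ^ 2 * W + Z ^ 2 * B) = 0 := by
    linear_combination h1 - ((Z - 1) ^ 2 * W ^ 2 + (Z - 1) * W - (Z - 1) * B) *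
      (Z ^ 2 - 3 * Z + 3) * h2
  exact (mul_eq_zero.1 h3).resolve_left (pow_ne_zero 3 hZ)

/-- the element (t - 1) / (z - 1) is integral -/
theorem x3_int (E : Type) [Field E] [NumberField E] (z t b : 𝓞 E) (hz : z ^ 2 + z + 1 = 0)
    (ht : t ^ 3 - 1 = 3 * (z - 1) * b) (hz1 : z - 1 ≠ 0) : ∃ S : 𝓞 E, t - 1 = (z - 1) * S := by
  have hzE : algebraMap (𝓞 E) E (z - 1) ≠ 0 := by
    intro h
    exact hz1 ((FaithfulSMul.algebraMap_injective (𝓞 E) E) (by rw [h, map_zero]))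
  have hint : IsIntegral (𝓞 E) (algebraMap (𝓞 E) E (t - 1) / algebraMap (𝓞 E) E (z - 1)) := by
    refine ⟨Polynomial.X ^ 3 + Polynomial.C (-(z ^ 2 * (z - 1))) * Polynomial.X ^ 2 +
      Polynomial.C (-z ^ 2) * Polynomial.X + Polynomial.C (z ^ 2 * b), by monicity!, ?_⟩
    simp only [Polynomial.eval₂_add, Polynomial.eval₂_mul, Polynomial.eval₂_C,
      Polynomial.eval₂_pow, Polynomial.eval₂_X]
    have h1 := congrArg (algebraMap (𝓞 E) E) ht
    have h2 := congrArg (algebraMap (𝓞 E) E) hz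
    simp only [map_sub, map_mul, map_pow, map_one, map_add, map_zero, map_ofNat, map_neg] at h1 h2 hzE ⊢
    exact x3_fld _ _ _ h2 h1 hzE
  obtain ⟨S, hS⟩ := (IsIntegrallyClosed.isIntegral_iff (R := 𝓞 E) (K := E)).1 hint
  refine ⟨S, ?_⟩
  apply FaithfulSMul.algebraMap_injective (𝓞 E) E
  rw [map_mul, hS]
  field_simp

theorem x3_unit {R : Type} [CommRing R] {z : R} (hz : z ^ 2 + z + 1 = 0) (P : Ideal R)
    (hP : P.IsPrime) {x : R} (h : (z + 1) * x ∈ P) : x ∈ P := by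
  have h1 : x = -z * ((z + 1) * x) := by
    linear_combination x * hz
  rw [h1]
  exact Ideal.mul_mem_left _ _ h

theorem pure_inertia (E : Type) [Field E] [NumberField E] [Algebra F E] (t : 𝓞 E) (a : O)
    (ht : t ^ 3 = algebraMap O (𝓞 E) a)
    (h3 : (3 * (om - 1) : O) ∣ a - 1 ∨ (3 * (om - 1) : O) ∣ a + 1)
    (w : HeightOneSpectrum (𝓞 E)) (h6 : (6 : 𝓞 E) ∈ w.asIdeal)
    (ha : algebraMap O (𝓞 E) a ∉ w.asIdeal) (g : E ≃ₐ[F] E) (hg : ∀ y : 𝓞 E, g • y - y ∈ w.asIdeal) :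
    g • t = t := by
  have hwp := w.isPrime
  obtain ⟨z, hzd⟩ : ∃ z : 𝓞 E, z = algebraMap O (𝓞 E) om := ⟨_, rfl⟩
  have hz : z ^ 2 + z + 1 = 0 := by
    rw [hzd, ← map_pow, ← map_one (algebraMap O (𝓞 E)), ← map_add, ← map_add, om_rel, map_zero]
  have hgO : ∀ x : O, g • algebraMap O (𝓞 E) x = algebraMap O (𝓞 E) x := by
    intro x
    apply NumberField.RingOfIntegers.ext
    exact g.commutes (x : F)
  have hgz : g • z = z := by
    rw [hzd]
    exact hgO om
  have hz1 : z - 1 ≠ 0 := by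
    intro h
    have h1 : z = 1 := sub_eq_zero.1 h
    rw [h1] at hz
    norm_num at hz
  have htw : t ∉ w.asIdeal := by
    intro h
    apply ha
    rw [← ht]
    exact Ideal.pow_mem_of_mem _ h 3 (by norm_num)
  have hg3 : (g • t) ^ 3 = t ^ 3 := by
    rw [← smul_pow', ht, hgO]
  by_contra hne
  -- a multiple of z - 1
  have hmul : ∃ c : 𝓞 E, c ∉ w.asIdeal ∧ g • t - t = (z - 1) * c := by
    rcases x3_cases hz hg3 with h | h | h
    · exact absurd h hne
    · exact ⟨t, htw, by rw [h]; ring⟩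
    · refine ⟨(z + 1) * t, fun h1 => htw (x3_unit hz w.asIdeal hwp h1), ?_⟩
      rw [h]
      ring
  obtain ⟨c, hc, hgt⟩ := hmul
  have h23 : (2 : 𝓞 E) ∈ w.asIdeal ∨ (3 : 𝓞 E) ∈ w.asIdeal := by
    apply hwp.mem_or_mem
    norm_num
    exact h6
  rcases h23 with h2 | h3'
  · have h1 : z - 1 ∈ w.asIdeal := by
      have h4 := hg t
      rw [hgt] at h4
      exact (hwp.mem_or_mem h4).resolve_right hc
    have h5 : (3 : 𝓞 E) ∈ w.asIdeal := by
      have h6' : (3 : 𝓞 E) = (-z ^ 2 * (z - 1)) * (z - 1) := by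
        linear_combination (z ^ 2 - 3 * z + 3) * hz
      rw [h6']
      exact Ideal.mul_mem_left _ _ h1
    apply hwp.ne_top
    rw [Ideal.eq_top_iff_one]
    have h7 : (1 : 𝓞 E) = 3 - 2 := by norm_num
    rw [h7]
    exact Ideal.sub_mem _ h5 h2
  · have hS : ∃ S ε : 𝓞 E, (ε = 1 ∨ ε = -1) ∧ ε * t - 1 = (z - 1) * S := by
      rcases h3 with ⟨b, hb⟩ | ⟨b, hb⟩
      · obtain ⟨S, hS⟩ := x3_int E z t (algebraMap O (𝓞 E) b) hz (by
          have h8 := congrArg (algebraMap O (𝓞 E)) hb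
          simp only [map_sub, map_mul, map_one, map_ofNat] at h8
          rw [ht, h8, hzd]) hz1
        exact ⟨S, 1, Or.inl rfl, by rw [one_mul]; exact hS⟩
      · obtain ⟨S, hS⟩ := x3_int E z (-t) (algebraMap O (𝓞 E) (-b)) hz (by
          have h8 := congrArg (algebraMap O (𝓞 E)) hb
          simp only [map_add, map_mul, map_sub, map_one, map_ofNat] at h8
          rw [map_neg, hzd]
          linear_combination -h8 - ht) hz1
        exact ⟨S, -1, Or.inr rfl, by rw [neg_one_mul]; exact hS⟩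
    obtain ⟨S, ε, hε, hS⟩ := hS
    have hgε : g • ε = ε := by
      rcases hε with h | h
      · rw [h, smul_one]
      · rw [h, smul_neg, smul_one]
    have h9 : (z - 1) * (g • S - S) = (z - 1) * (ε * c) := by
      have h10 : g • (ε * t - 1) = g • ((z - 1) * S) := by rw [hS]
      rw [smul_sub, smul_mul', smul_one, hgε, smul_mul', smul_sub, hgz, smul_one] at h10
      linear_combination -h10 + hS + ε * hgt
    have h11 : g • S - S = ε * c := mul_left_cancel₀ hz1 h9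
    have h12 := hg S
    rw [h11] at h12
    rcases hε with h | h
    · rw [h, one_mul] at h12
      exact hc h12
    · rw [h, neg_one_mul] at h12
      exact hc ((Ideal.neg_mem_iff _).1 h12)

end H35X
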