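import Mathlib
import Pool.Agent.Lib.H13E.S2Gen
import Pool.Agent.Lib.H35T.I4

open NumberField IsDedekindDomain

namespace H35X

open H55B H35T H13E

/-! unity_inertia (S/M): s has order d dividing M; g s = s^i for some i (H13E.X1_pow); s^i - s is in w. If s^i is not s: ρ = s^i / s is a root of unity, not 1, of order e dividing M, e > 1, and ρ - 1 is in w
(s is a unit). The product of (1 - ρ^j), 0 < j < e, is e (IsPrimitiveRoot.prod_one_sub_pow... or: e = (1 + ρ + ... + ρ^(e-1)) modulo (ρ - 1), and 1 + ρ + ... + ρ^(e-1) = 0), so e is in w; e divides M, so M is in w; 6 is in w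
and M is prime to 6: contradiction. -/

theorem unity_inertia (E : Type) [Field E] [NumberField E] [Algebra F E] (s : E) (M : ℕ) (hM : Nat.Coprime M 6)
    (hs : s ^ M = 1) (w : HeightOneSpectrum (𝓞 E)) (h6 : (6 : 𝓞 E) ∈ w.asIdeal)
    (g : E ≃ₐ[F] E) (hg : ∀ y : 𝓞 E, g • y - y ∈ w.asIdeal) : g s = s := by
  have hwp := w.isPrime
  have hM0 : M ≠ 0 := by
    rintro rfl
    norm_num at hM
  have hsi : IsIntegral ℤ s := by
    refine IsIntegral.of_pow (Nat.pos_of_ne_zero hM0) ?_
    rw [hs]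
    exact isIntegral_one
  obtain ⟨S, hS⟩ : ∃ S : 𝓞 E, algebraMap (𝓞 E) E S = s := ⟨⟨s, hsi⟩, rfl⟩
  have hSM : S ^ M = 1 := by
    apply NumberField.RingOfIntegers.ext
    show algebraMap (𝓞 E) E (S ^ M) = algebraMap (𝓞 E) E 1
    rw [map_pow, map_one, hS, hs]
  have hgSM : (g • S) ^ M = 1 := by
    rw [← smul_pow', hSM, smul_one]
  have hSS : S * S ^ (M - 1) = 1 := by
    rw [← pow_succ', Nat.sub_add_cancel (Nat.one_le_iff_ne_zero.2 hM0), hSM]
  have hkey : g • S = S := by
    by_contra hne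
    set R : 𝓞 E := (g • S) * S ^ (M - 1) with hR
    have hR1 : R - 1 ∈ w.asIdeal := by
      have h1 : R - 1 = (g • S - S) * S ^ (M - 1) := by
        rw [sub_mul, hSS, hR]
      rw [h1]
      exact Ideal.mul_mem_right _ _ (hg S)
    have hRM : R ^ M = 1 := by
      rw [hR, mul_pow, hgSM, one_mul, ← pow_mul, mul_comm, pow_mul, hSM, one_pow]
    have hRne : R - 1 ≠ 0 := by
      intro h
      apply hne
      have h2 : R * S = S := by
        rw [sub_eq_zero.1 h, one_mul]
      rw [hR, mul_assoc, mul_comm (S ^ (M - 1)) S, hSS, mul_one] at h2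
      exact h2
    have hsum : ∑ i ∈ Finset.range M, R ^ i = 0 := by
      have h3 := geom_sum_mul R M
      rw [hRM, sub_self] at h3
      exact (mul_eq_zero.1 h3).resolve_right hRne
    have hMw : (M : 𝓞 E) ∈ w.asIdeal := by
      rw [← Ideal.Quotient.eq_zero_iff_mem]
      have h4 : Ideal.Quotient.mk w.asIdeal R = 1 := by
        rw [← map_one (Ideal.Quotient.mk w.asIdeal)]
        exact (Ideal.Quotient.mk_eq_mk_iff_sub_mem R 1).2 hR1
      have h5 := congrArg (Ideal.Quotient.mk w.asIdeal) hsum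
      rw [map_sum, map_zero] at h5
      simp only [map_pow, h4, one_pow, Finset.sum_const, Finset.card_range, nsmul_eq_mul,
        mul_one] at h5
      rw [map_natCast]
      exact h5
    obtain ⟨x, y, hxy⟩ := Nat.isCoprime_iff_coprime.2 hM
    apply hwp.ne_top
    rw [Ideal.eq_top_iff_one]
    have h6' : (1 : 𝓞 E) = (x : 𝓞 E) * (M : 𝓞 E) + (y : 𝓞 E) * 6 := by
      have h7 := congrArg (Int.cast : ℤ → 𝓞 E) hxy
      push_cast at h7
      exact h7.symm
    rw [h6']
    exact Ideal.add_mem _ (Ideal.mul_mem_left _ _ hMw) (Ideal.mul_mem_left _ _ h6)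
  have h8 := congrArg (algebraMap (𝓞 E) E) hkey
  rw [← hS]
  exact h8

end H35X
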