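import Mathlib
import Pool.Agent.Lib.H13E.X1
import Pool.Agent.Lib.H13E.X4
import Pool.Agent.Lib.H35X.Defs
import Pool.Agent.Lib.H35X.X3
import Pool.Agent.Lib.H35X.X3b
import Pool.Agent.Lib.H55C.Y32
import Pool.Agent.Lib.H55N.T0

/-! Fields generated by roots of unity and cube roots, unramified above 6. -/

open NumberField IsDedekindDomain

namespace H35X

open H55B H35T H13E

/-- Generators of a field over F: M-th roots of unity, or cube roots of elements prime to 6 and congruent to 1 or -1
modulo 3(om - 1). -/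
def Gen6 (K : Type) [Field K] [NumberField K] [Algebra F K] (M : ℕ) (s : K) : Prop :=
  s ^ M = 1 ∨ ∃ a : O, IsCoprime a 6 ∧ ((3 * (om - 1) : O) ∣ a - 1 ∨ (3 * (om - 1) : O) ∣ a + 1) ∧
    s ^ 3 = algebraMap O K a

/-- K₀ has degree a power of 3 and is contained in a number field generated by m-th roots of unity (m prime to 6)
and cube roots of odd integers which are 1 or -1 modulo 9. -/
def Fam6 (K₀ : Type) [Field K₀] [NumberField K₀] : Prop :=
  (∃ k : ℕ, Module.finrank ℚ K₀ = 3 ^ k) ∧
  ∃ (m : ℕ) (N : Type) (_ : Field N) (_ : NumberField N) (_ : Algebra K₀ N) (S : Set N),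
    Nat.Coprime m 6 ∧ Algebra.adjoin ℚ S = ⊤ ∧
    ∀ s ∈ S, s ^ m = 1 ∨ ∃ a : ℤ, Odd a ∧ ((9 : ℤ) ∣ a - 1 ∨ (9 : ℤ) ∣ a + 1) ∧ s ^ 3 = (a : N)

variable {K : Type} [Field K] [NumberField K] [Algebra F K]

theorem gen6_galois (M : ℕ) (hM : 0 < M) (S : Set K) (hS : ∀ s ∈ S, Gen6 K M s)
    (hgen : Algebra.adjoin F S = ⊤) : IsGalois F K ∧ ∀ g h : K ≃ₐ[F] K, g * h = h * g := by
  have : IsScalarTower ℚ F K := IsScalarTower.of_algebraMap_eq' (Subsingleton.elim _ _)
  have : FiniteDimensional F K := Module.Finite.of_restrictScalars_finite ℚ F K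
  constructor
  · have hint : ∀ x : K, IsIntegral F x := fun x => Algebra.IsIntegral.isIntegral x
    have htop : ∀ x : K, x ∈ IntermediateField.adjoin F S := by
      intro x
      have h1 : x ∈ Algebra.adjoin F S := hgen ▸ Algebra.mem_top
      exact IntermediateField.algebra_adjoin_le_adjoin F S h1
    have hsp : ∀ s ∈ S, ((minpoly F s).map (algebraMap F K)).Splits := by
      intro s hs
      rcases hS s hs with h | ⟨a, -, -, ha⟩
      · exact X1_splits_unity hM h
      · exact X1_splits_cube ha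
    have hn : Normal F K := normal_iff.mpr fun x =>
      ⟨hint x, IntermediateField.splits_of_mem_adjoin F K (L := K) (S := S)
        (fun s hs => ⟨hint s, hsp s hs⟩) (htop x)⟩
    exact ⟨⟩
  · intro g h
    have h1 : ((g * h : K ≃ₐ[F] K) : K →ₐ[F] K) = ((h * g : K ≃ₐ[F] K) : K →ₐ[F] K) := by
      refine AlgHom.ext_of_adjoin_eq_top hgen fun s hs => ?_
      show g (h s) = h (g s)
      rcases hS s hs with hs1 | ⟨a, -, -, ha⟩
      · obtain ⟨i, hi⟩ := X1_pow hM hs1 g
        obtain ⟨j, hj⟩ := X1_pow hM hs1 h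
        rw [hi, hj, map_pow, map_pow, hi, hj, ← pow_mul, ← pow_mul, mul_comm]
      · obtain ⟨i, -, hi⟩ := gal_om s a ha g
        obtain ⟨j, -, hj⟩ := gal_om s a ha h
        rw [hi, hj, map_mul, map_mul, map_pow, map_pow, K1_fix, K1_fix, hi, hj]
        ring
    ext x
    exact congrArg (fun f : K →ₐ[F] K => f x) h1

theorem gen6_unr (M : ℕ) (hM : Nat.Coprime M 6) (S : Set K) (hS : ∀ s ∈ S, Gen6 K M s)
    (hgen : Algebra.adjoin F S = ⊤) : H19X.UnrSix K := by
  have hM0 : 0 < M := by
    rcases Nat.eq_zero_or_pos M with h | h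
    · rw [h] at hM
      norm_num at hM
    · exact h
  have hG := (gen6_galois M hM0 S hS hgen).1
  intro w h6
  rw [H55C.inertia_iff w]
  intro g hg
  have h1 : ((g : K ≃ₐ[F] K) : K →ₐ[F] K) = ((1 : K ≃ₐ[F] K) : K →ₐ[F] K) := by
    refine AlgHom.ext_of_adjoin_eq_top hgen fun s hs => ?_
    show g s = s
    rcases hS s hs with hs1 | ⟨a, ha6, ha3, ha⟩
    · exact unity_inertia K s M hM hs1 w h6 g hg
    · have hint : IsIntegral ℤ s := by
        have h2 : IsIntegral ℤ (s ^ 3) := by
          rw [ha, IsScalarTower.algebraMap_apply O (𝓞 K) K]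
          exact RingOfIntegers.isIntegral_coe _
        exact IsIntegral.of_pow (by norm_num) h2
      let t : 𝓞 K := ⟨s, hint⟩
      have ht : t ^ 3 = algebraMap O (𝓞 K) a := by
        apply RingOfIntegers.ext
        show s ^ 3 = _
        rw [ha, IsScalarTower.algebraMap_apply O (𝓞 K) K]
      have hna : algebraMap O (𝓞 K) a ∉ w.asIdeal := by
        intro h
        obtain ⟨x, y, hxy⟩ := ha6
        apply w.isPrime.ne_top
        rw [Ideal.eq_top_iff_one]
        have h2 := congrArg (algebraMap O (𝓞 K)) hxy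
        rw [map_add, map_mul, map_mul, map_one, map_ofNat] at h2
        rw [← h2]
        exact w.asIdeal.add_mem (w.asIdeal.mul_mem_left _ h) (w.asIdeal.mul_mem_left _ h6)
      have h2 := pure_inertia K t a ht ha3 w h6 hna g hg
      exact congrArg (algebraMap (𝓞 K) K) h2
  ext x
  exact congrArg (fun f : K →ₐ[F] K => f x) h1

theorem cls_of_fam6 (K₀ : Type) [Field K₀] [NumberField K₀] (h : Fam6 K₀) : Cls6T K₀ := by
  obtain ⟨⟨k, hk⟩, m, N, _, _, _, S, hm, hgen, hS⟩ := h
  obtain ⟨N₁, i1, i2, i3, i4, hN₁⟩ := exists_big N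
  let _ : Algebra K₀ N₁ := ((algebraMap N N₁).comp (algebraMap K₀ N)).toAlgebra
  have hgen₁ := hN₁ S hgen
  have hS₁ : ∀ s ∈ algebraMap N N₁ '' S, Gen6 N₁ m s := by
    rintro _ ⟨s, hs, rfl⟩
    rcases hS s hs with h | ⟨a, ha2, ha9, ha⟩
    · left
      rw [← map_pow, h, map_one]
    · right
      refine ⟨(a : O), ?_, ?_, ?_⟩
      · have h1 : IsCoprime a 6 := by
          have h2 : IsCoprime a 2 := by
            obtain ⟨b, hb⟩ := ha2
            exact ⟨1, -b, by rw [hb]; ring⟩
          have h3 : IsCoprime a 3 := by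
            rcases ha9 with ⟨b, hb⟩ | ⟨b, hb⟩
            · exact ⟨1, -(3 * b), by linear_combination hb⟩
            · exact ⟨-1, 3 * b, by linear_combination -hb⟩
          have h4 := h2.mul_right h3
          norm_num at h4
          exact h4
        have h5 := h1.map (Int.castRingHom O)
        simpa using h5
      · have h3 := three_eq
        rcases ha9 with ⟨b, hb⟩ | ⟨b, hb⟩
        · left
          refine ⟨-om ^ 2 * (om - 1) * b, ?_⟩
          have h4 : (a : O) - 1 = 9 * (b : O) := by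
            have := congrArg (Int.cast : ℤ → O) hb
            push_cast at this
            exact this
          linear_combination h4 + (3 * (b : O)) * h3
        · right
          refine ⟨-om ^ 2 * (om - 1) * b, ?_⟩
          have h4 : (a : O) + 1 = 9 * (b : O) := by
            have := congrArg (Int.cast : ℤ → O) hb
            push_cast at this
            exact this
          linear_combination h4 + (3 * (b : O)) * h3
      · rw [← map_pow, ha, map_intCast, map_intCast]
  have hm0 : 0 < m := by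
    rcases Nat.eq_zero_or_pos m with h | h
    · rw [h] at hm
      norm_num at hm
    · exact h
  obtain ⟨hG, hc⟩ := gen6_galois m hm0 _ hS₁ hgen₁
  have hU := gen6_unr m hm _ hS₁ hgen₁
  obtain ⟨K, _, _, _, _, _, hT, hQ, hr⟩ := exists_K K₀ N₁ k hk
  have hN : IsAbelianGalois F N₁ := { toIsGalois := hG, is_comm := ⟨hc⟩ }
  have hK : IsAbelianGalois F K := IsAbelianGalois.tower_bot F K N₁
  refine ⟨K, inferInstance, inferInstance, inferInstance, inferInstance, ⟨inferInstance, k, hr⟩, ?_⟩
  intro w h6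
  obtain ⟨W, hW, -⟩ := H55N.T0_above N₁ w
  have h6W : (6 : 𝓞 N₁) ∈ W.asIdeal := by
    have h7 := hW.over
    rw [h7, Ideal.mem_comap, map_ofNat] at h6
    exact h6
  have h1 := hU W h6W
  have h2 := Ideal.ramificationIdx_tower (R := O) w.asIdeal W.asIdeal
  rw [h1] at h2
  exact Nat.eq_one_of_mul_eq_one_right h2.symm

theorem not_cube (n : ℕ) (h1 : 1 < n) (hs : Squarefree n) (b : ℚ) : b ^ 3 ≠ (n : ℚ) := by
  intro h
  obtain ⟨p, hp, hpn⟩ := Nat.exists_prime_and_dvd (ne_of_gt h1)
  haveI : Fact p.Prime := ⟨hp⟩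
  have hb : b ≠ 0 := by
    rintro rfl
    have : (n : ℚ) = 0 := by rw [← h]; norm_num
    have h2 : n = 0 := by exact_mod_cast this
    omega
  have h2 := congrArg (padicValRat p) h
  rw [padicValRat.pow, padicValRat.of_nat] at h2
  have h3 : padicValNat p n = 1 := by
    have h4 : 1 ≤ padicValNat p n := one_le_padicValNat_of_dvd (by omega) hpn
    have h5 : ¬ 2 ≤ padicValNat p n := by
      intro h6
      have h7 : p ^ 2 ∣ n := (padicValNat_dvd_iff_le (by omega)).2 h6
      rw [pow_two] at h7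
      exact hp.one_lt.ne' (Nat.isUnit_iff.1 (hs p h7))
    omega
  rw [h3] at h2
  push_cast at h2
  omega

theorem pure_top (K₀ : Type) [Field K₀] [NumberField K₀] (hk : Module.finrank ℚ K₀ = 3) (n : ℕ)
    (t : K₀) (ht : t ^ 3 = (n : K₀)) (h1 : 1 < n) (hs : Squarefree n) :
    Algebra.adjoin ℚ {t} = ⊤ := by
  have hirr : Irreducible (Polynomial.X ^ 3 - Polynomial.C (n : ℚ)) :=
    X_pow_sub_C_irreducible_of_prime Nat.prime_three fun b => not_cube n h1 hs b
  have hroot : Polynomial.aeval t (Polynomial.X ^ 3 - Polynomial.C (n : ℚ)) = 0 := by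
    rw [map_sub, map_pow, Polynomial.aeval_X, Polynomial.aeval_C, map_natCast, ht, sub_self]
  have hmin := minpoly.eq_of_irreducible_of_monic hirr hroot
    (Polynomial.monic_X_pow_sub_C _ three_ne_zero)
  have hdeg : (minpoly ℚ t).natDegree = 3 := by
    rw [← hmin, Polynomial.natDegree_X_pow_sub_C]
  have hint : IsIntegral ℚ t := Algebra.IsIntegral.isIntegral t
  have h3 : IntermediateField.adjoin ℚ {t} = ⊤ := by
    apply (Field.primitive_element_iff_minpoly_natDegree_eq ℚ t).2
    rw [hdeg, hk]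
  have h4 := IntermediateField.adjoin_simple_toSubalgebra_of_isAlgebraic hint.isAlgebraic
  rw [← h4, h3, IntermediateField.top_toSubalgebra]

/-- Pure cubic fields. -/
theorem cls_of_pure (K₀ : Type) [Field K₀] [NumberField K₀] (hk : Module.finrank ℚ K₀ = 3) (n : ℕ)
    (t : K₀) (ht : t ^ 3 = (n : K₀)) (h1 : 1 < n) (hs : Squarefree n) (h2 : n % 2 = 1)
    (h9 : n % 9 = 1 ∨ n % 9 = 8) : Cls6T K₀ := by
  apply cls_of_fam6
  refine ⟨⟨1, by rw [hk, pow_one]⟩, 1, K₀, inferInstance, inferInstance, inferInstance, {t},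
    Nat.coprime_one_left _, pure_top K₀ hk n t ht h1 hs, ?_⟩
  intro s hss
  rw [Set.mem_singleton_iff] at hss
  subst hss
  right
  refine ⟨(n : ℤ), ?_, ?_, by rw [ht, Int.cast_natCast]⟩
  · rw [Int.odd_iff]
    omega
  · rcases h9 with h | h
    · left
      omega
    · right
      omega

end H35X
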