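import Mathlib
import Pool.Agent.Lib.H35T.I4
import Pool.Agent.Lib.H35X.Defs

open NumberField IsDedekindDomain

namespace H35X

open H55B H35T H13E

/-! Chunk X5 (M): the ramified primes of pure cubic fields. Let p be a prime divisor of n and w a prime above p: v_w(n) = v_w(p) = e (n squarefree: n = p m, p not dividing m, m a unit at w), 3 v_w(t) = e (t^3 = n), so
3 | e; e f <= 3 (Ideal.sum_ramification_inertia, see H19X.T2_le or H19Y.e_one_of_rank_one), so e = 3, f = 1, N(w) = p. From left to right: p | n, w above p (exists), e(w) = 3, 6 not in w (n is odd, and not divisible by 3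
as n = 1, 8 modulo 9), so N(w) = p = 7 modulo 12. From right to left: w not above 6 and ramified: the prime number p below divides n: otherwise w is unramified: X^3 - n is separable modulo p (p does not
divide 3 n): use aeval_derivative_mem_differentIdeal (see H13N.r3_lam, H35T.W7; works for an element t generating K₀ over the rationals) giving 3 t^2 in the different of 𝓞 K₀ over the integers, so w divides the different
(ramified: dvd_differentIdeal_iff, Ideal.ramificationIdx_eq_one_iff) implies 3 t^2 in w, so t in w (3 not in w), n in w, p | n. Then N(w) = p = 7 modulo 12 as above. -/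

theorem X5_over {K₀ : Type} [Field K₀] [NumberField K₀] (w : HeightOneSpectrum (𝓞 K₀)) {p : ℕ} (hp : p.Prime)
    (hpw : (p : 𝓞 K₀) ∈ w.asIdeal) : w.asIdeal.LiesOver (Ideal.span {(p : ℤ)}) := by
  have hp' : Prime (p : ℤ) := Nat.prime_iff_prime_int.1 hp
  have hmax : (Ideal.span {(p : ℤ)}).IsMaximal :=
    PrincipalIdealRing.isMaximal_of_irreducible hp'.irreducible
  have hwp := w.isPrime
  have hu : (w.asIdeal.under ℤ).IsPrime := inferInstance
  refine ⟨hmax.eq_of_le hu.ne_top ?_⟩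
  rw [Ideal.span_singleton_le_iff_mem, Ideal.under_def, Ideal.mem_comap, map_natCast]
  exact hpw

theorem X5_le {K₀ : Type} [Field K₀] [NumberField K₀] (w : HeightOneSpectrum (𝓞 K₀)) :
    w.asIdeal.ramificationIdx ℤ * w.asIdeal.inertiaDeg ℤ ≤ Module.finrank ℚ K₀ := by
  have hwp := w.isPrime
  have hp : (w.asIdeal.under ℤ).IsPrime := inferInstance
  have hf : Fintype ((w.asIdeal.under ℤ).primesOver (𝓞 K₀)) :=
    (Algebra.QuasiFinite.finite_primesOver _).fintype
  have h := Ideal.sum_ramification_inertia_eq_finrank (w.asIdeal.under ℤ) (𝓞 K₀)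
  rw [RingOfIntegers.rank] at h
  rw [← h]
  have hmem : w.asIdeal ∈ (w.asIdeal.under ℤ).primesOver (𝓞 K₀) := ⟨hwp, ⟨rfl⟩⟩
  exact Finset.single_le_sum (f := fun q : (w.asIdeal.under ℤ).primesOver (𝓞 K₀) =>
    q.1.ramificationIdx ℤ * q.1.inertiaDeg ℤ) (fun _ _ => Nat.zero_le _)
    (Finset.mem_univ ⟨w.asIdeal, hmem⟩)

theorem X5_ram {K₀ : Type} [Field K₀] [NumberField K₀] (hk : Module.finrank ℚ K₀ = 3) (n : ℕ)
    (t : K₀) (ht : t ^ 3 = (n : K₀)) (hs : Squarefree n) {p : ℕ} (hp : p.Prime) (hpn : p ∣ n)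
    (w : HeightOneSpectrum (𝓞 K₀)) (hpw : (p : 𝓞 K₀) ∈ w.asIdeal) :
    w.asIdeal.ramificationIdx ℤ = 3 ∧ Ideal.absNorm w.asIdeal = p := by
  have hp' : Prime (p : ℤ) := Nat.prime_iff_prime_int.1 hp
  have hover := X5_over w hp hpw
  have hne : Ideal.span {(p : ℤ)} ≠ ⊥ := by
    rw [Ne, Ideal.span_singleton_eq_bot]
    exact hp'.ne_zero
  have hmax : (Ideal.span {(p : ℤ)}).IsMaximal :=
    PrincipalIdealRing.isMaximal_of_irreducible hp'.irreducible
  let v : HeightOneSpectrum ℤ := ⟨Ideal.span {(p : ℤ)}, hmax.isPrime, hne⟩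
  have hlv : w.asIdeal.LiesOver v.asIdeal := hover
  obtain ⟨m, hm⟩ := hpn
  have hpm : ¬ p ∣ m := by
    rintro ⟨c, hc⟩
    have h1 : p * p ∣ n := ⟨c, by rw [hm, hc]; ring⟩
    exact hp.one_lt.ne' (Nat.isUnit_iff.1 (hs p h1))
  have hvn : v.valuation ℚ (n : ℚ) = WithZero.exp (-1 : ℤ) := by
    have h1 : (n : ℚ) = algebraMap ℤ ℚ (n : ℤ) := by simp
    rw [h1, HeightOneSpectrum.valuation_of_algebraMap, hm]
    push_cast
    rw [map_mul, HeightOneSpectrum.intValuation_singleton v hp'.ne_zero rfl]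
    have h2 : v.intValuation (m : ℤ) = 1 := by
      rw [HeightOneSpectrum.intValuation_eq_one_iff]
      intro h3
      apply hpm
      have h4 : (m : ℤ) ∈ Ideal.span {(p : ℤ)} := h3
      rw [Ideal.mem_span_singleton] at h4
      exact_mod_cast h4
    rw [h2, mul_one]
  have hval := HeightOneSpectrum.valuation_liesOver K₀ v w (n : ℚ)
  rw [hvn, map_natCast, ← ht, map_pow] at hval
  have hlog := congrArg WithZero.log hval
  rw [WithZero.log_pow, WithZero.log_pow, WithZero.log_exp] at hlog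
  have he0 : v.asIdeal.ramificationIdx' w.asIdeal ≠ 0 :=
    Ideal.IsDedekindDomain.ramificationIdx'_ne_zero_of_liesOver _ v.ne_bot
  have he := Ideal.ramificationIdx'_eq_ramificationIdx v.asIdeal w.asIdeal v.ne_bot
  rw [he] at hlog he0
  have hwm := w.isMaximal
  have hvm : v.asIdeal.IsMaximal := hmax
  have hle := X5_le w
  rw [hk] at hle
  have hfp := w.asIdeal.inertiaDeg_pos ℤ
  simp only [nsmul_eq_mul] at hlog
  have he3 : 3 ≤ w.asIdeal.ramificationIdx ℤ := by
    push_cast at hlog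
    omega
  have hef : w.asIdeal.ramificationIdx ℤ = 3 ∧ w.asIdeal.inertiaDeg ℤ = 1 := by
    constructor
    · nlinarith
    · nlinarith
  refine ⟨hef.1, ?_⟩
  have hN := Ideal.absNorm_eq_pow_inertiaDeg' w.asIdeal hp
  have hf : (Ideal.span {(p : ℤ)}).inertiaDeg' w.asIdeal = w.asIdeal.inertiaDeg ℤ := by
    rw [Ideal.inertiaDeg_eq_of_isMaximal (Ideal.span {(p : ℤ)}) w.asIdeal, Ideal.inertiaDeg'_algebraMap]
  rw [hN, hf, hef.2, pow_one]

theorem X5_different {K₀ : Type} [Field K₀] [NumberField K₀] (hk : Module.finrank ℚ K₀ = 3) (n : ℕ)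
    (τ : 𝓞 K₀) (ht : τ ^ 3 = (n : 𝓞 K₀)) (h1 : 1 < n) (hs : Squarefree n) :
    3 * τ ^ 2 ∈ differentIdeal ℤ (𝓞 K₀) := by
  have htK : ((τ : K₀)) ^ 3 = (n : K₀) := by
    have h4 : ((τ ^ 3 : 𝓞 K₀) : K₀) = (τ : K₀) ^ 3 := rfl
    rw [← h4, ht]
    exact map_natCast (algebraMap (𝓞 K₀) K₀) n
  have hint : IsIntegral ℤ (τ : K₀) := τ.isIntegral_coe
  have hintQ : IsIntegral ℚ (τ : K₀) := hint.tower_top
  have hfr : Module.finrank ℚ (IntermediateField.adjoin ℚ {(τ : K₀)}) = 3 := by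
    have h2 : Module.finrank ℚ (IntermediateField.adjoin ℚ {(τ : K₀)}) ∣ 3 := by
      rw [← hk]
      exact ⟨_, (Module.finrank_mul_finrank ℚ (IntermediateField.adjoin ℚ {(τ : K₀)}) K₀).symm⟩
    rcases (Nat.dvd_prime Nat.prime_three).1 h2 with h3 | h3
    · exfalso
      rw [IntermediateField.finrank_adjoin_simple_eq_one_iff, IntermediateField.mem_bot] at h3
      obtain ⟨q, hq⟩ := h3
      have h4 : IsIntegral ℤ q := by
        rw [← hq] at hint
        exact (isIntegral_algebraMap_iff (algebraMap ℚ K₀).injective).1 hint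
      obtain ⟨c, hc⟩ := IsIntegrallyClosed.isIntegral_iff.1 h4
      have h5 : c ^ 3 = (n : ℤ) := by
        have h6 : ((c : ℤ) : K₀) ^ 3 = (n : K₀) := by
          rw [← htK, ← hq, ← hc]
          simp
        exact_mod_cast h6
      have h7 : c.natAbs ^ 3 = n := by
        have h8 := congrArg Int.natAbs h5
        rwa [Int.natAbs_pow, Int.natAbs_natCast] at h8
      have h8 : IsUnit c.natAbs := hs c.natAbs ⟨c.natAbs, by rw [← h7]; ring⟩
      rw [Nat.isUnit_iff] at h8
      rw [h8] at h7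
      omega
    · exact h3
  have htop : IntermediateField.adjoin ℚ {(τ : K₀)} = ⊤ := by
    rw [← IntermediateField.finrank_eq_one_iff_eq_top]
    have h2 := Module.finrank_mul_finrank ℚ (IntermediateField.adjoin ℚ {(τ : K₀)}) K₀
    rw [hfr, hk] at h2
    omega
  have htop' : Algebra.adjoin ℚ {algebraMap (𝓞 K₀) K₀ τ} = ⊤ := by
    have h2 := IntermediateField.adjoin_simple_toSubalgebra_of_isAlgebraic hintQ.isAlgebraic
    rw [htop, IntermediateField.top_toSubalgebra] at h2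
    exact h2.symm
  have hd := aeval_derivative_mem_differentIdeal ℤ ℚ K₀ τ htop'
  have hmin : minpoly ℤ τ = Polynomial.X ^ 3 - Polynomial.C (n : ℤ) := by
    have e1 : minpoly ℤ τ = minpoly ℤ (τ : K₀) :=
      (minpoly.algebraMap_eq (FaithfulSMul.algebraMap_injective (𝓞 K₀) K₀) τ).symm
    rw [e1]
    have e2 := minpoly.isIntegrallyClosed_eq_field_fractions' ℚ hint
    have e3 : (minpoly ℤ (τ : K₀)).natDegree = 3 := by
      have h2 := IntermediateField.adjoin.finrank hintQ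
      rw [hfr, e2, (minpoly.monic hint).natDegree_map] at h2
      exact h2.symm
    have hmon : (Polynomial.X ^ 3 - Polynomial.C (n : ℤ)).Monic :=
      Polynomial.monic_X_pow_sub_C _ (by norm_num)
    refine (Polynomial.eq_of_monic_of_dvd_of_natDegree_le (minpoly.monic hint) hmon ?_ ?_).symm
    · refine minpoly.isIntegrallyClosed_dvd hint ?_
      rw [map_sub, map_pow, Polynomial.aeval_X, Polynomial.aeval_C, htK]
      simp
    · rw [e3, Polynomial.natDegree_X_pow_sub_C]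
  rw [hmin] at hd
  have h2 : Polynomial.aeval τ (Polynomial.derivative (Polynomial.X ^ 3 - Polynomial.C (n : ℤ))) = 3 * τ ^ 2 := by
    rw [Polynomial.derivative_sub, Polynomial.derivative_X_pow, Polynomial.derivative_C, sub_zero, map_mul,
      map_pow, Polynomial.aeval_X, Polynomial.aeval_C]
    norm_num
  rwa [h2] at hd

theorem goodRam_pure (K₀ : Type) [Field K₀] [NumberField K₀] (hk : Module.finrank ℚ K₀ = 3) (n : ℕ)
    (t : K₀) (ht : t ^ 3 = (n : K₀)) (h1 : 1 < n) (hs : Squarefree n) (h2 : n % 2 = 1)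
    (h3 : n % 3 ≠ 0) :
    GoodRam3 K₀ ↔ ∀ p : ℕ, p.Prime → p ∣ n → p % 12 = 7 := by
  have hint : IsIntegral ℤ t := by
    refine IsIntegral.of_pow (n := 3) (by norm_num) ?_
    rw [ht]
    have h := isIntegral_algebraMap (R := ℤ) (A := K₀) (x := (n : ℤ))
    simpa using h
  obtain ⟨τ, hτ⟩ : ∃ τ : 𝓞 K₀, (τ : K₀) = t := ⟨⟨t, hint⟩, rfl⟩
  have hτ3 : τ ^ 3 = (n : 𝓞 K₀) := by
    apply RingOfIntegers.ext
    have h4 : ((τ ^ 3 : 𝓞 K₀) : K₀) = (τ : K₀) ^ 3 := rfl
    rw [h4, hτ, ht]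
    exact (map_natCast (algebraMap (𝓞 K₀) K₀) n).symm
  have hcop : ∀ (w : HeightOneSpectrum (𝓞 K₀)) (a b : ℕ), Nat.Coprime a b → (a : 𝓞 K₀) ∈ w.asIdeal →
      (b : 𝓞 K₀) ∉ w.asIdeal := by
    intro w a b hab ha hb
    have h4 : IsCoprime (a : ℤ) (b : ℤ) := Nat.isCoprime_iff_coprime.2 hab
    obtain ⟨x, y, hxy⟩ := h4
    apply w.isPrime.ne_top
    rw [Ideal.eq_top_iff_one]
    have h5 : (1 : 𝓞 K₀) = (x : 𝓞 K₀) * (a : 𝓞 K₀) + (y : 𝓞 K₀) * (b : 𝓞 K₀) := by
      have h6 := congrArg (fun z : ℤ => (z : 𝓞 K₀)) hxy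
      push_cast at h6
      exact h6.symm
    rw [h5]
    exact Ideal.add_mem _ (Ideal.mul_mem_left _ _ ha) (Ideal.mul_mem_left _ _ hb)
  have hn6 : Nat.Coprime n 6 := by
    have h4 : Nat.Coprime n 2 := by
      rw [Nat.coprime_comm, Nat.prime_two.coprime_iff_not_dvd]
      omega
    have h5 : Nat.Coprime n 3 := by
      rw [Nat.coprime_comm, Nat.prime_three.coprime_iff_not_dvd]
      omega
    exact Nat.Coprime.mul_right h4 h5
  constructor
  · intro hG p hp hpn
    obtain ⟨w, hw⟩ : ∃ w : HeightOneSpectrum (𝓞 K₀), (p : 𝓞 K₀) ∈ w.asIdeal := by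
      have hmax : (Ideal.span {(p : ℤ)}).IsMaximal :=
        PrincipalIdealRing.isMaximal_of_irreducible (Nat.prime_iff_prime_int.1 hp).irreducible
      obtain ⟨Q, hQ, hQl⟩ := Ideal.exists_maximal_ideal_liesOver_of_isIntegral (S := 𝓞 K₀) (Ideal.span {(p : ℤ)})
      have hpQ : (p : 𝓞 K₀) ∈ Q := by
        have h4 : (p : ℤ) ∈ Q.under ℤ := by
          rw [← hQl.over]
          exact Ideal.mem_span_singleton_self _
        rw [Ideal.under_def, Ideal.mem_comap, map_natCast] at h4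
        exact h4
      refine ⟨⟨Q, hQ.isPrime, ?_⟩, hpQ⟩
      rintro rfl
      rw [Ideal.mem_bot] at hpQ
      exact hp.ne_zero (by exact_mod_cast hpQ)
    obtain ⟨h4, h5⟩ := X5_ram hk n t ht hs hp hpn w hw
    rw [← h5]
    refine hG w ?_ (by rw [h4]; norm_num)
    have h6 := hcop w p 6 (Nat.Coprime.coprime_dvd_left hpn hn6) hw
    exact_mod_cast h6
  · intro hG w h6 hram
    have hd := X5_different hk n τ hτ3 h1 hs
    have hwp := w.isPrime
    have hle : differentIdeal ℤ (𝓞 K₀) ≤ w.asIdeal := by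
      refine Ideal.dvd_iff_le.1 (dvd_differentIdeal_iff.2 fun hun => hram ?_)
      exact Ideal.ramificationIdx_eq_one_iff.2 hun
    have h4 : (3 : 𝓞 K₀) * τ ^ 2 ∈ w.asIdeal := hle hd
    have h5 : (n : 𝓞 K₀) ∈ w.asIdeal := by
      rw [← hτ3]
      rcases hwp.mem_or_mem h4 with h7 | h7
      · exfalso
        apply h6
        have h8 : (6 : 𝓞 K₀) = 2 * 3 := by norm_num
        rw [h8]
        exact Ideal.mul_mem_left _ _ h7
      · exact Ideal.pow_mem_of_mem _ (hwp.mem_of_pow_mem 2 h7) 3 (by norm_num)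
    obtain ⟨p, hp, hpn, hpw⟩ : ∃ p : ℕ, p.Prime ∧ p ∣ n ∧ (p : 𝓞 K₀) ∈ w.asIdeal := by
      rw [← Nat.prod_primeFactors_of_squarefree hs, Nat.cast_prod, hwp.prod_mem_iff] at h5
      obtain ⟨p, hp, hpw⟩ := h5
      exact ⟨p, Nat.prime_of_mem_primeFactors hp, Nat.dvd_of_mem_primeFactors hp, hpw⟩
    rw [(X5_ram hk n t ht hs hp hpn w hpw).2]
    exact hG p hp hpn

end H35X
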