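import Mathlib
import Pool.Agent.Lib.H13N.Stm
import Pool.Agent.Lib.H35X.FinB
import Pool.Agent.Lib.H35X.X1
import Pool.Agent.Lib.H35X.X2
import Pool.Agent.Lib.H35X.X4
import Pool.Agent.Lib.H35X.X5

/-! The final statement for p = 3. -/

open NumberField IsDedekindDomain

namespace H35X

open H55B H35T H13E H13N

/-- The fields of the class Sub3 are the fields of the class Cls6T whose ramified primes are good. -/
theorem sub3_iff (K : Type) [Field K] [NumberField K] : Sub3 K ↔ Cls6T K ∧ GoodRam3 K := by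
  constructor
  · intro h
    have hc : Cls6T K := by
      obtain ⟨L, i1, i2, i3, i4, hG, hk, hU⟩ := id h
      refine ⟨L, i1, i2, i3, i4, ⟨hG, hk⟩, ?_⟩
      intro w h6
      have hwp := w.isPrime
      have h6v : (6 : O) ∈ w.asIdeal.under O := by
        rw [Ideal.under_def, Ideal.mem_comap, map_ofNat]
        exact h6
      have hne : w.asIdeal.under O ≠ ⊥ := Ideal.IsIntegral.comap_ne_bot _ w.ne_bot
      let v : HeightOneSpectrum O := ⟨w.asIdeal.under O, inferInstance, hne⟩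
      refine hU w v rfl ?_
      rintro ⟨h2, h3, -⟩
      have h23 : (2 : O) * 3 ∈ v.asIdeal := by
        have e1 : (2 : O) * 3 = 6 := by norm_num
        rw [e1]
        exact h6v
      rcases v.isPrime.mem_or_mem h23 with h | h
      · exact h2 h
      · exact h3 h
    have hb := H13N.main K h
    exact ⟨hc, goodRam_of_sel K hc ⟨hb.2.1, hb.2.2.1⟩⟩
  · rintro ⟨hc, hg⟩
    exact sub3_of_goodRam K hc hg

theorem final :
    (∃ L : PeriodPair, L.g₂ = 0 ∧ L.g₃ = 4) ∧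
    (∀ (K : Type) [Field K] [NumberField K], Cls6T K → Crit3 K ∧ (GoodRam3 K → BSD3 K)) ∧
    (∀ (K : Type) [Field K] [NumberField K], IsGalois ℚ K → (∃ k : ℕ, Module.finrank ℚ K = 3 ^ k) →
      IsCoprime (NumberField.discr K) 6 → Cls6T K ∧
        (GoodRam3 K ↔ ∀ p : ℕ, p.Prime → (p : ℤ) ∣ NumberField.discr K → p % 12 = 7)) ∧
    (∀ (K : Type) [Field K] [NumberField K], Fam6 K → Cls6T K) ∧
    (∀ (K : Type) [Field K] [NumberField K] (n : ℕ) (t : K), Module.finrank ℚ K = 3 →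
      t ^ 3 = (n : K) → 1 < n → Squarefree n → n % 2 = 1 → (n % 9 = 1 ∨ n % 9 = 8) → Cls6T K ∧
        (GoodRam3 K ↔ ∀ p : ℕ, p.Prime → p ∣ n → p % 12 = 7)) ∧
    (∀ (K : Type) [Field K] [NumberField K], Sub3 K ↔ Cls6T K ∧ GoodRam3 K) ∧
    (∀ (A : Type) [CommGroup A] [Finite A] (k : ℕ), Nat.card A = 3 ^ k → ∀ B : ℕ, Realized A B) ∧
    (∀ (K : Type) [Field K] [NumberField K] [Algebra F K] (B : ℕ), Three K B → Wreathed K B) ∧
    (∀ (H : Type) [Group H] [Finite H] (k : ℕ), Nat.card H = 3 ^ k →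
      (∀ B : ℕ, Embedded H B) ∧ RealField H) := by
  obtain ⟨f1, f2, f3, f4, f5, f6, f7, f8⟩ := H13N.final2
  refine ⟨f1, fun K _ _ h => ⟨crit3 K h, fun hg => bsd3_of_good K h hg⟩, ?_,
    fun K _ _ h => cls_of_fam6 K h, ?_, fun K _ _ => sub3_iff K, fun A _ _ k hA B => f6 A k hA B,
    fun K _ _ _ B h => f7 K B h, fun H _ _ k hH => f8 H k hH⟩
  · rintro K _ _ hG ⟨k, hk⟩ hd
    exact ⟨cls_of_rat K hG k hk (unr23_of K hd), goodRam_rat K hG k hk hd⟩
  · intro K _ _ n t hk ht h1 hs h2 h9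
    exact ⟨cls_of_pure K hk n t ht h1 hs h2 h9,
      goodRam_pure K hk n t ht h1 hs h2 (by omega)⟩

end H35X
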